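import Pool.Agent.Lib.HS95.Blue

/-! Project hs9, section 4: commuting invariant limit fields give a bad function. -/

open scoped Topology ContDiff ComplexOrder Matrix
open Set Filter Metric Complex

noncomputable section

namespace Pool.Agent.Lib.HS95

namespace ALGK

variable {ι : Type} [Fintype ι] [DecidableEq ι]

lemma ld_sm {M : (ι → ℂ) → Matrix ι ι ℂ} {z : ι → ℂ} (h : SmM M z) (hp : (M z).PosDef) :
    ContDiffAt ℝ ∞ (ld M) z := by
  have h1 : ContDiffAt ℝ ∞ (fun w => (M w).det) z := by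
    simp only [Matrix.det_apply']
    exact ContDiffAt.sum fun σ _ => contDiffAt_const.mul (contDiffAt_prod fun i _ => h _ _)
  have h2 : ContDiffAt ℝ ∞ (fun w => (M w).det.re) z := reCLM.contDiff.contDiffAt.comp z h1
  exact h2.log (Complex.pos_iff.1 hp.det_pos).1.ne'

lemma d2_eq' {g : (ι → ℂ) → ℝ} {z : ι → ℂ} (h : ContDiffAt ℝ ∞ g z) (v w : ι → ℂ) :
    d2 g z v w = fderiv ℝ (fderiv ℝ g) z v w := by
  have h1 : DifferentiableAt ℝ (fderiv ℝ g) z :=
    (h.fderiv_right (m := 1) (WithTop.coe_le_coe.2 (le_top (a := (2 : ℕ∞))))).differentiableAt one_ne_zero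
  unfold d2
  rw [fderiv_clm_apply h1 (differentiableAt_const w)]
  simp

variable (g : Geo ι)

lemma cmp_add (ξ η : g.Y → ι → ℂ) (j : g.J) : g.cmp (ξ + η) j = g.cmp ξ j + g.cmp η j := by
  funext z
  exact map_add _ _ _

lemma cmp_smul (c : ℝ) (ξ : g.Y → ι → ℂ) (j : g.J) : g.cmp (c • ξ) j = c • g.cmp ξ j := by
  funext z
  exact ContinuousLinearMap.map_smul_of_tower _ c _

lemma cmp_zero (j : g.J) : g.cmp 0 j = 0 := by
  funext z
  exact map_zero _

lemma pc_mem (y : g.Y) : y ∈ (g.c (g.pc y)).source := (g.cov y).choose_spec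

lemma cmp_pc' (ξ : g.Y → ι → ℂ) (y : g.Y) : g.cmp ξ (g.pc y) (g.c (g.pc y) y) = ξ y := by
  have hy := pc_mem g y
  have he : g.T id (g.pc y) (g.pc y) =ᶠ[𝓝 (g.c (g.pc y) y)] id := by
    filter_upwards [(g.c (g.pc y)).open_target.mem_nhds ((g.c (g.pc y)).map_source hy)] with w hw
    exact (g.c (g.pc y)).right_inv hw
  unfold Geo.cmp
  rw [(g.c (g.pc y)).left_inv hy, he.fderiv_eq, fderiv_id]
  rfl

end ALGK

open ALGK in
theorem st_ALG (h1 : St_LIM2) (h2 : St_LIM3) (h3 : St_TR) (h4 : St_FD) (h5 : St_DET) :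
    St_ALG := by
  rintro ι _ _ g _ a P hc hn ⟨ξ₀, hξ₀, hg₀⟩
  have hol : ∀ ξ ∈ Submodule.span ℝ {ξ | a.Gen P ξ}, g.Hol ξ := by
    intro ξ hξ
    induction hξ using Submodule.span_induction with
    | mem ξ h => exact (h1 ι g a P ξ h).1
    | zero => intro j z _; rw [cmp_zero]; exact differentiableAt_const _
    | add ξ η _ _ p q => intro j z hz; rw [cmp_add]; exact (p j z hz).add (q j z hz)
    | smul c ξ _ p => intro j z hz; rw [cmp_smul]; exact (p j z hz).const_smul c
  have rel : ∀ j, ∀ z ∈ (g.c j).target, ∀ ξ ∈ Submodule.span ℝ {ξ | a.Gen P ξ},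
      ∀ η ∈ Submodule.span ℝ {ξ | a.Gen P ξ},
      fderiv ℝ (fderiv ℝ (ld (g.G j))) z (I • g.cmp η j z) (g.cmp ξ j z) =
        fderiv ℝ (fderiv ℝ (ld (g.G j))) z (I • g.cmp ξ j z) (g.cmp η j z) := by
    intro j z hz ξ hξ η hη
    have hs := ld_sm (g.met j z hz).sm (g.met j z hz).pos
    induction hξ using Submodule.span_induction with
    | mem ξ p =>
      induction hη using Submodule.span_induction with
      | mem η q =>
        rw [← d2_eq' hs, ← d2_eq' hs]
        refine h3 ι _ _ _ z ?_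
        filter_upwards [(g.c j).open_target.mem_nhds hz] with w hw
        exact ⟨(g.met j w hw).sm, (g.met j w hw).pos, (h1 ι g a P ξ p).1 j w hw,
          (h1 ι g a P η q).1 j w hw, (h1 ι g a P ξ p).2.1 j w hw, (h1 ι g a P η q).2.1 j w hw,
          (h1 ι g a P ξ p).2.2 hc η q j w hw⟩
      | zero => simp [cmp_zero]
      | add η ζ _ _ p q =>
        simp only [cmp_add, Pi.add_apply, smul_add, map_add, add_apply, p, q]
      | smul c η _ p =>
        rw [cmp_smul, Pi.smul_apply, smul_comm I c, map_smul _ c, map_smul _ c,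
          smul_apply, p]
    | zero => simp [cmp_zero]
    | add ξ ζ _ _ p q =>
      simp only [cmp_add, Pi.add_apply, smul_add, map_add, add_apply, p, q]
    | smul c ξ _ p =>
      rw [cmp_smul, Pi.smul_apply, smul_comm I c, map_smul _ c, map_smul _ c,
        smul_apply, p]
  have real : ∀ ξ ∈ Submodule.span ℝ {ξ | a.Gen P ξ}, ∀ η ∈ Submodule.span ℝ {ξ | a.Gen P ξ},
      ∀ y, ξ y + I • η y = 0 → η y = 0 := by
    intro ξ hξ η hη y he
    have hz := (g.c (g.pc y)).map_source (pc_mem g y)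
    have hm := g.met _ _ hz
    have hs := ld_sm hm.sm hm.pos
    have hr := rel _ _ hz ξ hξ η hη
    rw [cmp_pc', cmp_pc', eq_neg_of_add_eq_zero_left he, smul_neg, smul_smul, I_mul_I,
      neg_smul, one_smul, neg_neg, map_neg] at hr
    have hl := hm.neg (η y)
    rw [lv, d2_eq' hs, d2_eq' hs, ← hr, neg_add_cancel] at hl
    by_contra hv
    have hq : 0 < qf (g.G (g.pc y) (g.c (g.pc y) y)) (η y) :=
      (Complex.pos_iff.1 (hm.pos.dotProduct_mulVec_pos hv)).1
    exact absurd (mul_pos g.kpos hq) (not_lt.2 hl)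
  have psh : ∀ γ, ∀ ξ ∈ Submodule.span ℝ {ξ | a.Gen P ξ},
      a.push γ ξ ∈ Submodule.span ℝ {ξ | a.Gen P ξ} := by
    intro γ ξ hξ
    induction hξ using Submodule.span_induction with
    | mem ξ h => exact Submodule.subset_span (h2 ι g a P ξ hn h γ)
    | zero =>
      have e : a.push γ 0 = 0 := funext fun y => map_zero _
      rw [e]; exact zero_mem _
    | add ξ η _ _ p q =>
      have e : a.push γ (ξ + η) = a.push γ ξ + a.push γ η := funext fun y => map_add _ _ _
      rw [e]; exact add_mem p q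
    | smul c ξ _ p =>
      have e : a.push γ (c • ξ) = c • a.push γ ξ :=
        funext fun y => ContinuousLinearMap.map_smul_of_tower _ c _
      rw [e]; exact Submodule.smul_mem _ c p
  obtain ⟨ρ, ξ, m1, m2, m3⟩ := h4 ι g _ hol real
  refine h5 ι g a ρ ξ ?_ (fun s => hol _ (m1 s)) (fun γ s => m2 _ (psh γ _ (m1 s))) m3
  rcases ρ with _ | ρ
  · obtain ⟨c, hc⟩ := m2 ξ₀ (Submodule.subset_span hg₀)
    exact absurd (by simpa using hc) hξ₀
  · exact Nat.succ_pos _

end Pool.Agent.Lib.HS95
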