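import Pool.Agent.Lib.HS95.Blue2

/-! Block structure in the product charts. -/

open scoped ComplexOrder Matrix
open Set

noncomputable section

namespace Pool.Agent.Lib.HS95

open Pool.Agent.Lib.SV (E)
open Pool.Agent.Lib.HS32 (Mat Mf pr nq)
open Pool.Agent.Lib.HS32.Mf

namespace BLKK

variable {n k : ℕ}

theorem pr_herm : (pr k : Mat n)ᴴ = pr k := by
  rw [pr, Matrix.diagonal_conjTranspose]
  congr 1
  funext i
  by_cases h : i.val < k <;> simp [h]

theorem pr_idem : (pr k : Mat n) * pr k = pr k := by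
  rw [pr, Matrix.diagonal_mul_diagonal]
  congr 1
  funext i
  by_cases h : i.val < k <;> simp [h]

theorem left {T : Mat n} (hT : T.IsHermitian) (h : T * pr k = 0) : pr k * T = 0 := by
  have := congrArg Matrix.conjTranspose h
  rwa [Matrix.conjTranspose_mul, pr_herm, hT.eq, Matrix.conjTranspose_zero] at this

theorem cut {T θ : Mat n} {C : ℝ} (hT : T.IsHermitian) (hθ : θ.IsHermitian) (h1 : T * pr k = 0)
    (h2 : θ * pr k = 0) (h : (C • (θ + pr k) - T).PosSemidef) : (C • θ - T).PosSemidef := by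
  have h3 := h.conjTranspose_mul_mul_same (1 - pr k)
  have e : (1 - pr k)ᴴ * (C • (θ + pr k) - T) * (1 - pr k) = C • θ - T := by
    rw [Matrix.conjTranspose_sub, Matrix.conjTranspose_one, pr_herm]
    simp only [mul_sub, sub_mul, smul_add, mul_add, add_mul, Matrix.mul_smul, Matrix.smul_mul,
      one_mul, mul_one, h1, h2, left hT h1, left hθ h2, pr_idem, smul_zero, zero_mul]
    abel
  rwa [e] at h3

theorem nq_eq {T : Mat n} (hT : T.IsHermitian) (h : T * pr k = 0) (v : E n) :
    nq T v = qf (lb k T) (up k v) := by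
  have h1 : ∀ i (j : Lo n k), T i j.1 = 0 := fun i j => by
    simpa [pr, j.2] using congrFun (congrFun h i) j.1
  have h2 : ∀ (i : Lo n k) j, T i.1 j = 0 := fun i j => by
    simpa [pr, i.2] using congrFun (congrFun (left hT h) i.1) j
  rw [nq, qf]
  congr 1
  simp only [dotProduct, Matrix.mulVec]
  rw [← Fintype.sum_subtype_add_sum_subtype (fun i : Fin n => i.val < k)]
  simp only [h2, zero_mul, Finset.sum_const_zero, mul_zero, zero_add]
  refine Finset.sum_congr rfl fun a _ => ?_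
  rw [← Fintype.sum_subtype_add_sum_subtype (fun i : Fin n => i.val < k)]
  simp only [h1, zero_mul, Finset.sum_const_zero, zero_add]
  rfl

theorem lb_eq (G : Mat n) (ε : ℝ) : lb k (G - ε • pr k) = lb k G := by
  ext a b
  by_cases h : a.1 = b.1 <;> simp [lb, pr, h, b.2]

end BLKK

open BLKK

theorem st_BLK (hB : HS32.St_BD) (hS : HS32.St_SUB) : St_BLK := by
  intro n M _ H P G k u hp
  have hθ : M.Form (M.theta H u) :=
    (hp.pos.toForm.sub hp.flat.clo.toForm).congr fun e _ z _ => by simp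
  have k1 : ∀ e, M.Prod H P k e → ∀ z ∈ e.target, M.theta H u e z * pr k = 0 := fun e he z hz => by
    rw [← he.prj z hz]
    exact hp.kill e he.mem z hz
  have k2 : ∀ e, M.Prod H P k e → ∀ z ∈ e.target, (H * P) e z = pr k := fun e he z hz => by
    rw [Pi.mul_apply, Pi.mul_apply, he.prj z hz, he.blk z hz]
  have main : ∀ S : Set M.Ch, M.Sub S → (∀ e ∈ S, M.Prod H P k e) → ∀ T, M.Form T →
      M.AllOn S (fun e z => T e z * pr k = 0) →
      ∃ C : ℝ, 0 < C ∧ M.Le T (C • M.theta H u) := fun S h1 h2 T hT h3 => by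
    obtain ⟨C, hC, h4, -⟩ := (hB n M _ hp.pos).1 T hT
    refine ⟨C, hC, ((hS n M S h1).1 _ ((hθ.smul C).sub hT).toTen).2.2.1 fun e he z hz => ?_⟩
    have h5 := h4 e (h1.sub he) z hz
    beta_reduce at h5
    rw [Pi.smul_apply, Pi.smul_apply, Pi.add_apply, Pi.add_apply, k2 e (h2 e he) z hz] at h5
    exact cut (hT.herm e (h1.sub he) z hz) (hθ.herm e (h1.sub he) z hz) (h3 e he z hz)
      (k1 e (h2 e he) z hz) h5
  obtain ⟨ε, hε, hG⟩ := hp.gf
  have k3 : ∀ e, M.Prod H P k e → ∀ z ∈ e.target, G e z * pr k = ε • pr k := fun e he z hz => by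
    rw [hG e he.mem z hz, add_mul, Matrix.smul_mul, he.blk z hz, k1 e he z hz, add_zero]
  have k4 : ∀ e, M.Prod H P k e → ∀ z ∈ e.target, (G - ε • (H * P)) e z = G e z - ε • pr k :=
    fun e he z hz => by
      rw [Pi.sub_apply, Pi.sub_apply, Pi.smul_apply, Pi.smul_apply, k2 e he z hz]
  have k5 : ∀ e, M.Prod H P k e → ∀ z ∈ e.target, (G e z - ε • pr k) * pr k = 0 :=
    fun e he z hz => by rw [sub_mul, k3 e he z hz, Matrix.smul_mul, pr_idem, sub_self]
  have hT := hp.kG.toForm.sub (hp.flat.clo.toForm.smul ε)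
  obtain ⟨C, hC, h6⟩ := main {e | M.Prod H P k e} ⟨fun e he => he.mem, hp.atl⟩ (fun _ he => he) _
    hT fun e he z hz => by
      beta_reduce
      rw [k4 e he z hz, k5 e he z hz]
  refine ⟨hθ, main, ε, 4 / C, hε, by positivity, fun e he z hz => ⟨k3 e he z hz, fun v => ?_⟩⟩
  have h7 := (h6 e he.mem z hz).re_dotProduct_nonneg v
  have h8 := hT.herm e he.mem z hz
  beta_reduce at h8
  rw [k4 e he z hz] at h7 h8
  have h9 := nq_eq h8 (k5 e he z hz) v
  rw [lb_eq] at h9
  rw [← h9, div_mul_eq_mul_div, div_le_iff₀ hC]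
  rw [Pi.smul_apply, Pi.smul_apply, Matrix.sub_mulVec, dotProduct_sub, Matrix.smul_mulVec,
    dotProduct_smul, map_sub] at h7
  simp only [RCLike.re_to_complex, Complex.smul_re, smul_eq_mul] at h7
  simp only [nq]
  linarith

end Pool.Agent.Lib.HS95
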