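import Pool.Agent.Lib.HS95.Blue

/-! Buser's argument. -/

open Set

noncomputable section

namespace Pool.Agent.Lib.HS95

namespace BUSK

variable {V : Type} [NormedAddCommGroup V] [InnerProductSpace ℂ V]

theorem sq_le (A : V ≃ₗᵢ[ℂ] V) (x : V) :
    ‖A x - x‖ ^ 2 ≤ ‖x‖ * ‖A (A x - x) - (A x - x)‖ := by
  set y := A x - x with hy
  have h1 : inner ℂ y y = -inner ℂ (A x) (A y - y) := by
    have h : inner ℂ y y = inner ℂ (A x) y - inner ℂ x y := inner_sub_left (A x) x y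
    rw [h, inner_sub_right (A x) (A y) y, A.inner_map_map]
    ring
  have h2 : ‖y‖ ^ 2 = ‖inner ℂ y y‖ := by
    rw [inner_self_eq_norm_sq_to_K]
    simp
  rw [h2, h1, norm_neg]
  have := norm_inner_le_norm (𝕜 := ℂ) (A x) (A y - y)
  rwa [A.norm_map] at this

theorem com_le (A C : V ≃ₗᵢ[ℂ] V) (e : ℝ) (he : 0 ≤ e) (hA : ∀ u, ‖A u - u‖ ≤ 1 / 4 * ‖u‖)
    (hC : ∀ u, ‖C u - u‖ ≤ e * ‖u‖) (u : V) :
    ‖A (C (A.symm (C.symm u))) - u‖ ≤ e / 2 * ‖u‖ := by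
  set w := A.symm (C.symm u) with hw
  have hu : u = C (A w) := by simp [hw]
  have hn : ‖w‖ = ‖u‖ := by simp [hw]
  have e1 : A (C w) - u = (A (C w - w) - (C w - w)) - (C (A w - w) - (A w - w)) := by
    rw [hu, map_sub, map_sub]
    abel
  have h1 := hA (C w - w)
  have h2 := hC (A w - w)
  have h3 := hC w
  have h4 := mul_le_mul_of_nonneg_left (hA w) he
  have h5 := norm_sub_le (A (C w - w) - (C w - w)) (C (A w - w) - (A w - w))
  rw [e1, ← hn]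
  linarith

theorem arith (μ t nb nB nBB nr nb' nB' : ℝ) (hμ : 0 < μ) (hμ8 : μ ≤ 1 / 8) (ht : 0 < t)
    (ht1 : t ≤ 1) (hb : 0 < nb) (h1 : μ * (1 + t) / 2 * nb ≤ nB) (h2 : nB ^ 2 ≤ nb * nBB)
    (h3 : nr ≤ 3 / 2 * (μ ^ 2 / 6 * t) * nb) (h4 : nB ≤ 1 / 4 * nb) (h5 : nb' ≤ nB + nr)
    (h6 : nB - nr ≤ nb') (h7 : nBB - 1 / 4 * nr ≤ nB') (hr : 0 ≤ nr) :
    μ * (1 + t / 2) / 2 * nb' ≤ nB' ∧ 0 < nb' ∧ nb' < nb := by
  have hB0 : μ / 2 * nb ≤ nB := by nlinarith [mul_pos (mul_pos hμ ht) hb]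
  have hB : 0 < nB := lt_of_lt_of_le (by positivity) hB0
  have h8 : μ * (1 + t) / 2 * nB ≤ nBB := by
    refine le_of_mul_le_mul_left ?_ hb
    nlinarith [mul_le_mul_of_nonneg_right h1 hB.le]
  have hmt : μ * t ≤ 1 / 8 := by nlinarith
  have h9 : nr ≤ μ * t / 2 * nB := by
    have := mul_le_mul_of_nonneg_left hB0 (show 0 ≤ μ * t / 2 by positivity)
    nlinarith
  have h10 : nr ≤ 1 / 16 * nB := h9.trans (mul_le_mul_of_nonneg_right (by linarith) hB.le)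
  refine ⟨?_, by linarith, by linarith⟩
  have hc : μ * (1 + t / 2) / 2 ≤ 1 / 8 := by nlinarith
  have hc0 : 0 ≤ μ * (1 + t / 2) / 2 := by positivity
  have h11 := mul_le_mul_of_nonneg_left h5 hc0
  have h12 := mul_le_mul_of_nonneg_right hc hr
  nlinarith

end BUSK

open BUSK

theorem st_BUS : St_BUS := by
  intro V Γ _ _ _ A b S hb hS hfin hden γ hγ hγ4
  by_contra hne
  have b1 : b 1 = 0 := by simpa using hb 1 1
  have binv : ∀ g, b g⁻¹ = -(A g).symm (b g) := fun g => by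
    have h := hb g⁻¹ g
    rw [inv_mul_cancel, b1, map_inv] at h
    exact eq_neg_of_add_eq_zero_left h.symm
  have Ac : ∀ α β u, A (α * β * α⁻¹ * β⁻¹) u = A α (A β ((A α).symm ((A β).symm u))) := by
    intro α β u
    simp only [map_mul, map_inv]
    rfl
  obtain ⟨α, ⟨⟨hαS, hαγ⟩, hα1, hα4⟩, hmin⟩ := Set.exists_min_image
    {g | (g ∈ S ∧ ‖b g‖ ≤ ‖b γ‖) ∧ A g ≠ 1 ∧ ∀ u, ‖A g u - u‖ ≤ 1 / 4 * ‖u‖} (fun g => ‖b g‖)
    ((hfin ‖b γ‖).subset fun g hg => hg.1) ⟨γ, ⟨hγ, le_rfl⟩, hne, hγ4⟩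
  have hmin' : ∀ g ∈ S, A g ≠ 1 → (∀ u, ‖A g u - u‖ ≤ 1 / 4 * ‖u‖) → ‖b α‖ ≤ ‖b g‖ := by
    intro g hg h1 h4
    rcases le_total ‖b g‖ ‖b γ‖ with h | h
    · exact hmin g ⟨⟨hg, h⟩, h1, h4⟩
    · exact hαγ.trans h
  obtain ⟨u, hu⟩ : ∃ u, A α u - u ≠ 0 := by
    by_contra h
    refine hα1 (LinearIsometryEquiv.ext fun u => ?_)
    by_contra h'
    exact h ⟨u, fun h2 => h' (sub_eq_zero.1 h2)⟩
  have hBu : 0 < ‖A α u - u‖ := norm_pos_iff.2 hu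
  have hN : 0 < ‖u‖ := by linarith [hα4 u]
  obtain ⟨μ, hμe⟩ : ∃ μ : ℝ, ‖A α u - u‖ = 2 * μ * ‖u‖ :=
    ⟨‖A α u - u‖ / (2 * ‖u‖), by field_simp⟩
  have hμ : 0 < μ := by
    by_contra h
    nlinarith [not_lt.1 h]
  have hμ8 : μ ≤ 1 / 8 := by
    refine le_of_mul_le_mul_right ?_ hN
    linarith [hα4 u]
  obtain ⟨R, hR⟩ := hden (μ ^ 2 / 6) (by positivity)
  have hR0 : 0 ≤ R := by
    obtain ⟨g, -, -, h⟩ := hR 0
    exact (norm_nonneg _).trans h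
  obtain ⟨L, hL0, hL⟩ : ∃ L : ℝ, 0 ≤ L ∧ μ * (L * ‖u‖) = R / 4 + μ * R + μ :=
    ⟨(R / 4 + μ * R + μ) / (μ * ‖u‖), by positivity, by field_simp⟩
  obtain ⟨β₀, h0S, h0m, h0b⟩ := hR ((L : ℂ) • u)
  have hP0 : ∃ t, 0 < t ∧ t ≤ 1 ∧ (∀ u, ‖A β₀ u - u‖ ≤ μ ^ 2 / 6 * t * ‖u‖) ∧
      μ * (1 + t) / 2 * ‖b β₀‖ ≤ ‖A α (b β₀) - b β₀‖ ∧ 0 < ‖b β₀‖ := by
    set w := b β₀ - (L : ℂ) • u with hw
    have n1 : ‖(L : ℂ) • u‖ = L * ‖u‖ := by
      rw [norm_smul, Complex.norm_real, Real.norm_of_nonneg hL0]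
    have n2 : ‖(L : ℂ) • (A α u - u)‖ = 2 * (μ * (L * ‖u‖)) := by
      rw [norm_smul, Complex.norm_real, Real.norm_of_nonneg hL0, hμe]
      ring
    have e1 : (L : ℂ) • (A α u - u) = (A α (b β₀) - b β₀) - (A α w - w) := by
      rw [hw, map_sub, map_smul, smul_sub]
      abel
    have n3 := norm_sub_le (A α (b β₀) - b β₀) (A α w - w)
    have n4 := hα4 w
    have n5 : ‖b β₀‖ ≤ L * ‖u‖ + R := by
      have := norm_add_le ((L : ℂ) • u) w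
      rw [hw, add_sub_cancel, n1] at this
      linarith
    have n6 : L * ‖u‖ ≤ ‖b β₀‖ + R := by
      have := norm_sub_le (b β₀) w
      rw [hw, sub_sub_cancel, n1] at this
      linarith
    rw [← e1, n2] at n3
    refine ⟨1, one_pos, le_rfl, by simpa using h0m, ?_, ?_⟩
    · nlinarith [mul_le_mul_of_nonneg_left n5 hμ.le]
    · by_contra h
      nlinarith [mul_le_mul_of_nonneg_left n6 hμ.le, not_lt.1 h,
        mul_le_mul_of_nonneg_left (not_lt.1 h) hμ.le]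
  obtain ⟨β, ⟨⟨hβS, hβ0⟩, t, ht, ht1, hm, hB, hpos⟩, hβ⟩ := Set.exists_min_image
    {g | (g ∈ S ∧ ‖b g‖ ≤ ‖b β₀‖) ∧ ∃ t, 0 < t ∧ t ≤ 1 ∧
      (∀ u, ‖A g u - u‖ ≤ μ ^ 2 / 6 * t * ‖u‖) ∧
      μ * (1 + t) / 2 * ‖b g‖ ≤ ‖A α (b g) - b g‖ ∧ 0 < ‖b g‖} (fun g => ‖b g‖)
    ((hfin ‖b β₀‖).subset fun g hg => hg.1) ⟨β₀, ⟨h0S, le_rfl⟩, hP0⟩
  have he : 0 ≤ μ ^ 2 / 6 * t := by positivity
  have he4 : μ ^ 2 / 6 * t ≤ 1 / 4 := by nlinarith
  have hc := com_le (A α) (A β) _ he hα4 hm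
  set y := A α (b β) - b β with hy
  set r := (b β - A α (A β ((A α).symm ((A β).symm (b β))))) +
    A α ((A α).symm (b α) - A β ((A α).symm (b α))) with hr
  have eb : b (α * β * α⁻¹ * β⁻¹) = y + r := by
    rw [mul_assoc, mul_assoc, hb, hb, hb, binv, binv, hy, hr]
    simp only [map_add, map_neg, map_sub, map_inv, LinearIsometryEquiv.apply_symm_apply,
      LinearIsometryEquiv.coe_inv]
    abel
  have nr : ‖r‖ ≤ 3 / 2 * (μ ^ 2 / 6 * t) * ‖b β‖ := by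
    have h1 := hc (b β)
    rw [norm_sub_rev] at h1
    have h2 : ‖A α ((A α).symm (b α) - A β ((A α).symm (b α)))‖ ≤ μ ^ 2 / 6 * t * ‖b β‖ := by
      rw [LinearIsometryEquiv.norm_map, norm_sub_rev]
      by_cases h : A β = 1
      · simp only [h, LinearIsometryEquiv.coe_one, id, sub_self, norm_zero]
        positivity
      · have h3 := hm ((A α).symm (b α))
        rw [LinearIsometryEquiv.norm_map] at h3
        exact h3.trans (mul_le_mul_of_nonneg_left (hmin' β hβS h fun v =>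
          (hm v).trans (mul_le_mul_of_nonneg_right he4 (norm_nonneg _))) he)
    linarith [norm_add_le (b β - A α (A β ((A α).symm ((A β).symm (b β)))))
      (A α ((A α).symm (b α) - A β ((A α).symm (b α))))]
  have n6 : ‖y‖ - ‖r‖ ≤ ‖y + r‖ := by
    have := norm_sub_le (y + r) r
    rw [add_sub_cancel_right] at this
    linarith
  have n7 : ‖A α y - y‖ - 1 / 4 * ‖r‖ ≤ ‖A α (y + r) - (y + r)‖ := by
    have := norm_sub_le (A α (y + r) - (y + r)) (A α r - r)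
    have e : A α (y + r) - (y + r) - (A α r - r) = A α y - y := by
      rw [map_add]
      abel
    rw [e] at this
    linarith [hα4 r]
  obtain ⟨k1, k2, k3⟩ := arith μ t _ _ _ _ _ _ hμ hμ8 ht ht1 hpos hB (sq_le (A α) (b β)) nr
    (hα4 (b β)) (norm_add_le y r) n6 n7 (norm_nonneg r)
  rw [← eb] at k1 k2 k3
  refine absurd (hβ (α * β * α⁻¹ * β⁻¹) ⟨⟨hS α hαS β hβS, k3.le.trans hβ0⟩, t / 2, by positivity,
    by linarith, fun v => ?_, k1, k2⟩) (not_le.2 k3)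
  rw [Ac]
  linarith [hc v]

end Pool.Agent.Lib.HS95
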