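import Pool.Agent.Lib.HS95.Blue

/-! Project hs9, section 4: the transversal can be taken connected. -/

open scoped Topology
open Set Filter

set_option linter.unusedVariables false

noncomputable section

namespace Pool.Agent.Lib.HS95

namespace COMPK

variable {ι : Type} [Fintype ι] [DecidableEq ι]

theorem isoAt_congr {G G' : (ι → ℂ) → Matrix ι ι ℂ} {φ ψ : (ι → ℂ) → ι → ℂ} {z : ι → ℂ}
    (h : IsoAt G G' φ z) (e : ψ =ᶠ[𝓝 z] φ) : IsoAt G G' ψ z := by
  refine ⟨h.hol.congr_of_eventuallyEq e, ?_⟩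
  have h1 : jm ψ z = jm φ z := by simp only [jm, e.fderiv_eq]
  rw [h1, e.eq_of_nhds]
  exact h.iso

theorem cc_open (g : Geo ι) (y : g.Y) : IsOpen (connectedComponent y) := by
  let _ : ChartedSpace (ι → ℂ) g.Y :=
    { atlas := range g.c
      chartAt := fun y => g.c (g.pc y)
      mem_chart_source := fun y => (g.cov y).choose_spec
      chart_mem_atlas := fun y => mem_range_self _ }
  have := ChartedSpace.locallyConnectedSpace (ι → ℂ) g.Y
  exact isOpen_connectedComponent

variable {g : Geo ι} (a : Act g)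

theorem smul_cc (γ : a.Γ) {y y' : g.Y} (h : y ∈ connectedComponent y') :
    γ • y ∈ connectedComponent (γ • y') :=
  (a.iso γ).cont.image_connectedComponent_subset y' ⟨y, h, rfl⟩

/-- The homeomorphism given by a group element. -/
def hom (γ : a.Γ) : g.Y ≃ₜ g.Y where
  toFun y := γ • y
  invFun y := γ⁻¹ • y
  left_inv y := by simp
  right_inv y := by simp
  continuous_toFun := (a.iso γ).cont
  continuous_invFun := (a.iso γ⁻¹).cont

variable (y₀ : g.Y)

/-- The inclusion of the component. -/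
def inc : OpenPartialHomeomorph (connectedComponent y₀) g.Y :=
  haveI : Nonempty (connectedComponent y₀) := ⟨⟨y₀, mem_connectedComponent⟩⟩
  (cc_open g y₀).isOpenEmbedding_subtypeVal.toOpenPartialHomeomorph Subtype.val

theorem inc_source : (inc y₀).source = univ := rfl

theorem inc_target : (inc y₀).target = connectedComponent y₀ := by simp [inc]

theorem inc_apply (y : connectedComponent y₀) : inc y₀ y = y.1 := rfl

theorem inc_symm {y : g.Y} (h : y ∈ connectedComponent y₀) : ((inc y₀).symm y).1 = y :=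
  (inc y₀).right_inv (by rw [inc_target]; exact h)

/-- The charts of the component. -/
def ch (p : g.J × a.Γ) : OpenPartialHomeomorph (connectedComponent y₀) (ι → ℂ) :=
  (inc y₀).trans ((hom a p.2).toOpenPartialHomeomorph.trans (g.c p.1))

theorem ch_apply (p : g.J × a.Γ) (y : connectedComponent y₀) :
    ch a y₀ p y = g.c p.1 (p.2 • y.1) := rfl

theorem ch_source (p : g.J × a.Γ) (y : connectedComponent y₀) :
    y ∈ (ch a y₀ p).source ↔ p.2 • y.1 ∈ (g.c p.1).source := by
  simp [ch, inc_source, inc_apply, hom]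

theorem ch_target (p : g.J × a.Γ) (z : ι → ℂ) : z ∈ (ch a y₀ p).target ↔
    z ∈ (g.c p.1).target ∧ p.2⁻¹ • (g.c p.1).symm z ∈ connectedComponent y₀ := by
  simp [ch, inc_target, hom]

theorem ch_symm (p : g.J × a.Γ) {z : ι → ℂ} (h : z ∈ (ch a y₀ p).target) :
    ((ch a y₀ p).symm z).1 = p.2⁻¹ • (g.c p.1).symm z :=
  inc_symm y₀ ((ch_target a y₀ p z).1 h).2

theorem ch_iso (κ : a.Γ) (F : connectedComponent y₀ → connectedComponent y₀)
    (hF : ∀ y, (F y).1 = κ • y.1) (p p' : g.J × a.Γ) (y : connectedComponent y₀)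
    (h : y ∈ (ch a y₀ p).source) (h' : F y ∈ (ch a y₀ p').source) :
    IsoAt (g.G p.1) (g.G p'.1) (fun z => ch a y₀ p' (F ((ch a y₀ p).symm z))) (ch a y₀ p y) := by
  have h1 := (a.iso (p'.2 * κ * p.2⁻¹)).loc p.1 p'.1 (p.2 • y.1) ((ch_source a y₀ p y).1 h)
    (by
      have h2 := (ch_source a y₀ p' (F y)).1 h'
      rw [hF] at h2
      simpa [mul_smul] using h2)
  refine isoAt_congr h1 ?_
  filter_upwards [(ch a y₀ p).open_target.mem_nhds ((ch a y₀ p).map_source h)] with z hz
  rw [ch_apply, hF, ch_symm a y₀ p hz]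
  simp [Geo.T, mul_smul]

/-- The component as a manifold. -/
def geo : Geo ι where
  Y := connectedComponent y₀
  J := g.J × a.Γ
  c := ch a y₀
  G := fun p => g.G p.1
  k := g.k
  kpos := g.kpos
  cov := fun y => by
    obtain ⟨j, hj⟩ := g.cov y.1
    exact ⟨(j, 1), (ch_source a y₀ _ y).2 (by simpa using hj)⟩
  met := fun p z hz => g.met p.1 z ((ch_target a y₀ p z).1 hz).1
  chg := fun p p' y h h' => ch_iso a y₀ 1 id (fun y => by simp) p p' y h h'

theorem stab_mem {γ : a.Γ} (h : γ • y₀ ∈ connectedComponent y₀) {y : g.Y}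
    (hy : y ∈ connectedComponent y₀) : γ • y ∈ connectedComponent y₀ := by
  rw [connectedComponent_eq h]
  exact smul_cc a γ hy

theorem mem_stab {γ : a.Γ} {y : g.Y} (hy : y ∈ connectedComponent y₀)
    (h : γ • y ∈ connectedComponent y₀) : γ • y₀ ∈ connectedComponent y₀ := by
  rw [connectedComponent_eq h]
  refine smul_cc a γ ?_
  rw [← connectedComponent_eq hy]
  exact mem_connectedComponent

/-- The stabilizer of the component. -/
def stab : Subgroup a.Γ where
  carrier := {γ | γ • y₀ ∈ connectedComponent y₀}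
  one_mem' := by simpa using mem_connectedComponent
  mul_mem' := fun {γ δ} h h' => by
    show (γ * δ) • y₀ ∈ connectedComponent y₀
    rw [mul_smul]
    exact stab_mem a y₀ h h'
  inv_mem' := fun {γ} h => mem_stab a y₀ h (by simpa using mem_connectedComponent)

/-- The action of the stabilizer. -/
def act : Act (geo a y₀) where
  Γ := stab a y₀
  aΓ :=
    { smul := fun κ y => ⟨κ.1 • y.1, stab_mem a y₀ κ.2 y.2⟩
      one_smul := fun y => Subtype.ext (one_smul a.Γ y.1)
      mul_smul := fun κ κ' y => Subtype.ext (mul_smul κ.1 κ'.1 y.1) }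
  iso := fun κ =>
    ⟨((a.iso κ.1).cont.comp continuous_subtype_val).subtype_mk _,
      fun p p' y h h' => ch_iso a y₀ κ.1 _ (fun y => rfl) p p' y h h'⟩

variable {V : Type} [NormedAddCommGroup V] [InnerProductSpace ℂ V] (T : Tr V g)

/-- The restricted group. -/
def tr : Tr V (geo T.toAct y₀) where
  toAct := act T.toAct y₀
  A := T.A.comp (stab T.toAct y₀).subtype
  b := fun κ => T.b κ.1
  bmul := fun κ κ' => T.bmul κ.1 κ'.1
  inj := fun κ h h' => Subtype.ext (T.inj κ.1 h h')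

variable {X : Type} [TopologicalSpace X] {S : Split V ι X}

theorem all_mem [ConnectedSpace X] (D : Dev S T) (v₀ : V) (p : V × g.Y) :
    ∃ γ : T.Γ, γ⁻¹ • p.2 ∈ connectedComponent y₀ := by
  let P : g.Y → Prop := fun y => ∃ γ : T.Γ, γ⁻¹ • y ∈ connectedComponent y₀
  have hP : ∀ y y', y' ∈ connectedComponent y → (P y' ↔ P y) := by
    have h1 : ∀ y y', y' ∈ connectedComponent y → P y → P y' := fun y y' h ⟨γ, hγ⟩ =>
      ⟨γ, by rw [connectedComponent_eq hγ]; exact smul_cc T.toAct γ⁻¹ h⟩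
    refine fun y y' h => ⟨h1 y' y ?_, h1 y y' h⟩
    rw [← connectedComponent_eq h]
    exact mem_connectedComponent
  let W : Set X := {x | ∀ p, D.q p = x → P p.2}
  have hW : ∀ p, D.q p ∈ W ↔ P p.2 := fun p => ⟨fun h => h p rfl, fun ⟨γ, hγ⟩ p' h => by
    obtain ⟨δ, hδ⟩ := D.orb p p' h.symm
    refine ⟨δ * γ, ?_⟩
    rw [hδ]
    simpa [Tr.mv, mul_smul] using hγ⟩
  have hloc : ∀ x, ∀ᶠ x' in 𝓝 x, (x' ∈ W ↔ x ∈ W) := fun x => by
    obtain ⟨i, hi⟩ := S.cov x
    obtain ⟨B, v, j, -, h2, h3⟩ := D.sec i x hi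
    have hc : ContinuousAt (fun x' => (g.c j).symm (S.e i x').2) x :=
      ContinuousAt.comp (f := fun x' => (S.e i x').2) ((g.c j).continuousAt_symm h2)
        (continuousAt_snd.comp ((S.e i).continuousAt hi))
    filter_upwards [h3, hc.eventually ((cc_open g _).mem_nhds mem_connectedComponent)] with x' e1 e2
    rw [← e1, hW, hP _ _ e2, ← hW (B (S.e i x).1 + v, _), h3.self_of_nhds]
  have hcl : IsClopen W := by
    refine ⟨⟨isOpen_iff_mem_nhds.2 fun x hx => ?_⟩, isOpen_iff_mem_nhds.2 fun x hx => ?_⟩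
    · filter_upwards [hloc x] with x' h using fun h' => hx (h.1 h')
    · filter_upwards [hloc x] with x' h using h.2 hx
  have hu : W = univ := hcl.eq_univ
    ⟨D.q (v₀, y₀), (hW _).2 ⟨1, by simpa using mem_connectedComponent⟩⟩
  exact (hW p).1 (hu ▸ mem_univ _)

/-- The restricted development. -/
def dev [ConnectedSpace X] (D : Dev S T) : Dev S (tr y₀ T) where
  q := fun p => D.q (p.1, p.2.1)
  cont := D.cont.comp (continuous_fst.prodMk (continuous_subtype_val.comp continuous_snd))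
  inv := fun κ p => D.inv κ.1 (p.1, p.2.1)
  orb := fun p p' h => by
    obtain ⟨γ, hγ⟩ := D.orb _ _ h
    have h1 : p'.1 = T.A γ p.1 + T.b γ := congrArg Prod.fst hγ
    have h2 : p'.2.1 = γ • p.2.1 := congrArg Prod.snd hγ
    exact ⟨⟨γ, mem_stab T.toAct y₀ p.2.2 (h2 ▸ p'.2.2)⟩, Prod.ext h1 (Subtype.ext h2)⟩
  linj := fun p => by
    obtain ⟨O, hO, hi⟩ := D.linj (p.1, p.2.1)
    refine ⟨(fun r : V × connectedComponent y₀ => (r.1, r.2.1)) ⁻¹' O,
      (continuous_fst.prodMk (continuous_subtype_val.comp continuous_snd)).continuousAt hO,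
      fun r hr r' hr' h => ?_⟩
    have h1 : (r.1, r.2.1) = (r'.1, r'.2.1) := hi hr hr' h
    exact Prod.ext (Prod.ext_iff.1 h1).1 (Subtype.ext (Prod.ext_iff.1 h1).2)
  sec := fun i x hi => by
    obtain ⟨B, v, j, h1, h2, h3⟩ := D.sec i x hi
    obtain ⟨γ, hγ⟩ := all_mem y₀ T D 0 (0, (g.c j).symm (S.e i x).2)
    have ht : (S.e i x).2 ∈ (ch T.toAct y₀ (j, γ)).target := (ch_target _ y₀ _ _).2 ⟨h2, hγ⟩
    refine ⟨B.trans (T.A γ⁻¹), T.A γ⁻¹ v + T.b γ⁻¹, (j, γ), h1, ht, ?_⟩
    have hc : ContinuousAt (fun x' => (S.e i x').2) x :=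
      continuousAt_snd.comp ((S.e i).continuousAt hi)
    filter_upwards [h3, hc.eventually ((ch T.toAct y₀ (j, γ)).open_target.mem_nhds ht)]
      with x' e1 e2
    refine Eq.trans ?_ ((D.inv γ⁻¹ _).trans e1)
    show D.q (_, ((ch T.toAct y₀ (j, γ)).symm (S.e i x').2).1) = _
    rw [ch_symm _ y₀ _ e2]
    simp [Tr.mv, add_assoc]

end COMPK

theorem st_COMP : St_COMP := by
  intro V ι X _ _ _ _ _ _ S g T D
  obtain ⟨x⟩ : Nonempty X := inferInstance
  obtain ⟨i, hi⟩ := S.cov x
  obtain ⟨B, v, j, -, -, -⟩ := D.sec i x hi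
  exact ⟨COMPK.geo T.toAct ((g.c j).symm 0), COMPK.tr _ T,
    isConnected_iff_connectedSpace.1 isConnected_connectedComponent, ⟨COMPK.dev _ T D⟩⟩

end Pool.Agent.Lib.HS95
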