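import Pool.Agent.Lib.HS95.Blue2

/-! Project hs9, section 4: the form attached to the `(0,1)` derivative of a section. -/

open scoped Topology ContDiff ComplexOrder Matrix
open Set Filter Metric Complex

noncomputable section

namespace Pool.Agent.Lib.HS95

open Pool.Agent.Lib.SV (E)
open Pool.Agent.Lib.HS32 (Mat Mf pr nq hess dz dzb HolN ClM)

namespace DBK

variable {n : ℕ} {M : Mf n} {m : ℕ} {s : M.Fam ℂ}

theorem db_chg (hTR : HS32.St_TR) (hCHN : HS32.St_CHN) (hHOL : HS32.St_HOL) (hs : M.Sec m s) :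
    M.Ov fun e e' x => (fun i => dzb i (s e') (e' x)) =
      (M.J e e' x).det ^ m • (M.J e e' x)ᴴ *ᵥ fun i => dzb i (s e) (e x) := by
  intro e he e' he' x hx hx'
  obtain ⟨h1, -, -, h4, -⟩ := (hTR n M).2.1 e he e' he' x hx hx'
  obtain ⟨c1, -, -, -, c5, -, -, -, -, c10, -⟩ := hCHN n _ _ h1
  have p : (e ∘ e'.symm) (e' x) = e x := by simp only [Function.comp, e'.left_inv hx']
  have ev : s e' =ᶠ[𝓝 (e' x)]
      fun w => (s e ∘ e ∘ e'.symm) w * (HS32.jm (e ∘ e'.symm) w).det ^ m := by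
    filter_upwards [h4] with w hw
    have := hs.cmp e he e' he' _ hw.2.1 hw.2.2.1
    beta_reduce at this
    rwa [hw.2.2.2.2.2.1, hw.2.2.2.2.2.2] at this
  have d1 : DifferentiableAt ℝ (s e) ((e ∘ e'.symm) (e' x)) := by
    rw [p]; exact HS32.cd_diff (Mf.AllOn.at hs.sm he hx)
  have d2 : DifferentiableAt ℂ (fun w => (HS32.jm (e ∘ e'.symm) w).det ^ m) (e' x) :=
    c5.self_of_nhds.pow m
  have d3 := d2.restrictScalars ℝ
  funext i
  rw [HS32.dzb_congr ev, HS32.dzb_mul (d1.comp _ (HS32.cd_diff c1)) d3,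
    ((hHOL n _ _).1 d3).1 d2 i, (c10 _ d1 i).2, p, mul_zero, add_zero, mul_comm]
  simp only [Pi.smul_apply, smul_eq_mul, Matrix.mulVec, dotProduct, Matrix.conjTranspose_apply,
    Mf.J, mul_comm]

theorem alg {J A : Mat n} (hJ : J.det ≠ 0) (hA : A.det ≠ 0) (m : ℕ) (d : E n) :
    ((Jᴴ * A * J).det ^ m)⁻¹ • Matrix.vecMulVec (J.det ^ m • Jᴴ *ᵥ d) (star (J.det ^ m • Jᴴ *ᵥ d))
      = Jᴴ * ((A.det ^ m)⁻¹ • Matrix.vecMulVec d (star d)) * J := by
  have h1 : star J.det ≠ 0 := star_ne_zero.2 hJ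
  rw [star_smul, Matrix.smul_vecMulVec, Matrix.vecMulVec_smul, Matrix.star_mulVec,
    Matrix.conjTranspose_conjTranspose, Matrix.mul_smul, Matrix.smul_mul, Matrix.mul_vecMulVec,
    Matrix.vecMulVec_mul, smul_smul, smul_smul, Matrix.det_mul, Matrix.det_mul,
    Matrix.det_conjTranspose, star_pow]
  congr 1
  rw [mul_pow, mul_pow]
  field_simp

theorem nq_vec (c : ℝ) (d v : E n) :
    nq (((c : ℂ))⁻¹ • Matrix.vecMulVec d (star d)) v = normSq (∑ i, star (v i) * d i) / c := by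
  have h : star d ⬝ᵥ v = star (∑ i, star (v i) * d i) := by
    simp [dotProduct, mul_comm]
  have h' : star v ⬝ᵥ d = ∑ i, star (v i) * d i := rfl
  rw [nq, Matrix.smul_mulVec, Matrix.vecMulVec_mulVec, op_smul_eq_smul, dotProduct_smul,
    dotProduct_smul, h, h', smul_eq_mul, smul_eq_mul, star_def, ← normSq_eq_conj_mul_self,
    ← ofReal_inv, ← ofReal_mul, ofReal_re, div_eq_inv_mul]

end DBK

open DBK in
theorem st_DB (hT : HS32.St_TR) (hC : HS32.St_CHN) (hO : HS32.St_HOL) : St_DB := by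
  intro n M H m s hH hs
  refine ⟨fun e z => ((H e z).det ^ m)⁻¹ •
    Matrix.vecMulVec (fun i => dzb i (s e) z) (star fun i => dzb i (s e) z),
    ⟨⟨fun e he z hz i j => ?_, fun e he e' he' x hx hx' => ?_⟩, fun e he z hz => ?_⟩,
    fun e he z hz => ⟨fun i j => ?_, fun v => ?_⟩⟩
  · have h1 := hs.sm e he z hz
    have h2 : ContDiffAt ℝ ∞ (fun w => ((H e w).det ^ m)⁻¹) z :=
      ((hH.sm e he z hz).det.pow m).inv (pow_ne_zero m (hH.det_ne e he z hz))
    exact h2.mul ((HS32.cd_dzb h1 i).mul (HS32.cd_star (HS32.cd_dzb h1 j)))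
  · beta_reduce
    rw [db_chg hT hC hO hs e he e' he' x hx hx', hH.cmp e he e' he' x hx hx']
    exact alg ((hT n M).2.1 e he e' he' x hx hx').2.1 (hH.det_ne.at he hx) m _
  · beta_reduce
    rw [← Mf.herm_det (hH.herm e he z hz), ← ofReal_pow, ← ofReal_inv, Matrix.IsHermitian,
      Matrix.conjTranspose_smul, Matrix.conjTranspose_vecMulVec, star_star, star_def, conj_ofReal]
  · simp only [Matrix.smul_apply, Matrix.vecMulVec_apply, Pi.star_apply, smul_eq_mul,
      div_eq_inv_mul]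
  · beta_reduce
    rw [← nq_vec, ofReal_pow, Mf.herm_det (hH.herm e he z hz)]

end Pool.Agent.Lib.HS95
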