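import Pool.Agent.Lib.HS95.Blue

/-! Project hs9, section 4: elements close to the identity have relatively dense translations. -/

open scoped Topology
open Set Filter Metric

set_option linter.unusedVariables false

noncomputable section

namespace Pool.Agent.Lib.HS95

namespace DENSK

theorem net {I M : Type} [PseudoMetricSpace M] [ProperSpace M] (Φ : I → M)
    (hb : Bornology.IsBounded (range Φ)) {η : ℝ} (hη : 0 < η) :
    ∃ t : Set I, t.Finite ∧ ∀ i, ∃ i' ∈ t, dist (Φ i) (Φ i') < η := by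
  obtain ⟨t, hs, hf, hc⟩ := Metric.finite_approx_of_totallyBounded
    (hb.isCompact_closure.totallyBounded.subset subset_closure) η hη
  obtain ⟨t', hf', rfl⟩ : ∃ t' : Set I, t'.Finite ∧ Φ '' t' = t := by
    obtain ⟨t', -, h1, h2⟩ := Set.Finite.exists_subset_finite_image_eq (s := univ) (f := Φ) hf
      (by simpa using hs)
    exact ⟨t', h1, h2⟩
  refine ⟨t', hf', fun i => ?_⟩
  obtain ⟨_, ⟨i', hi, rfl⟩, h⟩ := mem_iUnion₂.1 (hc (mem_range_self i))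
  exact ⟨i', hi, h⟩

theorem net2 {I E M : Type} [NormedAddCommGroup E] [ProperSpace E] [PseudoMetricSpace M]
    [ProperSpace M] (F : I → E → E) (Φ : I → M) (hb : Bornology.IsBounded (range Φ))
    (z p : E) (r R L : ℝ) (hL : 0 ≤ L) (h1 : ∀ i, ∀ w ∈ ball z r, F i w ∈ ball p R)
    (h2 : ∀ i, ∀ w ∈ ball z r, ∀ w' ∈ ball z r, ‖F i w - F i w'‖ ≤ L * ‖w - w'‖)
    {η : ℝ} (hη : 0 < η) : ∃ t : Set I, t.Finite ∧ ∀ i, ∃ i' ∈ t, dist (Φ i) (Φ i') < η ∧
      ∀ w ∈ ball z r, ‖F i w - F i' w‖ ≤ η := by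
  have hd : 0 < η / (2 * L + 1) := by positivity
  have hd1 : η / (2 * L + 1) ≤ η := div_le_self hη.le (by linarith)
  obtain ⟨N, hs, hf, hc⟩ := Metric.finite_approx_of_totallyBounded
    ((isCompact_closedBall z r).totallyBounded.subset ball_subset_closedBall) _ hd
  have := hf.fintype
  obtain ⟨t, ht, h⟩ := net (fun i => ((fun n : N => F i n), Φ i)) (by
    refine ((isBounded_closedBall (x := fun _ : N => p) (r := max R 0)).prod hb).subset ?_
    rintro _ ⟨i, rfl⟩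
    refine ⟨?_, mem_range_self i⟩
    rw [mem_closedBall, dist_pi_le_iff (le_max_right _ _)]
    exact fun n => (mem_ball.1 (h1 i n (hs n.2))).le.trans (le_max_left _ _)) hd
  refine ⟨t, ht, fun i => ?_⟩
  obtain ⟨i', hi, hh⟩ := h i
  rw [Prod.dist_eq, max_lt_iff] at hh
  refine ⟨i', hi, hh.2.trans_le hd1, fun w hw => ?_⟩
  obtain ⟨n, hn, hwn⟩ := mem_iUnion₂.1 (hc hw)
  have a1 := h2 i w hw n (hs hn)
  have a2 := h2 i' w hw n (hs hn)
  have a3 : ‖F i n - F i' n‖ ≤ η / (2 * L + 1) := by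
    rw [← dist_eq_norm]
    exact (dist_le_pi_dist (fun n : N => F i n) (fun n : N => F i' n) ⟨n, hn⟩).trans hh.1.le
  have a4 : L * ‖w - n‖ ≤ L * (η / (2 * L + 1)) :=
    mul_le_mul_of_nonneg_left (by rw [← dist_eq_norm]; exact (mem_ball.1 hwn).le) hL
  have a5 : (2 * L + 1) * (η / (2 * L + 1)) = η := by field_simp
  have a6 : F i w - F i' w = (F i w - F i n) + (F i n - F i' n) - (F i' w - F i' n) := by abel
  have a7 := (norm_sub_le (F i w - F i n + (F i n - F i' n)) (F i' w - F i' n)).trans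
    (add_le_add_left (norm_add_le _ _) _)
  rw [a6]
  linarith

variable {V ι : Type} [NormedAddCommGroup V] [InnerProductSpace ℂ V] [FiniteDimensional ℂ V]
  [Fintype ι] [DecidableEq ι] {g : Geo ι} (T : Tr V g) (j : g.J) (z : ι → ℂ)

/-- Close to the identity. -/
def Cl (r ε : ℝ) (γ : T.Γ) : Prop :=
  g.Near (T.toAct.f γ) j z r ε ∧ ∀ u, ‖T.A γ u - u‖ ≤ ε * ‖u‖

/-- Finitely many elements approximate those that come from the set `S`. -/
def Ap (S : Set g.Y) : Prop := ∃ r > 0, ∀ ε > 0, ∃ F : Set T.Γ, F.Finite ∧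
  ∀ γ : T.Γ, γ⁻¹ • (g.c j).symm z ∈ S → ∃ δ ∈ F, Cl T j z r ε (γ * δ⁻¹)

omit [FiniteDimensional ℂ V] in
theorem Cl.mono {r r' ε : ℝ} {γ : T.Γ} (h : Cl T j z r ε γ) (hr : r' ≤ r) : Cl T j z r' ε γ :=
  ⟨fun w hw => h.1 w (ball_subset_ball hr hw), h.2⟩

theorem cell (h1 : St_J0) (hz : z ∈ (g.c j).target) (k : g.Y) : ∃ U ∈ 𝓝 k, Ap T j z U := by
  obtain ⟨j', hk⟩ := g.cov k
  have hp := (g.c j').map_source hk
  obtain ⟨ra, hra, La, hLa, -, -, -, ha⟩ := h1 ι g j' j _ hp z hz 1 one_pos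
  obtain ⟨rb, hrb, Lb, hLb, -, hsb, -, hb⟩ := h1 ι g j j' z hz _ hp ra hra
  refine ⟨(g.c j').source ∩ g.c j' ⁻¹' ball (g.c j' k) rb,
    ((g.c j').isOpen_inter_preimage isOpen_ball).mem_nhds ⟨hk, mem_ball_self hrb⟩,
    rb, hrb, fun ε hε => ?_⟩
  let I := {γ : T.Γ // γ⁻¹ • (g.c j).symm z ∈
    (g.c j').source ∩ g.c j' ⁻¹' ball (g.c j' k) rb}
  have hI := fun γ : I => hb _ (T.iso γ.1⁻¹) z (mem_ball_self hrb) γ.2.1 γ.2.2
  have : ProperSpace (V →L[ℂ] V) := FiniteDimensional.proper ℂ _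
  have hd : 0 < ε / (La + 1) := by positivity
  have hd1 : ε / (La + 1) ≤ ε := div_le_self hε.le (by linarith)
  obtain ⟨t, ht, h⟩ := net2 (fun γ : I => g.T (fun y => γ.1⁻¹ • y) j j')
    (fun γ : I => (T.A γ.1).toLinearIsometry.toContinuousLinearMap) (by
      refine (isBounded_closedBall (x := 0) (r := 1)).subset ?_
      rintro _ ⟨i, rfl⟩
      exact mem_closedBall_zero_iff.2 (LinearIsometry.norm_toContinuousLinearMap_le _))
    z _ rb ra Lb hLb (fun γ w hw => ((hI γ).1 w hw).2.1) (fun γ => (hI γ).2) hd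
  refine ⟨Subtype.val '' t, ht.image _, fun γ hγ => ?_⟩
  obtain ⟨δ, hδ, e1, e2⟩ := h ⟨γ, hγ⟩
  refine ⟨δ, mem_image_of_mem _ hδ, fun w hw => ?_, fun u => ?_⟩
  · have key : ∀ (β : T.Γ) (x : ι → ℂ), β⁻¹ • (g.c j).symm x ∈ (g.c j').source →
        γ • (g.c j').symm (g.T (fun y => β⁻¹ • y) j j' x) = (γ * β⁻¹) • (g.c j).symm x :=
      fun β x hx => by rw [Geo.T, (g.c j').left_inv hx, mul_smul]
    have hz' := (hI ⟨γ, hγ⟩).1 z (mem_ball_self hrb)
    have k0 := key γ z hz'.1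
    rw [mul_inv_cancel, one_smul] at k0
    obtain ⟨b1, b2⟩ := ha _ (T.iso γ) _ hz'.2.1 (by rw [k0]; exact (g.c j).map_target hz) (by
      rw [Geo.T, k0, (g.c j).right_inv hz]; exact mem_ball_self hra)
    have w1 := (hI ⟨γ, hγ⟩).1 w hw
    have w2 := (hI δ).1 w hw
    have k1 := key γ w w1.1
    rw [mul_inv_cancel, one_smul] at k1
    have k2 := key δ w w2.1
    have b3 := b2 _ w2.2.1 _ w1.2.1
    have b4 := (b1 _ w2.2.1).1
    rw [k2] at b4
    refine ⟨b4, ?_⟩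
    have e3 := e2 w hw
    rw [norm_sub_rev] at e3
    have q1 : g.T (fun y => γ • y) j' j (g.T (fun y => γ⁻¹ • y) j j' w) = w := by
      rw [Geo.T, k1, (g.c j).right_inv (hsb (ball_subset_closedBall hw))]
    have q2 : g.T (fun y => γ • y) j' j (g.T (fun y => δ.1⁻¹ • y) j j' w) =
        g.T (T.toAct.f (γ * δ.1⁻¹)) j j w := by
      rw [Geo.T, k2]; rfl
    rw [q1, q2] at b3
    have a5 : (La + 1) * (ε / (La + 1)) = ε := by field_simp
    have a6 := mul_le_mul_of_nonneg_left e3 hLa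
    exact b3.trans (a6.trans (by nlinarith))
  · have a1 := ((T.A γ).toLinearIsometry.toContinuousLinearMap -
      (T.A δ.1).toLinearIsometry.toContinuousLinearMap).le_opNorm ((T.A δ.1).symm u)
    rw [dist_eq_norm] at e1
    rw [LinearIsometryEquiv.norm_map] at a1
    have a2 : T.A (γ * δ.1⁻¹) u - u = ((T.A γ).toLinearIsometry.toContinuousLinearMap -
      (T.A δ.1).toLinearIsometry.toContinuousLinearMap) ((T.A δ.1).symm u) := by
      simp [map_mul, map_inv]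
    rw [a2]
    exact a1.trans (mul_le_mul_of_nonneg_right (e1.le.trans hd1) (norm_nonneg _))

theorem ap (h1 : St_J0) (hz : z ∈ (g.c j).target) {K : Set g.Y} (hK : IsCompact K) :
    Ap T j z K := by
  refine hK.induction_on (p := Ap T j z) ⟨1, one_pos, fun ε _ => ⟨∅, finite_empty, by simp⟩⟩
    ?_ ?_ fun k _ => ?_
  · rintro s t hst ⟨r, hr, h⟩
    refine ⟨r, hr, fun ε hε => ?_⟩
    obtain ⟨F, hF, h⟩ := h ε hε
    exact ⟨F, hF, fun γ hγ => h γ (hst hγ)⟩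
  · rintro s t ⟨r, hr, h⟩ ⟨r', hr', h'⟩
    refine ⟨min r r', lt_min hr hr', fun ε hε => ?_⟩
    obtain ⟨F, hF, h⟩ := h ε hε
    obtain ⟨F', hF', h'⟩ := h' ε hε
    refine ⟨F ∪ F', hF.union hF', fun γ hγ => ?_⟩
    rcases hγ with hγ | hγ
    · obtain ⟨δ, hδ, c⟩ := h γ hγ
      exact ⟨δ, Or.inl hδ, c.mono T j z (min_le_left _ _)⟩
    · obtain ⟨δ, hδ, c⟩ := h' γ hγ
      exact ⟨δ, Or.inr hδ, c.mono T j z (min_le_right _ _)⟩
  · obtain ⟨U, hU, h⟩ := cell T j z h1 hz k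
    exact ⟨U, mem_nhdsWithin_of_mem_nhds hU, h⟩

end DENSK

theorem st_DENS (h1 : St_J0) : St_DENS := by
  rintro V ι _ _ _ _ _ g T ⟨K, hK, R, hR⟩ j z hz
  obtain ⟨r₁, hr, h⟩ := DENSK.ap T j z h1 hz hK
  refine ⟨r₁, hr, fun r hr' ε hε => ?_⟩
  obtain ⟨F, hF, h⟩ := h ε hε
  obtain ⟨B, hB⟩ := (hF.image fun δ => ‖T.b δ⁻¹‖).bddAbove
  refine ⟨R + B, fun v => ?_⟩
  obtain ⟨γ, h2, h3⟩ := hR v ((g.c j).symm z)
  obtain ⟨δ, hδ, c⟩ := h γ h3
  have c' := c.mono T j z hr'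
  refine ⟨γ * δ⁻¹, c'.1, c'.2, ?_⟩
  have a1 : ‖T.b δ⁻¹‖ ≤ B := hB (mem_image_of_mem _ hδ)
  have a2 := norm_add_le (T.b γ - v) (T.A γ (T.b δ⁻¹))
  rw [LinearIsometryEquiv.norm_map] at a2
  rw [T.bmul, add_sub_right_comm]
  linarith

end Pool.Agent.Lib.HS95
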