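import Pool.Agent.Lib.HS95.Blue

/-! Project hs9, section 4, row DET: the Gram determinant of invariant fields. -/

open scoped Topology ContDiff ComplexOrder Matrix
open Set Filter Metric Complex

set_option linter.unusedVariables false

noncomputable section

namespace Pool.Agent.Lib.HS95

namespace DETK

variable {ι : Type} [Fintype ι] [DecidableEq ι]

theorem jm_mulVec (φ : (ι → ℂ) → ι → ℂ) (z v : ι → ℂ) : jm φ z *ᵥ v = fderiv ℂ φ z v := by
  funext a
  have hv : v = ∑ b, v b • (Pi.single b (1 : ℂ) : ι → ℂ) := by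
    funext c
    simp [Finset.sum_apply, Pi.single_apply]
  conv_rhs => rw [hv]
  rw [map_sum]
  simp [jm, Matrix.mulVec, dotProduct, Finset.sum_apply, mul_comm]

theorem lv_congr {f f' : (ι → ℂ) → ℝ} {z : ι → ℂ} (h : f =ᶠ[𝓝 z] f') (v : ι → ℂ) :
    lv f z v = lv f' z v := by
  have h1 : ∀ w, (fun x => fderiv ℝ f x w) =ᶠ[𝓝 z] fun x => fderiv ℝ f' x w := fun w => by
    filter_upwards [h.fderiv (𝕜 := ℝ)] with x hx
    rw [hx]
  unfold lv d2
  rw [(h1 v).fderiv_eq, (h1 (I • v)).fderiv_eq]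

theorem det_smooth {κ : Type} [Fintype κ] [DecidableEq κ] {M : (ι → ℂ) → Matrix κ κ ℂ}
    {z : ι → ℂ} (h : SmM M z) : ContDiffAt ℝ ∞ (fun w => (M w).det.re) z := by
  have h1 : ContDiffAt ℝ ∞ (fun w => (M w).det) z := by
    simp only [Matrix.det_apply']
    refine ContDiffAt.sum fun σ _ => ContDiffAt.mul contDiffAt_const ?_
    exact contDiffAt_prod fun i _ => h (σ i) i
  exact Complex.reCLM.contDiff.contDiffAt.comp z h1

variable (g : Geo ι) {ρ : ℕ} (ξ : Fin ρ → g.Y → ι → ℂ)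

/-- The fields in the preferred chart. -/
def X0 (y : g.Y) : Matrix ι (Fin ρ) ℂ := Matrix.of fun a s => ξ s y a

/-- The fields in the chart `j`. -/
def Xc (j : g.J) (w : ι → ℂ) : Matrix ι (Fin ρ) ℂ := Matrix.of fun a s => g.cmp (ξ s) j w a

/-- The Gram matrix. -/
def Gr (y : g.Y) : Matrix (Fin ρ) (Fin ρ) ℂ :=
  (X0 g ξ y)ᴴ * g.G (g.pc y) (g.c (g.pc y) y) * X0 g ξ y

theorem pc_mem (y : g.Y) : y ∈ (g.c (g.pc y)).source := (g.cov y).choose_spec

theorem mul_X0 (φ : (ι → ℂ) → ι → ℂ) (z : ι → ℂ) (y : g.Y) (a : ι) (s : Fin ρ) :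
    (jm φ z * X0 g ξ y) a s = fderiv ℂ φ z (ξ s y) a := by
  rw [← jm_mulVec]
  simp [X0, Matrix.mul_apply, Matrix.mulVec, dotProduct]

theorem gram_chart (j : g.J) (w : ι → ℂ) (hw : w ∈ (g.c j).target) :
    (Xc g ξ j w)ᴴ * g.G j w * Xc g ξ j w = Gr g ξ ((g.c j).symm w) := by
  set y := (g.c j).symm w with hy
  have hys : y ∈ (g.c j).source := (g.c j).map_target hw
  have hiso := (g.chg (g.pc y) j y (pc_mem g y) hys).iso
  have h1 : g.c j ((g.c (g.pc y)).symm (g.c (g.pc y) y)) = w := by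
    rw [(g.c (g.pc y)).left_inv (pc_mem g y), hy, (g.c j).right_inv hw]
  simp only [h1] at hiso
  have h2 : Xc g ξ j w =
      jm (fun z => g.c j ((g.c (g.pc y)).symm z)) (g.c (g.pc y) y) * X0 g ξ y := by
    ext a s
    rw [mul_X0]
    rfl
  rw [h2, Gr, ← hiso, Matrix.conjTranspose_mul]
  simp only [Matrix.mul_assoc]

theorem Xc_pc (y : g.Y) : Xc g ξ (g.pc y) (g.c (g.pc y) y) = X0 g ξ y := by
  ext a s
  have h0 : (g.c (g.pc y)).symm (g.c (g.pc y) y) = y := (g.c (g.pc y)).left_inv (pc_mem g y)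
  have h1 : g.T id (g.pc y) (g.pc y) =ᶠ[𝓝 (g.c (g.pc y) y)] id := by
    filter_upwards [(g.c (g.pc y)).open_target.mem_nhds
      ((g.c (g.pc y)).map_source (pc_mem g y))] with w hw
    exact (g.c (g.pc y)).right_inv hw
  simp only [Xc, X0, Matrix.of_apply, Geo.cmp, h0]
  rw [h1.fderiv_eq, fderiv_id]
  rfl

theorem gram_act (a : Act g) (γ : a.Γ) (c : Fin ρ → Fin ρ → ℝ)
    (hc : ∀ s, a.push γ (ξ s) = ∑ t, c s t • ξ t) (y : g.Y) :
    (Gr g ξ y).det.re = (Matrix.of c).det ^ 2 * (Gr g ξ (γ • y)).det.re := by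
  have hiso := ((a.iso γ).loc (g.pc y) (g.pc (γ • y)) y (pc_mem g y) (pc_mem g _)).iso
  have h1 : g.T (fun y => γ • y) (g.pc y) (g.pc (γ • y)) (g.c (g.pc y) y)
      = g.c (g.pc (γ • y)) (γ • y) := by
    simp only [Geo.T]
    rw [(g.c (g.pc y)).left_inv (pc_mem g y)]
  rw [h1] at hiso
  set C : Matrix (Fin ρ) (Fin ρ) ℂ := ((Matrix.of c)ᵀ).map ((↑) : ℝ → ℂ) with hC
  have h2 : jm (g.T (fun y => γ • y) (g.pc y) (g.pc (γ • y))) (g.c (g.pc y) y) * X0 g ξ y
      = X0 g ξ (γ • y) * C := by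
    ext b s
    rw [mul_X0]
    have h3 := congrFun (congrFun (hc s) (γ • y)) b
    simp only [Act.push, inv_smul_smul] at h3
    refine h3.trans ?_
    simp [X0, hC, Matrix.mul_apply, Finset.sum_apply, mul_comm]
  have h4 : Gr g ξ y = Cᴴ * Gr g ξ (γ • y) * C := by
    rw [Gr, ← hiso, Gr]
    calc _ = (jm (g.T (fun y => γ • y) (g.pc y) (g.pc (γ • y))) (g.c (g.pc y) y) * X0 g ξ y)ᴴ *
          g.G (g.pc (γ • y)) (g.c (g.pc (γ • y)) (γ • y)) *
          (jm (g.T (fun y => γ • y) (g.pc y) (g.pc (γ • y))) (g.c (g.pc y) y) * X0 g ξ y) := by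
            rw [Matrix.conjTranspose_mul]
            simp only [Matrix.mul_assoc]
      _ = _ := by
            rw [h2, Matrix.conjTranspose_mul]
            simp only [Matrix.mul_assoc]
  have h5 : C.det = (((Matrix.of c).det : ℝ) : ℂ) := by
    rw [hC, ← Matrix.det_transpose (Matrix.of c)]
    exact (Complex.ofRealHom.map_det _).symm
  rw [h4, Matrix.det_mul, Matrix.det_mul, Matrix.det_conjTranspose, h5]
  simp
  ring

end DETK

open DETK in
theorem st_DET (h1 : St_SUBC) : St_DET := by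
  intro ι _ _ g a ρ ξ hρ hhol hpush hli
  obtain ⟨y₁, hy₁⟩ := hli
  choose c hc using hpush
  have hsub : ∀ j, ∀ z ∈ (g.c j).target, ∀ᶠ w in 𝓝 z, Met g.k (g.G j) w ∧
      ∀ b s, DifferentiableAt ℂ (fun x => Xc g ξ j x b s) w := by
    intro j z hz
    filter_upwards [(g.c j).open_target.mem_nhds hz] with w hw
    exact ⟨g.met j w hw, fun b s => differentiableAt_pi.1 (hhol s j w hw) b⟩
  have hpc : ∀ y, (Xc g ξ (g.pc y) (g.c (g.pc y) y))ᴴ * g.G (g.pc y) (g.c (g.pc y) y) *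
      Xc g ξ (g.pc y) (g.c (g.pc y) y) = Gr g ξ y := fun y => by
    rw [Xc_pc]
    rfl
  have hS := fun j z hz => h1 ι (Fin ρ) g.k (g.G j) (Xc g ξ j) z (hsub j z hz)
  have hnn : ∀ y, 0 ≤ (Gr g ξ y).det.re := fun y => by
    rw [← hpc]
    exact (hS _ _ ((g.c (g.pc y)).map_source (pc_mem g y))).2.1
  have hpos : 0 < (Gr g ξ y₁).det.re := by
    rw [← hpc]
    refine (hS _ _ ((g.c (g.pc y₁)).map_source (pc_mem g y₁))).2.2.1 ?_
    rw [Xc_pc]
    exact hy₁
  have hact := fun γ => gram_act g ξ a γ (c γ) (hc γ)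
  have he : ∀ γ, 0 < (Matrix.of (c γ)).det ^ 2 := fun γ => by
    rcases (sq_nonneg (Matrix.of (c γ)).det).eq_or_lt with h | h
    · have := hact γ y₁
      rw [← h, zero_mul] at this
      exact absurd this hpos.ne'
    · exact h
  have hinv : ∀ (γ : a.Γ) y, (Gr g ξ (γ • y)).det.re =
      Real.exp (-Real.log ((Matrix.of (c γ)).det ^ 2)) * (Gr g ξ y).det.re := fun γ y => by
    rw [Real.exp_neg, Real.exp_log (he γ), hact γ y, ← mul_assoc, inv_mul_cancel₀ (he γ).ne',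
      one_mul]
  refine ⟨fun y => (Gr g ξ y).det.re, fun γ => -Real.log ((Matrix.of (c γ)).det ^ 2),
    g.k * Fintype.card (Fin ρ), mul_pos g.kpos (by simpa using hρ), ?_, hinv, ⟨y₁, hpos.ne'⟩,
    hnn, ?_⟩
  · intro γ δ
    apply Real.exp_injective
    have h2 := hinv (γ * δ) y₁
    rw [mul_smul, hinv γ, hinv δ, ← mul_assoc, ← Real.exp_add] at h2
    exact (mul_right_cancel₀ hpos.ne' h2).symm
  · intro j z hz
    have hev : (fun w => (Gr g ξ ((g.c j).symm w)).det.re) =ᶠ[𝓝 z]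
        fun w => ((Xc g ξ j w)ᴴ * g.G j w * Xc g ξ j w).det.re := by
      filter_upwards [(g.c j).open_target.mem_nhds hz] with w hw
      rw [gram_chart g ξ j w hw]
    refine ⟨(det_smooth (hS j z hz).1).congr_of_eventuallyEq hev, fun hp W hW => ?_⟩
    have h3 := (hS j z hz).2.2.2 (by rw [gram_chart g ξ j z hz]; exact hp) W hW
    have hev2 : (fun w => Real.log (Gr g ξ ((g.c j).symm w)).det.re) =ᶠ[𝓝 z]
        ld fun x => (Xc g ξ j x)ᴴ * g.G j x * Xc g ξ j x := by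
      filter_upwards [hev] with w hw
      rw [hw]
      rfl
    refine h3.trans (le_of_eq (Finset.sum_congr rfl fun b _ => (lv_congr hev2 _).symm))

end Pool.Agent.Lib.HS95
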