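import Pool.Agent.Lib.HS95.Kit

/-! Project hs9, section 4: a totally real space of holomorphic fields is finite dimensional. -/

open scoped Topology ContDiff ComplexOrder Matrix
open Set Filter Metric Complex

set_option linter.unusedSectionVars false

noncomputable section

namespace Pool.Agent.Lib.HS95

namespace FDK

theorem real_fderiv {E : Type} [NormedAddCommGroup E] [NormedSpace ℂ E] {h : E → ℂ} {z : E}
    (hd : DifferentiableAt ℂ h z) (hr : ∀ᶠ w in 𝓝 z, (h w).im = 0) : fderiv ℂ h z = 0 := by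
  have h1 : HasFDerivAt (fun w => Complex.imCLM (h w))
      (Complex.imCLM.comp ((fderiv ℂ h z).restrictScalars ℝ)) z :=
    Complex.imCLM.hasFDerivAt.comp z (hd.hasFDerivAt.restrictScalars ℝ)
  have h2 : HasFDerivAt (fun w => Complex.imCLM (h w)) (0 : E →L[ℝ] ℝ) z :=
    (hasFDerivAt_const (0 : ℝ) z).congr_of_eventuallyEq (hr.mono fun w hw => by simpa using hw)
  have h3 := h1.unique h2
  have h4 : ∀ v, (fderiv ℂ h z v).im = 0 := fun v => by
    simpa using congrArg (fun L : E →L[ℝ] ℝ => L v) h3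
  ext v
  apply Complex.ext
  · have := h4 (I • v)
    rw [map_smul] at this
    simpa using this
  · simpa using h4 v

theorem real_const {E : Type} [NormedAddCommGroup E] [NormedSpace ℂ E] {h : E → ℂ} {z : E}
    (hd : ∀ᶠ w in 𝓝 z, DifferentiableAt ℂ h w ∧ (h w).im = 0) : ∀ᶠ w in 𝓝 z, h w = h z := by
  obtain ⟨R, hR, hb⟩ := Metric.mem_nhds_iff.1 hd
  filter_upwards [ball_mem_nhds z hR] with w hw
  refine isOpen_ball.is_const_of_fderiv_eq_zero (𝕜 := ℂ) (convex_ball z R).isPreconnected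
    (fun x hx => (hb hx).1.differentiableWithinAt) (fun x hx => ?_) hw (mem_ball_self hR)
  exact real_fderiv (hb hx).1
    (Filter.mem_of_superset (isOpen_ball.mem_nhds hx) fun u hu => (hb hu).2)

variable {ι : Type} [Fintype ι] [DecidableEq ι] {g : Geo ι}

theorem ev_chart {j : g.J} {y : g.Y} (hy : y ∈ (g.c j).source) {p : (ι → ℂ) → Prop}
    (h : ∀ᶠ w in 𝓝 (g.c j y), p w) : ∀ᶠ y' in 𝓝 y, y' ∈ (g.c j).source ∧ p (g.c j y') :=
  ((g.c j).open_source.eventually_mem hy).and (((g.c j).continuousAt hy).eventually h)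

theorem ev_symm {j : g.J} {z : ι → ℂ} (hz : z ∈ (g.c j).target) {ζ : g.Y → ι → ℂ}
    (h : ∀ᶠ y' in 𝓝 ((g.c j).symm z), ζ y' = 0) : g.cmp ζ j =ᶠ[𝓝 z] 0 := by
  filter_upwards [g.ev_target hz, (g.tendsto_symm hz).eventually h] with w hw h0
  have := (Geo.cmp_eq_zero (ξ := ζ) ((g.c j).map_target hw)).2 h0
  rwa [(g.c j).right_inv hw] at this

/-- Identity theorem. -/
theorem identity [ConnectedSpace g.Y] {ζ : g.Y → ι → ℂ} (hh : g.Hol ζ) {y₁ : g.Y}
    (h : ∀ᶠ y in 𝓝 y₁, ζ y = 0) : ζ = 0 := by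
  have hcl : IsClopen {y : g.Y | ∀ᶠ y' in 𝓝 y, ζ y' = 0} := by
    refine ⟨isClosed_iff_frequently.2 fun y hy => ?_, isOpen_setOfPred_eventually_nhds⟩
    have hs := g.pc_mem y
    have hz := (g.c (g.pc y)).map_source hs
    have h0 : ∃ᶠ w in 𝓝 (g.c (g.pc y) y), g.cmp ζ (g.pc y) =ᶠ[𝓝 w] 0 := by
      refine ((g.c (g.pc y)).continuousAt hs).tendsto.frequently ?_
      refine (hy.and_eventually ((g.c (g.pc y)).open_source.eventually_mem hs)).mono ?_
      rintro y' ⟨h1, h2⟩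
      apply ev_symm ((g.c _).map_source h2)
      rw [(g.c _).left_inv h2]
      exact h1
    have h1 := SV.H85.eventually_zero_of_frequently
      ((g.ev_target hz).mono fun w hw => hh _ w hw) h0
    filter_upwards [ev_chart hs h1] with y' hy'
    exact (Geo.cmp_eq_zero hy'.1).1 hy'.2
  have := hcl.eq_univ ⟨y₁, h⟩
  funext y
  have hy : y ∈ {y : g.Y | ∀ᶠ y' in 𝓝 y, ζ y' = 0} := by rw [this]; trivial
  exact Filter.Eventually.self_of_nhds (p := fun y' => ζ y' = 0) hy

theorem cmp_comb {ρ : ℕ} (ξ : Fin ρ → g.Y → ι → ℂ) (η : g.Y → ι → ℂ) (c : Fin ρ → ℂ) (j : g.J)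
    {w : ι → ℂ} (h : η ((g.c j).symm w) = ∑ s, c s • ξ s ((g.c j).symm w)) :
    g.cmp η j w = ∑ s, c s • g.cmp (ξ s) j w := by
  unfold Geo.cmp
  rw [h]
  simp only [map_sum, map_smul]

end FDK

open FDK in
theorem st_FD : St_FD := by
  intro ι _ _ g _ 𝔞 hhol hreal
  let P : ℕ → Prop := fun ρ => ∃ (ξ : Fin ρ → g.Y → ι → ℂ), (∀ s, ξ s ∈ 𝔞) ∧
    ∃ y, LinearIndependent ℂ fun s => ξ s y
  have hP0 : P 0 := ⟨fun _ => 0, fun s => s.elim0, Classical.arbitrary _,
    linearIndependent_empty_type⟩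
  have hbd : ∀ ρ, P ρ → ρ ≤ Fintype.card ι := by
    rintro ρ ⟨ξ, -, y, hy⟩
    simpa using hy.fintype_card_le_finrank
  obtain ⟨ρ, hρ, hmax⟩ : ∃ ρ, P ρ ∧ ¬ P (ρ + 1) := by
    by_contra hc
    have : ∀ n, P n := fun n => by
      induction n with
      | zero => exact hP0
      | succ n ih => by_contra h; exact hc ⟨n, ih, h⟩
    have := hbd _ (this (Fintype.card ι + 1))
    omega
  obtain ⟨ξ, hξ, y₁, hy₁⟩ := hρ
  refine ⟨ρ, ξ, hξ, fun η hη => ?_, y₁, hy₁⟩
  -- real coefficients at every point of independence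
  have hco : ∀ y, (LinearIndependent ℂ fun s => ξ s y) →
      ∃ c : Fin ρ → ℝ, η y = ∑ s, (c s : ℂ) • ξ s y := by
    intro y hy
    have hsp : η y ∈ Submodule.span ℂ (range fun s => ξ s y) := by
      by_contra hn
      apply hmax
      refine ⟨Fin.cons η ξ, fun s => ?_, y, ?_⟩
      · refine Fin.cases ?_ (fun t => ?_) s
        · simpa using hη
        · simpa using hξ t
      · have := linearIndependent_finCons.2 ⟨hy, hn⟩
        have e : (fun s => (Fin.cons η ξ : Fin (ρ + 1) → g.Y → ι → ℂ) s y) =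
            Fin.cons (η y) fun s => ξ s y := by
          funext s
          refine Fin.cases ?_ (fun t => ?_) s <;> simp
        rw [e]; exact this
    obtain ⟨f, hf⟩ := (Submodule.mem_span_range_iff_exists_fun ℂ).1 hsp
    have m1 : η - ∑ s, (f s).re • ξ s ∈ 𝔞 :=
      𝔞.sub_mem hη (𝔞.sum_mem fun s _ => 𝔞.smul_mem _ (hξ s))
    have m2 : -∑ s, (f s).im • ξ s ∈ 𝔞 :=
      𝔞.neg_mem (𝔞.sum_mem fun s _ => 𝔞.smul_mem _ (hξ s))
    have e0 : (η - ∑ s, (f s).re • ξ s) y + I • (-∑ s, (f s).im • ξ s) y = 0 := by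
      simp only [Pi.sub_apply, Pi.neg_apply, Finset.sum_apply, Pi.smul_apply, ← hf, smul_neg,
        Finset.smul_sum]
      rw [← sub_eq_add_neg, ← Finset.sum_sub_distrib, ← Finset.sum_sub_distrib]
      refine Finset.sum_eq_zero fun s _ => ?_
      ext a
      simp only [Pi.sub_apply, Pi.smul_apply, smul_eq_mul, Complex.real_smul, Pi.zero_apply]
      conv_lhs => rw [← Complex.re_add_im (f s)]
      simp only [Complex.add_re, Complex.add_im, Complex.ofReal_re, Complex.ofReal_im,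
        Complex.mul_re, Complex.mul_im, Complex.I_re, Complex.I_im]
      push_cast
      ring
    have e1 := hreal _ m1 _ m2 y e0
    rw [e1, smul_zero, add_zero] at e0
    refine ⟨fun s => (f s).re, ?_⟩
    simp only [Pi.sub_apply, Finset.sum_apply, Pi.smul_apply, sub_eq_zero] at e0
    rw [e0]
    refine Finset.sum_congr rfl fun s _ => ?_
    ext a; simp
  -- the chart at y₁
  have hs := g.pc_mem y₁
  have hz := (g.c (g.pc y₁)).map_source hs
  set j := g.pc y₁ with hj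
  set z := g.c j y₁ with hzd
  obtain ⟨L₀, hL₀⟩ := LinearMap.exists_leftInverse_of_injective
    (Fintype.linearCombination ℂ fun s => ξ s y₁)
    (LinearMap.ker_eq_bot'.2 fun c hc => funext
      (Fintype.linearIndependent_iff.1 hy₁ c (by simpa [Fintype.linearCombination_apply] using hc)))
  let L : (ι → ℂ) →L[ℂ] (Fin ρ → ℂ) := LinearMap.toContinuousLinearMap L₀
  let A : (ι → ℂ) → (Fin ρ → ℂ) →L[ℂ] (Fin ρ → ℂ) := fun w =>
    ∑ s, ContinuousLinearMap.smulRightL ℂ (Fin ρ → ℂ) (Fin ρ → ℂ) (ContinuousLinearMap.proj s)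
      (L (g.cmp (ξ s) j w))
  have hAap : ∀ w c, A w c = L (∑ s, c s • g.cmp (ξ s) j w) := by
    intro w c
    simp [A]
  have hAd : ∀ w ∈ (g.c j).target, DifferentiableAt ℂ A w := by
    intro w hw
    refine DifferentiableAt.fun_sum fun s _ => ?_
    exact (ContinuousLinearMap.smulRightL ℂ (Fin ρ → ℂ) (Fin ρ → ℂ)
      (ContinuousLinearMap.proj s)).differentiableAt.comp w
      (L.differentiableAt.comp w (hhol _ (hξ s) j w hw))
  have hA1 : A z = 1 := by
    ext1 c
    rw [hAap]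
    have : ∀ s, g.cmp (ξ s) j z = ξ s y₁ := fun s => Geo.cmp_pc (ξ s) y₁
    simp only [this]
    have h2 := congrArg (fun F : (Fin ρ → ℂ) →ₗ[ℂ] (Fin ρ → ℂ) => F c) hL₀
    simpa [Fintype.linearCombination_apply, L] using h2
  have hU : ∀ᶠ w in 𝓝 z, IsUnit (A w) :=
    (hAd z hz).continuousAt.eventually (Units.isOpen.mem_nhds (by rw [hA1]; exact isUnit_one))
  let f : (ι → ℂ) → Fin ρ → ℂ := fun w => Ring.inverse (A w) (L (g.cmp η j w))
  have hf : ∀ᶠ w in 𝓝 z, DifferentiableAt ℂ f w ∧ ∃ c : Fin ρ → ℝ, (f w = fun s => (c s : ℂ)) ∧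
      η ((g.c j).symm w) = ∑ s, (c s : ℂ) • ξ s ((g.c j).symm w) := by
    filter_upwards [hU, g.ev_target hz] with w hw hwt
    refine ⟨((hAd w hwt).inverse hw).clm_apply (L.differentiableAt.comp w (hhol _ hη j w hwt)), ?_⟩
    have hinv : ∀ c, Ring.inverse (A w) (A w c) = c := fun c => by
      have := congrArg (fun F : (Fin ρ → ℂ) →L[ℂ] (Fin ρ → ℂ) => F c)
        (Ring.inverse_mul_cancel _ hw)
      simpa using this
    have hli : LinearIndependent ℂ fun s => ξ s ((g.c j).symm w) := by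
      rw [Fintype.linearIndependent_iff]
      intro c hc s
      have h1 := cmp_comb ξ 0 c j (w := w) (by rw [hc]; rfl)
      rw [Geo.cmp_zero] at h1
      have h2 := hinv c
      rw [hAap, ← h1] at h2
      simp at h2
      rw [← h2]; rfl
    obtain ⟨c, hc⟩ := hco _ hli
    refine ⟨c, ?_, hc⟩
    have h1 := cmp_comb ξ η (fun s => (c s : ℂ)) j hc
    show Ring.inverse (A w) (L (g.cmp η j w)) = _
    rw [h1, ← hAap w fun s => (c s : ℂ), hinv]
  have hconst : ∀ᶠ w in 𝓝 z, ∀ s, f w s = f z s := by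
    refine Filter.eventually_all.2 fun s => real_const (h := fun w => f w s) ?_
    filter_upwards [hf] with w hw
    obtain ⟨h1, c, h2, -⟩ := hw
    exact ⟨differentiableAt_pi.1 h1 s, by rw [h2]; simp⟩
  obtain ⟨-, c, hc, -⟩ := hf.self_of_nhds
  refine ⟨c, sub_eq_zero.1 (identity (hhol _
    (𝔞.sub_mem hη (𝔞.sum_mem fun s _ => 𝔞.smul_mem _ (hξ s)))) (y₁ := y₁) ?_)⟩
  filter_upwards [ev_chart hs (hf.and hconst)] with y hy
  obtain ⟨hys, ⟨-, c', h1, h2⟩, h3⟩ := hy
  rw [(g.c j).left_inv hys] at h2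
  have e : ∀ s, (c' s : ℂ) = c s := fun s => by
    have := h3 s
    rw [h1, hc] at this
    exact this
  simp only [Pi.sub_apply, Finset.sum_apply, Pi.smul_apply, sub_eq_zero, h2, e]
  refine Finset.sum_congr rfl fun s _ => ?_
  ext a; simp

end Pool.Agent.Lib.HS95
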