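import Pool.Agent.Lib.HS95.Kit

/-! Project hs9, section 4: curvature decreases in holomorphic subbundles. -/

open scoped Topology ContDiff ComplexOrder Matrix
open Set Filter Metric Complex

set_option linter.unusedSectionVars false

noncomputable section

namespace Pool.Agent.Lib.HS95

namespace GRMK

variable {ι α β γ : Type} [Fintype ι] [DecidableEq ι] [Fintype α] [Fintype β] [Fintype γ]

/-- Smooth entries. -/
def Sm (A : (ι → ℂ) → Matrix α β ℂ) (x : ι → ℂ) : Prop :=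
  ∀ a b, ContDiffAt ℝ ∞ (fun w => A w a b) x

/-- Directional derivative. -/
def D (v : ι → ℂ) (A : (ι → ℂ) → Matrix α β ℂ) (x : ι → ℂ) : Matrix α β ℂ :=
  Matrix.of fun a b => fderiv ℝ (fun w => A w a b) x v

variable {A A' : (ι → ℂ) → Matrix α β ℂ} {B : (ι → ℂ) → Matrix β γ ℂ} {x v : ι → ℂ}

theorem Sm.diff (h : Sm A x) (a : α) (b : β) : DifferentiableAt ℝ (fun w => A w a b) x :=
  (h a b).differentiableAt (by simp)

theorem Sm.mul (h : Sm A x) (h' : Sm B x) : Sm (fun w => A w * B w) x := fun a b => by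
  simp only [Matrix.mul_apply]
  exact ContDiffAt.sum fun j _ => (h a j).mul (h' j b)

theorem Sm.ct (h : Sm A x) : Sm (fun w => (A w)ᴴ) x := fun a b =>
  Complex.conjCLE.contDiff.contDiffAt.comp x (h b a)

theorem Sm.add (h : Sm A x) (h' : Sm A' x) : Sm (fun w => A w + A' w) x := fun a b =>
  (h a b).add (h' a b)

theorem Sm.D (h : Sm A x) (v : ι → ℂ) : Sm (D v A) x := fun a b =>
  ((h a b).fderiv_right (m := ∞) (by simp)).clm_apply contDiffAt_const

theorem D_mul (h : Sm A x) (h' : Sm B x) :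
    D v (fun w => A w * B w) x = D v A x * B x + A x * D v B x := by
  ext a b
  simp only [D, Matrix.of_apply, Matrix.mul_apply, Matrix.add_apply]
  rw [fderiv_fun_sum fun j _ => (h.diff a j).fun_mul (h'.diff j b), ContinuousLinearMap.sum_apply,
    ← Finset.sum_add_distrib]
  refine Finset.sum_congr rfl fun j _ => ?_
  rw [fderiv_fun_mul (h.diff a j) (h'.diff j b)]
  simp only [ContinuousLinearMap.add_apply, ContinuousLinearMap.smul_apply, smul_eq_mul]
  ring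

theorem D_ct : D v (fun w => (A w)ᴴ) x = (D v A x)ᴴ := by
  ext a b
  simp only [D, Matrix.of_apply, Matrix.conjTranspose_apply]
  rw [fderiv_star]
  rfl

theorem D_add (h : Sm A x) (h' : Sm A' x) :
    D v (fun w => A w + A' w) x = D v A x + D v A' x := by
  ext a b
  simp only [D, Matrix.of_apply, Matrix.add_apply]
  rw [fderiv_fun_add (h.diff a b) (h'.diff a b)]
  rfl

theorem D_smul (c : ℂ) (h : Sm A x) : D v (fun w => c • A w) x = c • D v A x := by
  ext a b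
  simp only [D, Matrix.of_apply, Matrix.smul_apply, smul_eq_mul]
  rw [fderiv_const_mul (h.diff a b)]
  rfl

theorem D_congr (e : A =ᶠ[𝓝 x] A') : D v A x = D v A' x := by
  ext a b
  have : (fun w => A w a b) =ᶠ[𝓝 x] fun w => A' w a b := e.mono fun w hw => by simp only [hw]
  simp only [D, Matrix.of_apply, this.fderiv_eq]

theorem D_symm (h : Sm A x) (u v : ι → ℂ) : D u (D v A) x = D v (D u A) x := by
  ext a b
  exact d2_symm ((h a b).of_le (WithTop.coe_le_coe.2 (le_top : (2 : ℕ∞) ≤ ⊤))) u v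

theorem D_hol (h : ∀ a b, DifferentiableAt ℂ (fun w => A w a b) x) :
    D (I • v) A x = I • D v A x := by
  ext a b
  simp only [D, Matrix.of_apply, Matrix.smul_apply, (h a b).fderiv_restrictScalars ℝ,
    ContinuousLinearMap.coe_restrictScalars', map_smul]

variable {G : (ι → ℂ) → Matrix α α ℂ}

theorem D_gram (hG : Sm G x) (h : Sm A x) : D v (fun w => (A w)ᴴ * G w * A w) x =
    (D v A x)ᴴ * G x * A x + (A x)ᴴ * D v G x * A x + (A x)ᴴ * G x * D v A x := by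
  rw [D_mul (h.ct.mul hG) h, D_mul h.ct hG, D_ct, Matrix.add_mul]

theorem DD_gram (h : ∀ᶠ w in 𝓝 x, Sm G w ∧ Sm A w) :
    D v (D v fun w => (A w)ᴴ * G w * A w) x =
    (D v (D v A) x)ᴴ * G x * A x + (A x)ᴴ * D v (D v G) x * A x + (A x)ᴴ * G x * D v (D v A) x +
      (2 : ℂ) • ((D v A x)ᴴ * D v G x * A x + (D v A x)ᴴ * G x * D v A x +
        (A x)ᴴ * D v G x * D v A x) := by
  obtain ⟨hG, hA⟩ := h.self_of_nhds
  rw [D_congr (h.mono fun w hw => D_gram hw.1 hw.2),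
    D_add ((((hA.D v).ct.mul hG).mul hA).add ((hA.ct.mul (hG.D v)).mul hA))
      ((hA.ct.mul hG).mul (hA.D v)),
    D_add (((hA.D v).ct.mul hG).mul hA) ((hA.ct.mul (hG.D v)).mul hA),
    D_mul ((hA.D v).ct.mul hG) hA, D_mul (hA.D v).ct hG, D_mul (hA.ct.mul (hG.D v)) hA,
    D_mul hA.ct (hG.D v), D_mul (hA.ct.mul hG) (hA.D v), D_mul hA.ct hG, D_ct, D_ct]
  simp only [Matrix.add_mul, two_smul]
  abel

open scoped MatrixOrder in
theorem tr_nonneg [DecidableEq α] {M N : Matrix α α ℂ} (hM : M.PosSemidef) (hN : N.PosSemidef) :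
    0 ≤ (M * N).trace.re := by
  obtain ⟨W, hW⟩ : ∃ W : Matrix α α ℂ, M = Wᴴ * W :=
    CStarAlgebra.nonneg_iff_eq_star_mul_self.1 hM.nonneg
  rw [hW, Matrix.mul_assoc, Matrix.trace_mul_comm]
  exact (Complex.nonneg_iff.1 (hN.mul_mul_conjTranspose_same W).trace_nonneg).1

theorem psd [DecidableEq α] [DecidableEq β] {G : Matrix α α ℂ} {X B : Matrix α β ℂ}
    (hG : G.PosDef) (hM : (Xᴴ * G * X).PosDef) :
    (Bᴴ * G * B - (Xᴴ * G * B)ᴴ * (Xᴴ * G * X)⁻¹ * (Xᴴ * G * B)).PosSemidef := by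
  have h1 := hG.posSemidef.conjTranspose_mul_mul_same (B - X * (Xᴴ * G * X)⁻¹ * (Xᴴ * G * B))
  have h2 : (Xᴴ * G * X) * (Xᴴ * G * X)⁻¹ = 1 := Matrix.mul_nonsing_inv _ hM.det_pos.ne'.isUnit
  have h3 : ((Xᴴ * G * X)⁻¹)ᴴ = (Xᴴ * G * X)⁻¹ := hM.inv.1
  have h4 : (Xᴴ * G * B)ᴴ = Bᴴ * G * X := by
    simp only [Matrix.conjTranspose_mul, Matrix.conjTranspose_conjTranspose, hG.1.eq,
      Matrix.mul_assoc]
  convert h1 using 1
  generalize (Xᴴ * G * X)⁻¹ = N at h2 h3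
  rw [Matrix.conjTranspose_sub, Matrix.conjTranspose_mul (X * N), Matrix.conjTranspose_mul X, h3,
    h4]
  have h5 : ∀ Y : Matrix β β ℂ, Xᴴ * (G * (X * (N * Y))) = Y := fun Y => by
    simpa only [Matrix.mul_assoc, Matrix.one_mul] using congrArg (· * Y) h2
  simp only [Matrix.sub_mul, Matrix.mul_sub, Matrix.mul_assoc, h5]
  abel

end GRMK

open GRMK in
theorem st_GRM : St_GRM := by
  intro ι κ _ _ _ _ G Ξ z h hM v
  have hs : ∀ᶠ w in 𝓝 z, Sm G w ∧ Sm Ξ w := h.eventually_nhds.mono fun w hw =>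
    ⟨hw.self_of_nhds.1, fun a b => contDiffAt_of_hol (hw.mono fun x hx => hx.2.2 a b)⟩
  obtain ⟨hG, hX⟩ := hs.self_of_nhds
  have hp := h.self_of_nhds.2.1
  have e1 : D (I • v) Ξ =ᶠ[𝓝 z] fun w => I • D v Ξ w := h.mono fun w hw => D_hol hw.2.2
  have e2 : D (I • v) (D (I • v) Ξ) z = -D v (D v Ξ) z := by
    rw [D_congr e1, D_smul _ (hX.D v), D_symm hX, D_congr e1, D_smul _ (hX.D v), smul_smul,
      I_mul_I, neg_one_smul]
  have he : ∀ u, (D u G z)ᴴ = D u G z := fun u => by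
    rw [← D_ct]
    exact D_congr (h.mono fun w hw => hw.2.1.1.eq)
  have hl : ∀ {κ : Type} (M : (ι → ℂ) → Matrix κ κ ℂ),
      lM M z v = D v (D v M) z + D (I • v) (D (I • v) M) z := fun M => rfl
  have hq : ∀ {κ : Type} (M : (ι → ℂ) → Matrix κ κ ℂ),
      pM M z v = D v M z - I • D (I • v) M z := fun M => rfl
  have g1 : G z * (G z)⁻¹ = 1 := Matrix.mul_nonsing_inv _ hp.det_pos.ne'.isUnit
  have g2 : (G z)⁻¹ * G z = 1 := Matrix.nonsing_inv_mul _ hp.det_pos.ne'.isUnit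
  have g3 : ∀ Y : Matrix ι κ ℂ, G z * ((G z)⁻¹ * Y) = Y := fun Y => by
    rw [← Matrix.mul_assoc, g1, Matrix.one_mul]
  have g4 : ∀ Y : Matrix ι κ ℂ, (G z)⁻¹ * (G z * Y) = Y := fun Y => by
    rw [← Matrix.mul_assoc, g2, Matrix.one_mul]
  have g5 : ((G z)⁻¹)ᴴ = (G z)⁻¹ := hp.inv.1
  set B := (G z)⁻¹ * pM G z v * Ξ z + (2 : ℂ) • D v Ξ z with hB
  have p1 : pM (fun x => (Ξ x)ᴴ * G x * Ξ x) z v = (Ξ z)ᴴ * G z * B := by
    rw [hq, D_gram hG hX, D_gram hG hX, e1.self_of_nhds, hB, hq]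
    simp only [Matrix.mul_add, Matrix.mul_sub, Matrix.sub_mul, Matrix.mul_assoc, g3,
      Matrix.conjTranspose_smul, Matrix.smul_mul, Matrix.mul_smul, smul_add, smul_smul, star_def,
      conj_I, mul_neg, I_mul_I, neg_neg, one_smul]
    module
  have p2 : lM (fun x => (Ξ x)ᴴ * G x * Ξ x) z v =
      Bᴴ * G z * B + (Ξ z)ᴴ * kM G z v * Ξ z := by
    rw [hl, DD_gram hs, DD_gram hs, e2, e1.self_of_nhds, hB, kM, hl, hq]
    simp only [Matrix.mul_add, Matrix.add_mul, Matrix.mul_sub, Matrix.sub_mul, Matrix.mul_assoc,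
      g3, g4, g5, he, Matrix.conjTranspose_smul, Matrix.conjTranspose_add, Matrix.conjTranspose_mul,
      Matrix.conjTranspose_sub, Matrix.conjTranspose_neg, Matrix.neg_mul, Matrix.mul_neg,
      Matrix.smul_mul, Matrix.mul_smul, smul_add, smul_sub, smul_smul, star_def, conj_I,
      neg_mul, I_mul_I, neg_neg, one_smul, neg_smul, two_smul, smul_neg]
    module
  have p3 := tr_nonneg hM.inv.posSemidef (psd (B := B) hp hM)
  rw [show kM (fun x => (Ξ x)ᴴ * G x * Ξ x) z v = (Bᴴ * G z * B -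
      ((Ξ z)ᴴ * G z * B)ᴴ * ((Ξ z)ᴴ * G z * Ξ z)⁻¹ * ((Ξ z)ᴴ * G z * B)) +
      (Ξ z)ᴴ * kM G z v * Ξ z by rw [kM, p1, p2]; abel, Matrix.mul_add, Matrix.trace_add, add_re]
  linarith

end Pool.Agent.Lib.HS95
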