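import Pool.Agent.Lib.HS95.Blue2

/-! Project hs9, section 4: derivatives of a function of the last coordinates. -/

open scoped Topology ContDiff ComplexOrder Matrix
open Set Filter Metric Complex

noncomputable section

namespace Pool.Agent.Lib.HS95

open Pool.Agent.Lib.SV (E)
open Pool.Agent.Lib.HS32 (Mat nq hess dz dzb)

namespace HBK

variable {n : ℕ}

theorem sum_dz (F : E n → ℂ) (z v : E n) :
    ∑ j, dz j F z * v j = (fderiv ℝ F z v - I * fderiv ℝ F z (I • v)) / 2 := by
  rw [HS32.fderiv_eq_sum, HS32.fderiv_eq_sum, Finset.mul_sum, ← Finset.sum_sub_distrib,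
    Finset.sum_div]
  refine Finset.sum_congr rfl fun j _ => ?_
  simp only [Pi.smul_apply, smul_eq_mul, star_mul', star_def, conj_I]
  linear_combination ((dz j F z * v j - dzb j F z * (starRingEnd ℂ) (v j)) / 2) * I_mul_I

theorem sum_dzb (F : E n → ℂ) (z v : E n) :
    ∑ j, dzb j F z * star (v j) = (fderiv ℝ F z v + I * fderiv ℝ F z (I • v)) / 2 := by
  rw [HS32.fderiv_eq_sum, HS32.fderiv_eq_sum, Finset.mul_sum, ← Finset.sum_add_distrib,
    Finset.sum_div]
  refine Finset.sum_congr rfl fun j _ => ?_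
  simp only [Pi.smul_apply, smul_eq_mul, star_mul', star_def, conj_I]
  linear_combination ((dzb j F z * (starRingEnd ℂ) (v j) - dz j F z * v j) / 2) * I_mul_I

theorem hess_form {F : E n → ℂ} {z : E n} (h : ContDiffAt ℝ ∞ F z) (v : E n) :
    4 * (star v ⬝ᵥ hess F z *ᵥ v) = d2 F z v v + d2 F z (I • v) (I • v) := by
  have hd : ∀ j, DifferentiableAt ℝ (dz j F) z := fun j => HS32.cd_diff (HS32.cd_dz h j)
  have h1 : star v ⬝ᵥ hess F z *ᵥ v = ∑ i, dzb i (fun w => ∑ j, dz j F w * v j) z * star (v i) := by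
    refine Finset.sum_congr rfl fun i _ => ?_
    rw [HS32.dzb_sum fun j _ => (hd j).mul_const _, mul_comm]
    simp only [Matrix.mulVec, dotProduct, Pi.star_apply]
    refine congrArg (· * star (v i)) (Finset.sum_congr rfl fun j _ => ?_)
    rw [HS32.dzb_mul (hd j) (differentiableAt_const _)]
    simp [mul_comm]
  have h2 : ∀ u, fderiv ℝ (fun w => ∑ j, dz j F w * v j) z u =
      (d2 F z u v - I * d2 F z u (I • v)) / 2 := fun u => by
    have a := (HS32.cd_diff (HS32.cd_fderiv h v)).hasFDerivAt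
    have b := (HS32.cd_diff (HS32.cd_fderiv h (I • v))).hasFDerivAt
    simp only [sum_dz, div_eq_mul_inv]
    rw [((a.fun_sub (b.const_mul I)).mul_const (2 : ℂ)⁻¹).fderiv]
    simp [d2, mul_comm]
  rw [h1, sum_dzb, h2, h2, d2_symm (HS32.cd_le h 2) (I • v) v]
  linear_combination (-d2 F z (I • v) (I • v)) * I_mul_I

variable {k : ℕ}

/-- The second projection as a real linear map. -/
def upR (k : ℕ) : E n →L[ℝ] (Hi n k → ℂ) := (upL k).restrictScalars ℝ

theorem fd_up {β : Type} [NormedAddCommGroup β] [NormedSpace ℝ β] {f : (Hi n k → ℂ) → β} {z : E n}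
    (h : DifferentiableAt ℝ f (up k z)) (x : E n) :
    fderiv ℝ (fun w => f (up k w)) z x = fderiv ℝ f (up k z) (up k x) :=
  congrArg (fun L : E n →L[ℝ] β => L x)
    (HasFDerivAt.comp (g := f) (f := up k) z h.hasFDerivAt (upR k).hasFDerivAt).fderiv

theorem fd_re {ι : Type} [Fintype ι] {f : (ι → ℂ) → ℝ} {y : ι → ℂ} (h : DifferentiableAt ℝ f y)
    (x : ι → ℂ) : fderiv ℝ (fun w => (f w : ℂ)) y x = (fderiv ℝ f y x : ℝ) :=
  congrArg (fun L : (ι → ℂ) →L[ℝ] ℂ => L x) (ofRealCLM.hasFDerivAt.comp y h.hasFDerivAt).fderiv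

theorem d2_up {f : (Hi n k → ℂ) → ℝ} {z : E n} (h : ContDiffAt ℝ ∞ f (up k z)) (u v : E n) :
    d2 (fun w => (f (up k w) : ℂ)) z u v = (d2 f (up k z) (up k u) (up k v) : ℝ) := by
  have h1 : ∀ᶠ y in 𝓝 (up k z), DifferentiableAt ℝ f y :=
    ((h.of_le (m := 1) (by exact_mod_cast le_top)).eventually (by simp)).mono
      fun y hy => hy.differentiableAt (by simp)
  have h2 : (fun w => fderiv ℝ (fun w => (f (up k w) : ℂ)) w v) =ᶠ[𝓝 z]
      fun w => ((fun y => ((fderiv ℝ f y (up k v) : ℝ) : ℂ)) (up k w)) := by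
    filter_upwards [(continuous_up k).continuousAt.eventually h1] with w hw
    rw [fd_up (f := fun y => (f y : ℂ)) (ofRealCLM.differentiableAt.comp _ hw), fd_re hw]
  have h3 : DifferentiableAt ℝ (fun y => fderiv ℝ f y (up k v)) (up k z) :=
    ((h.fderiv_right (m := ∞) (by simp)).clm_apply contDiffAt_const).differentiableAt (by simp)
  rw [d2, h2.fderiv_eq, fd_up (f := fun y => ((fderiv ℝ f y (up k v) : ℝ) : ℂ))
    (ofRealCLM.differentiableAt.comp _ h3), fd_re h3, d2]

theorem up_lo {i : Fin n} (hi : i.val < k) (c : ℂ) : up k (Pi.single i c : E n) = 0 := by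
  funext a
  have h : a.1 ≠ i := fun e => a.2 (by rw [e]; exact hi)
  simp [up, h]

theorem up_hi (a : Hi n k) (c : ℂ) : up k (Pi.single a.1 c : E n) = Pi.single a c := by
  funext b
  simp only [up, Pi.single_apply, Subtype.ext_iff]

end HBK

open HBK in
theorem st_HB : St_HB := by
  intro n k F z
  refine ⟨fun f hf e v => ?_, fun f hf e => ⟨fun i hi => ?_, fun a => ?_⟩⟩
  · have h1 : ContDiffAt ℝ ∞ (fun w => (f (up k w) : ℂ)) z :=
      HS32.cd_ofReal (ContDiffAt.comp (g := f) (f := up k) z hf (upR k).contDiff.contDiffAt)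
    have h2 := congrArg re (hess_form h1 v)
    rw [d2_up hf, d2_up hf, show up k (I • v) = I • up k v from rfl] at h2
    rw [HS32.hess_congr e, nq, lv]
    simpa using h2
  · rw [HS32.dz_congr e, HS32.dzb_congr e, dz, dzb, fd_up hf, fd_up hf, up_lo hi, up_lo hi]
    simp
  · rw [HS32.dz_congr e, dz, fd_up hf, fd_up hf, up_hi, up_hi]
    ring

end Pool.Agent.Lib.HS95
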