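import Pool.Agent.Lib.HS95.Blue2

/-! Project hs9, section 4: the split atlas. -/

open scoped Topology ContDiff ComplexOrder Matrix
open Set Filter Metric Complex MeasureTheory

noncomputable section

namespace Pool.Agent.Lib.HS95

open Pool.Agent.Lib.SV (E)
open Pool.Agent.Lib.HS32 (Mat Mf pr nq hess dz dzb HolN ClM)

namespace INK

variable {n k : ℕ}

theorem pr_ct : (pr k : Mat n)ᴴ = pr k := by
  rw [pr, Matrix.diagonal_conjTranspose]
  refine congrArg _ (funext fun i => ?_)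
  by_cases h : i.val < k <;> simp [h]

theorem pr_pr : (pr k : Mat n) * pr k = pr k := by
  rw [pr, Matrix.diagonal_mul_diagonal]
  refine congrArg _ (funext fun i => ?_)
  by_cases h : i.val < k <;> simp [h]

theorem off {J : Mat n} (h : J * pr k = pr k * J) (a : Lo n k) (b : Hi n k) : J a.1 b.1 = 0 := by
  have := congrFun (congrFun h a.1) b.1
  rw [pr, Matrix.mul_diagonal, Matrix.diagonal_mul, if_pos a.2, if_neg b.2] at this
  simpa using this.symm

theorem lb_mul {J : Mat n} (h : J * pr k = pr k * J) (B : Mat n) :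
    lb k (B * J) = lb k B * lb k J := by
  ext a b
  simp only [lb, Matrix.submatrix_apply, Matrix.mul_apply]
  rw [← Fintype.sum_subtype_add_sum_subtype (fun i : Fin n => i.val < k),
    Finset.sum_eq_zero fun c _ => by rw [off h c b, mul_zero], zero_add]

theorem lb_ct (B : Mat n) : lb k Bᴴ = (lb k B)ᴴ := rfl

theorem lb_conj {J : Mat n} (h : J * pr k = pr k * J) (B : Mat n) :
    lb k (Jᴴ * B * J) = (lb k J)ᴴ * lb k B * lb k J := by
  have e : Jᴴ * B = (Bᴴ * J)ᴴ := by simp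
  rw [lb_mul h, e, lb_ct, lb_mul h, Matrix.conjTranspose_mul, lb_ct,
    Matrix.conjTranspose_conjTranspose]

theorem unit {J H H' : Mat n} (h : J * pr k = pr k * J) (h1 : H * pr k = pr k)
    (h2 : H' * pr k = pr k) (e : H' = Jᴴ * H * J) : (J * pr k)ᴴ * (J * pr k) = pr k := by
  have h3 : H * (J * pr k) = J * pr k := by rw [h, ← Matrix.mul_assoc, h1]
  rw [Matrix.conjTranspose_mul, pr_ct]
  conv_lhs => rw [← h3]
  have h4 : pr k * Jᴴ * (H * (J * pr k)) = pr k * (Jᴴ * H * J * pr k) := by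
    simp only [Matrix.mul_assoc]
  rw [h4, ← e, h2, pr_pr]

end INK

open INK in
theorem st_IN (hT : HS32.St_TR) (h1 : St_IN0) (h2 : St_TI) (h3 : St_IN2) (h4 : St_BLK) :
    St_IN := by
  intro n M _ H P G k u hp
  obtain ⟨-, -, ε, κ, hε, hκ, hb⟩ := h4 n M H P G k u hp
  choose G' hG using fun i : {e : M.Ch // M.Prod H P k e ∧ Convex ℝ e.target} =>
    h2 n k i.1.target (G i.1) ε i.1.open_target i.2.2 hε fun z hz =>
      ⟨hp.kG.sm _ i.2.1.mem z hz, hp.kG.pos _ i.2.1.mem z hz, hp.kG.cl _ i.2.1.mem z hz,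
        (hb _ i.2.1 z hz).1⟩
  refine ⟨⟨_, fun i => i.1.transHomeomorph (spl k).toHomeomorph, G', κ, hκ, fun x => ?_,
    fun i p hq => ?_, fun i j x hi hj => ?_⟩,
    ⟨⟨Subtype.val, Subtype.val_injective, fun i => i.2.1, fun _ => rfl,
      fun i z hz => (hG i z hz).1⟩⟩⟩
  · obtain ⟨e, he, hx, hc⟩ := h1 n M H P k hp.kH.toTen hp.flat.en hp.atl x
    exact ⟨⟨e, he, hc⟩, hx⟩
  · have hz : jn k p.1 p.2 ∈ i.1.target := hq
    obtain ⟨a1, a2, a3, a4, a5⟩ := hG i _ hz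
    rw [up_jn] at a1 a2 a3 a4 a5
    refine ⟨a2, a3, a4, fun v => ?_⟩
    have b1 := a5 (jn k 0 v)
    have b2 := (hb _ i.2.1 _ hz).2 (jn k 0 v)
    have b3 : hess (HS32.ld (G i.1)) (jn k p.1 p.2) = M.theta H u i.1 (jn k p.1 p.2) :=
      neg_injective (hp.ric _ i.2.1.mem _ hz)
    rw [up_jn] at b1 b2
    rw [b1, b3, a1]
    exact b2
  · have hi' : x ∈ i.1.source := hi
    have hj' : x ∈ j.1.source := hj
    obtain ⟨t1, -, -, t2, -⟩ := (hT n M).2.1 _ j.2.1.mem _ i.2.1.mem x hj' hi'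
    have t3 : ∀ᶠ w in 𝓝 (i.1 x), w ∈ i.1.target ∧ (j.1 ∘ i.1.symm) w ∈ j.1.target ∧
        HS32.jm (j.1 ∘ i.1.symm) w * pr k = pr k * HS32.jm (j.1 ∘ i.1.symm) w ∧
        (∀ T, M.Ten T → T i.1 w = (HS32.jm (j.1 ∘ i.1.symm) w)ᴴ * T j.1 ((j.1 ∘ i.1.symm) w) *
          HS32.jm (j.1 ∘ i.1.symm) w) := by
      filter_upwards [t2] with w ⟨c1, c2, c3, c4, _, c6, c7⟩
      refine ⟨c1, c4, ?_, fun T hT' => ?_⟩
      · have := hp.flat.en.cmp _ j.2.1.mem _ i.2.1.mem _ c2 c3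
        beta_reduce at this
        rwa [c6, c7, i.2.1.prj w c1, j.2.1.prj _ c4] at this
      · have := hT'.cmp _ j.2.1.mem _ i.2.1.mem _ c2 c3
        beta_reduce at this
        rwa [c6, c7] at this
    obtain ⟨A, φ, hA⟩ := h3 n k _ _ t1 (t3.mono fun w ⟨c1, c2, c3, c4⟩ =>
      ⟨c3, unit c3 (j.2.1.blk _ c2) (i.2.1.blk _ c1) (c4 H hp.kH.toTen)⟩)
    refine ⟨A, φ, ?_, ?_⟩
    · filter_upwards [(i.1.continuousAt hi').eventually hA, i.1.open_source.mem_nhds hi']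
        with y hy hy'
      obtain ⟨d1, d2, -⟩ := hy
      simp only [Function.comp_apply, i.1.left_inv hy', i.1.left_inv hi'] at d1 d2
      exact Prod.ext d1 d2
    · have hc : Tendsto (fun y => jn k (lo k (i.1 x)) y) (𝓝 (up k (i.1 x))) (𝓝 (i.1 x)) := by
        have := ((continuous_jn k).comp (Continuous.prodMk_right (lo k (i.1 x)))).tendsto
          (up k (i.1 x))
        simpa only [Function.comp_def, jn_lo_up] using this
      refine (hc.eventually (t3.and hA)).mono fun y ⟨⟨c1, c2, c3, c4⟩, _, d2, d3, d4⟩ => ?_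
      have e1 := (hG i _ c1).1
      have e2 := (hG j _ c2).1
      rw [d2] at e2
      rw [up_jn] at e1 e2 d3 d4
      refine ⟨d3, ?_⟩
      show (jm φ y)ᴴ * G' j (φ y) * jm φ y = G' i y
      rw [d4, e1, e2, c4 G hp.kG.toTen, lb_conj c3]

end Pool.Agent.Lib.HS95
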