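import Pool.Agent.Lib.HS95.Blue2

/-! Project hs9, section 4: product charts with convex image. -/

open scoped Topology ContDiff ComplexOrder Matrix
open Set Filter Metric Complex

set_option linter.unusedVariables false

noncomputable section

namespace Pool.Agent.Lib.HS95

open Pool.Agent.Lib.SV (E)
open Pool.Agent.Lib.HS32 (Mat Mf pr)

theorem st_IN0 (hT : HS32.St_TR) : St_IN0 := by
  intro n M H P k hH hP hA x
  obtain ⟨e, he, hx⟩ := hA x
  obtain ⟨r, hr, hb⟩ := Metric.isOpen_iff.1 e.open_target _ (e.map_source hx)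
  set e' : M.Ch := e.trans (OpenPartialHomeomorph.ofSet (ball (e x) r) isOpen_ball) with he'
  have hm : e' ∈ M.C := M.sat e he.mem _ differentiableOn_id differentiableOn_id
  have ht : e'.target = ball (e x) r := inter_eq_left.2 hb
  have hb' : ∀ z ∈ e'.target, z ∈ e.target := fun z hz => hz.2
  have hJ : ∀ z ∈ e'.target, M.J e e' (e'.symm z) = 1 := fun z hz => by
    have h1 : e' (e'.symm z) = z := e'.right_inv hz
    have h2 : (e ∘ e'.symm) =ᶠ[𝓝 z] fun w => w :=
      (e.open_target.eventually_mem (hb' z hz)).mono fun w hw => e.right_inv hw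
    ext i j
    simp only [Mf.J, h1, HS32.jm, h2.fderiv_eq, Matrix.of_apply, fderiv_fun_id,
      ContinuousLinearMap.id_apply, Matrix.one_apply, Pi.single_apply]
  have hs : ∀ z ∈ e'.target, e'.symm z ∈ e.source ∧ e (e'.symm z) = z := fun z hz =>
    ⟨(e'.map_target hz).1, e.right_inv (hb' z hz)⟩
  have h1 : ∀ z ∈ e'.target, H e' z = H e z := fun z hz => by
    have := hH.cmp e he.mem e' hm _ (hs z hz).1 (e'.map_target hz)
    simpa only [hJ z hz, e'.right_inv hz, (hs z hz).2, Matrix.conjTranspose_one, Matrix.one_mul,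
      Matrix.mul_one] using this
  have h2 : ∀ z ∈ e'.target, P e' z = P e z := fun z hz => by
    have := hP.cmp e he.mem e' hm _ (hs z hz).1 (e'.map_target hz)
    simpa only [hJ z hz, e'.right_inv hz, (hs z hz).2, Matrix.one_mul, Matrix.mul_one] using this
  refine ⟨e', ⟨hm, fun z hz => ?_, fun z hz => ?_, fun z hz i hi => ?_⟩,
    ⟨hx, mem_ball_self hr⟩, ht ▸ convex_ball _ _⟩
  · rw [h2 z hz, he.prj z (hb' z hz)]
  · rw [h1 z hz, he.blk z (hb' z hz)]
  · rw [HS32.dM_congr ((e'.open_target.eventually_mem hz).mono h1), he.cst z (hb' z hz) i hi]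

end Pool.Agent.Lib.HS95
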