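import Pool.Agent.Lib.HS95.Blue2

/-! A holomorphic map that preserves the splitting and is unitary in the first directions. -/

open scoped Topology ContDiff ComplexOrder Matrix
open Set Filter Metric Complex

set_option linter.unusedVariables false

noncomputable section

namespace Pool.Agent.Lib.HS95

open Pool.Agent.Lib.SV (E)
open Pool.Agent.Lib.HS32 (Mat pr HolN dMb)

namespace IN2K

variable {n : ℕ} {k : ℕ}

theorem pr_apply (v : E n) (i : Fin n) : ((pr k : Mat n) *ᵥ v) i = if i.val < k then v i else 0 := by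
  simp [pr, Matrix.mulVec_diagonal]

theorem pr_ct : (pr k : Mat n)ᴴ = pr k := by
  rw [pr, Matrix.diagonal_conjTranspose]
  congr 1
  funext i
  by_cases h : i.val < k <;> simp [h]

theorem pr_pr : (pr k : Mat n) * pr k = pr k := by
  rw [pr, Matrix.diagonal_mul_diagonal]
  congr 1
  funext i
  by_cases h : i.val < k <;> simp [h]

theorem lo_pr (v : E n) : lo k ((pr k : Mat n) *ᵥ v) = lo k v := by
  ext a; simp [lo, pr_apply, a.2]

theorem up_pr (v : E n) : up k ((pr k : Mat n) *ᵥ v) = 0 := by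
  ext a; simp only [up, pr_apply, if_neg a.2, Pi.zero_apply]

theorem jn_lo (v : E n) : jn k (lo k v) 0 = (pr k : Mat n) *ᵥ v := by
  ext i; by_cases h : i.val < k <;> simp [jn, lo, pr_apply, h]

theorem norm_lo (u : E n) : ((‖lo k u‖ ^ 2 : ℝ) : ℂ) = star u ⬝ᵥ (pr k : Mat n) *ᵥ u := by
  rw [EuclideanSpace.norm_sq_eq]
  have := Fintype.sum_subtype_add_sum_subtype (fun i : Fin n => i.val < k)
    fun i => star (u i) * ((pr k : Mat n) *ᵥ u) i
  rw [dotProduct]
  simp only [Pi.star_apply]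
  rw [← this]
  have h0 : ∑ i : Hi n k, star (u i.1) * ((pr k : Mat n) *ᵥ u) i.1 = 0 :=
    Finset.sum_eq_zero fun i _ => by rw [pr_apply, if_neg i.2, mul_zero]
  rw [h0, add_zero]
  push_cast
  refine Finset.sum_congr rfl fun i _ => ?_
  rw [pr_apply, if_pos i.2]
  exact (Complex.conj_mul' _).symm

theorem norm_J {J : Mat n} (h1 : J * pr k = pr k * J) (h2 : (J * pr k)ᴴ * (J * pr k) = pr k)
    (v : E n) : ‖lo k (J *ᵥ v)‖ = ‖lo k v‖ := by
  have e : Jᴴ * (pr k * J) = pr k := by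
    rw [h1, Matrix.conjTranspose_mul, pr_ct, Matrix.mul_assoc, ← Matrix.mul_assoc (pr k),
      pr_pr] at h2
    exact h2
  have : ((‖lo k (J *ᵥ v)‖ ^ 2 : ℝ) : ℂ) = ((‖lo k v‖ ^ 2 : ℝ) : ℂ) := by
    rw [norm_lo, norm_lo, Matrix.star_mulVec, ← Matrix.dotProduct_mulVec, Matrix.mulVec_mulVec,
      Matrix.mulVec_mulVec, Matrix.mul_assoc, e]
  exact (sq_eq_sq₀ (norm_nonneg _) (norm_nonneg _)).1 (by exact_mod_cast this)

/-- The first columns of the Jacobian matrix have vanishing derivative. -/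
theorem col_der (hC : HS32.St_CHN) {ψ : E n → E n} {z : E n} (hψ : HolN ψ z)
    (h : ∀ᶠ w in 𝓝 z, HS32.jm ψ w * pr k = pr k * HS32.jm ψ w ∧
      (HS32.jm ψ w * pr k)ᴴ * (HS32.jm ψ w * pr k) = pr k) (i j : Fin n) :
    DifferentiableAt ℝ (fun w => (HS32.jm ψ w * pr k + (1 - pr k) : Mat n) i j) z ∧
      fderiv ℝ (fun w => (HS32.jm ψ w * pr k + (1 - pr k) : Mat n) i j) z = 0 := by
  obtain ⟨-, sm, -, hb, -⟩ := hC n ψ z hψ
  set W : E n → Mat n := fun w => HS32.jm ψ w * pr k + (1 - pr k) with hW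
  have s1 : HS32.SmM (fun w => HS32.jm ψ w * pr k) z := sm.mul (HS32.smM_const _)
  have sW : HS32.SmM W z := s1.add (HS32.smM_const _)
  have bW : ∀ l, dMb l W z = 0 := by
    intro l
    rw [hW, HS32.dMb_add s1 (HS32.smM_const _), HS32.dMb_mul sm (HS32.smM_const _), hb]
    simp
  have uW : (fun w => (W w)ᴴ * W w) =ᶠ[𝓝 z] fun _ => 1 := by
    filter_upwards [h] with w hw
    have a1 : (1 - pr k) * (HS32.jm ψ w * pr k) = 0 := by
      rw [hw.1, Matrix.sub_mul, Matrix.one_mul, ← Matrix.mul_assoc, pr_pr, sub_self]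
    have c1 : ((1 : Mat n) - pr k)ᴴ = 1 - pr k := by
      rw [Matrix.conjTranspose_sub, pr_ct, Matrix.conjTranspose_one]
    have a2 : (HS32.jm ψ w * pr k)ᴴ * (1 - pr k) = 0 := by
      rw [← c1, ← Matrix.conjTranspose_mul, a1, Matrix.conjTranspose_zero]
    have a3 : ((1 : Mat n) - pr k) * (1 - pr k) = 1 - pr k := by
      rw [Matrix.sub_mul, Matrix.one_mul, Matrix.mul_sub, Matrix.mul_one, pr_pr, sub_self, sub_zero]
    simp only [hW]
    rw [Matrix.conjTranspose_add, c1, Matrix.add_mul, Matrix.mul_add, Matrix.mul_add, hw.2, a1, a2,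
      a3]
    abel
  have dW : ∀ l : Fin n, HS32.dM l W z = 0 := by
    intro l
    have e := HS32.dM_congr (k := l) uW
    rw [HS32.dM_mul sW.ct sW, HS32.dM_ct sW, bW, HS32.dM_const] at e
    have u1 : (W z)ᴴ * W z = 1 := uW.eq_of_nhds
    have u2 : W z * (W z)ᴴ = 1 := mul_eq_one_comm.1 u1
    have e2 : (W z)ᴴ * HS32.dM l W z = 0 := by simpa using e
    rw [← Matrix.one_mul (HS32.dM l W z), ← u2, Matrix.mul_assoc, e2, Matrix.mul_zero]
  refine ⟨sW.diff i j, ContinuousLinearMap.ext fun v => ?_⟩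
  rw [HS32.fderiv_eq_sum]
  refine Finset.sum_eq_zero fun l _ => ?_
  have p1 : HS32.dz l (fun w => W w i j) z = 0 := congrFun (congrFun (dW l) i) j
  have p2 : HS32.dzb l (fun w => W w i j) z = 0 := congrFun (congrFun (bW l) i) j
  rw [p1, p2]
  simp

theorem jn_mem {z u w : E n} {r : ℝ} (hr : 0 < r) (hu : u ∈ ball z r) (hw : w ∈ ball z r) :
    jn k (lo k u) (up k w) ∈ ball z r := by
  rw [mem_ball, dist_pi_lt_iff hr] at *
  intro i
  by_cases h : i.val < k
  · simpa [jn, lo, h] using hu i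
  · simpa [jn, up, h] using hw i

theorem up_single (b : Hi n k) : up k (Pi.single b.1 1 : E n) = Pi.single b 1 := by
  ext a
  simp only [up, Pi.single_apply, Subtype.ext_iff]

end IN2K

open IN2K in
theorem st_IN2 (hC : HS32.St_CHN) : St_IN2 := by
  intro n k ψ z hψ h
  obtain ⟨r, hr, hb⟩ := Metric.eventually_nhds_iff_ball.1
    ((hψ.eventually_nhds.and h.eventually_nhds).and (hψ.and h))
  have mv : ∀ w v, fderiv ℂ ψ w v = HS32.jm ψ w *ᵥ v := fun w v => (jm_mulVec ψ w v).symm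
  have hz : z ∈ ball z r := mem_ball_self hr
  have pc : IsPreconnected (ball z r) := (convex_ball z r).isPreconnected
  have cst : ∀ w ∈ ball z r, HS32.jm ψ w * pr k = HS32.jm ψ z * pr k := by
    intro w hw
    have : HS32.jm ψ w * pr k + (1 - pr k) = HS32.jm ψ z * pr k + (1 - pr k) := by
      ext i j
      exact isOpen_ball.is_const_of_fderiv_eq_zero (𝕜 := ℝ)
        (f := fun w => (HS32.jm ψ w * pr k + (1 - pr k) : Mat n) i j) pc
        (fun u hu => (col_der hC (hb u hu).1.1 (hb u hu).1.2 i j).1.differentiableWithinAt)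
        (fun u hu => (col_der hC (hb u hu).1.1 (hb u hu).1.2 i j).2) hw hz
    exact add_right_cancel this
  let inL : Vk n k →L[ℂ] E n :=
    (spl k).symm.toContinuousLinearMap.comp (ContinuousLinearMap.inl ℂ _ _)
  let A0 : Vk n k →L[ℂ] Vk n k := (loL k).comp ((fderiv ℂ ψ z).comp inL)
  have hA0 : ∀ t, A0 t = lo k (HS32.jm ψ z *ᵥ jn k t 0) := fun t => by rw [← mv]; rfl
  have nA : ∀ t, ‖A0 t‖ = ‖t‖ := fun t => by
    rw [hA0, norm_J (hb z hz).2.2.1 (hb z hz).2.2.2, lo_jn]
  let A1 : Vk n k →ₗᵢ[ℂ] Vk n k := ⟨A0.toLinearMap, nA⟩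
  have dj : ∀ (t : Vk n k) (y : Hi n k → ℂ), DifferentiableAt ℂ (fun y => jn k t y) y :=
    fun t y => (spl k).symm.differentiableAt.comp y
      ((differentiableAt_const t).prodMk differentiableAt_id)
  have hup : ∀ w ∈ ball z r, up k (ψ w) = up k (ψ (jn k (lo k z) (up k w))) := by
    intro w hw
    have hd : ∀ u ∈ ball z r, HasFDerivAt (fun u => up k (ψ (jn k (lo k u) (up k w))))
        (0 : E n →L[ℂ] Hi n k → ℂ) u := by
      intro u hu
      have m := hb _ (jn_mem (k := k) hr hu hw)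
      have h1 : HasFDerivAt (fun u : E n => jn k (lo k u) (up k w))
          ((spl k).symm.toContinuousLinearMap.comp ((loL k).prod 0)) u :=
        (spl k).symm.hasFDerivAt.comp u ((loL k).hasFDerivAt.prodMk (hasFDerivAt_const (up k w) u))
      have h2 := (upL k).hasFDerivAt.comp u (m.2.1.hasFDerivAt.comp u h1)
      refine h2.congr_fderiv (ContinuousLinearMap.ext fun v => ?_)
      show up k (fderiv ℂ ψ _ (jn k (lo k v) 0)) = 0
      rw [mv, jn_lo, Matrix.mulVec_mulVec, m.2.2.1, ← Matrix.mulVec_mulVec, up_pr]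
    have := isOpen_ball.is_const_of_fderiv_eq_zero (𝕜 := ℂ) pc
      (fun u hu => (hd u hu).differentiableAt.differentiableWithinAt)
      (fun u hu => (hd u hu).fderiv) hw hz
    simpa only [jn_lo_up] using this
  have dφ : ∀ w ∈ ball z r,
      DifferentiableAt ℂ (fun y => up k (ψ (jn k (lo k z) y))) (up k w) := fun w hw =>
    (upL k).differentiableAt.comp _
      (DifferentiableAt.comp _ (hb _ (jn_mem (k := k) hr hz hw)).2.1 (dj _ _))
  refine ⟨A1.toLinearIsometryEquiv rfl, fun y => up k (ψ (jn k (lo k z) y)), ?_⟩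
  filter_upwards [ball_mem_nhds z hr] with w hw
  refine ⟨?_, hup w hw, dφ w hw, ?_⟩
  · have hd : ∀ u ∈ ball z r, HasFDerivAt (fun u => lo k (ψ u) - A0 (lo k u))
        (0 : E n →L[ℂ] Vk n k) u := by
      intro u hu
      have m := hb u hu
      have h2 := ((loL k).hasFDerivAt.comp u m.2.1.hasFDerivAt).sub
        (A0.comp (loL k)).hasFDerivAt
      refine h2.congr_fderiv (ContinuousLinearMap.ext fun v => ?_)
      show lo k (fderiv ℂ ψ u v) - A0 (lo k v) = 0
      rw [hA0, mv, jn_lo, Matrix.mulVec_mulVec, ← cst u hu, m.2.2.1, ← Matrix.mulVec_mulVec, lo_pr,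
        sub_self]
    have := isOpen_ball.is_const_of_fderiv_eq_zero (𝕜 := ℂ) pc
      (fun u hu => (hd u hu).differentiableAt.differentiableWithinAt)
      (fun u hu => (hd u hu).fderiv) hw hz
    show lo k (ψ w) = A0 (lo k w - lo k z) + lo k (ψ z)
    rw [map_sub, sub_eq_iff_eq_add.1 this]
    abel
  · have e : (fun u => up k (ψ u)) =ᶠ[𝓝 w]
        (fun y => up k (ψ (jn k (lo k z) y))) ∘ fun u => up k u := by
      filter_upwards [isOpen_ball.mem_nhds hw] with u hu using hup u hu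
    have h1 := ((dφ w hw).hasFDerivAt.comp w (upL k).hasFDerivAt).congr_of_eventuallyEq e
    have h2 := (upL k).hasFDerivAt.comp w (hb w hw).2.1.hasFDerivAt
    have h3 := h1.unique h2
    ext a b
    have h4 := congrFun (congrArg (fun L => L (Pi.single b.1 1)) h3) a
    simp only [ContinuousLinearMap.comp_apply, upL_apply, up_single] at h4
    exact h4

end Pool.Agent.Lib.HS95
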