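import Pool.Agent.Lib.HS95.Blue

/-! Project hs9, section 4: isometries are under control on a fixed ball. -/

open scoped Topology ContDiff ComplexOrder Matrix
open Set Filter Metric Complex

noncomputable section

namespace Pool.Agent.Lib.HS95

namespace J0K

variable {ι : Type} [Fintype ι] [DecidableEq ι]

omit [DecidableEq ι] in
theorem qf_smul (M : Matrix ι ι ℂ) (t : ℝ) (v : ι → ℂ) :
    qf M ((t : ℂ) • v) = t ^ 2 * qf M v := by
  have : star ((t : ℂ) • v) ⬝ᵥ M *ᵥ ((t : ℂ) • v) = ((t ^ 2 : ℝ) : ℂ) * (star v ⬝ᵥ M *ᵥ v) := by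
    rw [star_smul, Matrix.mulVec_smul, smul_dotProduct, dotProduct_smul]
    simp only [smul_eq_mul, RCLike.star_def, conj_ofReal]
    push_cast
    ring
  rw [qf, this, re_ofReal_mul, qf]

omit [DecidableEq ι] in
theorem qf_bounds {K : Set (ι → ℂ)} (hK : IsCompact K) {G : (ι → ℂ) → Matrix ι ι ℂ}
    (hs : ∀ w ∈ K, SmM G w) (hp : ∀ w ∈ K, (G w).PosDef) :
    ∃ m > 0, ∃ C ≥ 0, ∀ w ∈ K, ∀ v, m * ‖v‖ ^ 2 ≤ qf (G w) v ∧ qf (G w) v ≤ C * ‖v‖ ^ 2 := by
  have hc : ContinuousOn (fun q : (ι → ℂ) × (ι → ℂ) => qf (G q.1) q.2) (K ×ˢ sphere 0 1) := by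
    intro q hq
    apply ContinuousAt.continuousWithinAt
    simp only [qf, dotProduct, Matrix.mulVec, Pi.star_apply]
    refine continuous_re.continuousAt.comp ?_
    refine tendsto_finsetSum _ fun a _ => ?_
    refine ContinuousAt.mul (by fun_prop) ?_
    refine tendsto_finsetSum _ fun b _ => ?_
    exact ContinuousAt.mul ((hs q.1 hq.1 a b).continuousAt.comp continuousAt_fst) (by fun_prop)
  have hk := hK.prod (isCompact_sphere (0 : ι → ℂ) 1)
  obtain ⟨m, hm, h1⟩ := hk.exists_forall_le' hc (a := 0) fun q hq => by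
    have h0 : q.2 ≠ 0 := fun h => by simpa [h] using hq.2
    exact (Complex.pos_iff.1 ((hp q.1 hq.1).dotProduct_mulVec_pos h0)).1
  obtain ⟨C, h2⟩ := hk.exists_bound_of_continuousOn hc
  refine ⟨m, hm, max C 0, le_max_right _ _, fun w hw v => ?_⟩
  by_cases hv : v = 0
  · simp [hv, qf]
  have hn : ‖v‖ ≠ 0 := norm_ne_zero_iff.2 hv
  have hu : ((‖v‖⁻¹ : ℝ) : ℂ) • v ∈ sphere (0 : ι → ℂ) 1 := by
    simp [norm_smul, hn]
  have e : qf (G w) v = ‖v‖ ^ 2 * qf (G w) (((‖v‖⁻¹ : ℝ) : ℂ) • v) := by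
    rw [qf_smul]; field_simp
  have a1 := h1 (w, _) ⟨hw, hu⟩
  have a2 := (le_abs_self _).trans ((h2 (w, _) ⟨hw, hu⟩).trans (le_max_left C 0))
  rw [e, mul_comm m, mul_comm (max C 0)]
  exact ⟨mul_le_mul_of_nonneg_left a1 (by positivity), mul_le_mul_of_nonneg_left a2 (by positivity)⟩

theorem jm_mulVec (φ : (ι → ℂ) → ι → ℂ) (z v : ι → ℂ) : jm φ z *ᵥ v = fderiv ℂ φ z v := by
  ext a
  conv_rhs => rw [pi_eq_sum_univ' v]
  simp [jm, Matrix.mulVec, dotProduct, mul_comm]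

theorem qf_iso {G G' : (ι → ℂ) → Matrix ι ι ℂ} {φ : (ι → ℂ) → ι → ℂ} {z : ι → ℂ}
    (h : IsoAt G G' φ z) (v : ι → ℂ) : qf (G' (φ z)) (fderiv ℂ φ z v) = qf (G z) v := by
  rw [← h.iso, ← jm_mulVec, qf, qf, Matrix.star_mulVec, ← Matrix.dotProduct_mulVec,
    Matrix.mulVec_mulVec, Matrix.mulVec_mulVec]

end J0K

open J0K in
theorem st_J0 : St_J0 := by
  intro ι _ _ g j j' z hz p hp R hR
  obtain ⟨ρ1, h1, s1⟩ := nhds_basis_closedBall.mem_iff.1 ((g.c j).open_target.mem_nhds hz)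
  obtain ⟨ρ2, h2, s2⟩ := nhds_basis_closedBall.mem_iff.1 ((g.c j').open_target.mem_nhds hp)
  obtain ⟨ρ, hρ, a1, a2, a3⟩ : ∃ ρ > 0, ρ ≤ ρ1 ∧ ρ ≤ ρ2 ∧ ρ ≤ R :=
    ⟨min ρ1 (min ρ2 R), by positivity, min_le_left _ _,
      (min_le_right _ _).trans (min_le_left _ _), (min_le_right _ _).trans (min_le_right _ _)⟩
  have t1 : closedBall z ρ ⊆ (g.c j).target := (closedBall_subset_closedBall a1).trans s1
  have t2 : closedBall p ρ ⊆ (g.c j').target := (closedBall_subset_closedBall a2).trans s2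
  obtain ⟨m0, hm0, C, hC, b1⟩ := qf_bounds (isCompact_closedBall z ρ)
    (fun w hw => (g.met j w (t1 hw)).sm) fun w hw => (g.met j w (t1 hw)).pos
  obtain ⟨m, hm, C0, hC0, b2⟩ := qf_bounds (isCompact_closedBall p ρ)
    (fun w hw => (g.met j' w (t2 hw)).sm) fun w hw => (g.met j' w (t2 hw)).pos
  obtain ⟨L, hL, hL2⟩ : ∃ L ≥ 0, m * L ^ 2 = C :=
    ⟨√(C / m), Real.sqrt_nonneg _, by rw [Real.sq_sqrt (by positivity)]; field_simp⟩
  obtain ⟨r, hr, hr2⟩ : ∃ r > 0, (2 + 2 * L) * r = ρ :=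
    ⟨ρ / (2 + 2 * L), by positivity, by field_simp⟩
  have hLr : 0 ≤ L * r := by positivity
  have hrρ : r ≤ ρ := by nlinarith
  have t3 : ball z r ⊆ closedBall z ρ :=
    ball_subset_closedBall.trans (closedBall_subset_closedBall hrρ)
  refine ⟨r, hr, L, hL, hrρ.trans a3, (closedBall_subset_closedBall hrρ).trans t1,
    (closedBall_subset_closedBall hrρ).trans t2, fun f hf w₀ hw₀ g1 g2 => ?_⟩
  have hcont : ∀ w ∈ ball z r, ContinuousAt (fun w => f ((g.c j).symm w)) w := fun w hw =>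
    hf.cont.continuousAt.comp ((g.c j).continuousAt_symm (t1 (t3 hw)))
  have hD : ∀ w ∈ ball z r, f ((g.c j).symm w) ∈ (g.c j').source → g.T f j j' w ∈ ball p ρ →
      DifferentiableAt ℂ (g.T f j j') w ∧ ‖fderiv ℂ (g.T f j j') w‖ ≤ L := by
    intro w hw k1 k2
    have hi := hf.loc j j' _ ((g.c j).map_target (t1 (t3 hw))) k1
    rw [(g.c j).right_inv (t1 (t3 hw))] at hi
    refine ⟨hi.hol, ContinuousLinearMap.opNorm_le_bound _ hL fun v => ?_⟩
    have c1 := (b2 _ (ball_subset_closedBall k2) (fderiv ℂ (g.T f j j') w v)).1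
    have c2 := (b1 w (t3 hw) v).2
    rw [qf_iso hi] at c1
    have c3 : ‖fderiv ℂ (g.T f j j') w v‖ ^ 2 ≤ (L * ‖v‖) ^ 2 := by
      refine le_of_mul_le_mul_left ?_ hm
      rw [mul_pow, ← mul_assoc, hL2]
      exact c1.trans c2
    exact le_of_sq_le_sq c3 (by positivity)
  have hρ' : (1 + 2 * L) * r < ρ := by nlinarith
  have t4 : closedBall p ((1 + 2 * L) * r) ⊆ ball p ρ := closedBall_subset_ball hρ'
  have hK : IsClosed ((g.c j').symm '' closedBall p ((1 + 2 * L) * r)) :=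
    ((isCompact_closedBall _ _).image_of_continuousOn ((g.c j').continuousOn_symm.mono
      (t4.trans (ball_subset_closedBall.trans t2)))).isClosed
  have good : ∀ w, f ((g.c j).symm w) ∈ (g.c j').symm '' closedBall p ((1 + 2 * L) * r) →
      f ((g.c j).symm w) ∈ (g.c j').source ∧ g.T f j j' w ∈ ball p ρ := by
    rintro w ⟨q, hq, e⟩
    have hq' := t2 (ball_subset_closedBall (t4 hq))
    refine ⟨e ▸ (g.c j').map_target hq', ?_⟩
    rw [Geo.T, ← e, (g.c j').right_inv hq']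
    exact t4 hq
  have back : ∀ w, f ((g.c j).symm w) ∈ (g.c j').source →
      g.T f j j' w ∈ closedBall p ((1 + 2 * L) * r) →
      f ((g.c j).symm w) ∈ (g.c j').symm '' closedBall p ((1 + 2 * L) * r) := fun w k1 k2 =>
    ⟨_, k2, (g.c j').left_inv k1⟩
  have all : ∀ w ∈ ball z r, f ((g.c j).symm w) ∈ (g.c j').source ∧ g.T f j j' w ∈ ball p ρ := by
    intro w hw
    have hγ : ∀ s ∈ Icc (0 : ℝ) 1, AffineMap.lineMap w₀ w s ∈ ball z r := fun s hs =>
      (convex_ball z r).lineMap_mem hw₀ hw hs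
    have hγc : Continuous fun s : ℝ => AffineMap.lineMap w₀ w s := AffineMap.lineMap_continuous
    have hF : ∀ s ∈ Icc (0 : ℝ) 1,
        ContinuousAt (fun s : ℝ => f ((g.c j).symm (AffineMap.lineMap w₀ w s))) s := fun s hs =>
      ContinuousAt.comp (f := fun s : ℝ => AffineMap.lineMap w₀ w s) (hcont _ (hγ s hs))
        hγc.continuousAt
    have key : Icc (0 : ℝ) 1 ⊆ {s | f ((g.c j).symm (AffineMap.lineMap w₀ w s)) ∈
        (g.c j').symm '' closedBall p ((1 + 2 * L) * r)} := by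
      refine IsClosed.Icc_subset_of_forall_mem_nhdsGT_of_Icc_subset ?_ ?_ fun t ht hS => ?_
      · rw [inter_comm]
        exact ContinuousOn.preimage_isClosed_of_isClosed
          (fun s hs => (hF s hs).continuousWithinAt) isClosed_Icc hK
      · simp only [mem_ofPred_eq, AffineMap.lineMap_apply_zero]
        exact back _ g1 (ball_subset_closedBall (ball_subset_ball (by nlinarith) g2))
      · have ht' : t ∈ Icc (0 : ℝ) 1 := ⟨ht.1, ht.2.le⟩
        obtain ⟨k1, k2⟩ := good _ (hS ⟨ht.1, le_rfl⟩)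
        have ev : ∀ᶠ s in 𝓝 t, f ((g.c j).symm (AffineMap.lineMap w₀ w s)) ∈ (g.c j').source ∧
            g.T f j j' (AffineMap.lineMap w₀ w s) ∈ ball p ρ := by
          refine ((hF t ht').eventually ((g.c j').open_source.mem_nhds k1)).and ?_
          exact (ContinuousAt.comp
            (f := fun s : ℝ => f ((g.c j).symm (AffineMap.lineMap w₀ w s)))
            ((g.c j').continuousAt k1) (hF t ht')).eventually (isOpen_ball.mem_nhds k2)
        obtain ⟨u, hu, hu'⟩ := (nhdsGE_basis_Ico t).mem_iff.1 (mem_nhdsWithin_of_mem_nhds ev)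
        filter_upwards [Ioo_mem_nhdsGT (lt_min hu ht.2)] with s hs
        have hs1 : s ∈ Icc (0 : ℝ) 1 := ⟨ht.1.trans hs.1.le, (hs.2.trans_le (min_le_right _ _)).le⟩
        have gd : ∀ s' ∈ Icc 0 s,
            f ((g.c j).symm (AffineMap.lineMap w₀ w s')) ∈ (g.c j').source ∧
            g.T f j j' (AffineMap.lineMap w₀ w s') ∈ ball p ρ := fun s' hs' => by
          rcases le_total s' t with h | h
          · exact good _ (hS ⟨hs'.1, h⟩)
          · exact hu' ⟨h, hs'.2.trans_lt (hs.2.trans_le (min_le_left _ _))⟩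
        have hcv : Convex ℝ ((AffineMap.lineMap w₀ w : ℝ →ᵃ[ℝ] ι → ℂ) '' Icc 0 s) :=
          (convex_Icc 0 s).affine_image _
        have hd : ∀ q ∈ (AffineMap.lineMap w₀ w : ℝ →ᵃ[ℝ] ι → ℂ) '' Icc 0 s,
            DifferentiableAt ℂ (g.T f j j') q ∧ ‖fderiv ℂ (g.T f j j') q‖ ≤ L := by
          rintro _ ⟨s', hs', rfl⟩
          exact hD _ (hγ s' ⟨hs'.1, hs'.2.trans hs1.2⟩) (gd s' hs').1 (gd s' hs').2
        have mv := hcv.norm_image_sub_le_of_norm_fderiv_le (fun q hq => (hd q hq).1)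
          (fun q hq => (hd q hq).2) (x := w₀) (y := AffineMap.lineMap w₀ w s)
          ⟨0, ⟨le_rfl, hs1.1⟩, AffineMap.lineMap_apply_zero _ _⟩ ⟨s, ⟨hs1.1, le_rfl⟩, rfl⟩
        refine back _ (gd s ⟨hs1.1, le_rfl⟩).1 ?_
        have d1 : ‖AffineMap.lineMap w₀ w s - w₀‖ ≤ 2 * r := by
          have := dist_triangle_right (AffineMap.lineMap w₀ w s) w₀ z
          rw [dist_eq_norm] at this
          have u1 := mem_ball.1 (hγ s hs1)
          have u2 := mem_ball.1 hw₀
          linarith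
        have d2 := dist_triangle (g.T f j j' (AffineMap.lineMap w₀ w s)) (g.T f j j' w₀) p
        rw [← dist_eq_norm] at mv
        have d3 := mem_ball.1 g2
        have d4 := mul_le_mul_of_nonneg_left d1 hL
        rw [mem_closedBall]
        linarith
    have := good _ (key ⟨zero_le_one, le_rfl⟩)
    rwa [AffineMap.lineMap_apply_one] at this
  refine ⟨fun w hw => ⟨(all w hw).1, ball_subset_ball a3 (all w hw).2,
    (hD w hw (all w hw).1 (all w hw).2).2⟩, fun w hw w' hw' => ?_⟩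
  exact (convex_ball z r).norm_image_sub_le_of_norm_fderiv_le
    (fun q hq => (hD q hq (all q hq).1 (all q hq).2).1)
    (fun q hq => (hD q hq (all q hq).1 (all q hq).2).2) hw' hw

end Pool.Agent.Lib.HS95
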