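import Pool.Agent.Lib.HS95.Blue2

/-! The Jacobian determinants of the split atlas and of the manifold agree. -/

open scoped Topology Matrix
open Set Filter

noncomputable section

namespace Pool.Agent.Lib.HS95

open Pool.Agent.Lib.SV (E)

theorem st_JAC0 : St_JAC := by
  intro n M H P G k S L i j x hi hj
  have e : S.e j ∘ (S.e i).symm = spl k ∘ ((L.ch j ∘ (L.ch i).symm) ∘ (spl k).symm) := by
    funext p
    simp only [Function.comp_apply, L.app, L.symm, spl_apply, spl_symm]
  have e' : S.e i x = spl k (L.ch i x) := L.app i x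
  rw [Split.jac, e, e', ContinuousLinearEquiv.comp_fderiv,
    ContinuousLinearEquiv.comp_right_fderiv, ContinuousLinearEquiv.symm_apply_apply]
  refine (LinearMap.det_conj _ (spl k).toLinearEquiv).trans ?_
  rw [← LinearMap.det_toMatrix']
  refine congrArg Matrix.det (Matrix.ext fun a b => ?_)
  rw [LinearMap.toMatrix'_apply]
  rfl

theorem st_JAC (_ : HS32.St_TR) (_ : HS32.St_CHN) : St_JAC := st_JAC0

end Pool.Agent.Lib.HS95
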