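import Pool.Agent.Lib.HS95.Blue

/-! Project hs9, section 4: symmetry of the curvature of a Kähler metric. -/

open scoped Topology ContDiff ComplexOrder Matrix
open Set Filter Metric Complex

noncomputable section

namespace Pool.Agent.Lib.HS95

namespace KSYK

variable {ι : Type} [Fintype ι] [DecidableEq ι]

omit [DecidableEq ι] in
theorem hd0 {g : (ι → ℂ) → ℂ} {z : ι → ℂ} (h : ContDiffAt ℝ ∞ g z) :
    DifferentiableAt ℝ (fderiv ℝ g) z := by
  have h1 : ContDiffAt ℝ 1 (fderiv ℝ g) z :=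
    h.fderiv_right (m := 1) (WithTop.coe_le_coe.2 (le_top : (1 + 1 : ℕ∞) ≤ ⊤))
  exact h1.differentiableAt one_ne_zero

omit [DecidableEq ι] in
theorem hd {g : (ι → ℂ) → ℂ} {z : ι → ℂ} (h : ContDiffAt ℝ ∞ g z) (w : ι → ℂ) :
    DifferentiableAt ℝ (fun x => fderiv ℝ g x w) z :=
  (hd0 h).clm_apply (differentiableAt_const w)

omit [DecidableEq ι] in
theorem d2_eq' {g : (ι → ℂ) → ℂ} {z : ι → ℂ} (h : ContDiffAt ℝ ∞ g z) (v w : ι → ℂ) :
    d2 g z v w = fderiv ℝ (fderiv ℝ g) z v w := by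
  unfold d2
  rw [fderiv_clm_apply (hd0 h) (differentiableAt_const w)]
  simp

omit [DecidableEq ι] in
theorem d2_symm' {g : (ι → ℂ) → ℂ} {z : ι → ℂ} (h : ContDiffAt ℝ ∞ g z) (v w : ι → ℂ) :
    d2 g z v w = d2 g z w v := by
  rw [d2_eq' h, d2_eq' h]
  exact (h.isSymmSndFDerivAt (by
    rw [minSmoothness_of_isRCLikeNormedField]
    exact WithTop.coe_le_coe.2 (le_top : (2 : ℕ∞) ≤ ⊤))).eq v w

/-- The matrix of the second derivatives. -/
def Bm (G : (ι → ℂ) → Matrix ι ι ℂ) (z t s : ι → ℂ) : Matrix ι ι ℂ :=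
  Matrix.of fun a b => d2 (fun w => G w a b) z t s

omit [DecidableEq ι] in
theorem Bm_symm {G : (ι → ℂ) → Matrix ι ι ℂ} {z : ι → ℂ} (h : SmM G z) (t s : ι → ℂ) :
    Bm G z t s = Bm G z s t := by
  ext a b
  exact d2_symm' (h a b) t s

omit [DecidableEq ι] in
theorem Bm_herm {G : (ι → ℂ) → Matrix ι ι ℂ} {z : ι → ℂ}
    (h : ∀ᶠ w in 𝓝 z, (G w).IsHermitian) (t s : ι → ℂ) : (Bm G z t s)ᴴ = Bm G z t s := by
  ext a b
  have h1 : ∀ᶠ x in 𝓝 z, fderiv ℝ (fun w => G w a b) x s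
      = star (fderiv ℝ (fun w => G w b a) x s) := by
    filter_upwards [h.eventually_nhds] with x hx
    have h2 : (fun w => G w a b) =ᶠ[𝓝 x] fun w => star (G w b a) := by
      filter_upwards [hx] with w hw
      exact (hw.apply a b).symm
    rw [h2.fderiv_eq, fderiv_star]
    rfl
  have h3 : (fun x => fderiv ℝ (fun w => G w a b) x s) =ᶠ[𝓝 z]
      fun x => star (fderiv ℝ (fun w => G w b a) x s) := h1
  simp only [Matrix.conjTranspose_apply, Bm, Matrix.of_apply, d2]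
  rw [h3.fderiv_eq, fderiv_star]
  rfl

omit [DecidableEq ι] in
theorem fd_pM {G : (ι → ℂ) → Matrix ι ι ℂ} {z : ι → ℂ} (h : SmM G z) (t v w : ι → ℂ) (a : ι) :
    fderiv ℝ (fun x => (pM G x v *ᵥ w) a) z t
      = ((Bm G z t v - I • Bm G z t (I • v)) *ᵥ w) a := by
  have h1 : HasFDerivAt (fun x => ∑ b, (fderiv ℝ (fun y => G y a b) x v
        - I * fderiv ℝ (fun y => G y a b) x (I • v)) * w b)
      (∑ b, w b • (fderiv ℝ (fun x => fderiv ℝ (fun y => G y a b) x v) z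
        - I • fderiv ℝ (fun x => fderiv ℝ (fun y => G y a b) x (I • v)) z)) z := by
    refine HasFDerivAt.fun_sum fun b _ => ?_
    exact ((hd (h a b) v).hasFDerivAt.fun_sub
      ((hd (h a b) (I • v)).hasFDerivAt.const_mul I)).mul_const (w b)
  have h2 : (fun x => (pM G x v *ᵥ w) a) = fun x => ∑ b, (fderiv ℝ (fun y => G y a b) x v
        - I * fderiv ℝ (fun y => G y a b) x (I • v)) * w b := by
    funext x
    simp [Matrix.mulVec, dotProduct, pM, dM]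
  rw [h2, h1.fderiv]
  simp [Matrix.mulVec, dotProduct, Bm, d2, mul_comm]

omit [DecidableEq ι] in
theorem Bm_kae {G : (ι → ℂ) → Matrix ι ι ℂ} {z : ι → ℂ} (h : SmM G z)
    (hk : ∀ᶠ x in 𝓝 z, Kae G x) (t v w : ι → ℂ) :
    (Bm G z t v - I • Bm G z t (I • v)) *ᵥ w = (Bm G z t w - I • Bm G z t (I • w)) *ᵥ v := by
  funext a
  rw [← fd_pM h, ← fd_pM h]
  have h3 : (fun x => (pM G x v *ᵥ w) a) =ᶠ[𝓝 z] fun x => (pM G x w *ᵥ v) a := by
    filter_upwards [hk] with x hx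
    rw [hx v w]
  rw [h3.fderiv_eq]

/-- The mixed second derivative, polarized. -/
def Nm (G : (ι → ℂ) → Matrix ι ι ℂ) (z u v : ι → ℂ) : Matrix ι ι ℂ :=
  (Bm G z v u - I • Bm G z v (I • u)) + I • (Bm G z (I • v) u - I • Bm G z (I • v) (I • u))

omit [DecidableEq ι] in
theorem lM_eq {G : (ι → ℂ) → Matrix ι ι ℂ} {z : ι → ℂ} (h : SmM G z) (v : ι → ℂ) :
    lM G z v = Nm G z v v := by
  have h1 : lM G z v = Bm G z v v + Bm G z (I • v) (I • v) := by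
    ext a b
    rfl
  rw [h1, Nm, Bm_symm h (I • v) v, smul_sub, smul_smul, I_mul_I, neg_one_smul]
  abel

omit [DecidableEq ι] in
theorem lM_mulVec {G : (ι → ℂ) → Matrix ι ι ℂ} {z : ι → ℂ} (h : SmM G z)
    (hk : ∀ᶠ x in 𝓝 z, Kae G x) (u v : ι → ℂ) : lM G z v *ᵥ u = Nm G z u v *ᵥ v := by
  rw [lM_eq h, Nm, Nm, Matrix.add_mulVec, Matrix.add_mulVec, Matrix.smul_mulVec,
    Matrix.smul_mulVec, Bm_kae h hk v v u, Bm_kae h hk (I • v) v u]

omit [DecidableEq ι] in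
theorem Nm_herm {G : (ι → ℂ) → Matrix ι ι ℂ} {z : ι → ℂ} (h : SmM G z)
    (hh : ∀ᶠ w in 𝓝 z, (G w).IsHermitian) (u v : ι → ℂ) : (Nm G z u v)ᴴ = Nm G z v u := by
  simp only [Nm, Matrix.conjTranspose_add, Matrix.conjTranspose_sub, Matrix.conjTranspose_smul,
    Bm_herm hh, star_def, conj_I]
  rw [Bm_symm h v u, Bm_symm h v (I • u), Bm_symm h (I • v) u, Bm_symm h (I • v) (I • u)]
  ext a b
  simp only [Matrix.add_apply, Matrix.sub_apply, Matrix.smul_apply, smul_eq_mul]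
  ring

omit [DecidableEq ι] in
theorem star_dot (M : Matrix ι ι ℂ) (u v : ι → ℂ) :
    star u ⬝ᵥ M *ᵥ v = star (Mᴴ *ᵥ u) ⬝ᵥ v := by
  rw [Matrix.star_mulVec, Matrix.conjTranspose_conjTranspose, Matrix.dotProduct_mulVec]

end KSYK

open KSYK in
theorem st_KSY : St_KSY := by
  intro ι _ _ G z hz u v
  have h : SmM G z := hz.self_of_nhds.1
  have hk : ∀ᶠ x in 𝓝 z, Kae G x := hz.mono fun x hx => hx.2.2
  have hh : ∀ᶠ w in 𝓝 z, (G w).IsHermitian := hz.mono fun x hx => hx.2.1.1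
  have h1 : star u ⬝ᵥ lM G z v *ᵥ u = star v ⬝ᵥ lM G z u *ᵥ v := by
    rw [lM_mulVec h hk u v, star_dot, Nm_herm h hh, ← lM_mulVec h hk v u, star_dot,
      lM_eq h, Nm_herm h hh]
  have h2 : ∀ u v : ι → ℂ, star u ⬝ᵥ ((pM G z v)ᴴ * (G z)⁻¹ * pM G z v) *ᵥ u
      = star (pM G z v *ᵥ u) ⬝ᵥ (G z)⁻¹ *ᵥ (pM G z v *ᵥ u) := by
    intro u v
    rw [← Matrix.mulVec_mulVec, ← Matrix.mulVec_mulVec, star_dot,
      Matrix.conjTranspose_conjTranspose]
  rw [kM, kM, Matrix.sub_mulVec, Matrix.sub_mulVec, dotProduct_sub, dotProduct_sub, h1, h2, h2,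
    hk.self_of_nhds v u]

end Pool.Agent.Lib.HS95
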