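import Pool.Agent.Lib.HS95.Blue2

/-! The Laplacian of a function of the last coordinates. -/

open scoped Topology ContDiff ComplexOrder Matrix
open Set Filter Metric Complex

set_option linter.unusedVariables false

noncomputable section

namespace Pool.Agent.Lib.HS95

open Pool.Agent.Lib.SV (E)
open Pool.Agent.Lib.HS32 (Mat pr nq)

namespace LAPBK

variable {n : ℕ} (k : ℕ)

/-- The inclusion of the last coordinates. -/
def em (n k : ℕ) : Matrix (Fin n) (Hi n k) ℂ := Matrix.of fun i a => if i = a.1 then 1 else 0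

theorem mul_em {ι : Type} (A : Matrix ι (Fin n) ℂ) (i : ι) (a : Hi n k) :
    (A * em n k : Matrix ι (Hi n k) ℂ) i a = A i a.1 := by
  simp [em, Matrix.mul_apply]

theorem em_mul {ι : Type} (A : Matrix (Fin n) ι ℂ) (a : Hi n k) (i : ι) :
    ((em n k)ᴴ * A : Matrix (Hi n k) ι ℂ) a i = A a.1 i := by
  simp [em, Matrix.mul_apply]

theorem em_mul_apply {ι : Type} (A : Matrix (Hi n k) ι ℂ) (i : Fin n) (j : ι) :
    (em n k * A : Matrix (Fin n) ι ℂ) i j = if h : i.val < k then 0 else A ⟨i, h⟩ j := by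
  rw [Matrix.mul_apply]
  split_ifs with h
  · refine Finset.sum_eq_zero fun a _ => ?_
    have : i ≠ a.1 := fun e => a.2 (e ▸ h)
    simp [em, this]
  · rw [Finset.sum_eq_single ⟨i, h⟩]
    · simp [em]
    · intro a _ ha
      have : i ≠ a.1 := fun e => ha (Subtype.ext e.symm)
      simp [em, this]
    · simp

theorem pr_add : pr k + em n k * (em n k)ᴴ = (1 : Mat n) := by
  ext i j
  rw [Matrix.add_apply, em_mul_apply]
  by_cases e : i = j
  · subst e
    by_cases h : i.val < k <;> simp [pr, em, h]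
  · by_cases h : i.val < k <;> simp [pr, em, h, e, Ne.symm e]

theorem pr_em : (pr k : Mat n) * em n k = 0 := by
  ext i a
  rw [mul_em]
  by_cases e : i = a.1
  · simp [pr, e, a.2]
  · simp [pr, e]

theorem pr_ct : (pr k : Mat n)ᴴ = pr k := by
  ext i j
  by_cases e : i = j
  · subst e; by_cases h : i.val < k <;> simp [pr, h]
  · simp [pr, e, Ne.symm e]

theorem lb_eq (G : Mat n) : lb k G = (em n k)ᴴ * (G * em n k) := by
  ext a b
  rw [em_mul, mul_em]; rfl

theorem lv_zero {ι : Type} [Fintype ι] [DecidableEq ι] (f : (ι → ℂ) → ℝ) (y : ι → ℂ) :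
    lv f y 0 = 0 := by
  simp [lv, d2]

theorem tr_conj {ι : Type} [Fintype ι] (T : Mat n) (V : Matrix (Fin n) ι ℂ) :
    (V * Vᴴ * T).trace.re = ∑ a, nq T (fun i => V i a) := by
  rw [Matrix.mul_assoc, Matrix.trace_mul_comm, Matrix.trace, Complex.re_sum]
  refine Finset.sum_congr rfl fun a _ => ?_
  rw [Matrix.mul_assoc]
  rfl

end LAPBK

open LAPBK in
open scoped MatrixOrder in
theorem st_LAPB : St_LAPB := by
  intro n k G T ε c f y hε hG hp hT hc
  have hL : (lb k G).PosDef := hG.submatrix Subtype.val_injective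
  have hu : IsUnit (lb k G).det := (Matrix.isUnit_iff_isUnit_det _).1 hL.isUnit
  obtain ⟨B, hB⟩ := CStarAlgebra.nonneg_iff_eq_star_mul_self.1 hL.inv.posSemidef.nonneg
  rw [Matrix.star_eq_conjTranspose] at hB
  have hW : (Bᴴ)ᴴ * lb k G * Bᴴ = 1 := by
    rw [Matrix.conjTranspose_conjTranspose]
    apply mul_eq_one_comm.1
    rw [← Matrix.mul_assoc, ← hB, Matrix.nonsing_inv_mul _ hu]
  have hp' : pr k * G = ε • pr k := by
    have := congrArg Matrix.conjTranspose hp
    rwa [Matrix.conjTranspose_mul, pr_ct, hG.1.eq, Matrix.conjTranspose_smul, pr_ct,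
      star_trivial] at this
  have hGe : G * em n k = em n k * lb k G := by
    calc G * em n k = (pr k + em n k * (em n k)ᴴ) * (G * em n k) := by rw [pr_add, Matrix.one_mul]
      _ = em n k * lb k G := by
        rw [Matrix.add_mul, ← Matrix.mul_assoc (pr k), hp', Matrix.smul_mul, pr_em, smul_zero,
          zero_add, lb_eq, Matrix.mul_assoc]
  have hinv : G⁻¹ = ε⁻¹ • pr k + (em n k * Bᴴ) * (em n k * Bᴴ)ᴴ := by
    apply Matrix.inv_eq_right_inv
    rw [Matrix.mul_add, Matrix.mul_smul, hp, smul_smul, inv_mul_cancel₀ hε.ne', one_smul,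
      Matrix.conjTranspose_mul, Matrix.conjTranspose_conjTranspose, Matrix.mul_assoc (em n k),
      ← Matrix.mul_assoc Bᴴ, ← hB, ← Matrix.mul_assoc G, hGe, Matrix.mul_assoc (em n k),
      ← Matrix.mul_assoc (lb k G), Matrix.mul_nonsing_inv _ hu, Matrix.one_mul, pr_add]
  have h0 : (pr k * T).trace.re = 0 := by
    have e : (pr k : Mat n) = pr k * (pr k)ᴴ := by
      rw [pr_ct, pr, Matrix.diagonal_mul_diagonal]
      congr 1; funext i; split_ifs <;> simp
    rw [e, tr_conj]
    refine Finset.sum_eq_zero fun a _ => ?_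
    have h1 := hT fun i => pr k i a
    have h2 : up k (fun i => (pr k : Mat n) i a) = 0 := by
      funext b
      by_cases e : b.1 = a
      · simp [up, pr, ← e, b.2]
      · simp [up, pr, e]
    rw [h2, lv_zero] at h1
    linarith
  have h1 := hc _ hW
  have h2 : ∀ a, lv f y (fun b => Bᴴ b a) =
      4 * nq T (fun i => (em n k * Bᴴ : Matrix (Fin n) (Hi n k) ℂ) i a) := fun a => by
    rw [hT]
    congr 1
    funext b
    simp only [up, em_mul_apply, dif_neg b.2]
  rw [hinv, Matrix.add_mul, Matrix.trace_add, Complex.add_re, tr_conj, Matrix.smul_mul,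
    Matrix.trace_smul, Complex.smul_re, h0, smul_zero, zero_add]
  simp only [h2, ← Finset.mul_sum] at h1
  linarith

end Pool.Agent.Lib.HS95
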