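import Pool.Agent.Lib.HS95.Blue

/-! The lattice of translations. -/

open scoped Topology
open Set Filter Metric

noncomputable section

namespace Pool.Agent.Lib.HS95

namespace LATK

theorem near_mono {ι : Type} [Fintype ι] [DecidableEq ι] {g : Geo ι} {f : g.Y → g.Y} {j : g.J}
    {z : ι → ℂ} {r ε ε' : ℝ} (h : g.Near f j z r ε) (he : ε ≤ ε') : g.Near f j z r ε' :=
  fun w hw => ⟨(h w hw).1, (h w hw).2.trans he⟩

theorem comm {V ι : Type} [NormedAddCommGroup V] [InnerProductSpace ℂ V] [Fintype ι]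
    [DecidableEq ι] {g : Geo ι} (T : Tr V g) (γ δ : T.Γ) (h1 : T.A γ = 1) (h2 : T.A δ = 1) :
    γ * δ = δ * γ := by
  have hA : T.A (γ * δ * (δ * γ)⁻¹) = 1 := by simp [h1, h2]
  have e1 := T.bmul (γ * δ * (δ * γ)⁻¹) (δ * γ)
  rw [inv_mul_cancel_right, hA, T.bmul γ δ, T.bmul δ γ, h1, h2] at e1
  have hb : T.b (γ * δ * (δ * γ)⁻¹) = 0 := by
    have e2 : T.b γ + T.b δ = T.b (γ * δ * (δ * γ)⁻¹) + (T.b δ + T.b γ) := e1
    rw [add_comm (T.b δ)] at e2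
    exact left_eq_add.1 (by rw [add_comm (T.b γ + T.b δ)]; exact e2) |>.symm ▸ rfl
  exact mul_inv_eq_one.1 (T.inj _ hA hb)

end LATK

open LATK

theorem st_LAT (h1 : St_BUS) (h2 : St_COM) (h3 : St_DENS) (h4 : St_LIM1) (h5 : St_ALG) :
    St_LAT := by
  intro V ι _ _ _ _ _ g _ T hp hc hb
  obtain ⟨y⟩ : Nonempty g.Y := inferInstance
  obtain ⟨j, hj⟩ := g.cov y
  have hz := (g.c j).map_source hj
  obtain ⟨r₁, hr₁, hs, C⟩ := h2 ι g T.toAct j _ hz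
  obtain ⟨r₂, hr₂, Dn⟩ := h3 V ι g T hc j _ hz
  obtain ⟨r, hr, a1, a2⟩ : ∃ r, 0 < r ∧ r ≤ r₁ ∧ r ≤ r₂ :=
    ⟨min r₁ r₂, lt_min hr₁ hr₂, min_le_left _ _, min_le_right _ _⟩
  obtain ⟨d₁, hd₁, C⟩ := C r hr a1
  obtain ⟨d, hd, a3, a4⟩ : ∃ d, 0 < d ∧ d ≤ d₁ ∧ d ≤ r :=
    ⟨min d₁ r, lt_min hd₁ hr, min_le_left _ _, min_le_right _ _⟩
  have hs' : closedBall (g.c j y) r ⊆ (g.c j).target := (closedBall_subset_closedBall a1).trans hs
  have B := h1 V T.Γ T.A T.b {γ | g.Near (T.toAct.f γ) j (g.c j y) r d} T.bmul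
    (fun α hα β hβ => C d hd.le a3 α β hα hβ)
    (fun R => by
      refine (hp ((g.c j).symm '' closedBall (g.c j y) r) ((isCompact_closedBall _ _).image_of_continuousOn
        ((g.c j).continuousOn_symm.mono hs')) R).subset fun γ hγ => ⟨hγ.2, (g.c j).symm (g.c j y),
          ⟨_, mem_closedBall_self hr.le, rfl⟩, ?_⟩
      obtain ⟨t1, t2⟩ := hγ.1 _ (mem_ball_self hr)
      exact ⟨_, mem_closedBall_iff_norm.2 (t2.trans a4), (g.c j).left_inv t1⟩)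
    (fun ε hε => by
      obtain ⟨R, hR⟩ := Dn r a2 (min ε d) (lt_min hε hd)
      refine ⟨R, fun v => ?_⟩
      obtain ⟨γ, t1, t2, t3⟩ := hR v
      exact ⟨γ, near_mono t1 (min_le_right _ _), fun u => (t2 u).trans
        (mul_le_mul_of_nonneg_right (min_le_left _ _) (norm_nonneg _)), t3⟩)
  by_cases h : ∀ ε > 0, ∃ γ : T.Γ, T.A γ = 1 ∧ g.Near (T.toAct.f γ) j (g.c j y) r ε ∧
      ∃ y : g.Y, γ • y ≠ y
  · exact absurd (h5 ι g T.toAct (fun γ => T.A γ = 1) (comm T) (fun δ γ hγ => by simp [hγ])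
      (h4 ι g T.toAct (fun γ => T.A γ = 1) j _ r hr hs' h)) hb
  · push Not at h
    obtain ⟨ε, hε, h⟩ := h
    obtain ⟨R, hR⟩ := Dn r a2 (min ε (min d (1 / 4))) (lt_min hε (lt_min hd (by norm_num)))
    refine ⟨R, fun v => ?_⟩
    obtain ⟨γ, t1, t2, t3⟩ := hR v
    have hA := B γ (near_mono t1 ((min_le_right _ _).trans (min_le_left _ _))) fun u => (t2 u).trans
      (mul_le_mul_of_nonneg_right ((min_le_right _ _).trans (min_le_right _ _)) (norm_nonneg _))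
    exact ⟨γ, hA, h γ hA (near_mono t1 (min_le_left _ _)), t3⟩

end Pool.Agent.Lib.HS95
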