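import Pool.Agent.Lib.HS95.Blue

/-! Project hs9, section 4: the Levi form of the logarithm of the determinant. -/

open scoped Topology ContDiff ComplexOrder Matrix
open Set Filter Metric Complex

set_option linter.unusedSectionVars false

noncomputable section

namespace Pool.Agent.Lib.HS95

namespace LD2K

variable {ι κ : Type} [Fintype ι] [DecidableEq ι] [Fintype κ] [DecidableEq κ]

/-- Differentiable entries. -/
def Df (M : (ι → ℂ) → Matrix κ κ ℂ) (z : ι → ℂ) : Prop :=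
  ∀ a b, DifferentiableAt ℝ (fun w => M w a b) z

theorem hasF_mul {A B : (ι → ℂ) → Matrix κ κ ℂ} {z : ι → ℂ} (hA : Df A z) (hB : Df B z) (a b : κ) :
    HasFDerivAt (fun w => (A w * B w) a b)
      (∑ c, (A z a c • fderiv ℝ (fun w => B w c b) z + B z c b • fderiv ℝ (fun w => A w a c) z))
      z := by
  simp only [Matrix.mul_apply]
  exact HasFDerivAt.fun_sum fun c _ => (hA a c).hasFDerivAt.fun_mul (hB c b).hasFDerivAt

theorem Df.mul {A B : (ι → ℂ) → Matrix κ κ ℂ} {z : ι → ℂ} (hA : Df A z) (hB : Df B z) :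
    Df (fun w => A w * B w) z := fun a b => (hasF_mul hA hB a b).differentiableAt

theorem dM_mul {A B : (ι → ℂ) → Matrix κ κ ℂ} {z : ι → ℂ} (hA : Df A z) (hB : Df B z)
    (v : ι → ℂ) : dM (fun w => A w * B w) z v = dM A z v * B z + A z * dM B z v := by
  ext a b
  simp only [dM, Matrix.of_apply]
  rw [(hasF_mul hA hB a b).fderiv]
  simp only [_root_.sum_apply, _root_.add_apply, _root_.smul_apply, smul_eq_mul, Matrix.add_apply,
    Matrix.mul_apply, Matrix.of_apply, ← Finset.sum_add_distrib]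
  exact Finset.sum_congr rfl fun c _ => by ring

theorem Df.det {M : (ι → ℂ) → Matrix κ κ ℂ} {z : ι → ℂ} (h : Df M z) :
    DifferentiableAt ℝ (fun w => (M w).det) z := by
  simp only [Matrix.det_apply']
  refine DifferentiableAt.fun_sum fun σ _ => DifferentiableAt.const_mul ?_ _
  exact (HasFDerivAt.finsetProd (g := fun i w => M w (σ i) i)
    fun i _ => (h (σ i) i).hasFDerivAt).differentiableAt

theorem Df.inv {M : (ι → ℂ) → Matrix κ κ ℂ} {z : ι → ℂ} (h : Df M z) (h0 : (M z).det ≠ 0) :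
    Df (fun w => (M w)⁻¹) z := by
  intro a b
  simp only [Matrix.inv_def, Ring.inverse_eq_inv', Matrix.smul_apply, smul_eq_mul,
    Matrix.adjugate_apply]
  refine (h.det.fun_inv h0).fun_mul (Df.det fun c d => ?_)
  by_cases hc : c = b
  · simp only [hc, Matrix.updateRow_self]; exact differentiableAt_const _
  · simp only [Matrix.updateRow_ne hc]; exact h c d

theorem dM_congr {A B : (ι → ℂ) → Matrix κ κ ℂ} {z : ι → ℂ} (h : A =ᶠ[𝓝 z] B) (v : ι → ℂ) :
    dM A z v = dM B z v := by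
  ext a b
  have : (fun w => A w a b) =ᶠ[𝓝 z] fun w => B w a b := h.mono fun w hw => by simp only [hw]
  simp only [dM, Matrix.of_apply, this.fderiv_eq]

theorem dM_inv {M : (ι → ℂ) → Matrix κ κ ℂ} {z : ι → ℂ} (h : Df M z)
    (h0 : ∀ᶠ w in 𝓝 z, IsUnit (M w).det) (v : ι → ℂ) :
    dM (fun w => (M w)⁻¹) z v = -((M z)⁻¹ * dM M z v * (M z)⁻¹) := by
  have hu := h0.self_of_nhds
  have e : (fun w => (M w)⁻¹ * M w) =ᶠ[𝓝 z] fun _ => 1 :=
    h0.mono fun w hw => Matrix.nonsing_inv_mul _ hw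
  have e1 := dM_congr e v
  rw [dM_mul (h.inv hu.ne_zero) h] at e1
  have e2 : dM (fun _ : ι → ℂ => (1 : Matrix κ κ ℂ)) z v = 0 := by
    ext a b; simp [dM]
  rw [e2] at e1
  have e3 := congrArg (· * (M z)⁻¹) (eq_neg_of_add_eq_zero_left e1)
  simpa only [Matrix.mul_assoc, Matrix.mul_nonsing_inv _ hu, Matrix.mul_one, Matrix.neg_mul]
    using e3

theorem dM_herm {M : (ι → ℂ) → Matrix κ κ ℂ} {z : ι → ℂ} (h : ∀ᶠ w in 𝓝 z, (M w).IsHermitian)
    (v : ι → ℂ) : (dM M z v)ᴴ = dM M z v := by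
  ext a b
  have h2 : (fun w => M w a b) =ᶠ[𝓝 z] fun w => star (M w b a) := by
    filter_upwards [h] with w hw
    exact (hw.apply a b).symm
  simp only [Matrix.conjTranspose_apply, dM, Matrix.of_apply]
  rw [h2.fderiv_eq, fderiv_star]
  rfl

theorem df_of {M : (ι → ℂ) → Matrix κ κ ℂ} {z : ι → ℂ} (h : SmM M z) : Df M z :=
  fun a b => (h a b).differentiableAt (by simp)

theorem df_dM {M : (ι → ℂ) → Matrix κ κ ℂ} {z : ι → ℂ} (h : SmM M z) (u : ι → ℂ) :
    Df (fun x => dM M x u) z := fun a b => by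
  have h1 : ContDiffAt ℝ 1 (fderiv ℝ fun w => M w a b) z :=
    (h a b).fderiv_right (m := 1) (WithTop.coe_le_coe.2 (le_top : (1 + 1 : ℕ∞) ≤ ⊤))
  exact (h1.differentiableAt one_ne_zero).clm_apply (differentiableAt_const u)

theorem fd_tr {A : (ι → ℂ) → Matrix κ κ ℂ} {z : ι → ℂ} (h : Df A z) (v : ι → ℂ) :
    fderiv ℝ (fun w => (A w).trace.re) z v = (dM A z v).trace.re := by
  have h1 : HasFDerivAt (fun w => (A w).trace.re)
      (reCLM.comp (∑ a, fderiv ℝ (fun w => A w a a) z)) z :=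
    reCLM.hasFDerivAt.comp z (HasFDerivAt.fun_sum fun a _ => (h a a).hasFDerivAt)
  rw [h1.fderiv]
  simp [Matrix.trace, dM]

theorem d2_ld (h1 : St_LD1) {M : (ι → ℂ) → Matrix κ κ ℂ} {z : ι → ℂ}
    (h : ∀ᶠ w in 𝓝 z, SmM M w ∧ (M w).PosDef) (u : ι → ℂ) :
    d2 (ld M) z u u = (-((M z)⁻¹ * dM M z u * (M z)⁻¹) * dM M z u +
      (M z)⁻¹ * dM (fun x => dM M x u) z u).trace.re := by
  have hp : ∀ᶠ w in 𝓝 z, (M w).PosDef := h.mono fun w h => h.2
  have hu : ∀ᶠ w in 𝓝 z, IsUnit (M w).det :=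
    hp.mono fun w hw => (Matrix.isUnit_iff_isUnit_det _).1 hw.isUnit
  have hs := h.self_of_nhds.1
  have e : (fun x => fderiv ℝ (ld M) x u) =ᶠ[𝓝 z] fun x => ((M x)⁻¹ * dM M x u).trace.re := by
    filter_upwards [h, hp.eventually_nhds] with w hw hw'
    exact (h1 ι κ M w hw.1 hw').2 u
  have hi := (df_of hs).inv hu.self_of_nhds.ne_zero
  rw [d2, e.fderiv_eq, fd_tr (hi.mul (df_dM hs u)), dM_mul hi (df_dM hs u), dM_inv (df_of hs) hu]

theorem alg (N P Q : Matrix κ κ ℂ) :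
    (N * ((P + I • Q) * N * (P - I • Q))).trace = (N * P * N * P).trace + (N * Q * N * Q).trace := by
  have e : (N * (Q * (N * P))).trace = (N * (P * (N * Q))).trace := by
    rw [← Matrix.mul_assoc N Q, Matrix.trace_mul_comm, Matrix.mul_assoc]
  simp only [Matrix.add_mul, Matrix.mul_sub, Matrix.mul_add, Matrix.smul_mul, Matrix.mul_smul,
    Matrix.mul_assoc, Matrix.trace_add, Matrix.trace_sub, Matrix.trace_smul, smul_eq_mul, e]
  linear_combination (-(N * (Q * (N * Q))).trace) * I_mul_I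

end LD2K

open LD2K in
theorem st_LD2 (h1 : St_LD1) : St_LD2 := by
  intro ι κ _ _ _ _ M z h v
  have hh : ∀ᶠ w in 𝓝 z, (M w).IsHermitian := h.mono fun w h => h.2.isHermitian
  have e1 : lM M z v = dM (fun x => dM M x v) z v + dM (fun x => dM M x (I • v)) z (I • v) := by
    ext a b
    rfl
  have e2 : (pM M z v)ᴴ = dM M z v + I • dM M z (I • v) := by
    rw [pM, Matrix.conjTranspose_sub, Matrix.conjTranspose_smul, dM_herm hh, dM_herm hh, star_def,
      conj_I, neg_smul, sub_neg_eq_add]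
  rw [lv, d2_ld h1 h, d2_ld h1 h, kM, e2, e1, pM, Matrix.mul_sub, Matrix.trace_sub, alg,
    Matrix.mul_add]
  simp only [Matrix.trace_add, Matrix.neg_mul, Matrix.trace_neg, add_re, sub_re, neg_re]
  ring

end Pool.Agent.Lib.HS95
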