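import Pool.Agent.Lib.HS95.Blue

/-! Existence of global parametrizations of the leaves. -/

open scoped Topology ContDiff ComplexOrder Matrix
open Set Filter Metric Complex

set_option linter.unusedVariables false

noncomputable section

namespace Pool.Agent.Lib.HS95

namespace LFEK

variable {V ι X : Type} [NormedAddCommGroup V] [InnerProductSpace ℂ V] [Fintype ι]
  [DecidableEq ι] [TopologicalSpace X] (S : Split V ι X)

theorem fr_congr {ℓ ℓ' : V → X} {i : S.I} {A : V ≃ₗᵢ[ℂ] V} {v : V} (h : ℓ' =ᶠ[𝓝 v] ℓ)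
    (hf : S.Fr ℓ i A v) : S.Fr ℓ' i A v := by
  have h0 : ℓ' v = ℓ v := h.eq_of_nhds
  unfold Split.Fr at hf ⊢
  filter_upwards [h, hf] with w h1 h2
  rw [h1, h0]
  exact h2

theorem glue [Nonempty X] {α : Type} (U : α → Set V) (L : α → V → X) (hU : ∀ a, IsOpen (U a))
    (hL : ∀ a, S.Lf (L a) (U a)) (hc : ∀ a b, EqOn (L a) (L b) (U a ∩ U b)) :
    ∃ ℓ : V → X, (∀ a, EqOn ℓ (L a) (U a)) ∧ ∀ a, S.Lf ℓ (U a) := by
  classical
  let ℓ : V → X := fun u => if h : ∃ a, u ∈ U a then L h.choose u else Classical.arbitrary X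
  have h1 : ∀ a, EqOn ℓ (L a) (U a) := by
    intro a u hu
    have h : ∃ a, u ∈ U a := ⟨a, hu⟩
    simp only [ℓ, dif_pos h]
    exact hc _ _ ⟨h.choose_spec, hu⟩
  refine ⟨ℓ, h1, fun a u hu => ?_⟩
  obtain ⟨i, A, hf⟩ := hL a u hu
  exact ⟨i, A, fr_congr S ((h1 a).eventuallyEq_of_mem ((hU a).mem_nhds hu)) hf⟩

theorem loc (j : S.I) (y : X) (hy : y ∈ (S.e j).source) (r : ℝ)
    (hr : ∀ t ∈ ball (S.e j y).1 r, (t, (S.e j y).2) ∈ (S.e j).target) (B : V ≃ₗᵢ[ℂ] V) (w : V) :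
    ∃ L : V → X, L w = y ∧ ∀ u ∈ ball w r, S.Fr L j B u := by
  have ht : ∀ u ∈ ball w r, (B (u - w) + (S.e j y).1, (S.e j y).2) ∈ (S.e j).target := by
    intro u hu
    refine hr _ ?_
    rwa [mem_ball, dist_eq_norm, add_sub_cancel_right, B.norm_map, ← dist_eq_norm]
  refine ⟨fun u => (S.e j).symm (B (u - w) + (S.e j y).1, (S.e j y).2), ?_, fun u hu => ?_⟩
  · simp only [sub_self, map_zero, zero_add, Prod.mk.eta]
    exact (S.e j).left_inv hy
  · unfold Split.Fr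
    filter_upwards [isOpen_ball.mem_nhds hu] with u' hu'
    refine ⟨(S.e j).map_target (ht u' hu'), ?_⟩
    rw [(S.e j).right_inv (ht u' hu'), (S.e j).right_inv (ht u hu)]
    simp only [← add_assoc, ← map_add, sub_add_sub_cancel]

theorem rad (j : S.I) (y : X) (hy : y ∈ (S.e j).source) :
    ∃ r > 0, ball (S.e j y) r ⊆ (S.e j).target :=
  Metric.mem_nhds_iff.1 ((S.e j).open_target.mem_nhds ((S.e j).map_source hy))

theorem unif [CompactSpace X] : ∃ r > 0, ∀ y : X, ∃ j, y ∈ (S.e j).source ∧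
    ∀ t ∈ ball (S.e j y).1 r, (t, (S.e j y).2) ∈ (S.e j).target := by
  choose j hj using S.cov
  choose ρ hρ hs using fun x => rad S (j x) x (hj x)
  obtain ⟨t, ht⟩ := isCompact_univ.elim_finite_subcover
    (fun x => (S.e (j x)).source ∩ S.e (j x) ⁻¹' ball (S.e (j x) x) (ρ x / 2))
    (fun x => (S.e (j x)).isOpen_inter_preimage isOpen_ball)
    (fun x _ => mem_iUnion.2 ⟨x, hj x, mem_ball_self (half_pos (hρ x))⟩)
  have h1 : ∀ᶠ r in 𝓝[>] (0 : ℝ), ∀ x ∈ t, r < ρ x / 2 :=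
    (eventually_all_finset t).2 fun x _ =>
      mem_nhdsWithin_of_mem_nhds (Iio_mem_nhds (half_pos (hρ x)))
  obtain ⟨r, h2, h3⟩ := (h1.and self_mem_nhdsWithin).exists
  refine ⟨r, h3, fun y => ?_⟩
  obtain ⟨x, hx, h4, h5⟩ := mem_iUnion₂.1 (ht (mem_univ y))
  refine ⟨j x, h4, fun u hu => hs x ?_⟩
  have h6 : dist (u, (S.e (j x) y).2) (S.e (j x) y) < r := by
    rw [Prod.dist_eq, dist_self]
    exact max_lt hu h3
  have h7 : dist (S.e (j x) y) (S.e (j x) x) < ρ x / 2 := h5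
  have h8 := dist_triangle (u, (S.e (j x) y).2) (S.e (j x) y) (S.e (j x) x)
  have h9 := h2 x hx
  rw [mem_ball]
  linarith

theorem step (h1 : St_LFU) [T2Space X] (r : ℝ) (hr : 0 < r)
    (hu : ∀ y : X, ∃ j, y ∈ (S.e j).source ∧
      ∀ t ∈ ball (S.e j y).1 r, (t, (S.e j y).2) ∈ (S.e j).target)
    (v : V) (R : ℝ) (hR : 0 < R) (ℓ : V → X) (hℓ : S.Lf ℓ (ball v R)) :
    ∃ ℓ' : V → X, S.Lf ℓ' (ball v (R + r)) ∧ EqOn ℓ' ℓ (ball v R) := by
  obtain ⟨hch, -, -, hev, hun⟩ := h1 V ι X S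
  have : Nonempty X := ⟨ℓ v⟩
  have h2 : ∀ w : ball v R, ∃ L : V → X, S.Lf L (ball w.1 r) ∧ EqOn ℓ L (ball v R ∩ ball w.1 r) := by
    rintro ⟨w, hw⟩
    obtain ⟨i, A, hf⟩ := hℓ w hw
    obtain ⟨j, hj, ht⟩ := hu (ℓ w)
    obtain ⟨B, hB⟩ := hch ℓ i A w j hf hj
    obtain ⟨L, hL, hF⟩ := loc S j (ℓ w) hj r ht B w
    have h3 : S.Lf L (ball w r) := fun u hu => ⟨j, B, hF u hu⟩
    refine ⟨L, h3, hun ℓ L _ w (isOpen_ball.inter isOpen_ball)
      ((convex_ball _ _).inter (convex_ball _ _)).isPreconnected (fun u hu => hℓ u hu.1)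
      (fun u hu => h3 u hu.2) ⟨hw, mem_ball_self hr⟩ ?_⟩
    exact hev ℓ L j B w hB (hF w (mem_ball_self hr)) hL.symm
  choose L hL hE using h2
  have h4 : ∀ a b : ball v R, EqOn (L a) (L b) (ball a.1 r ∩ ball b.1 r) := by
    intro a b u hu
    have h5 : dist a.1 b.1 < r + r := by
      have h6 := dist_triangle_left a.1 b.1 u
      have h7 : dist u a.1 < r := hu.1
      have h8 : dist u b.1 < r := hu.2
      linarith
    have h6 : midpoint ℝ a.1 b.1 ∈ ball v R := (convex_ball v R).midpoint_mem a.2 b.2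
    have h7 : midpoint ℝ a.1 b.1 ∈ ball a.1 r := by
      rw [mem_ball, dist_midpoint_left, Real.norm_two]
      linarith
    have h8 : midpoint ℝ a.1 b.1 ∈ ball b.1 r := by
      rw [mem_ball, dist_midpoint_right, Real.norm_two]
      linarith
    refine hun (L a) (L b) _ (midpoint ℝ a.1 b.1) (isOpen_ball.inter isOpen_ball)
      ((convex_ball _ _).inter (convex_ball _ _)).isPreconnected (fun u hu => hL a u hu.1)
      (fun u hu => hL b u hu.2) ⟨h7, h8⟩ ?_ hu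
    filter_upwards [isOpen_ball.mem_nhds h6, isOpen_ball.mem_nhds h7, isOpen_ball.mem_nhds h8]
      with p p1 p2 p3
    rw [← hE a ⟨p1, p2⟩, hE b ⟨p1, p3⟩]
  obtain ⟨ℓ', h5, h6⟩ := glue S (fun a : ball v R => ball a.1 r) L (fun _ => isOpen_ball) hL h4
  refine ⟨ℓ', fun u hu => ?_, fun u hu => ?_⟩
  · obtain ⟨w, h7, h8⟩ := exists_dist_lt_lt hr hR (show dist u v < R + r from hu)
    exact h6 ⟨w, h8⟩ u h7
  · rw [h5 ⟨u, hu⟩ (mem_ball_self hr), ← hE ⟨u, hu⟩ ⟨hu, mem_ball_self hr⟩]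

end LFEK

theorem st_LFE (h1 : St_LFU) : St_LFE := by
  intro V ι X _ _ _ _ _ _ _ S i x A v hx
  obtain ⟨r, hr, hu⟩ := LFEK.unif S
  obtain ⟨ε, hε, hs⟩ := LFEK.rad S i x hx
  have : Nonempty X := ⟨x⟩
  have hp : ∀ m : ℕ, 0 < ε + m * r := fun m => by positivity
  have h2 : ∀ m : ℕ, ∃ ℓ : V → X, S.Lf ℓ (ball v (ε + m * r)) ∧ ℓ v = x ∧ S.Fr ℓ i A v := by
    intro m
    induction m with
    | zero =>
      obtain ⟨L, hL, hF⟩ := LFEK.loc S i x hx ε (fun t ht => hs (by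
        rw [mem_ball, Prod.dist_eq, dist_self]
        exact max_lt ht hε)) A v
      refine ⟨L, fun u hu => ⟨i, A, hF u ?_⟩, hL, hF v (mem_ball_self hε)⟩
      simpa using hu
    | succ m ih =>
      obtain ⟨ℓ, h3, h4, h5⟩ := ih
      obtain ⟨ℓ', h6, h7⟩ := LFEK.step S h1 r hr hu v _ (hp m) ℓ h3
      refine ⟨ℓ', ?_, (h7 (mem_ball_self (hp m))).trans h4,
        LFEK.fr_congr S (h7.eventuallyEq_of_mem (ball_mem_nhds v (hp m))) h5⟩
      rwa [show ε + ((m + 1 : ℕ) : ℝ) * r = ε + m * r + r by push_cast; ring]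
  choose L hL hv hF using h2
  obtain ⟨-, -, -, hev, hun⟩ := h1 V ι X S
  obtain ⟨ℓ, h3, h4⟩ := LFEK.glue S (fun m : ℕ => ball v (ε + m * r)) L (fun _ => isOpen_ball) hL
    fun a b => hun (L a) (L b) _ v (isOpen_ball.inter isOpen_ball)
      ((convex_ball _ _).inter (convex_ball _ _)).isPreconnected (fun u hu => hL a u hu.1)
      (fun u hu => hL b u hu.2) ⟨mem_ball_self (hp a), mem_ball_self (hp b)⟩
      (hev _ _ i A v (hF a) (hF b) ((hv a).trans (hv b).symm))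
  refine ⟨ℓ, fun u _ => ?_, (h3 0 (mem_ball_self (hp 0))).trans (hv 0),
    LFEK.fr_congr S ((h3 0).eventuallyEq_of_mem (ball_mem_nhds v (hp 0))) (hF 0)⟩
  obtain ⟨m, hm⟩ := exists_nat_gt (dist u v / r)
  refine h4 m u ?_
  rw [div_lt_iff₀ hr] at hm
  rw [mem_ball]
  linarith

end Pool.Agent.Lib.HS95
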