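import Pool.Agent.Lib.HS95.Blue

/-! Project hs9, section 4: existence of a non-zero limit field. -/

open scoped Topology
open Set Filter Metric

noncomputable section

namespace Pool.Agent.Lib.HS95

namespace LIM1K

variable {ι : Type} [Fintype ι] [DecidableEq ι]

omit [DecidableEq ι] in
theorem rescale {l : Filter ℕ} {f : (ι → ℂ) → ι → ℂ} {x v : ι → ℂ} {u : ℕ → ι → ℂ} {r : ℕ → ℝ}
    (hf : DifferentiableAt ℂ f x) (hu : Tendsto u l (𝓝 x))
    (hv : Tendsto (fun m => r m • (u m - x)) l (𝓝 v)) :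
    Tendsto (fun m => r m • (f (u m) - f x)) l (𝓝 (fderiv ℂ f x v)) := by
  have h1 := (hasFDerivAt_iff_isLittleO.1 hf.hasFDerivAt).comp_tendsto hu
  have h2 : (fun m => r m • (f (u m) - f x - fderiv ℂ f x (u m - x))) =o[l]
      fun m => r m • (u m - x) := (Asymptotics.isBigO_refl r l).smul_isLittleO h1
  have h3 := h2.trans_isBigO (hv.isBigO_one ℝ)
  rw [Asymptotics.isLittleO_one_iff] at h3
  have h4 := h3.add (((fderiv ℂ f x).continuous.tendsto v).comp hv)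
  rw [zero_add] at h4
  refine h4.congr fun m => ?_
  rw [Function.comp_apply, ContinuousLinearMap.map_smul_of_tower, smul_sub, sub_add_cancel]

theorem pc_mem (g : Geo ι) (y : g.Y) : y ∈ (g.c (g.pc y)).source := (g.cov y).choose_spec

theorem sup_near (g : Geo ι) (f : g.Y → g.Y) (j : g.J) (z : ι → ℂ) {r ε : ℝ} (hr : 0 < r)
    (h : g.Near f j z r ε) : ∃ N, 0 ≤ N ∧ N ≤ ε ∧ g.Near f j z r N ∧
      (0 < N → ∃ w ∈ ball z r, N / 2 < ‖g.T f j j w - w‖) := by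
  set S := (fun w => ‖g.T f j j w - w‖) '' ball z r
  have hne : S.Nonempty := ⟨_, z, mem_ball_self hr, rfl⟩
  have hb : ∀ s ∈ S, s ≤ ε := by
    rintro _ ⟨w, hw, rfl⟩
    exact (h w hw).2
  have hbd : BddAbove S := ⟨ε, hb⟩
  refine ⟨sSup S, (norm_nonneg _).trans (le_csSup hbd ⟨z, mem_ball_self hr, rfl⟩),
    csSup_le hne hb, fun w hw => ⟨(h w hw).1, le_csSup hbd ⟨w, hw, rfl⟩⟩, fun h0 => ?_⟩
  obtain ⟨_, ⟨w, hw, rfl⟩, h1⟩ := exists_lt_of_lt_csSup hne (half_lt_self h0)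
  exact ⟨w, hw, h1⟩

end LIM1K

open LIM1K in
theorem st_LIM1 (h1 : St_PROP) : St_LIM1 := by
  intro ι _ _ g _ a P j z r hr hz hγ
  have hp := h1 ι g j z r hr (ball_subset_closedBall.trans hz)
  have hex : ∀ m : ℕ, ∃ (γ : a.Γ) (N : ℝ) (w : ι → ℂ), P γ ∧ 0 < N ∧ N ≤ 1 / ((m : ℝ) + 1) ∧
      g.Near (a.f γ) j z r N ∧ w ∈ ball z r ∧ N / 2 < ‖g.T (a.f γ) j j w - w‖ := by
    intro m
    obtain ⟨γ, hP, hn, y, hy⟩ := hγ (1 / ((m : ℝ) + 1)) Nat.one_div_pos_of_nat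
    obtain ⟨N, h0, hN, hn', hw⟩ := sup_near g _ j z hr hn
    have hpos : 0 < N := by
      refine h0.lt_of_ne fun e => hy ?_
      subst e
      have hm := pc_mem g y
      obtain ⟨ρ, hρ, C, -, d, hd, -, h⟩ := hp (g.pc y) _ ((g.c _).map_source hm)
      obtain ⟨h2, h3⟩ := h _ (a.iso γ) 0 le_rfl hd.le hn' _ (mem_ball_self hρ)
      rw [mul_zero, norm_le_zero_iff, sub_eq_zero, Geo.T] at h3
      rw [(g.c _).left_inv hm] at h2 h3
      exact (g.c _).injOn h2 hm h3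
    obtain ⟨w, hw1, hw2⟩ := hw hpos
    exact ⟨γ, N, w, hP, hpos, hN, hn', hw1, hw2⟩
  choose γ N w hP hN0 hN1 hnear hw1 hw2 using hex
  let l : Filter ℕ := Ultrafilter.toFilter (hyperfilter ℕ)
  have hle : l ≤ atTop := Nat.cofinite_eq_atTop ▸ hyperfilter_le_cofinite
  have hN : Tendsto N l (𝓝 0) :=
    (squeeze_zero (fun m => (hN0 m).le) hN1 tendsto_one_div_add_atTop_nhds_zero_nat).mono_left hle
  have hR : Tendsto (fun m => (N m)⁻¹) l atTop :=
    tendsto_inv_nhdsGT_zero.comp (tendsto_nhdsWithin_iff.2 ⟨hN, .of_forall hN0⟩)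
  have hB : ∀ j', ∀ z' ∈ (g.c j').target, ∃ ρ > 0, ∃ C, ball z' ρ ⊆ (g.c j').target ∧
      ∀ᶠ m in l, ∀ w ∈ ball z' ρ, γ m • (g.c j').symm w ∈ (g.c j').source ∧
        ‖g.T (a.f (γ m)) j' j' w - w‖ ≤ C * N m ∧
        ‖(N m)⁻¹ • (g.T (a.f (γ m)) j' j' w - w)‖ ≤ C := by
    intro j' z' hz'
    obtain ⟨ρ, hρ, C, -, d, hd, hb, h⟩ := hp j' z' hz'
    refine ⟨ρ, hρ, C, hb, ?_⟩
    filter_upwards [hN.eventually (ge_mem_nhds hd)] with m hm w hw
    obtain ⟨h2, h3⟩ := h _ (a.iso (γ m)) _ (hN0 m).le hm (hnear m) w hw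
    refine ⟨h2, h3, ?_⟩
    rw [norm_smul, Real.norm_of_nonneg (inv_pos.2 (hN0 m)).le, inv_mul_le_iff₀ (hN0 m), mul_comm]
    exact h3
  have hlim : ∀ y, ∃ v, Tendsto (fun m => (N m)⁻¹ •
      (g.T (a.f (γ m)) (g.pc y) (g.pc y) (g.c (g.pc y) y) - g.c (g.pc y) y)) l (𝓝 v) := by
    intro y
    obtain ⟨ρ, hρ, C, -, h⟩ := hB _ _ ((g.c _).map_source (pc_mem g y))
    obtain ⟨v, -, hv⟩ := (isCompact_closedBall (0 : ι → ℂ) C).ultrafilter_le_nhds
      ((hyperfilter ℕ).map fun m => (N m)⁻¹ •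
        (g.T (a.f (γ m)) (g.pc y) (g.pc y) (g.c (g.pc y) y) - g.c (g.pc y) y)) (by
      rw [le_principal_iff, Ultrafilter.coe_map, mem_map]
      filter_upwards [h] with m hm
      exact mem_closedBall_zero_iff.2 (hm _ (mem_ball_self hρ)).2.2)
    exact ⟨v, hv⟩
  choose ξ hξ using hlim
  have hT : ∀ j', ∀ z' ∈ (g.c j').target,
      Tendsto (fun m => (N m)⁻¹ • (g.T (a.f (γ m)) j' j' z' - z')) l (𝓝 (g.cmp ξ j' z')) := by
    intro j' z' hz'
    set y := (g.c j').symm z' with hy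
    have hm := pc_mem g y
    obtain ⟨ρ, hρ, C, -, h⟩ := hB _ _ ((g.c _).map_source hm)
    have hu : Tendsto (fun m => g.T (a.f (γ m)) (g.pc y) (g.pc y) (g.c (g.pc y) y)) l
        (𝓝 (g.c (g.pc y) y)) := by
      rw [tendsto_iff_norm_sub_tendsto_zero]
      refine squeeze_zero' (.of_forall fun _ => norm_nonneg _)
        (h.mono fun m hm => (hm _ (mem_ball_self hρ)).2.1) ?_
      simpa using hN.const_mul C
    have hd : DifferentiableAt ℂ (g.T id (g.pc y) j') (g.c (g.pc y) y) :=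
      (g.chg _ _ y hm ((g.c j').map_target hz')).hol
    refine (rescale hd hu (hξ y)).congr' ?_
    filter_upwards [h] with m hm'
    have h2 := (hm' _ (mem_ball_self hρ)).1
    rw [(g.c _).left_inv hm] at h2
    simp only [Geo.T, id, (g.c _).left_inv hm, (g.c _).left_inv h2]
    rw [hy, (g.c j').right_inv hz']
  refine ⟨ξ, fun h0 => ?_, l, γ, fun m => (N m)⁻¹, inferInstance, hP, hR, fun j' z' hz' =>
    ⟨?_, hT j' z' hz'⟩⟩
  · obtain ⟨v, hv, hwv⟩ := (isCompact_closedBall z r).ultrafilter_le_nhds ((hyperfilter ℕ).map w)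
      (by
        rw [le_principal_iff, Ultrafilter.coe_map, mem_map]
        exact univ_mem' fun m => ball_subset_closedBall (hw1 m))
    have hwv' : Tendsto w l (𝓝 v) := hwv
    obtain ⟨ρ, hρ, C, hb, h⟩ := hB j v (hz hv)
    have h2 := hT j v (hz hv)
    have h3 : g.cmp ξ j v = 0 := by simp [Geo.cmp, h0]
    rw [h3, tendsto_zero_iff_norm_tendsto_zero] at h2
    have h4 : Tendsto (fun m => 2 * C / ρ * ‖w m - v‖) l (𝓝 0) := by
      simpa using (tendsto_iff_norm_sub_tendsto_zero.1 hwv').const_mul (2 * C / ρ)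
    have h5 := h2.add h4
    rw [add_zero] at h5
    obtain ⟨m, hm1, hm2, hm3⟩ := (h.and ((hwv'.eventually (ball_mem_nhds v hρ)).and
      (h5.eventually (gt_mem_nhds one_half_pos)))).exists
    have hd : DifferentiableOn ℂ (fun w => (N m)⁻¹ • (g.T (a.f (γ m)) j j w - w)) (ball v ρ) := by
      intro x hx
      have h6 := ((a.iso (γ m)).loc j j _ ((g.c j).map_target (hb hx)) (hm1 x hx).1).hol
      rw [(g.c j).right_inv (hb hx)] at h6
      exact ((h6.fun_sub differentiableAt_fun_id).fun_const_smul (N m)⁻¹).differentiableWithinAt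
    have h6 := SV.H85.norm_sub_le_of_bound hd (fun x hx => (hm1 x hx).2.2) hm2
    have h7 : 1 / 2 < ‖(N m)⁻¹ • (g.T (a.f (γ m)) j j (w m) - w m)‖ := by
      rw [norm_smul, Real.norm_of_nonneg (inv_pos.2 (hN0 m)).le, lt_inv_mul_iff₀ (hN0 m)]
      linarith [hw2 m]
    have h8 := norm_sub_norm_le ((N m)⁻¹ • (g.T (a.f (γ m)) j j (w m) - w m))
      ((N m)⁻¹ • (g.T (a.f (γ m)) j j v - v))
    linarith
  · obtain ⟨ρ, hρ, C, -, h⟩ := hB j' z' hz'
    exact ⟨ρ, hρ, C, h.mono fun m hm w hw => ⟨(hm w hw).1, (hm w hw).2.2⟩⟩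

end Pool.Agent.Lib.HS95
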