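import Pool.Agent.Lib.HS95.Blue2

/-! Locality of the Laplace operator and of the product of gradients. -/

open scoped Topology ContDiff ComplexOrder Matrix
open Set Filter Metric Complex MeasureTheory

set_option linter.unusedVariables false

noncomputable section

namespace Pool.Agent.Lib.HS95

open Pool.Agent.Lib.SV (E)
open Pool.Agent.Lib.HS32 (Mat Mf hess)

namespace LOCK

variable {n : ℕ} {M : Mf n} {x : M.X} {e : M.Ch}

theorem ev_symm {β : Type} {f g : M.X → β} (h : f =ᶠ[𝓝 x] g) (hx : x ∈ e.source) :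
    f ∘ e.symm =ᶠ[𝓝 (e x)] g ∘ e.symm := by
  have hc := e.continuousAt_symm (e.map_source hx)
  rw [ContinuousAt, e.left_inv hx] at hc
  exact hc.eventually h

theorem ev_lc {f g : M.X → ℝ} (h : f =ᶠ[𝓝 x] g) (hx : x ∈ e.source) :
    M.lc f e =ᶠ[𝓝 (e x)] M.lc g e :=
  (ev_symm h hx).mono fun _ hw => congrArg ofReal hw

theorem lap_congr (G : M.Fam (Mat n)) {f g : M.X → ℝ} (h : f =ᶠ[𝓝 x] g) :
    M.lap G f x = M.lap G g x := by
  simp only [Mf.lap, Mf.tr, Mf.ev, Mf.hs]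
  rw [HS32.hess_congr (ev_lc h (Mf.mem_ch x))]

theorem gr_congr (G : M.Fam (Mat n)) {f g f' g' : M.X → ℝ} (h : f =ᶠ[𝓝 x] g)
    (h' : f' =ᶠ[𝓝 x] g') : M.gr G f f' x = M.gr G g g' x := by
  simp only [Mf.gr, Mf.tr, Mf.ev, Mf.ds]
  rw [HS32.dd_congr (ev_lc h (Mf.mem_ch x)) (ev_lc h' (Mf.mem_ch x))]

theorem exists_sm (hV : HS32.St_COV) (hT : HS32.St_TR) [M.Cpt] {f : M.X → ℝ}
    (h : ∀ᶠ w in 𝓝 x, SmAt M f w) : ∃ g, M.Sm g ∧ f =ᶠ[𝓝 x] g := by
  obtain ⟨χ, c1, -, c3, c4⟩ := (hV n M).2.2.2.2.2 {x} (interior {w | SmAt M f w})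
    isClosed_singleton isOpen_interior (singleton_subset_iff.2 (mem_interior_iff_mem_nhds.2 h))
  rw [nhdsSet_singleton] at c3
  refine ⟨fun y => χ y * f y, ((hT n M).2.2.2.1 ℝ _).2.2 fun y => ?_,
    c3.mono fun y hy => by simp only [hy, one_mul]⟩
  by_cases hy : y ∈ tsupport χ
  · obtain ⟨e, he, h1, h2⟩ := interior_subset (c4 hy)
    exact ⟨e, he, h1, (c1 e he _ (e.map_source h1)).mul h2⟩
  · have h0 : (fun y => χ y * f y) =ᶠ[𝓝 y] fun _ => 0 :=
      (notMem_tsupport_iff_eventuallyEq.1 hy).mono fun w hw => by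
        simp only [hw, Pi.zero_apply, zero_mul]
    exact ⟨_, Mf.ch_mem y, Mf.mem_ch y,
      (contDiffAt_const (c := (0 : ℝ))).congr_of_eventuallyEq (ev_symm h0 (Mf.mem_ch y))⟩

end LOCK

open LOCK in
theorem st_LOC (hV : HS32.St_COV) (hT : HS32.St_TR) (hI : HS32.St_INV) (hH : HS32.St_HES) :
    St_LOC := by
  intro n M _ G hG x f
  refine ⟨fun g h => ⟨lap_congr G h, fun k => ⟨gr_congr G h EventuallyEq.rfl,
    gr_congr G EventuallyEq.rfl h⟩⟩, fun h => ⟨exists_sm hV hT h, fun e he hx => ?_⟩⟩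
  obtain ⟨g, g1, g2⟩ := exists_sm hV hT h
  rw [lap_congr G g2, HS32.hess_congr (ev_lc g2 hx)]
  exact ((hI n M G hG).1 _ ((hH n M).1 g g1).toTen).1.at he hx

end Pool.Agent.Lib.HS95
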