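import Pool.Agent.Lib.HS95.Blue2

/-! Project hs9, section 4: the hypothesis of the theorem on split atlases holds for the atlas of
product charts. -/

open scoped Topology ContDiff ComplexOrder Matrix
open Set Filter Metric Complex MeasureTheory

set_option linter.unusedVariables false

noncomputable section

namespace Pool.Agent.Lib.HS95

open Pool.Agent.Lib.SV (E)
open Pool.Agent.Lib.HS32 (Mat Mf pr nq hess dz dzb HolN ClM)

namespace NEGK

theorem cont {n : ℕ} {M : Mf n} {f : M.X → ℝ} {x : M.X} (h : SmAt M f x) : ContinuousAt f x := by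
  obtain ⟨e, he, hx, hf⟩ := h
  have h1 : ContinuousAt ((f ∘ e.symm) ∘ e) x := hf.continuousAt.comp (e.continuousAt hx)
  refine h1.congr ?_
  filter_upwards [e.open_source.mem_nhds hx] with y hy
  simp [e.left_inv hy]

theorem smlog {n : ℕ} {M : Mf n} {f : M.X → ℝ} {x : M.X} (h : SmAt M f x) (h0 : 0 < f x) :
    SmAt M (fun y => Real.log (f y)) x := by
  obtain ⟨e, he, hx, hf⟩ := h
  refine ⟨e, he, hx, ?_⟩
  exact hf.log (by simp [e.left_inv hx, h0.ne'])

end NEGK

theorem st_NEG (h1 : St_NG2) (h2 : St_LOC) (h3 : St_HB) (h4 : St_LAPB) (h5 : St_BLK) :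
    St_NEG := by
  intro n M _ H P G k u S hp L c O D a hc hO ht hco hD
  obtain ⟨-, -, ε, κ, hε, -, hb⟩ := h5 n M H P G k u hp
  have hsm : ∀ x, ∀ w ∈ O x, SmAt M (D x) w := by
    intro x w hw
    obtain ⟨-, i, f, hi, hf, hs, -⟩ := hD x w hw
    have hx : w ∈ (L.ch i).source := L.src i ▸ hi
    have hz := (L.ch i).map_source hx
    have hB := L.bas hz (u := D x) (f := f) (by rw [(L.ch i).left_inv hx]; exact hf)
    refine ⟨L.ch i, L.mem i, hx, ?_⟩
    rw [L.snd] at hs
    exact (ContDiffAt.comp (g := f) (f := fun w => up k w) _ hs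
      ((upL k).restrictScalars ℝ).contDiff.contDiffAt).congr_of_eventuallyEq hB
  refine h1 n M G hp.kG (c / 4) O D a (by positivity) hO ht hco fun x w hw =>
    ⟨(hD x w hw).1, hsm x w hw, fun h0 => ?_⟩
  obtain ⟨-, i, f, hi, hf, hs, hl⟩ := hD x w hw
  have hx : w ∈ (L.ch i).source := L.src i ▸ hi
  have hz := (L.ch i).map_source hx
  have hB := L.bas hz (u := D x) (f := f) (by rw [(L.ch i).left_inv hx]; exact hf)
  have hev : ∀ᶠ y in 𝓝 w, SmAt M (fun y => Real.log (D x y)) y := by
    filter_upwards [(hO x).1.mem_nhds hw,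
      (NEGK.cont (hsm x w hw)).eventually (lt_mem_nhds h0)] with y hy hy0
    exact NEGK.smlog (hsm x y hy) hy0
  rw [((h2 n M G hp.kG.toMet w _).2 hev).2 (L.ch i) (L.mem i) hx]
  have hl' := hl h0
  rw [L.snd] at hs hl'
  rw [L.met i _ hz] at hl'
  have hf0 : f (up k (L.ch i w)) ≠ 0 := by
    have := hB.self_of_nhds
    simp only [Function.comp_apply, (L.ch i).left_inv hx] at this
    rw [← this]
    exact h0.ne'
  refine h4 n k _ _ ε c _ _ hε (hp.kG.pos _ (L.mem i) _ hz) (hb _ (L.prod i) _ hz).1 ?_ hl'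
  refine (h3 n k _ _).1 (fun z => Real.log (f z)) (hs.log hf0) ?_
  filter_upwards [hB] with y hy
  simp only [Function.comp_apply] at hy
  simp only [Mf.lc, hy]

end Pool.Agent.Lib.HS95
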