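import Pool.Agent.Lib.HS95.Blue2

/-! Project hs9, section 4: the formula of Green for a closed form of degree one. -/

open scoped Topology ContDiff ComplexOrder Matrix
open Set Filter Metric Complex MeasureTheory

set_option linter.unusedVariables false

noncomputable section

namespace Pool.Agent.Lib.HS95

open Pool.Agent.Lib.SV (E)
open Pool.Agent.Lib.HS32 (Mat Mf hess dz dzb dd)

namespace NG0K

variable {n : ℕ} {M : Mf n} {G : M.Fam (Mat n)} {f g : M.X → ℝ} {w : M.X}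

theorem shift (h : ∃ κ : ℝ, ∀ᶠ y in 𝓝 w, f y = g y + κ) : M.lap G f w = M.lap G g w ∧
    ∀ p, M.gr G f p w = M.gr G g p w ∧ M.gr G p f w = M.gr G p g w := by
  obtain ⟨κ, h⟩ := h
  have hc := (M.ch w).continuousAt_symm (Mf.ch_tgt w)
  rw [ContinuousAt, Mf.ch_symm] at hc
  have e : M.lc f (M.ch w) =ᶠ[𝓝 (M.ch w w)] fun z => M.lc g (M.ch w) z + κ :=
    (hc.eventually h).mono fun z hz => by simp [Mf.lc, hz]
  have a : ∀ (j : Fin n) (u : E n → ℂ), dz j (fun z => u z + κ) = dz j u := fun j u =>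
    funext fun z => by simp only [dz, fderiv_add_const]
  have b : ∀ (j : Fin n) (u : E n → ℂ), dzb j (fun z => u z + κ) = dzb j u := fun j u =>
    funext fun z => by simp only [dzb, fderiv_add_const]
  refine ⟨?_, fun p => ⟨?_, ?_⟩⟩
  · simp only [Mf.lap, Mf.tr, Mf.ev, Mf.hs]
    rw [HS32.hess_congr e]
    simp only [hess, a]
  · simp only [Mf.gr, Mf.tr, Mf.ev, Mf.ds]
    rw [HS32.dd_congr e EventuallyEq.rfl]
    simp only [dd, b]
  · simp only [Mf.gr, Mf.tr, Mf.ev, Mf.ds]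
    rw [HS32.dd_congr EventuallyEq.rfl e]
    simp only [dd, a]

theorem sm_loc (h : ∀ x, ∃ g, M.Sm g ∧ ∀ᶠ y in 𝓝 x, f y = g y) : M.Sm f := fun e he z hz => by
  obtain ⟨g, hg, h⟩ := h (e.symm z)
  exact (hg e he z hz).congr_of_eventuallyEq ((e.continuousAt_symm hz).eventually h)

theorem gr_sq {χ p : M.X → ℝ} (hχ : M.Sm χ) (hp : M.Sm p) (h : χ w = 0) :
    M.gr G f (fun x => χ x ^ 2 * p x) w = 0 := by
  have a := HS32.cd_diff (Mf.AllOn.ch hχ.lc w)
  have b := HS32.cd_diff (Mf.AllOn.ch hp.lc w)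
  have e : M.lc (fun x => χ x ^ 2 * p x) (M.ch w) =
      fun z => M.lc χ (M.ch w) z * (M.lc χ (M.ch w) z * M.lc p (M.ch w) z) :=
    funext fun z => by simp [Mf.lc, sq, mul_assoc]
  have e0 : M.lc χ (M.ch w) (M.ch w w) = 0 := by simp [Mf.lc, Mf.ch_symm, h]
  have : M.ev (M.ds f fun x => χ x ^ 2 * p x) w = 0 := by
    ext i j
    simp only [Mf.ev, Mf.ds, HS32.dd_apply, e]
    rw [HS32.dz_mul a (a.fun_mul b), e0]
    simp
  simp [Mf.gr, Mf.tr, this]

theorem gr_sum {ι : Type} [Fintype ι] {p : ι → M.X → ℝ} (hp : ∀ a, M.Sm (p a)) :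
    M.gr G f (fun x => ∑ a, p a x) w = ∑ a, M.gr G f (p a) w := by
  have e : M.lc (fun x => ∑ a, p a x) (M.ch w) = fun z => ∑ a, M.lc (p a) (M.ch w) z :=
    funext fun z => by simp [Mf.lc]
  have : M.ev (M.ds f fun x => ∑ a, p a x) w = ∑ a, M.ev (M.ds f (p a)) w := by
    ext i j
    simp only [Mf.ev, Mf.ds, HS32.dd_apply, e, Matrix.sum_apply]
    rw [HS32.dz_sum fun a _ => HS32.cd_diff (Mf.AllOn.ch (hp a).lc w), Finset.mul_sum]
  simp only [Mf.gr, Mf.tr, this, Finset.mul_sum, Matrix.trace_sum, re_sum]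

end NG0K

open NG0K

theorem st_NG0 (h1 : St_LOC) (hL : HS32.St_LAP) (hG : HS32.St_GRN) (hV : HS32.St_COV)
    (hM : HS32.St_MU) (hT : HS32.St_TR) : St_NG0 := by
  intro n M _ G t hK ht
  have sL := fun x => ((hL n M _ _ (ht.sm x) (ht.sm x)).2.2 G hK.toMet).1
  have sG := fun x p hp => ((hL n M _ p (ht.sm x) hp).2.2 G hK.toMet).2.1
  refine ⟨sm_loc fun x => ⟨_, sL x, (ht.loc x).mono fun w h => (shift h).1⟩,
    sm_loc fun x => ⟨_, sG x _ (ht.sm x), (ht.loc x).mono fun w h =>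
      ((shift h).2 _).1.trans ((shift h).2 _).2⟩, fun p hp =>
    ⟨sm_loc fun x => ⟨_, sG x p hp, (ht.loc x).mono fun w h => ((shift h).2 _).1⟩, ?_⟩⟩
  obtain ⟨V, hV⟩ := (hV n M).2.1 M.C _ Mf.sub_all ht.loc
  choose y hy using fun a => (hV a).2
  have hs : ∀ a w, V.χ a w ≠ 0 → ∃ κ : ℝ, ∀ᶠ z in 𝓝 w, t w z = t (y a) z + κ := fun a w h =>
    hy a ⟨V.e a w, closedBall_subset_closedBall (by linarith [V.pos a])
      (ball_subset_closedBall (V.supp a w h).2), (V.e a).left_inv (V.supp a w h).1⟩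
  have hq : ∀ a, M.Sm fun x => V.χ a x ^ 2 * p x := fun a => ((V.sm a).pow 2).mul hp
  have hi := (hM n M G hK.toMet).2.2.2.2.1 ℝ
  have e1 : ∀ x, p x * M.lap G (t x) x = ∑ a, V.χ a x ^ 2 * p x * M.lap G (t (y a)) x := fun x => by
    rw [← one_mul (p x * _), ← V.sum x, Finset.sum_mul]
    refine Finset.sum_congr rfl fun a _ => ?_
    by_cases h : V.χ a x = 0
    · simp [h]
    · rw [(shift (hs a x h)).1, mul_assoc]
  have e2 : ∀ x, M.gr G (t x) p x = ∑ a, M.gr G (t (y a)) (fun z => V.χ a z ^ 2 * p z) x :=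
    fun x => by
    have : p = fun z => ∑ a, V.χ a z ^ 2 * p z := funext fun z => by
      rw [← Finset.sum_mul, V.sum, one_mul]
    rw [congrArg (M.gr G (t x) · x) this, gr_sum hq]
    refine Finset.sum_congr rfl fun a _ => ?_
    by_cases h : V.χ a x = 0
    · rw [gr_sq (V.sm a) hp h, gr_sq (V.sm a) hp h]
    · exact ((shift (hs a x h)).2 _).1
  simp only [e1, e2]
  rw [integral_finsetSum _ fun a _ => hi _ ((hq a).mul (sL _)).continuous,
    integral_finsetSum _ fun a _ => hi _ (sG _ _ (hq a)).continuous, ← Finset.sum_neg_distrib]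
  exact Finset.sum_congr rfl fun a _ => ((hG n M).2 G _ _ hK (ht.sm _) (hq a)).2.1

end Pool.Agent.Lib.HS95
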