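import Pool.Agent.Lib.HS95.Blue2

/-! Project hs9, section 4: the integral argument. -/

open scoped Topology ContDiff ComplexOrder Matrix
open Set Filter Metric Complex MeasureTheory

set_option linter.unusedVariables false

noncomputable section

namespace Pool.Agent.Lib.HS95

open Pool.Agent.Lib.SV (E)
open Pool.Agent.Lib.HS32 (Mat Mf pr nq hess dz dzb HolN ClM)

namespace NG1K

/-- The regularised logarithm. -/
def ph (η s : ℝ) : ℝ := Real.log (Real.exp s + η)

/-- Its derivative. -/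
def ps (η s : ℝ) : ℝ := Real.exp s / (Real.exp s + η)

variable {η : ℝ}

theorem den_pos (h : 0 < η) (s : ℝ) : 0 < Real.exp s + η := add_pos (Real.exp_pos s) h

theorem ph_der (h : 0 < η) (s : ℝ) : HasDerivAt (ph η) (ps η s) s :=
  ((Real.hasDerivAt_exp s).add_const η).log (den_pos h s).ne'

theorem ps_der (h : 0 < η) (s : ℝ) : HasDerivAt (ps η) (ps η s * (1 - ps η s)) s := by
  have h1 := (Real.hasDerivAt_exp s).div ((Real.hasDerivAt_exp s).add_const η) (den_pos h s).ne'
  have h2 : ps η s * (1 - ps η s) =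
      (Real.exp s * (Real.exp s + η) - Real.exp s * Real.exp s) / (Real.exp s + η) ^ 2 := by
    have := (den_pos h s).ne'
    simp only [ps]
    field_simp
  rw [h2]
  exact h1

theorem deriv_ph (h : 0 < η) : deriv (ph η) = ps η := funext fun s => (ph_der h s).deriv

theorem deriv_ps (h : 0 < η) (s : ℝ) : deriv (ps η) s = ps η s * (1 - ps η s) := (ps_der h s).deriv

theorem ph_sm (h : 0 < η) (s : ℝ) : ContDiffAt ℝ ∞ (ph η) s :=
  (Real.contDiff_exp.contDiffAt.add contDiffAt_const).log (den_pos h s).ne'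

theorem ps_sm (h : 0 < η) (s : ℝ) : ContDiffAt ℝ ∞ (ps η) s :=
  Real.contDiff_exp.contDiffAt.div (Real.contDiff_exp.contDiffAt.add contDiffAt_const)
    (den_pos h s).ne'

theorem cs {a b d : ℝ} (ha : 0 ≤ a) (hd : 0 ≤ d) (h : b ^ 2 ≤ a * d) : b ≤ a + d / 4 := by
  refine le_of_sq_le_sq ?_ (by positivity)
  nlinarith [sq_nonneg (a - d / 4)]

theorem quot_mem {a : ℝ} (ha : 0 ≤ a) (h : 0 < η) : 0 ≤ a / (a + η) ∧ a / (a + η) ≤ 1 :=
  ⟨by positivity, (div_le_one (by positivity)).2 (by linarith)⟩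

theorem lim {a : ℝ} (ha : 0 ≤ a) :
    Tendsto (fun j : ℕ => a / (a + 1 / ((j : ℝ) + 1)) * (1 - a / (a + 1 / ((j : ℝ) + 1)))) atTop
      (𝓝 0) := by
  rcases ha.eq_or_lt with h | h
  · subst h
    simp only [zero_div, zero_mul]
    exact tendsto_const_nhds
  · have h1 : Tendsto (fun j : ℕ => a / (a + 1 / ((j : ℝ) + 1))) atTop (𝓝 (a / (a + 0))) :=
      tendsto_const_nhds.div (tendsto_const_nhds.add tendsto_one_div_add_atTop_nhds_zero_nat)
        (by rw [add_zero]; exact h.ne')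
    rw [add_zero, div_self h.ne'] at h1
    have h2 := h1.mul ((tendsto_const_nhds (x := (1 : ℝ))).sub h1)
    rwa [sub_self, mul_zero] at h2

variable {n : ℕ} {M : Mf n} [M.Cpt] {G : M.Fam (Mat n)} {t F : M.X → ℝ} {c : ℝ} {x : M.X}

/-- The pointwise inequality. -/
theorem pt (h2 : St_LOC) (hL : HS32.St_LAP) (hG : M.Met G) (ht : M.Sm t) (hF : M.Sm F)
    (h0 : ∀ x, 0 ≤ F x) (h : 0 < η)
    (hc : 0 < F x → c + M.lap G t x ≤ M.lap G (fun y => Real.log (F y)) x) :
    c * (F x / (F x + η)) - F x / (F x + η) * (1 - F x / (F x + η)) * (M.gr G t t x / 4) ≤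
      M.lap G (fun y => Real.log (F y + η)) x - F x / (F x + η) * M.lap G t x -
        M.gr G t (fun y => F y / (F y + η)) x := by
  have hne : ∀ y, F y + η ≠ 0 := fun y => (add_pos_of_nonneg_of_pos (h0 y) h).ne'
  have hu : M.Sm fun y => Real.log (F y + η) := (hF.add (Mf.sm_const η)).log hne
  have hp : M.Sm fun y => F y / (F y + η) := hF.div (hF.add (Mf.sm_const η)) hne
  rcases (h0 x).eq_or_lt with hx | hx
  · have m1 : IsLocalMin (fun y => Real.log (F y + η)) x := Eventually.of_forall fun y => by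
      refine Real.log_le_log (add_pos_of_nonneg_of_pos (h0 x) h) ?_
      have := h0 y
      linarith
    have m2 : IsLocalMin (fun y => F y / (F y + η)) x := Eventually.of_forall fun y => by
      have := (quot_mem (h0 y) h).1
      beta_reduce
      rwa [← hx, zero_div]
    have e1 := ((((hL n M _ t hu ht).2.2 G hG).2.2.1 x 0).2.2.2.2.2.2.2.2.2 m1).1
    have e2 := (((hL n M _ t hp ht).2.2 G hG).2.2.1 x 0).2.2.2.2.2
    have e3 := (e2.2.2.2.2 m2).2.1
    rw [← e2.1, e3, ← hx, zero_div]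
    linarith
  · have hev : ∀ᶠ w in 𝓝 x, 0 < F w := hF.continuous.continuousAt.eventually (lt_mem_nhds hx)
    have hs : ∀ᶠ w in 𝓝 x, SmAt M (fun y => Real.log (F y)) w := hev.mono fun w hw =>
      ⟨M.ch w, Mf.ch_mem w, Mf.mem_ch w, by
        refine ContDiffAt.log (f := F ∘ (M.ch w).symm) (Mf.AllOn.ch hF w) ?_
        rw [Function.comp_apply, Mf.ch_symm]
        exact hw.ne'⟩
    obtain ⟨g, hg, eg⟩ := ((h2 n M G hG x _).2 hs).1
    have eF : ∀ᶠ w in 𝓝 x, Real.exp (g w) = F w := by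
      filter_upwards [hev, eg] with w hw h1
      rw [← h1, Real.exp_log hw]
    have eu : (fun y => Real.log (F y + η)) =ᶠ[𝓝 x] fun y => ph η (g y) :=
      eF.mono fun w hw => by simp only [ph, hw]
    have ep : (fun y => F y / (F y + η)) =ᶠ[𝓝 x] fun y => ps η (g y) :=
      eF.mono fun w hw => by simp only [ps, hw]
    have ex : ps η (g x) = F x / (F x + η) := ep.self_of_nhds.symm
    have l1 := (hL n M g t hg ht).2.2 G hG
    have a1 := (l1.2.2.2.1 (ph η) (fun y => ph_sm h _) x).1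
    have a2 := (l1.2.2.2.1 (ps η) (fun y => ps_sm h _) x).2
    have a3 := (l1.2.2.1 x 0).2.2.2.2.2
    have a4 := (((hL n M t t ht ht).2.2 G hG).2.2.1 x 0).2.2.2.2.2.2.1
    have a5 := (((hL n M _ t (hg.comp fun y => ps_sm h (g y)) ht).2.2 G hG).2.2.1 x 0).2.2.2.2.2.1
    have a6 := cs a3.2.1 a4 a3.2.2.1
    have a7 := hc hx
    rw [((h2 n M G hG x _).1 _ eg).1] at a7
    rw [deriv_ph h, deriv_ps h, ex] at a1
    rw [deriv_ps h, ex] at a2
    rw [((h2 n M G hG x _).1 _ eu).1, (((h2 n M G hG x _).1 _ ep).2 t).2, ← a5, a1, a2]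
    obtain ⟨q0, q1⟩ := quot_mem (h0 x) h
    have b1 := mul_le_mul_of_nonneg_left a7 q0
    have b2 := mul_le_mul_of_nonneg_left a6 (mul_nonneg q0 (sub_nonneg.2 q1))
    nlinarith [b1, b2]

end NG1K

open NG1K in
theorem st_NG1 (h1 : St_NG0) (h2 : St_LOC) (hL : HS32.St_LAP) (hG : HS32.St_GRN)
    (hM : HS32.St_MU) : St_NG1 := by
  intro n M _ G t F c hK ht hF h0 hc hlap
  obtain ⟨s1, s2, s3⟩ := h1 n M G t hK ht
  obtain ⟨-, hfin, hop, -, hint, -⟩ := hM n M G hK.toMet
  obtain ⟨D, hD, hb⟩ := s2.exists_bound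
  have hI : ∀ f : M.X → ℝ, M.Sm f → Integrable f (M.mu G) := fun f hf => hint ℝ f hf.continuous
  have hne : ∀ η : ℝ, 0 < η → ∀ y, F y + η ≠ 0 := fun η h y =>
    (add_pos_of_nonneg_of_pos (h0 y) h).ne'
  have hp : ∀ η : ℝ, 0 < η → M.Sm fun y => F y / (F y + η) := fun η h =>
    hF.div (hF.add (Mf.sm_const η)) (hne η h)
  have hq : ∀ η : ℝ, 0 < η → M.Sm fun y => F y / (F y + η) * (1 - F y / (F y + η)) := fun η h =>
    (hp η h).mul ((Mf.sm_const 1).sub (hp η h))
  have key : ∀ η : ℝ, 0 < η → η ≤ 1 → c * ∫ x, F x / (F x + 1) ∂M.mu G ≤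
      D / 4 * ∫ x, F x / (F x + η) * (1 - F x / (F x + η)) ∂M.mu G := by
    intro η h h'
    have hu : M.Sm fun y => Real.log (F y + η) := (hF.add (Mf.sm_const η)).log (hne η h)
    have su := ((hL n M _ _ hu hu).2.2 G hK.toMet).1
    obtain ⟨s4, e1⟩ := s3 _ (hp η h)
    have e2 := ((hG n M).2 G _ _ hK hu hu).1
    have i1 := hI _ su
    have i2 := hI _ ((hp η h).mul s1)
    have i3 := hI _ s4
    have i4 := hI _ ((hp 1 one_pos).const_mul c)
    have i5 := hI _ ((hq η h).const_mul (D / 4))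
    have e3 : ∫ x, (M.lap G (fun y => Real.log (F y + η)) x - F x / (F x + η) * M.lap G (t x) x -
        M.gr G (t x) (fun y => F y / (F y + η)) x) ∂M.mu G = 0 := by
      rw [integral_sub (hI _ (su.sub ((hp η h).mul s1))) i3, integral_sub i1 i2, e1, e2]
      ring
    have e4 := integral_mono (i4.sub i5) ((i1.sub i2).sub i3) fun x => by
      have a1 := pt h2 hL hK.toMet (ht.sm x) hF h0 h (hlap x)
      obtain ⟨q0, q1⟩ := quot_mem (h0 x) h
      have a2 : F x / (F x + 1) ≤ F x / (F x + η) :=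
        div_le_div_of_nonneg_left (h0 x) (add_pos_of_nonneg_of_pos (h0 x) h) (by linarith)
      have a3 := mul_le_mul_of_nonneg_left a2 hc.le
      have a4 := mul_le_mul_of_nonneg_left ((le_abs_self _).trans (hb x))
        (mul_nonneg q0 (sub_nonneg.2 q1))
      simp only [Pi.sub_apply]
      nlinarith [a1, a3, a4]
    simp only [Pi.sub_apply] at e4
    rw [e3, integral_sub i4 i5, integral_const_mul, integral_const_mul] at e4
    linarith
  have hpos : ∀ j : ℕ, (0 : ℝ) < 1 / ((j : ℝ) + 1) := fun j => by positivity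
  have hT := tendsto_integral_of_dominated_convergence (μ := M.mu G)
    (F := fun (j : ℕ) x => F x / (F x + 1 / ((j : ℝ) + 1)) * (1 - F x / (F x + 1 / ((j : ℝ) + 1))))
    (f := fun _ => (0 : ℝ)) (fun _ => 1) (fun j => (hI _ (hq _ (hpos j))).aestronglyMeasurable)
    (integrable_const 1)
    (fun j => Eventually.of_forall fun x => by
      obtain ⟨q0, q1⟩ := quot_mem (h0 x) (hpos j)
      rw [Real.norm_of_nonneg (mul_nonneg q0 (sub_nonneg.2 q1))]
      nlinarith)
    (Eventually.of_forall fun x => lim (h0 x))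
  rw [integral_zero] at hT
  have hT' := hT.const_mul (D / 4)
  rw [mul_zero] at hT'
  have h5 : c * ∫ x, F x / (F x + 1) ∂M.mu G ≤ 0 := ge_of_tendsto' hT' fun j =>
    key _ (hpos j) ((div_le_one (by positivity)).2 (by linarith [Nat.cast_nonneg (α := ℝ) j]))
  have h6 : 0 ≤ fun x => F x / (F x + 1) := fun x => (quot_mem (h0 x) one_pos).1
  have h7 : ∫ x, F x / (F x + 1) ∂M.mu G = 0 :=
    le_antisymm (nonpos_of_mul_nonpos_right h5 hc) (integral_nonneg h6)
  have h8 := (integral_eq_zero_iff_of_nonneg h6 (hI _ (hp 1 one_pos))).1 h7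
  have h9 := ((hp 1 one_pos).continuous.ae_eq_iff_eq (M.mu G) continuous_const).1 h8
  intro x
  exact (div_eq_zero_iff.1 (congrFun h9 x)).resolve_right (hne 1 one_pos x)

end Pool.Agent.Lib.HS95
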