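import Pool.Agent.Lib.HS95.Blue2

/-! Sections of a flat real line bundle. -/

open scoped Topology ContDiff
open Set Filter Metric

noncomputable section

namespace Pool.Agent.Lib.HS95

open Pool.Agent.Lib.HS32 (Mat Mf)

namespace NG2K

variable {n : ℕ} {M : Mf n}

theorem ev_symm {e : M.Ch} {x : M.X} (hx : x ∈ e.source) {p : M.X → Prop}
    (h : ∀ᶠ y in 𝓝 x, p y) : ∀ᶠ z in 𝓝 (e x), p (e.symm z) := by
  have hc := e.continuousAt_symm (e.map_source hx)
  rw [ContinuousAt, e.left_inv hx] at hc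
  exact hc.eventually h

theorem smAt_cont {f : M.X → ℝ} {x : M.X} (h : SmAt M f x) : ContinuousAt f x := by
  obtain ⟨e, -, hx, h⟩ := h
  refine (h.continuousAt.comp (e.continuousAt hx)).congr ?_
  filter_upwards [e.open_source.mem_nhds hx] with y hy
  simp only [Function.comp_apply, e.left_inv hy]

theorem smAt_log {f : M.X → ℝ} {x : M.X} (h : SmAt M f x) (h0 : f x ≠ 0) :
    SmAt M (fun y => Real.log (f y)) x := by
  obtain ⟨e, he, hx, h⟩ := h
  exact ⟨e, he, hx, h.log (by rwa [Function.comp_apply, e.left_inv hx])⟩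

/-- The cut-off functions vanish near the points outside of a compact set. -/
theorem chi_ev [M.Cpt] (V : M.Cov) (b : Fin V.r) {w : M.X}
    (hw : w ∉ (V.e b).symm '' closedBall (V.c b) (4 * V.ρ b)) : ∀ᶠ y in 𝓝 w, V.χ b y = 0 := by
  have hK : IsCompact ((V.e b).symm '' closedBall (V.c b) (4 * V.ρ b)) :=
    (isCompact_closedBall _ _).image_of_continuousOn ((V.e b).continuousOn_symm.mono (V.sub b))
  filter_upwards [hK.isClosed.isOpen_compl.mem_nhds hw] with y hy
  by_contra h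
  obtain ⟨h1, h2⟩ := V.supp b y h
  exact hy ⟨_, ball_subset_closedBall (ball_subset_ball (by linarith [V.pos b]) h2),
    (V.e b).left_inv h1⟩

end NG2K

open NG2K in
theorem st_NG2 (h1 : St_NG1) (h2 : St_LOC) (hL : HS32.St_LAP) (hV : HS32.St_COV)
    (hT : HS32.St_TR) : St_NG2 := by
  intro n M _ G hG c O D a hc hO ha hco hD
  have hOn : ∀ x, ∀ w ∈ O x, ∀ᶠ y in 𝓝 w, y ∈ O x := fun x w hw => (hO x).1.mem_nhds hw
  obtain ⟨V, hV⟩ := (hV n M).2.1 M.C O Mf.sub_all fun x => hOn x x (hO x).2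
  choose p hp using fun b => (hV b).2
  set τ : M.X → M.X → ℝ := fun x w => ∑ b, V.χ b w ^ 2 * a x (p b) w with hτ
  have hadd : ∀ x x' w, w ∈ O x → w ∈ O x' → τ x w = a x x' w + τ x' w := by
    intro x x' w hw hw'
    rw [← one_mul (a x x' w), ← V.sum w, Finset.sum_mul, ← Finset.sum_add_distrib]
    refine Finset.sum_congr rfl fun b _ => ?_
    by_cases h : w ∈ O (p b)
    · rw [hco x x' (p b) w hw hw' h, mul_add]
    · rw [(chi_ev V b fun h' => h (hp b h')).self_of_nhds]; simp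
  have hsm : ∀ x, ∃ g, M.Sm g ∧ τ x =ᶠ[𝓝 x] g := by
    intro x
    refine ⟨fun w => ∑ b, V.χ b w ^ 2 * a x (p b) x,
      Mf.Sm.sum fun b _ => ((V.sm b).pow 2).mul (Mf.sm_const _), ?_⟩
    have : ∀ b, ∀ᶠ w in 𝓝 x, V.χ b w ^ 2 * a x (p b) w = V.χ b w ^ 2 * a x (p b) x := by
      intro b
      by_cases h : x ∈ O (p b)
      · exact (ha x (p b) x (hO x).2 h).1.mono fun w hw => by rw [hw]
      · exact (chi_ev V b fun h' => h (hp b h')).mono fun w hw => by rw [hw]; simp
    exact (eventually_all.2 this).mono fun w hw => Finset.sum_congr rfl fun b _ => hw b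
  choose t ht hte using hsm
  have hF : ∀ x, ∀ᶠ w in 𝓝 x, D w w * Real.exp (τ w w) = D x w * Real.exp (t x w) := by
    intro x
    filter_upwards [hOn x x (hO x).2, hte x] with w hw he
    rw [← he, hadd x w w hw (hO w).2, (ha x w w hw (hO w).2).2, Real.exp_add]
    ring
  have key := h1 n M G t (fun w => D w w * Real.exp (τ w w)) c hG ⟨ht, fun x => ?_⟩ ?_
    (fun x => mul_nonneg (hD x x (hO x).2).1 (Real.exp_pos _).le) hc ?_
  · exact fun x => (mul_eq_zero.1 (key x)).resolve_right (Real.exp_pos _).ne'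
  · filter_upwards [hOn x x (hO x).2, (hte x).eventually_nhds] with w hw he
    refine ⟨-a x w w, ?_⟩
    filter_upwards [he, hte w, hOn x w hw, hOn w w (hO w).2, (ha x w w hw (hO w).2).1]
      with y e1 e2 e3 e4 e5
    rw [← e1, ← e2, hadd x w y e3 e4, e5]
    ring
  · refine ((hT n M).2.2.2.1 ℝ _).2.2 fun x => ?_
    obtain ⟨e, he, hx, h⟩ := (hD x x (hO x).2).2.1
    exact ⟨e, he, hx, (h.mul ((ht x).exp e he _ (e.map_source hx))).congr_of_eventuallyEq
      (ev_symm hx (hF x))⟩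
  · intro x hx
    have h0 : 0 < D x x := (mul_pos_iff_of_pos_right (Real.exp_pos _)).1 hx
    have hpos : ∀ᶠ w in 𝓝 x, 0 < D x w :=
      (smAt_cont (hD x x (hO x).2).2.1).eventually (lt_mem_nhds h0)
    obtain ⟨⟨g, hg, hge⟩, -⟩ := (h2 n M G hG.toMet x fun y => Real.log (D x y)).2 (by
      filter_upwards [hOn x x (hO x).2, hpos] with w hw h using smAt_log (hD x w hw).2.1 h.ne')
    have e1 := ((h2 n M G hG.toMet x _).1 g hge).1
    have e2 := ((h2 n M G hG.toMet x fun y => Real.log (D y y * Real.exp (τ y y))).1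
      (fun y => g y + t x y) (by
        filter_upwards [hF x, hpos, hge] with w e3 e4 e5
        rw [e3, Real.log_mul e4.ne' (Real.exp_pos _).ne', Real.log_exp, ← e5])).1
    have e3 := (((hL n M g (t x) hg (ht x)).2.2 G hG.toMet).2.2.1 x 0).2.1
    have e4 := (hD x x (hO x).2).2.2 h0
    rw [e2, e3, ← e1]
    linarith

end Pool.Agent.Lib.HS95
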