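import Pool.Agent.Lib.HS95.Blue

/-! Project hs9, section 4: there is no bad function. -/

open scoped Topology ContDiff ComplexOrder Matrix
open Set Filter Metric Complex

noncomputable section

namespace Pool.Agent.Lib.HS95

theorem st_NOD (h1 : St_PC) : St_NOD := by
  intro V ι X _ _ _ _ _ _ _ _ S g T D hN ⟨F, χ, c, hc, hχ, hF, ⟨y₀, hy₀⟩, hpos, hsm⟩
  obtain ⟨hfree, hloc, -, -⟩ := h1 V ι X S g T D
  choose i hi using S.cov
  choose B v j hG ht hq using fun x => D.sec (i x) x (hi x)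
  let s : X → X → V × g.Y := fun x w =>
    (B x (S.e (i x) w).1 + v x, (g.c (j x)).symm (S.e (i x) w).2)
  let O : X → Set X := fun x => interior {w | w ∈ (S.e (i x)).source ∧
    (S.e (i x) w).2 ∈ (g.c (j x)).target ∧ D.q (s x w) = w}
  have hO : ∀ x w, w ∈ O x → w ∈ (S.e (i x)).source ∧
      (S.e (i x) w).2 ∈ (g.c (j x)).target ∧ D.q (s x w) = w := fun x w h =>
    interior_subset (s := {w | w ∈ (S.e (i x)).source ∧
      (S.e (i x) w).2 ∈ (g.c (j x)).target ∧ D.q (s x w) = w}) h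
  have hOn : ∀ x w, w ∈ O x → ∀ᶠ w' in 𝓝 w, w' ∈ O x := fun x w h =>
    isOpen_interior.mem_nhds h
  have hmem : ∀ x, x ∈ O x := fun x => by
    refine mem_interior_iff_mem_nhds.2 ?_
    have h2 : ∀ᶠ w in 𝓝 x, w ∈ (S.e (i x)).source := (S.e (i x)).open_source.mem_nhds (hi x)
    have h3 : ∀ᶠ w in 𝓝 x, (S.e (i x) w).2 ∈ (g.c (j x)).target :=
      ((S.e (i x)).continuousAt (hi x)).snd.eventually ((g.c (j x)).open_target.mem_nhds (ht x))
    exact h2.and (h3.and (hq x))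
  have hs : ∀ x w, w ∈ O x → ContinuousAt (s x) w := fun x w h => by
    obtain ⟨h2, h3, -⟩ := hO x w h
    have h4 := (S.e (i x)).continuousAt h2
    exact (((B x).continuous.continuousAt.comp h4.fst).add continuousAt_const).prodMk
      (ContinuousAt.comp (f := fun w => (S.e (i x) w).2)
        ((g.c (j x)).continuousAt_symm h3) h4.snd)
  have hex : ∀ x x' w, ∃ γ : T.Γ, w ∈ O x → w ∈ O x' → s x' w = T.mv γ (s x w) := by
    intro x x' w
    by_cases h : w ∈ O x ∧ w ∈ O x'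
    · obtain ⟨γ, hγ⟩ := D.orb (s x w) (s x' w)
        ((hO x w h.1).2.2.trans (hO x' w h.2).2.2.symm)
      exact ⟨γ, fun _ _ => hγ⟩
    · exact ⟨1, fun h2 h3 => (h ⟨h2, h3⟩).elim⟩
  choose γ hγ using hex
  have hmul : ∀ (α β : T.Γ) p, T.mv (α * β) p = T.mv α (T.mv β p) := fun α β p => by
    simp only [Tr.mv, T.bmul, map_mul, LinearIsometryEquiv.coe_mul, Function.comp_apply, map_add,
      mul_smul]
    congr 1
    abel
  have key := hN c O (fun x w => F (s x w).2) (fun x x' w => χ (γ x x' w)) hc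
    (fun x => ⟨isOpen_interior, hmem x⟩) ?_ ?_ ?_
  · obtain ⟨δ, hδ⟩ := D.orb (0, y₀) (s (D.q (0, y₀)) (D.q (0, y₀)))
      (hO _ _ (hmem _)).2.2.symm
    have h2 := key (D.q (0, y₀))
    simp only [hδ, Tr.mv, hF] at h2
    exact hy₀ ((mul_eq_zero.1 h2).resolve_left (Real.exp_pos _).ne')
  · intro x x' w h h'
    refine ⟨?_, ?_⟩
    · have h2 := hloc (s x) (s x') w (γ x x' w) (hs x w h) (hs x' w h')
        (((hOn x w h).and (hOn x' w h')).mono fun w' h3 =>
          ⟨(hO x w' h3.1).2.2, (hO x' w' h3.2).2.2⟩) (hγ x x' w h h')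
      filter_upwards [h2, hOn x w h, hOn x' w h'] with w' h3 h4 h5
      rw [hfree _ _ _ ((hγ x x' w' h4 h5).symm.trans h3)]
    · simp only [hγ x x' w h h', Tr.mv, hF]
  · intro x x' x'' w h h' h''
    have h2 : γ x x'' w = γ x' x'' w * γ x x' w := hfree _ _ (s x w) (by
      rw [hmul, ← hγ x x' w h h', ← hγ x' x'' w h' h'', ← hγ x x'' w h h''])
    simp only [h2, hχ, add_comm]
  · intro x w h
    obtain ⟨h2, h3, -⟩ := hO x w h
    refine ⟨hpos _, i x, fun z => F ((g.c (j x)).symm z), h2, Eventually.of_forall fun _ => rfl,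
      (hsm _ _ h3).1, fun h4 => ?_⟩
    rw [← hG x]
    exact (hsm _ _ h3).2 h4

end Pool.Agent.Lib.HS95
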