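import Pool.Agent.Lib.HS95.Blue

/-! Project hs9, section 4: basic lemmas. -/

open scoped Topology ContDiff ComplexOrder Matrix
open Set Filter Metric Complex

set_option linter.unusedSectionVars false

noncomputable section

namespace Pool.Agent.Lib.HS95

section euc

variable {ι : Type} [Fintype ι] [DecidableEq ι]

theorem clm_apply_eq_sum (L : (ι → ℂ) →L[ℂ] ι → ℂ) (v : ι → ℂ) :
    L v = ∑ b, v b • L (Pi.single b 1) := by
  conv_lhs => rw [show v = ∑ b, v b • (Pi.single b (1 : ℂ) : ι → ℂ) from by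
    ext a; simp [Finset.sum_apply, Pi.single_apply]]
  simp only [map_sum, map_smul]

theorem jm_mulVec (φ : (ι → ℂ) → ι → ℂ) (z v : ι → ℂ) : jm φ z *ᵥ v = fderiv ℂ φ z v := by
  rw [clm_apply_eq_sum]
  ext a
  simp [jm, Matrix.mulVec, dotProduct, Finset.sum_apply, mul_comm]

theorem mat_ext {M N : Matrix ι ι ℂ} (h : ∀ v, M *ᵥ v = N *ᵥ v) : M = N := by
  ext a b
  have := congrFun (h (Pi.single b 1)) a
  simpa using this

theorem jm_congr {φ ψ : (ι → ℂ) → ι → ℂ} {z : ι → ℂ} (h : φ =ᶠ[𝓝 z] ψ) : jm φ z = jm ψ z := by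
  unfold jm; rw [h.fderiv_eq]

theorem jm_id (z : ι → ℂ) : jm (fun w => w) z = 1 := by
  apply mat_ext; intro v; rw [jm_mulVec]; simp

theorem jm_comp {φ ψ : (ι → ℂ) → ι → ℂ} {z : ι → ℂ} (hφ : DifferentiableAt ℂ φ (ψ z))
    (hψ : DifferentiableAt ℂ ψ z) : jm (fun w => φ (ψ w)) z = jm φ (ψ z) * jm ψ z := by
  apply mat_ext; intro v
  rw [← Matrix.mulVec_mulVec, jm_mulVec, jm_mulVec, jm_mulVec]
  exact congrArg (fun L : (ι → ℂ) →L[ℂ] ι → ℂ => L v) (fderiv_comp z hφ hψ)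

theorem jm_det (φ : (ι → ℂ) → ι → ℂ) (z : ι → ℂ) : (jm φ z).det = (fderiv ℂ φ z).det := by
  have : jm φ z = LinearMap.toMatrix' (fderiv ℂ φ z : (ι → ℂ) →ₗ[ℂ] ι → ℂ) := by
    ext a b; simp [jm, LinearMap.toMatrix'_apply]
  rw [this, LinearMap.det_toMatrix']

theorem IsoAt.refl (G : (ι → ℂ) → Matrix ι ι ℂ) (z : ι → ℂ) : IsoAt G G (fun w => w) z :=
  ⟨differentiableAt_id, by rw [jm_id]; simp⟩

theorem IsoAt.congr {G G' : (ι → ℂ) → Matrix ι ι ℂ} {φ ψ : (ι → ℂ) → ι → ℂ} {z : ι → ℂ}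
    (h : IsoAt G G' φ z) (e : ψ =ᶠ[𝓝 z] φ) : IsoAt G G' ψ z :=
  ⟨h.hol.congr_of_eventuallyEq e, by rw [jm_congr e, e.eq_of_nhds]; exact h.iso⟩

theorem IsoAt.comp {G G' G'' : (ι → ℂ) → Matrix ι ι ℂ} {φ ψ : (ι → ℂ) → ι → ℂ} {z : ι → ℂ}
    (h' : IsoAt G' G'' φ (ψ z)) (h : IsoAt G G' ψ z) : IsoAt G G'' (fun w => φ (ψ w)) z := by
  refine ⟨h'.hol.comp z h.hol, ?_⟩
  rw [jm_comp h'.hol h.hol, Matrix.conjTranspose_mul, ← h.iso, ← h'.iso]
  simp only [Matrix.mul_assoc]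

theorem qf_conj {κ : Type} [Fintype κ] (M : Matrix ι ι ℂ) (J : Matrix ι κ ℂ) (v : κ → ℂ) :
    star v ⬝ᵥ (Jᴴ * M * J) *ᵥ v = star (J *ᵥ v) ⬝ᵥ M *ᵥ (J *ᵥ v) := by
  rw [Matrix.star_mulVec, ← Matrix.mulVec_mulVec, ← Matrix.mulVec_mulVec,
    Matrix.dotProduct_mulVec]

theorem IsoAt.qf_eq {G G' : (ι → ℂ) → Matrix ι ι ℂ} {φ : (ι → ℂ) → ι → ℂ} {z : ι → ℂ}
    (h : IsoAt G G' φ z) (v : ι → ℂ) : qf (G' (φ z)) (fderiv ℂ φ z v) = qf (G z) v := by
  unfold qf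
  rw [← h.iso, qf_conj, jm_mulVec]

theorem qf_pos {M : Matrix ι ι ℂ} (h : M.PosDef) {v : ι → ℂ} (hv : v ≠ 0) : 0 < qf M v :=
  (Complex.lt_def.1 (h.dotProduct_mulVec_pos hv)).1

theorem qf_zero (M : Matrix ι ι ℂ) : qf M 0 = 0 := by simp [qf]

theorem qf_nonneg {M : Matrix ι ι ℂ} (h : M.PosDef) (v : ι → ℂ) : 0 ≤ qf M v := by
  by_cases hv : v = 0
  · rw [hv, qf_zero]
  · exact (qf_pos h hv).le

theorem qf_smul (M : Matrix ι ι ℂ) (c : ℝ) (v : ι → ℂ) : qf M (c • v) = c ^ 2 * qf M v := by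
  unfold qf
  have : (c • v : ι → ℂ) = (c : ℂ) • v := by ext a; simp
  rw [this, star_smul, Matrix.mulVec_smul, smul_dotProduct, dotProduct_smul]
  simp [← mul_assoc, sq]

theorem IsoAt.inj {G G' : (ι → ℂ) → Matrix ι ι ℂ} {φ : (ι → ℂ) → ι → ℂ} {z : ι → ℂ}
    (h : IsoAt G G' φ z) (hp : (G z).PosDef) {v : ι → ℂ} (hv : fderiv ℂ φ z v = 0) : v = 0 := by
  by_contra h0
  have := qf_pos hp h0
  rw [← h.qf_eq, hv, qf_zero] at this
  exact lt_irrefl _ this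

theorem continuousOn_qf {G : (ι → ℂ) → Matrix ι ι ℂ} {K : Set (ι → ℂ)} (h : ∀ w ∈ K, SmM G w) :
    ContinuousOn (fun p : (ι → ℂ) × (ι → ℂ) => qf (G p.1) p.2) (K ×ˢ univ) := by
  intro p hp
  apply ContinuousAt.continuousWithinAt
  have h1 : ∀ a b, ContinuousAt (fun q : (ι → ℂ) × (ι → ℂ) => G q.1 a b) p := fun a b =>
    ContinuousAt.comp (f := Prod.fst) (h p.1 hp.1 a b).continuousAt continuousAt_fst
  unfold qf
  simp only [dotProduct, Matrix.mulVec, Pi.star_apply]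
  refine Complex.continuous_re.continuousAt.comp ?_
  refine tendsto_finsetSum _ fun a _ => ContinuousAt.mul ?_ ?_
  · exact (continuous_star.comp ((continuous_apply a).comp continuous_snd)).continuousAt
  · exact tendsto_finsetSum _ fun b _ => ContinuousAt.mul (h1 a b)
      ((continuous_apply b).comp continuous_snd).continuousAt

/-- Two-sided bounds on a compact set. -/
theorem qf_bounds {G : (ι → ℂ) → Matrix ι ι ℂ} {K : Set (ι → ℂ)} (hK : IsCompact K)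
    (h : ∀ w ∈ K, SmM G w ∧ (G w).PosDef) :
    ∃ c C : ℝ, 0 < c ∧ 0 < C ∧ ∀ w ∈ K, ∀ v, c * ‖v‖ ^ 2 ≤ qf (G w) v ∧ qf (G w) v ≤ C * ‖v‖ ^ 2 := by
  have hc : IsCompact (K ×ˢ sphere (0 : ι → ℂ) 1) := hK.prod (isCompact_sphere _ _)
  have hco : ContinuousOn (fun p : (ι → ℂ) × (ι → ℂ) => qf (G p.1) p.2) (K ×ˢ sphere 0 1) :=
    (continuousOn_qf fun w hw => (h w hw).1).mono (prod_mono_right (subset_univ _))
  have hpos : ∀ p ∈ K ×ˢ sphere (0 : ι → ℂ) 1, 0 < qf (G p.1) p.2 := fun p hp =>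
    qf_pos (h _ hp.1).2 (by
      intro h0; have := hp.2; rw [h0] at this; simp at this)
  obtain ⟨c, hc0, hc1⟩ := hc.exists_forall_le' hco hpos
  obtain ⟨C, hC⟩ := hc.exists_bound_of_continuousOn hco
  refine ⟨c, |C| + 1, hc0, by positivity, fun w hw v => ?_⟩
  by_cases hv : v = 0
  · simp [hv, qf_zero]
  have hn : 0 < ‖v‖ := norm_pos_iff.2 hv
  have hu : (w, ‖v‖⁻¹ • v) ∈ K ×ˢ sphere (0 : ι → ℂ) 1 :=
    ⟨hw, by simp [norm_smul, hn.ne']⟩
  have e : qf (G w) v = ‖v‖ ^ 2 * qf (G w) (‖v‖⁻¹ • v) := by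
    rw [qf_smul]; field_simp
  have h1 := hc1 _ hu
  have h2 := (le_abs_self _).trans ((hC _ hu).trans (le_abs_self C))
  simp only at h1 h2
  rw [e]
  constructor <;> nlinarith [sq_pos_of_pos hn]

theorem norm_sq_le_nsq (v : ι → ℂ) : ‖v‖ ^ 2 ≤ nsq v := by
  have h0 : 0 ≤ nsq v := Finset.sum_nonneg fun j _ => normSq_nonneg _
  have : ‖v‖ ≤ Real.sqrt (nsq v) := by
    refine (pi_norm_le_iff_of_nonneg (Real.sqrt_nonneg _)).2 fun j => ?_
    apply Real.le_sqrt_of_sq_le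
    rw [← normSq_eq_norm_sq]
    exact Finset.single_le_sum (f := fun j => normSq (v j)) (fun j _ => normSq_nonneg _)
      (Finset.mem_univ j)
  calc ‖v‖ ^ 2 ≤ Real.sqrt (nsq v) ^ 2 := by gcongr
    _ = nsq v := Real.sq_sqrt h0

theorem nsq_le (v : ι → ℂ) : nsq v ≤ Fintype.card ι * ‖v‖ ^ 2 := by
  unfold nsq
  calc ∑ j, normSq (v j) ≤ ∑ _j : ι, ‖v‖ ^ 2 := Finset.sum_le_sum fun j _ => by
        rw [normSq_eq_norm_sq]; gcongr; exact norm_le_pi_norm v j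
    _ = _ := by simp

section d2

variable {β : Type} [NormedAddCommGroup β] [NormedSpace ℝ β]

theorem d2_eq {g : (ι → ℂ) → β} {z : ι → ℂ} (h : ContDiffAt ℝ 2 g z) (v w : ι → ℂ) :
    d2 g z v w = fderiv ℝ (fderiv ℝ g) z v w := by
  have h1 : DifferentiableAt ℝ (fderiv ℝ g) z :=
    (h.fderiv_right (m := 1) (by norm_num)).differentiableAt one_ne_zero
  unfold d2
  rw [fderiv_clm_apply h1 (differentiableAt_const w)]
  simp

theorem d2_symm {g : (ι → ℂ) → β} {z : ι → ℂ} (h : ContDiffAt ℝ 2 g z) (v w : ι → ℂ) :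
    d2 g z v w = d2 g z w v := by
  rw [d2_eq h, d2_eq h]
  exact (h.isSymmSndFDerivAt (by simp)).eq v w

theorem d2_congr {g g' : (ι → ℂ) → β} {z : ι → ℂ} (h : g =ᶠ[𝓝 z] g') (v w : ι → ℂ) :
    d2 g z v w = d2 g' z v w := by
  unfold d2
  have : (fun x => fderiv ℝ g x w) =ᶠ[𝓝 z] fun x => fderiv ℝ g' x w :=
    h.eventuallyEq_nhds.mono fun x hx => by simp only [hx.fderiv_eq]
  rw [this.fderiv_eq]

end d2

theorem lv_congr {g g' : (ι → ℂ) → ℝ} {z : ι → ℂ} (h : g =ᶠ[𝓝 z] g') (v : ι → ℂ) :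
    lv g z v = lv g' z v := by
  unfold lv; rw [d2_congr h, d2_congr h]

theorem LapGe.congr {M : Matrix ι ι ℂ} {g g' : (ι → ℂ) → ℝ} {z : ι → ℂ} {c : ℝ}
    (h : LapGe M g z c) (e : g' =ᶠ[𝓝 z] g) : LapGe M g' z c := fun W hW => by
  simpa only [lv_congr e] using h W hW

theorem contDiffAt_of_hol {F : Type} [NormedAddCommGroup F] [NormedSpace ℂ F] [CompleteSpace F]
    {φ : (ι → ℂ) → F} {z : ι → ℂ} (h : ∀ᶠ w in 𝓝 z, DifferentiableAt ℂ φ w) :
    ContDiffAt ℝ ∞ φ z := by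
  obtain ⟨O, h1, hO, hx⟩ := _root_.eventually_nhds_iff.1 h
  exact ((SV.H85.contDiffOn_top hO fun w hw => (h1 w hw).differentiableWithinAt).contDiffAt
    (hO.mem_nhds hx)).restrict_scalars ℝ

end euc

/-- Rescaled limits pass through differentiable maps. -/
theorem lim_rescale {E F α : Type} [NormedAddCommGroup E] [NormedSpace ℝ E] [NormedAddCommGroup F]
    [NormedSpace ℝ F] {l : Filter α} {f : E → F} {f' : E →L[ℝ] F} {x v : E} {u : α → E}
    {r : α → ℝ} (hf : HasFDerivAt f f' x) (hu : Tendsto u l (𝓝 x))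
    (hv : Tendsto (fun m => r m • (u m - x)) l (𝓝 v)) :
    Tendsto (fun m => r m • (f (u m) - f x)) l (𝓝 (f' v)) := by
  have h1 : (fun m => f (u m) - f x - f' (u m - x)) =o[l] fun m => u m - x :=
    hf.isLittleO.comp_tendsto hu
  have h2 : (fun m => r m • (f (u m) - f x - f' (u m - x))) =o[l] fun m => r m • (u m - x) :=
    (Asymptotics.isBigO_refl r l).smul_isLittleO h1
  have h3 : Tendsto (fun m => r m • (f (u m) - f x - f' (u m - x))) l (𝓝 0) :=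
    (Asymptotics.isLittleO_one_iff ℝ).1 (h2.trans_isBigO (hv.isBigO_one ℝ))
  have h4 : Tendsto (fun m => f' (r m • (u m - x))) l (𝓝 (f' v)) := (f'.continuous.tendsto v).comp hv
  have h5 := h3.add h4
  rw [zero_add] at h5
  refine h5.congr fun m => ?_
  rw [map_smul, ← smul_add, sub_add_cancel]

/-- A bounded rescaled displacement with scale tending to infinity tends to zero. -/
theorem tendsto_of_rescale {E α : Type} [NormedAddCommGroup E] [NormedSpace ℝ E] {l : Filter α}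
    {x : E} {u : α → E} {r : α → ℝ} {C : ℝ} (hr : Tendsto r l atTop)
    (hC : ∀ᶠ m in l, ‖r m • (u m - x)‖ ≤ C) : Tendsto u l (𝓝 x) := by
  rw [tendsto_iff_norm_sub_tendsto_zero]
  have h1 : Tendsto (fun m => C * (r m)⁻¹) l (𝓝 0) := by
    simpa using (tendsto_inv_atTop_zero.comp hr).const_mul C
  refine squeeze_zero' (Eventually.of_forall fun m => norm_nonneg _) ?_ h1
  filter_upwards [hC, hr.eventually_gt_atTop 0] with m h hm
  rw [norm_smul, Real.norm_of_nonneg hm.le] at h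
  rw [← div_eq_mul_inv, le_div_iff₀ hm, mul_comm]
  exact h

namespace Geo

variable {ι : Type} [Fintype ι] [DecidableEq ι] (g : Geo ι)

theorem pc_mem (y : g.Y) : y ∈ (g.c (g.pc y)).source := (g.cov y).choose_spec

theorem iso_id : g.Iso id := ⟨continuous_id, fun j j' y h h' => g.chg j j' y h h'⟩

theorem T_apply (f : g.Y → g.Y) {j : g.J} (j' : g.J) {y : g.Y} (h : y ∈ (g.c j).source) :
    g.T f j j' (g.c j y) = g.c j' (f y) := by
  unfold T; rw [(g.c j).left_inv h]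

theorem symm_T (f : g.Y → g.Y) (j : g.J) {j' : g.J} {z : ι → ℂ}
    (h : f ((g.c j).symm z) ∈ (g.c j').source) :
    (g.c j').symm (g.T f j j' z) = f ((g.c j).symm z) := (g.c j').left_inv h

theorem T_mem (f : g.Y → g.Y) (j : g.J) {j' : g.J} {z : ι → ℂ}
    (h : f ((g.c j).symm z) ∈ (g.c j').source) : g.T f j j' z ∈ (g.c j').target :=
  (g.c j').map_source h

theorem ev_target {j : g.J} {z : ι → ℂ} (hz : z ∈ (g.c j).target) :
    ∀ᶠ w in 𝓝 z, w ∈ (g.c j).target := (g.c j).open_target.mem_nhds hz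

theorem ev_met {j : g.J} {z : ι → ℂ} (hz : z ∈ (g.c j).target) :
    ∀ᶠ w in 𝓝 z, Met g.k (g.G j) w := (g.ev_target hz).mono (g.met j)

theorem tendsto_symm {j : g.J} {z : ι → ℂ} (hz : z ∈ (g.c j).target) :
    Tendsto (g.c j).symm (𝓝 z) (𝓝 ((g.c j).symm z)) := (g.c j).continuousAt_symm hz

theorem ev_source {f : g.Y → g.Y} (hf : Continuous f) {j j' : g.J} {z : ι → ℂ}
    (hz : z ∈ (g.c j).target) (h : f ((g.c j).symm z) ∈ (g.c j').source) :
    ∀ᶠ w in 𝓝 z, f ((g.c j).symm w) ∈ (g.c j').source :=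
  (hf.continuousAt.tendsto.comp (g.tendsto_symm hz)).eventually
    ((g.c j').open_source.mem_nhds h)

theorem T_id_ev {j : g.J} {z : ι → ℂ} (hz : z ∈ (g.c j).target) :
    g.T id j j =ᶠ[𝓝 z] fun w => w :=
  (g.ev_target hz).mono fun _ hw => (g.c j).right_inv hw

theorem T_comp_ev {f : g.Y → g.Y} (f' : g.Y → g.Y) (hf : Continuous f) {j j' : g.J} (j'' : g.J)
    {z : ι → ℂ} (hz : z ∈ (g.c j).target) (h : f ((g.c j).symm z) ∈ (g.c j').source) :
    g.T (fun y => f' (f y)) j j'' =ᶠ[𝓝 z] fun w => g.T f' j' j'' (g.T f j j' w) :=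
  (g.ev_source hf hz h).mono fun w hw => by
    show g.c j'' _ = g.c j'' (f' _)
    rw [g.symm_T f j hw]

variable {g}

theorem Iso.at {f : g.Y → g.Y} (hf : g.Iso f) {j j' : g.J} {z : ι → ℂ} (hz : z ∈ (g.c j).target)
    (h : f ((g.c j).symm z) ∈ (g.c j').source) : IsoAt (g.G j) (g.G j') (g.T f j j') z := by
  have := hf.loc j j' _ ((g.c j).map_target hz) h
  rwa [(g.c j).right_inv hz] at this

theorem Iso.ev {f : g.Y → g.Y} (hf : g.Iso f) {j j' : g.J} {z : ι → ℂ} (hz : z ∈ (g.c j).target)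
    (h : f ((g.c j).symm z) ∈ (g.c j').source) :
    ∀ᶠ w in 𝓝 z, IsoAt (g.G j) (g.G j') (g.T f j j') w := by
  filter_upwards [g.ev_target hz, g.ev_source hf.cont hz h] with w h1 h2 using hf.at h1 h2

theorem Iso.smooth {f : g.Y → g.Y} (hf : g.Iso f) {j j' : g.J} {z : ι → ℂ}
    (hz : z ∈ (g.c j).target) (h : f ((g.c j).symm z) ∈ (g.c j').source) :
    ContDiffAt ℝ ∞ (g.T f j j') z := contDiffAt_of_hol ((hf.ev hz h).mono fun _ h => h.hol)

theorem Iso.comp {f f' : g.Y → g.Y} (hf' : g.Iso f') (hf : g.Iso f) : g.Iso fun y => f' (f y) := by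
  refine ⟨hf'.cont.comp hf.cont, fun j j' y h h' => ?_⟩
  have hz := (g.c j).map_source h
  have e : (g.c j).symm (g.c j y) = y := (g.c j).left_inv h
  have h1 : f ((g.c j).symm (g.c j y)) ∈ (g.c (g.pc (f y))).source := by rw [e]; exact g.pc_mem _
  refine IsoAt.congr (IsoAt.comp ?_ (hf.at hz h1)) (g.T_comp_ev f' hf.cont j' hz h1)
  exact hf'.at (g.T_mem f j h1) (by rw [g.symm_T f j h1, e]; exact h')

/-- Chain rule in charts. -/
theorem fderiv_T_comp {f f' : g.Y → g.Y} (hf' : g.Iso f') (hf : g.Iso f) {j j' j'' : g.J}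
    {y : g.Y} (h : y ∈ (g.c j).source) (h' : f y ∈ (g.c j').source)
    (h'' : f' (f y) ∈ (g.c j'').source) (v : ι → ℂ) :
    fderiv ℂ (g.T (fun y => f' (f y)) j j'') (g.c j y) v =
      fderiv ℂ (g.T f' j' j'') (g.c j' (f y)) (fderiv ℂ (g.T f j j') (g.c j y) v) := by
  have hz := (g.c j).map_source h
  have e : (g.c j).symm (g.c j y) = y := (g.c j).left_inv h
  rw [(g.T_comp_ev f' hf.cont j'' hz (by rw [e]; exact h')).fderiv_eq, ← g.T_apply f j' h]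
  have h2 := (hf'.loc j' j'' _ h' h'').hol
  rw [← g.T_apply f j' h] at h2
  exact congrArg (fun L : (ι → ℂ) →L[ℂ] ι → ℂ => L v)
    (fderiv_comp _ h2 (hf.loc j j' y h h').hol)

theorem fderiv_T_id {j : g.J} {z : ι → ℂ} (hz : z ∈ (g.c j).target) (v : ι → ℂ) :
    fderiv ℂ (g.T id j j) z v = v := by
  rw [(g.T_id_ev hz).fderiv_eq]; simp

theorem cmp_apply (ξ : g.Y → ι → ℂ) {j : g.J} {y : g.Y} (h : y ∈ (g.c j).source) :
    g.cmp ξ j (g.c j y) = fderiv ℂ (g.T id (g.pc y) j) (g.c (g.pc y) y) (ξ y) := by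
  unfold cmp; rw [(g.c j).left_inv h]

theorem cmp_pc (ξ : g.Y → ι → ℂ) (y : g.Y) : g.cmp ξ (g.pc y) (g.c (g.pc y) y) = ξ y := by
  rw [cmp_apply ξ (g.pc_mem y), fderiv_T_id ((g.c _).map_source (g.pc_mem y))]

/-- Change of chart for the components of a field. -/
theorem cmp_chg (ξ : g.Y → ι → ℂ) {j j' : g.J} {y : g.Y} (h : y ∈ (g.c j).source)
    (h' : y ∈ (g.c j').source) :
    g.cmp ξ j' (g.c j' y) = fderiv ℂ (g.T id j j') (g.c j y) (g.cmp ξ j (g.c j y)) := by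
  rw [cmp_apply ξ h, cmp_apply ξ h']
  exact fderiv_T_comp (f := id) (f' := id) g.iso_id g.iso_id (g.pc_mem y) h h' _

theorem cmp_add (ξ η : g.Y → ι → ℂ) (j : g.J) : g.cmp (ξ + η) j = g.cmp ξ j + g.cmp η j := by
  funext z; simp [cmp]

theorem cmp_smul (c : ℂ) (ξ : g.Y → ι → ℂ) (j : g.J) : g.cmp (c • ξ) j = c • g.cmp ξ j := by
  funext z; simp [cmp]

theorem cmp_rsmul (c : ℝ) (ξ : g.Y → ι → ℂ) (j : g.J) : g.cmp (c • ξ) j = c • g.cmp ξ j := by
  funext z; simp [cmp]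

theorem cmp_zero (j : g.J) : g.cmp 0 j = 0 := by
  funext z; simp [cmp]

theorem cmp_sum {κ : Type} (s : Finset κ) (ξ : κ → g.Y → ι → ℂ) (j : g.J) (z : ι → ℂ) :
    g.cmp (∑ t ∈ s, ξ t) j z = ∑ t ∈ s, g.cmp (ξ t) j z := by
  simp [cmp]

theorem cmp_eq_zero {ξ : g.Y → ι → ℂ} {j : g.J} {y : g.Y} (h : y ∈ (g.c j).source) :
    g.cmp ξ j (g.c j y) = 0 ↔ ξ y = 0 := by
  rw [cmp_apply ξ h]
  exact ⟨(g.iso_id.loc _ _ y (g.pc_mem y) h).inj
    (g.met _ _ ((g.c _).map_source (g.pc_mem y))).pos, fun h0 => by rw [h0, map_zero]⟩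

theorem Near.mono {f : g.Y → g.Y} {j : g.J} {z z' : ι → ℂ} {r r' ε ε' : ℝ} (h : g.Near f j z r ε)
    (hb : ball z' r' ⊆ ball z r) (he : ε ≤ ε') : g.Near f j z' r' ε' :=
  fun w hw => ⟨(h w (hb hw)).1, (h w (hb hw)).2.trans he⟩

instance : LocallyCompactSpace g.Y := by
  refine ⟨fun y n hn => ?_⟩
  obtain ⟨j, hj⟩ := g.cov y
  have h1 : (g.c j).target ∩ (g.c j).symm ⁻¹' n ∈ 𝓝 (g.c j y) :=
    inter_mem ((g.c j).open_target.mem_nhds ((g.c j).map_source hj))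
      (((g.c j).continuousAt_symm ((g.c j).map_source hj)).preimage_mem_nhds
        (by rw [(g.c j).left_inv hj]; exact hn))
  obtain ⟨K, hK, hs, hc⟩ := local_compact_nhds h1
  refine ⟨(g.c j).symm '' K, ?_, ?_, hc.image_of_continuousOn
    ((g.c j).continuousOn_symm.mono fun w hw => (hs hw).1)⟩
  · have := (g.c j).symm.image_mem_nhds ((g.c j).map_source hj) hK
    rwa [(g.c j).left_inv hj] at this
  · rintro _ ⟨w, hw, rfl⟩; exact (hs hw).2

end Geo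

namespace Act

variable {ι : Type} [Fintype ι] [DecidableEq ι] {g : Geo ι} (a : Act g)

theorem f_mul (γ δ : a.Γ) : a.f (γ * δ) = fun y => a.f γ (a.f δ y) := funext fun y => mul_smul γ δ y

theorem f_one : a.f 1 = id := funext fun y => one_smul _ y

theorem cont (γ : a.Γ) : Continuous fun y : g.Y => γ • y := (a.iso γ).cont

/-- Components of the direct image. -/
theorem cmp_push (γ : a.Γ) (ξ : g.Y → ι → ℂ) {j j' : g.J} {y : g.Y} (h : y ∈ (g.c j).source)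
    (h' : γ • y ∈ (g.c j').source) :
    g.cmp (a.push γ ξ) j' (g.c j' (γ • y)) =
      fderiv ℂ (g.T (a.f γ) j j') (g.c j y) (g.cmp ξ j (g.c j y)) := by
  rw [Geo.cmp_apply _ h', Geo.cmp_apply _ h]
  unfold push
  rw [inv_smul_smul]
  rw [← Geo.fderiv_T_comp (f := a.f γ) (f' := id) g.iso_id (a.iso γ) (g.pc_mem y) (g.pc_mem _) h']
  exact Geo.fderiv_T_comp (f := id) (f' := a.f γ) (a.iso γ) g.iso_id (g.pc_mem y) h h' _

theorem push_add (γ : a.Γ) (ξ η : g.Y → ι → ℂ) : a.push γ (ξ + η) = a.push γ ξ + a.push γ η := by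
  funext y; simp [push]

theorem push_rsmul (γ : a.Γ) (c : ℝ) (ξ : g.Y → ι → ℂ) : a.push γ (c • ξ) = c • a.push γ ξ := by
  funext y; simp [push]

theorem push_zero (γ : a.Γ) : a.push γ 0 = 0 := by
  funext y; simp [push]

end Act

namespace Tr

variable {V : Type} [NormedAddCommGroup V] [InnerProductSpace ℂ V] {ι : Type} [Fintype ι]
  [DecidableEq ι] {g : Geo ι} (T : Tr V g)

theorem b_one : T.b 1 = 0 := by
  have := T.bmul 1 1
  rw [mul_one, map_one] at this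
  simpa using this

theorem mv_one (p : V × g.Y) : T.mv 1 p = p := by
  simp [mv, b_one]

theorem mv_mul (γ δ : T.Γ) (p : V × g.Y) : T.mv (γ * δ) p = T.mv γ (T.mv δ p) := by
  simp only [mv, T.bmul, map_mul, mul_smul, map_add, Prod.mk.injEq, and_true]
  show T.A γ (T.A δ p.1) + _ = _
  abel

theorem b_inv (γ : T.Γ) : T.b γ⁻¹ = -(T.A γ)⁻¹ (T.b γ) := by
  have := T.bmul γ⁻¹ γ
  rw [inv_mul_cancel, b_one, map_inv] at this
  exact eq_neg_of_add_eq_zero_left this.symm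

theorem continuous_mv (γ : T.Γ) : Continuous (T.mv γ) :=
  (((T.A γ).continuous.comp continuous_fst).add continuous_const).prodMk
    ((T.toAct.cont γ).comp continuous_snd)

theorem chi_mul (γ δ : T.Γ) : T.chi (γ * δ) = T.chi γ * T.chi δ := by
  unfold chi
  rw [← LinearMap.det_comp, map_mul]
  rfl

end Tr

end Pool.Agent.Lib.HS95
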