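import Pool.Agent.Lib.HS95.Blue
import Pool.Agent.Lib.HS95.Kit

/-! Project hs9, section 4: the invariant weights. -/

open scoped Topology ContDiff ComplexOrder Matrix
open Set Filter Metric Complex

noncomputable section

namespace Pool.Agent.Lib.HS95

namespace ORBLK

variable {ι : Type} [Fintype ι]

theorem d2_sum {κ : Type} (s : Finset κ) (f : κ → (ι → ℂ) → ℝ) (z : ι → ℂ)
    (h : ∀ i ∈ s, ContDiffAt ℝ 2 (f i) z) (v w : ι → ℂ) :
    d2 (fun x => ∑ i ∈ s, f i x) z v w = ∑ i ∈ s, d2 (f i) z v w := by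
  have e : (fun x => fderiv ℝ (fun x => ∑ i ∈ s, f i x) x w) =ᶠ[𝓝 z]
      fun x => ∑ i ∈ s, fderiv ℝ (f i) x w := by
    have : ∀ᶠ x in 𝓝 z, ∀ i ∈ s, DifferentiableAt ℝ (f i) x :=
      (eventually_all_finset s).2 fun i hi =>
        ((h i hi).eventually (by simp)).mono fun x hx => hx.differentiableAt (by simp)
    filter_upwards [this] with x hx
    rw [fderiv_fun_sum hx, sum_apply]
  unfold d2
  rw [e.fderiv_eq, fderiv_fun_sum, sum_apply]
  exact fun i hi => (((h i hi).fderiv_right (m := 1) (by norm_num)).differentiableAt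
    one_ne_zero).clm_apply (differentiableAt_const w)

theorem lv_sum {κ : Type} (s : Finset κ) (f : κ → (ι → ℂ) → ℝ) (z : ι → ℂ)
    (h : ∀ i ∈ s, ContDiffAt ℝ 2 (f i) z) (v : ι → ℂ) :
    lv (fun x => ∑ i ∈ s, f i x) z v = ∑ i ∈ s, lv (f i) z v := by
  unfold lv
  rw [d2_sum s f z h, d2_sum s f z h, Finset.sum_add_distrib]

end ORBLK

open ORBLK in
theorem st_ORBL (h1 : St_SUM) (h2 : St_POL) (h3 : St_LVC) : St_ORBL := by
  intro ι _ _ g a hpd y₀ j₀ r r₂ O hO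
  obtain ⟨χ, L, hL, -, u0, u2, u3, u4⟩ := h2 ι (g.c j₀ y₀) r hO.rpos
  have hK := h1 ι g a hpd j₀ _ (isCompact_closedBall _ _) hO.sub
  obtain ⟨c, C', hc, -, hq⟩ := qf_bounds (G := g.G j₀) (isCompact_closedBall (g.c j₀ y₀) (2 * r))
    fun w hw => ⟨(g.met j₀ w (hO.sub hw)).sm, (g.met j₀ w (hO.sub hw)).pos⟩
  have hf : {γ : a.Γ | γ • y₀ = y₀}.Finite :=
    (hpd {y₀} isCompact_singleton).subset fun γ hγ => ⟨y₀, rfl, hγ⟩
  let u : ℝ → (ι → ℂ) → ℝ := fun δ z => χ z * Real.log (nsq (z - g.c j₀ y₀) + δ)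
  let m : ℝ := hf.toFinset.card
  let B : ℝ := |Real.log (r₂ ^ 2)|
  have hm : 0 ≤ m := Nat.cast_nonneg _
  have hB : 0 ≤ B := abs_nonneg _
  have hLc : 0 ≤ L / c := div_nonneg hL hc.le
  have card : ∀ (y : g.Y) (s : Finset a.Γ), (∀ γ ∈ s, γ • y ∈ (g.c j₀).source ∧
      g.c j₀ (γ • y) ∈ closedBall (g.c j₀ y₀) (2 * r)) → (s.card : ℝ) ≤ m := by
    intro y s hs
    rcases s.eq_empty_or_nonempty with rfl | ⟨ε, hε⟩
    · simpa using hm
    · refine Nat.cast_le.2 (Finset.card_le_card_of_injOn (fun γ => γ * ε⁻¹) (fun γ hγ => ?_)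
        (mul_left_injective _).injOn)
      have e : (γ * ε⁻¹) • ε • y = γ • y := by rw [mul_smul, inv_smul_smul]
      exact Finset.mem_coe.2 (hf.mem_toFinset.2 (hO.stab _ (ε • y) (hs ε hε).1 (hs ε hε).2
        (e ▸ (hs γ hγ).1) (e ▸ (hs γ hγ).2)))
  have key : ∀ δ (s : Finset a.Γ) (y : g.Y), ((∀ γ ∈ s, γ • y ∈ (g.c j₀).source) ∧
      ∀ γ ∉ s, γ • y ∈ (g.c j₀).source → g.c j₀ (γ • y) ∉ closedBall (g.c j₀ y₀) (2 * r)) →
      ∑ᶠ γ : a.Γ, g.ext j₀ (u δ) (γ • y) = ∑ γ ∈ s, u δ (g.c j₀ (γ • y)) := by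
    intro δ s y hw
    rw [finsum_eq_sum_of_support_subset (s := s) _ fun γ hγ => ?_]
    · exact Finset.sum_congr rfl fun γ hγ => by rw [Geo.ext, if_pos (hw.1 γ hγ)]
    · by_contra k
      refine hγ ?_
      show g.ext j₀ (u δ) (γ • y) = 0
      unfold Geo.ext
      split_ifs with e
      · simp only [u, u3 _ (hw.2 γ k e), zero_mul]
      · rfl
  have up : ∀ δ, 0 < δ → δ ≤ 1 → ∀ w, u δ w ≤ 1 := fun δ d0 d1 w => by
    by_cases hw : w ∈ closedBall (g.c j₀ y₀) (2 * r)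
    · have n0 : 0 ≤ nsq (w - g.c j₀ y₀) := (sq_nonneg _).trans (norm_sq_le_nsq _)
      have := Real.log_le_sub_one_of_pos (x := nsq (w - g.c j₀ y₀) + δ) (by linarith)
      have h5 := hO.small w hw
      have h6 : Real.log (nsq (w - g.c j₀ y₀) + δ) ≤ 1 := by linarith
      show χ w * _ ≤ 1
      nlinarith [(u0 w).1, (u0 w).2]
    · simp only [u, u3 w hw, zero_mul, zero_le_one]
  refine ⟨m * (L / c) + m * B + m, fun δ y => ∑ᶠ γ : a.Γ, g.ext j₀ (u δ) (γ • y),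
    fun δ γ y => ?_, fun δ d0 d1 j z hz => ?_, fun δ d0 d1 y hy => ?_, ?_⟩
  · rw [← finsum_comp_equiv (Equiv.mulRight γ) (f := fun ε => g.ext j₀ (u δ) (ε • y))]
    exact finsum_congr fun ε => by rw [Equiv.coe_mulRight, mul_smul]
  · obtain ⟨s, s1, s2⟩ := hK ((g.c j).symm z)
    have e : (fun w => ∑ᶠ γ : a.Γ, g.ext j₀ (u δ) (γ • (g.c j).symm w)) =ᶠ[𝓝 z]
        fun w => ∑ γ ∈ s, u δ (g.T (a.f γ) j j₀ w) :=
      ((g.tendsto_symm hz).eventually s2).mono fun w hw => key δ s _ hw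
    have sm : ∀ γ ∈ s, ContDiffAt ℝ ∞ (fun w => u δ (g.T (a.f γ) j j₀ w)) z := fun γ hγ =>
      (u4 δ d0 d1).1.contDiffAt.comp z ((a.iso γ).smooth hz (s1 γ hγ).1)
    refine ⟨(ContDiffAt.sum sm).congr_of_eventuallyEq e, fun v => ?_⟩
    have q0 := qf_nonneg (g.met j z hz).pos v
    rw [lv_congr e, lv_sum s _ z fun γ hγ => (sm γ hγ).of_le (by norm_cast)]
    have : ∀ γ ∈ s, -(L / c * qf (g.G j z) v) ≤ lv (fun w => u δ (g.T (a.f γ) j j₀ w)) z v := by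
      intro γ hγ
      rw [h3 ι (u δ) _ z v (((a.iso γ).ev hz (s1 γ hγ).1).mono fun _ h => h.hol)
        ((u4 δ d0 d1).1.contDiffAt.of_le (by norm_cast)),
        ← ((a.iso γ).at hz (s1 γ hγ).1).qf_eq v]
      refine le_trans (neg_le_neg ?_) ((u4 δ d0 d1).2 _ _)
      have := (hq _ (s1 γ hγ).2 (fderiv ℂ (g.T (a.f γ) j j₀) z v)).1
      calc L * _ = L / c * (c * _) := by field_simp
        _ ≤ _ := mul_le_mul_of_nonneg_left this hLc
    refine le_trans ?_ (Finset.sum_le_sum this)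
    rw [Finset.sum_const, nsmul_eq_mul]
    nlinarith [card _ s s1, mul_nonneg hLc q0, mul_nonneg (mul_nonneg hm hB) q0, mul_nonneg hm q0]
  · obtain ⟨s, s1, s2⟩ := hK y
    have : ∀ γ ∈ s, -B ≤ u δ (g.c j₀ (γ • y)) := by
      intro γ hγ
      have h5 := hO.out (γ • y) (fun h => hy (by simpa using hO.inv γ⁻¹ _ h)) (s1 γ hγ).1
      have h6 : r₂ ^ 2 ≤ nsq (g.c j₀ (γ • y) - g.c j₀ y₀) + δ := by
        have := norm_sq_le_nsq (g.c j₀ (γ • y) - g.c j₀ y₀)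
        nlinarith [hO.r2pos]
      have h7 := (neg_abs_le _).trans (Real.log_le_log (pow_pos hO.r2pos 2) h6)
      show -B ≤ χ _ * _
      nlinarith [(u0 (g.c j₀ (γ • y))).1, (u0 (g.c j₀ (γ • y))).2]
    rw [key δ s y s2.self_of_nhds]
    refine le_trans ?_ (Finset.sum_le_sum this)
    rw [Finset.sum_const, nsmul_eq_mul]
    nlinarith [card _ s s1, mul_nonneg hm hLc]
  · classical
    obtain ⟨s, s1, s2⟩ := hK y₀
    have one : (1 : a.Γ) ∈ s := by
      by_contra k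
      refine s2.self_of_nhds.2 1 k (by simpa using hO.src) ?_
      simpa using hO.rpos.le
    filter_upwards [s2, ((g.c j₀).continuousAt hO.src).eventually
      (isOpen_ball.mem_nhds (mem_ball_self hO.rpos))] with y hy hb δ d0 d1
    rw [key δ s y hy, ← Finset.add_sum_erase s _ one, one_smul]
    have h5 : ∑ γ ∈ s.erase 1, u δ (g.c j₀ (γ • y)) ≤ m := by
      refine (Finset.sum_le_sum fun γ _ => up δ d0 d1 _).trans ?_
      rw [Finset.sum_const, nsmul_eq_mul, mul_one]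
      exact (Nat.cast_le.2 (Finset.card_erase_le)).trans (card _ s s1)
    have h6 : u δ (g.c j₀ y) = Real.log (nsq (g.c j₀ y - g.c j₀ y₀) + δ) := by
      simp only [u, u2 _ hb, one_mul]
    nlinarith [mul_nonneg hm hLc, mul_nonneg hm hB]

end Pool.Agent.Lib.HS95
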