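import Pool.Agent.Lib.HS95.Kit

/-! Project hs9, section 4: the effective quotient acts properly. -/

noncomputable section

namespace Pool.Agent.Lib.HS95

namespace ORBQK

variable {V : Type} [NormedAddCommGroup V] [InnerProductSpace ℂ V] {ι : Type} [Fintype ι]
  [DecidableEq ι] {g : Geo ι} (T : Tr V g)

/-- Linear part and action on the transversal. -/
def ph : T.Γ →* (V ≃ₗᵢ[ℂ] V) × Equiv.Perm g.Y := T.A.prod (MulAction.toPermHom T.Γ g.Y)

/-- The effective quotient. -/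
def act : Act g where
  Γ := (ph T).range
  aΓ :=
    { smul := fun κ y => κ.1.2 y
      one_smul := fun _ => rfl
      mul_smul := fun _ _ _ => rfl }
  iso := by
    rintro ⟨_, γ, rfl⟩
    exact T.iso γ

/-- The determinant of the linear part. -/
def chi : (act T).Γ →* ℂ where
  toFun κ := LinearMap.det ((Subtype.val κ).1.toLinearEquiv : V →ₗ[ℂ] V)
  map_one' := LinearMap.det_id
  map_mul' κ κ' := by rw [← LinearMap.det_comp]; rfl

end ORBQK

open ORBQK in
theorem st_ORBQ : St_ORBQ := by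
  intro V ι _ _ _ _ _ g T hP ⟨R, hR⟩
  refine ⟨act T, chi T, fun K hK => ?_, fun γ => ⟨⟨_, γ, rfl⟩, rfl, fun _ => rfl⟩⟩
  refine ((hP K hK R).image (ph T).rangeRestrict).subset ?_
  rintro ⟨_, γ, rfl⟩ ⟨y, hy, hy'⟩
  obtain ⟨δ, h1, h2, h3⟩ := hR (-T.b γ)
  refine ⟨δ * γ, ⟨?_, y, hy, ?_⟩, Subtype.ext (Prod.ext ?_ (Equiv.ext fun z => ?_))⟩
  · rw [T.bmul, h1]
    simpa using h3
  · rw [mul_smul, h2]
    exact hy'
  · show T.A (δ * γ) = T.A γ
    rw [map_mul, h1, one_mul]
  · show (δ * γ) • z = γ • z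
    rw [mul_smul, h2]

end Pool.Agent.Lib.HS95
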