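import Pool.Agent.Lib.HS95.Blue

/-! Project hs9, section 4: the invariant section. -/

open scoped Topology ContDiff ComplexOrder Matrix
open Set Filter Metric Complex

noncomputable section

namespace Pool.Agent.Lib.HS95

namespace ORBSK

variable {ι : Type} [Fintype ι] [DecidableEq ι]

theorem diff_det : Differentiable ℂ fun A : (ι → ℂ) →L[ℂ] (ι → ℂ) => A.det := by
  have : (fun A : (ι → ℂ) →L[ℂ] (ι → ℂ) => A.det) = fun A : (ι → ℂ) →L[ℂ] (ι → ℂ) =>
      ∑ π : Equiv.Perm ι, ((Equiv.Perm.sign π : ℤ) : ℂ) * ∏ i, A (Pi.single i 1) (π i) := by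
    funext A
    rw [ContinuousLinearMap.det, ← LinearMap.det_toMatrix', Matrix.det_apply']
    simp only [LinearMap.toMatrix'_apply, ContinuousLinearMap.coe_coe]
  rw [this]
  fun_prop

theorem hol_det {φ : (ι → ℂ) → ι → ℂ} {z : ι → ℂ} (h : ∀ᶠ w in 𝓝 z, DifferentiableAt ℂ φ w) :
    ∀ᶠ w in 𝓝 z, DifferentiableAt ℂ (fun w => (fderiv ℂ φ w).det) w := by
  obtain ⟨O, h1, hO, hz⟩ := _root_.eventually_nhds_iff.1 h
  filter_upwards [hO.mem_nhds hz] with w hw
  exact DifferentiableAt.comp (f := fderiv ℂ φ) w (diff_det _) ((SV.H85.differentiableOn_fderiv hO fun v hv =>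
    (h1 v hv).differentiableWithinAt).differentiableAt (hO.mem_nhds hw))

variable {g : Geo ι} (a : Act g)

theorem ev_src (γ : a.Γ) {j j' : g.J} {z : ι → ℂ} (hz : z ∈ (g.c j).target)
    (h : γ • (g.c j).symm z ∈ (g.c j').source) :
    ∀ᶠ w in 𝓝 z, w ∈ (g.c j).target ∧ γ • (g.c j).symm w ∈ (g.c j').source :=
  (Filter.Eventually.and ((g.c j).open_target.mem_nhds hz)
    (((a.iso γ).cont.continuousAt.comp ((g.c j).continuousAt_symm hz)).eventually
      ((g.c j').open_source.mem_nhds h)))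

theorem ev_hol (γ : a.Γ) {j j' : g.J} {z : ι → ℂ} (hz : z ∈ (g.c j).target)
    (h : γ • (g.c j).symm z ∈ (g.c j').source) :
    ∀ᶠ w in 𝓝 z, DifferentiableAt ℂ (g.T (a.f γ) j j') w := by
  filter_upwards [ev_src a γ hz h] with w hw
  have := ((a.iso γ).loc j j' _ ((g.c j).map_target hw.1) hw.2).hol
  rwa [(g.c j).right_inv hw.1] at this

theorem det_mul (ε γ : a.Γ) {j j' j₀ : g.J} {y : g.Y} (h1 : y ∈ (g.c j).source)
    (h2 : γ • y ∈ (g.c j').source) (h3 : ε • γ • y ∈ (g.c j₀).source) :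
    (fderiv ℂ (g.T (a.f (ε * γ)) j j₀) (g.c j y)).det =
      (fderiv ℂ (g.T (a.f ε) j' j₀) (g.c j' (γ • y))).det *
        (fderiv ℂ (g.T (a.f γ) j j') (g.c j y)).det := by
  have e : g.T (a.f γ) j j' (g.c j y) = g.c j' (γ • y) := by
    simp only [Geo.T, (g.c j).left_inv h1]
  have k : g.T (a.f (ε * γ)) j j₀ =ᶠ[𝓝 (g.c j y)] g.T (a.f ε) j' j₀ ∘ g.T (a.f γ) j j' := by
    filter_upwards [ev_src a γ ((g.c j).map_source h1) (by rwa [(g.c j).left_inv h1])] with w hw
    simp only [Geo.T, Function.comp, (g.c j').left_inv hw.2, mul_smul]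
  rw [k.fderiv_eq, fderiv_comp _ (e ▸ ((a.iso ε).loc j' j₀ _ h2 h3).hol)
    ((a.iso γ).loc j j' y h1 h2).hol, e]
  exact LinearMap.det_comp _ _

theorem det_one {j : g.J} {y : g.Y} (h : y ∈ (g.c j).source) :
    (fderiv ℂ (g.T (a.f 1) j j) (g.c j y)).det = 1 := by
  have k : g.T (a.f 1) j j =ᶠ[𝓝 (g.c j y)] id := by
    filter_upwards [(g.c j).open_target.mem_nhds ((g.c j).map_source h)] with w hw
    simp only [Geo.T, one_smul, (g.c j).right_inv hw, id]
  rw [k.fderiv_eq, fderiv_id]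
  exact LinearMap.det_id

end ORBSK

open ORBSK in
theorem st_ORBS (h1 : St_SUM) (h2 : St_POL) : St_ORBS := by
  intro ι _ _ g a χ hpd y₀ j₀ r r₂ O hO
  obtain ⟨u, -, -, u1, -, u2, u3, -⟩ := h2 ι (g.c j₀ y₀) r hO.rpos
  have hK := h1 ι g a hpd j₀ _ (isCompact_closedBall _ _) hO.sub
  have hf : {γ : a.Γ | γ • y₀ = y₀}.Finite :=
    (hpd {y₀} isCompact_singleton).subset fun γ hγ => ⟨y₀, rfl, hγ⟩
  have hfin : Finite (MulAction.stabilizer a.Γ y₀) := hf.to_subtype
  have supp : ∀ y, g.ext j₀ u y ≠ 0 →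
      y ∈ (g.c j₀).source ∧ g.c j₀ y ∈ closedBall (g.c j₀ y₀) (2 * r) := fun y hy => by
    unfold Geo.ext at hy
    split_ifs at hy with e
    · exact ⟨e, by_contra fun k => hy (u3 _ k)⟩
    · exact absurd rfl hy
  let m := Nat.card (MulAction.stabilizer a.Γ y₀)
  let D : a.Γ → g.J → (ι → ℂ) → ℂ := fun γ j w => χ γ * (fderiv ℂ (g.T (a.f γ) j j₀) w).det
  refine ⟨m, fun j y => ∑ᶠ γ : a.Γ, (g.ext j₀ u (γ • y) : ℝ) * D γ j (g.c j y) ^ m,
    Nat.card_pos, ?_, fun γ j j' y k1 k2 => ?_, fun j z hz => ?_⟩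
  · let c : MulAction.stabilizer a.Γ y₀ →* ℂ :=
      { toFun := fun γ => D γ j₀ (g.c j₀ y₀)
        map_one' := by simp only [D, OneMemClass.coe_one, map_one, det_one a hO.src, mul_one]
        map_mul' := fun ε γ => by
          have e1 : γ.1 • y₀ = y₀ := γ.2
          have e2 : ε.1 • y₀ = y₀ := ε.2
          simp only [D, Subgroup.coe_mul, map_mul]
          rw [det_mul a ε.1 γ.1 hO.src (e1.symm ▸ hO.src) (by rw [e1, e2]; exact hO.src), e1]
          ring }
    have z0 : g.c j₀ y₀ ∈ closedBall (g.c j₀ y₀) (2 * r) :=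
      mem_closedBall_self (by linarith [hO.rpos])
    rw [finsum_eq_sum_of_support_subset (s := hf.toFinset) _ fun γ hγ => ?_,
      Finset.sum_congr rfl (g := fun _ => 1) fun γ hγ => ?_, Finset.sum_const, nsmul_eq_mul, mul_one]
    · exact Nat.cast_ne_zero.2 (Finset.card_ne_zero.2 ⟨1, hf.mem_toFinset.2 (one_smul _ _)⟩)
    · have e : γ • y₀ = y₀ := hf.mem_toFinset.1 hγ
      have := (map_pow c ⟨γ, e⟩ m).symm.trans ((congrArg c pow_card_eq_one').trans c.map_one)
      rw [e, Geo.ext, if_pos hO.src, u2 _ (mem_ball_self hO.rpos), ofReal_one, one_mul]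
      exact this
    · have := supp (γ • y₀) fun e => hγ (by simp only [e, ofReal_zero, zero_mul])
      exact hf.mem_toFinset.2 (hO.stab γ y₀ hO.src z0 this.1 this.2)
  · rw [finsum_mul, ← finsum_comp_equiv (Equiv.mulRight γ)]
    refine finsum_congr fun ε => ?_
    rw [Equiv.coe_mulRight, mul_smul]
    by_cases e : g.ext j₀ u (ε • γ • y) = 0
    · simp only [e, ofReal_zero, zero_mul]
    · simp only [D]
      rw [det_mul a ε γ k1 k2 (supp _ e).1, map_mul]
      ring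
  · obtain ⟨s, s1, s2⟩ := hK ((g.c j).symm z)
    have key : (fun w => ∑ᶠ γ : a.Γ, (g.ext j₀ u (γ • (g.c j).symm w) : ℝ) *
        D γ j (g.c j ((g.c j).symm w)) ^ m) =ᶠ[𝓝 z]
          fun w => ∑ γ ∈ s, (u (g.T (a.f γ) j j₀ w) : ℝ) * D γ j w ^ m := by
      filter_upwards [((g.c j).continuousAt_symm hz).eventually s2,
        (g.c j).open_target.mem_nhds hz] with w hw hw'
      rw [finsum_eq_sum_of_support_subset (s := s) _ fun γ hγ => ?_, (g.c j).right_inv hw']
      · exact Finset.sum_congr rfl fun γ hγ => by rw [Geo.ext, if_pos (hw.1 γ hγ)]; rfl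
      · have := supp (γ • (g.c j).symm w) fun e => hγ (by simp only [e, ofReal_zero, zero_mul])
        by_contra k
        exact hw.2 γ k this.1 this.2
    have hT := fun γ (hγ : γ ∈ s) => ev_hol a γ hz (s1 γ hγ).1
    have sm : ∀ {F : Type} [NormedAddCommGroup F] [NormedSpace ℂ F] [CompleteSpace F]
        {f : (ι → ℂ) → F}, (∀ᶠ w in 𝓝 z, DifferentiableAt ℂ f w) → ContDiffAt ℝ ∞ f z :=
      fun h => contDiffAt_infty.2 fun k => (SV.H85.contDiffAt_nat h k).restrict_scalars ℝ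
    refine ⟨ContDiffAt.congr_of_eventuallyEq (ContDiffAt.sum fun γ hγ => ?_) key, fun hzO =>
      (DifferentiableAt.fun_sum fun γ hγ => ?_).congr_of_eventuallyEq key⟩
    · exact ((ofRealCLM.contDiff.comp u1).contDiffAt.comp z (sm (hT γ hγ))).mul
        ((contDiffAt_const.mul (sm (hol_det (hT γ hγ)))).pow m)
    · refine DifferentiableAt.mul ((differentiableAt_const (1 : ℂ)).congr_of_eventuallyEq ?_)
        (((differentiableAt_const _).mul (hol_det (hT γ hγ)).self_of_nhds).pow m)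
      filter_upwards [(hT γ hγ).self_of_nhds.continuousAt.eventually (isOpen_ball.mem_nhds
        (hO.ins _ (hO.inv γ _ hzO) (s1 γ hγ).1 (s1 γ hγ).2))] with w hw
      rw [u2 _ hw, ofReal_one]

end Pool.Agent.Lib.HS95
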