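import Pool.Agent.Lib.HS95.Kit

/-! Project hs9, section 4: neighbourhood of an orbit. -/

open scoped Topology
open Set Filter Metric

noncomputable section

namespace Pool.Agent.Lib.HS95

namespace ORBWK

variable {ι : Type} [Fintype ι] [DecidableEq ι] {g : Geo ι}

theorem shrink {j : g.J} {y₀ : g.Y} (h : y₀ ∈ (g.c j).source) {U : Set g.Y} (hU : U ∈ 𝓝 y₀) :
    ∀ᶠ ρ in 𝓝[>] (0 : ℝ), ∀ y ∈ (g.c j).source, g.c j y ∈ closedBall (g.c j y₀) ρ → y ∈ U := by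
  have h1 : (g.c j).symm ⁻¹' U ∈ 𝓝 (g.c j y₀) :=
    ((g.c j).continuousAt_symm ((g.c j).map_source h)).preimage_mem_nhds
      (by rw [(g.c j).left_inv h]; exact hU)
  filter_upwards [(eventually_closedBall_subset h1).filter_mono nhdsWithin_le_nhds] with ρ hρ y hy hb
  have := hρ hb
  rwa [mem_preimage, (g.c j).left_inv hy] at this

end ORBWK

open ORBWK in
theorem st_ORBW : St_ORBW := by
  intro ι _ _ g a hPD y₀ j₀ h₀
  have hz := (g.c j₀).map_source h₀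
  obtain ⟨R, hR, hRt⟩ := nhds_basis_closedBall.mem_iff.1 ((g.c j₀).open_target.mem_nhds hz)
  have hF := hPD _ ((isCompact_closedBall (g.c j₀ y₀) R).image_of_continuousOn
    ((g.c j₀).continuousOn_symm.mono hRt))
  have hK : ∀ y ∈ (g.c j₀).source, g.c j₀ y ∈ closedBall (g.c j₀ y₀) R →
      y ∈ (g.c j₀).symm '' closedBall (g.c j₀ y₀) R := fun y hy hb => ⟨_, hb, (g.c j₀).left_inv hy⟩
  have e1 : ∀ᶠ ρ in 𝓝[>] (0 : ℝ), ∀ γ ∈ {γ : a.Γ | ∃ y ∈ (g.c j₀).symm '' closedBall (g.c j₀ y₀) R,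
      γ • y ∈ (g.c j₀).symm '' closedBall (g.c j₀ y₀) R}, ∀ y ∈ (g.c j₀).source,
      g.c j₀ y ∈ closedBall (g.c j₀ y₀) ρ → γ • y ∈ (g.c j₀).source →
      g.c j₀ (γ • y) ∈ closedBall (g.c j₀ y₀) ρ → γ • y₀ = y₀ := by
    rw [eventually_all_finite hF]
    intro γ _
    by_cases h : γ • y₀ = y₀
    · exact Eventually.of_forall fun _ _ _ _ _ _ => h
    obtain ⟨U, U', hU, hU', h1, h2, hd⟩ := t2_separation h
    filter_upwards [shrink h₀ (hU'.mem_nhds h2),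
      shrink h₀ ((a.cont γ).continuousAt.preimage_mem_nhds (hU.mem_nhds h1))] with ρ p q y s1 s2 s3 s4
    exact (disjoint_left.1 hd (q y s1 s2) (p _ s3 s4)).elim
  have e2 : ∀ᶠ ρ in 𝓝[>] (0 : ℝ), closedBall (g.c j₀ y₀) ρ ⊆ {w | nsq (w - g.c j₀ y₀) < 1} := by
    refine (eventually_closedBall_subset (IsOpen.mem_nhds (isOpen_lt ?_ continuous_const) ?_)).filter_mono
      nhdsWithin_le_nhds
    · unfold nsq; fun_prop
    · simp [nsq]
  have e3 : ∀ᶠ ρ in 𝓝[>] (0 : ℝ), ρ ≤ R :=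
    (eventually_le_nhds hR).filter_mono nhdsWithin_le_nhds
  obtain ⟨ρ, ⟨⟨p1, p2⟩, p3⟩, p0⟩ := (((e1.and e2).and e3).and self_mem_nhdsWithin).exists
  have p0 : 0 < ρ := p0
  obtain ⟨r, rfl⟩ : ∃ r, ρ = 2 * r := ⟨ρ / 2, by ring⟩
  have hsub := closedBall_subset_closedBall (x := g.c j₀ y₀) p3
  have hst : ∀ (γ : a.Γ) (y : g.Y), y ∈ (g.c j₀).source →
      g.c j₀ y ∈ closedBall (g.c j₀ y₀) (2 * r) → γ • y ∈ (g.c j₀).source →
      g.c j₀ (γ • y) ∈ closedBall (g.c j₀ y₀) (2 * r) → γ • y₀ = y₀ := fun γ y s1 s2 s3 s4 =>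
    p1 γ ⟨y, hK y s1 (hsub s2), hK _ s3 (hsub s4)⟩ y s1 s2 s3 s4
  have hr : 0 < r := by linarith
  have hB : IsOpen ((g.c j₀).source ∩ g.c j₀ ⁻¹' ball (g.c j₀ y₀) r) :=
    (g.c j₀).isOpen_inter_preimage isOpen_ball
  have hS : {s : a.Γ | s • y₀ = y₀}.Finite := hF.subset fun s hs =>
    have := hK y₀ h₀ (mem_closedBall_self hR.le)
    ⟨y₀, this, by rw [show s • y₀ = y₀ from hs]; exact this⟩
  have hW : IsOpen (⋂ s ∈ {s : a.Γ | s • y₀ = y₀},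
      (fun y => s • y) ⁻¹' ((g.c j₀).source ∩ g.c j₀ ⁻¹' ball (g.c j₀ y₀) r)) :=
    hS.isOpen_biInter fun s _ => hB.preimage (a.cont s)
  have hO := isOpen_iUnion fun γ : a.Γ => hW.preimage (a.cont γ)
  have hm : y₀ ∈ ⋃ γ : a.Γ, (fun y => γ • y) ⁻¹' ⋂ s ∈ {s : a.Γ | s • y₀ = y₀},
      (fun y => s • y) ⁻¹' ((g.c j₀).source ∩ g.c j₀ ⁻¹' ball (g.c j₀ y₀) r) :=
    mem_iUnion.2 ⟨1, mem_iInter₂.2 fun s hs => by
      rw [mem_preimage]
      simp only [one_smul, show s • y₀ = y₀ from hs]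
      exact ⟨h₀, mem_ball_self hr⟩⟩
  obtain ⟨r₂, q1, q0⟩ := ((shrink h₀ (hO.mem_nhds hm)).and self_mem_nhdsWithin).exists
  refine ⟨r, r₂, _, h₀, hr, q0, fun w hw => (p2 hw).le, hsub.trans hRt, hst, hO, hm,
    fun γ y hy => ?_, fun y hy s1 s2 => ?_, fun y hy s1 => ?_⟩
  · obtain ⟨δ, hδ⟩ := mem_iUnion.1 hy
    refine mem_iUnion.2 ⟨δ * γ⁻¹, ?_⟩
    rw [mem_preimage] at hδ ⊢
    simpa only [mul_smul, inv_smul_smul] using hδ
  · obtain ⟨δ, hδ⟩ := mem_iUnion.1 hy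
    have hδ := mem_iInter₂.1 hδ
    have h1 := mem_preimage.1 (hδ 1 (one_smul _ _))
    simp only [one_smul] at h1
    have h2 := hst δ y s1 s2 h1.1
      (closedBall_subset_closedBall (by linarith) (ball_subset_closedBall h1.2))
    have h3 := mem_preimage.1 (hδ δ⁻¹ (inv_smul_eq_iff.2 h2.symm))
    simp only [inv_smul_smul] at h3
    exact h3.2
  · by_contra hn
    exact hy (q1 y s1 (by rw [mem_closedBall, dist_eq_norm]; exact (not_le.1 hn).le))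

end Pool.Agent.Lib.HS95
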