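import Pool.Agent.Lib.HS95.Blue2

/-! Project hs9, section 4, bridge: the section. -/

open scoped Topology ContDiff ComplexOrder Matrix
open Set Filter Metric Complex MeasureTheory

set_option linter.unusedVariables false

noncomputable section

namespace Pool.Agent.Lib.HS95

open Pool.Agent.Lib.SV (E)
open Pool.Agent.Lib.HS32 (Mat Mf pr nq hess dz dzb HolN ClM)

namespace OUT1K

theorem nq_nonneg {n : ℕ} {A : Mat n} (h : A.PosSemidef) (v : E n) : 0 ≤ nq A v :=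
  (Complex.nonneg_iff.1 (h.dotProduct_mulVec_nonneg v)).1

theorem nq_sub {n : ℕ} (c : ℝ) (A B : Mat n) (v : E n) :
    nq (c • A - B) v = c * nq A v - nq B v := by
  simp [nq, Matrix.sub_mulVec, Matrix.smul_mulVec, dotProduct_sub, dotProduct_smul]

theorem loc {n : ℕ} {M : Mf n} {H P G : M.Fam (Mat n)} {k : ℕ}
    {S : Split (Vk n k) (Hi n k) M.X} (L : Lnk M H P G k S) {x₀ i₀ m σ O C lam}
    (hs : S.Sat x₀ i₀ m σ O C lam) (q : ℕ) (i : S.I) {z : E n} (hz : z ∈ (L.ch i).target) :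
    ∃ f : (Hi n k → ℂ) → ℂ, ContDiffAt ℝ ∞ f (up k z) ∧
      ((L.ch i).symm z ∈ O → DifferentiableAt ℂ f (up k z)) ∧
      (fun w => σ i ((L.ch i).symm w) ^ q) =ᶠ[𝓝 z] fun w => f (up k w) := by
  obtain ⟨f, h1, h2, h3⟩ := hs.sms i ((L.ch i).symm z) (L.src i ▸ (L.ch i).map_target hz)
  rw [L.snd, (L.ch i).right_inv hz] at h2 h3
  refine ⟨fun y => f y ^ q, h2.pow q, fun h => (h3 h).pow q, ?_⟩
  filter_upwards [L.bas hz h1] with w hw
  exact congrArg (· ^ q) hw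

end OUT1K

theorem st_OUT1 (h1 : St_JAC) (h2 : St_DB) (h3 : St_BLK) (h4 : St_HB) (hE : HS32.St_EXT)
    (hO : HS32.St_HOL) : St_OUT1 := by
  intro n M _ H P G k u S hp L x₀ i₀ m σ O C lam hi hs q
  let s0 : M.Fam ℂ := Function.extend L.ch (fun i z => σ i ((L.ch i).symm z) ^ q) 0
  have e0 : ∀ i, s0 (L.ch i) = fun z => σ i ((L.ch i).symm z) ^ q := fun i =>
    L.inj.extend_apply _ _ i
  have hup : ∀ z : E n, ContDiffAt ℝ ∞ (up k : E n → _) z := fun z =>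
    ((upL k).restrictScalars ℝ).contDiff.contDiffAt
  obtain ⟨s, hsec, hse⟩ := (hE n M _ L.sub).2.2.1 (m * q) s0 (by
    rintro _ ⟨i, rfl⟩ z hz
    obtain ⟨f, a1, -, a3⟩ := OUT1K.loc L hs q i hz
    rw [e0]
    exact (a1.comp z (hup z)).congr_of_eventuallyEq a3) (by
    rintro _ ⟨j, rfl⟩ _ ⟨i, rfl⟩ x hj hi
    rw [e0, e0]
    beta_reduce
    rw [(L.ch i).left_inv hi, (L.ch j).left_inv hj,
      hs.cmp i j x (L.src i ▸ hi) (L.src j ▸ hj), h1 n M H P G k S L i j x hi hj, mul_pow, pow_mul])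
  have hl : ∀ i, ∀ z ∈ (L.ch i).target, ∃ f : (Hi n k → ℂ) → ℂ, ContDiffAt ℝ ∞ f (up k z) ∧
      ((L.ch i).symm z ∈ O → DifferentiableAt ℂ f (up k z)) ∧
      s (L.ch i) =ᶠ[𝓝 z] fun w => f (up k w) := fun i z hz => by
    obtain ⟨f, a1, a2, a3⟩ := OUT1K.loc L hs q i hz
    refine ⟨f, a1, a2, ?_⟩
    filter_upwards [hse.ev ⟨i, rfl⟩ hz, a3] with w b1 b2
    rw [b1, e0]; exact b2
  have hd : ∀ i, ∀ z ∈ (L.ch i).target, (L.ch i).symm z ∈ O →
      DifferentiableAt ℂ (s (L.ch i)) z := fun i z hz hO' => by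
    obtain ⟨f, -, a2, a3⟩ := hl i z hz
    exact (DifferentiableAt.comp z (g := f) (f := upL k) (a2 hO')
      (upL k).differentiableAt).congr_of_eventuallyEq a3
  obtain ⟨T, hT, hTe⟩ := h2 n M H (m * q) s hp.kH.toMet hsec
  obtain ⟨C₁, hC₁, hle⟩ := (h3 n M H P G k u hp).2.1 (range L.ch) L.sub
    (by rintro _ ⟨i, rfl⟩; exact L.prod i) T hT (by
    rintro _ ⟨i, rfl⟩ z hz
    obtain ⟨f, a1, -, a3⟩ := hl i z hz
    have a4 := ((h4 n k _ z).2 f (a1.differentiableAt (by simp)) a3).1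
    ext a b
    rw [pr, Matrix.mul_diagonal, (hTe _ (L.mem i) z hz).1]
    split_ifs with hb
    · simp [(a4 b hb).2]
    · simp)
  have hx : x₀ ∈ (L.ch i₀).source := L.src i₀ ▸ hi
  refine ⟨s, C₁, hsec, ?_, hd i₀, fun C' hC' e he z hz v => ?_⟩
  · rw [hse.at ⟨i₀, rfl⟩ hx, e0]
    beta_reduce
    rw [(L.ch i₀).left_inv hx]
    exact pow_ne_zero _ hs.ne
  rw [← (hTe e he z hz).2 v]
  by_cases hO' : e.symm z ∈ O
  · obtain ⟨_, ⟨i, rfl⟩, hi'⟩ := L.sub.cov (e.symm z)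
    have a0 := (L.ch i).map_source hi'
    have a1 := hd i _ a0 (by rwa [(L.ch i).left_inv hi'])
    have a2 := ((hO n _ _).1 ((hsec.sm _ (L.mem i) _ a0).differentiableAt (by simp))).1 a1
    have a3 : T (L.ch i) (L.ch i (e.symm z)) = 0 := by
      ext a b
      rw [(hTe _ (L.mem i) _ a0).1, a2]
      simp
    have a4 := hT.cmp _ (L.mem i) e he _ hi' (e.map_target hz)
    beta_reduce at a4
    rw [e.right_inv hz, a3, mul_zero, zero_mul] at a4
    rw [a4, indicator_of_notMem (by simpa using hO')]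
    simp [nq]
  · have a1 := OUT1K.nq_nonneg (hle e he z hz) v
    have a2 := OUT1K.nq_nonneg (hp.psd e he z hz) v
    rw [Pi.smul_apply, Pi.smul_apply, OUT1K.nq_sub] at a1
    rw [Pi.zero_apply, Pi.zero_apply, sub_zero] at a2
    rw [indicator_of_mem (mem_compl hO')]
    nlinarith

end Pool.Agent.Lib.HS95
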