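import Pool.Agent.Lib.HS95.Blue2

/-! Project hs9, section 4, bridge: the weights. -/

open scoped Topology ContDiff ComplexOrder Matrix
open Set Filter Metric Complex MeasureTheory

set_option linter.unusedVariables false

noncomputable section

namespace Pool.Agent.Lib.HS95

open Pool.Agent.Lib.SV (E)
open Pool.Agent.Lib.HS32 (Mat Mf pr nq hess dz dzb HolN ClM)

namespace OUT2K

theorem psd_of_nq {n : ℕ} {A : Mat n} (hA : A.IsHermitian) (h : ∀ v, 0 ≤ nq A v) :
    A.PosSemidef :=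
  .of_dotProduct_mulVec_nonneg hA fun v =>
    Complex.nonneg_iff.2 ⟨h v, (hA.im_star_dotProduct_mulVec_self v).symm⟩

theorem nq_comb {n : ℕ} (c : ℝ) (A B : Mat n) (v : E n) :
    nq (c • A + B) v = c * nq A v + nq B v := by
  simp [nq, Matrix.add_mulVec, Matrix.smul_mulVec, dotProduct_add, dotProduct_smul]

end OUT2K

theorem st_OUT2 (h1 : St_BLK) (h2 : St_HB) (hS : HS32.St_SUB) (hH : HS32.St_HES) : St_OUT2 := by
  intro n M _ H P G k u S hp L x₀ i₀ m σ O C lam hs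
  obtain ⟨hT, -, ε, κ, hε, hκ, hb⟩ := h1 n M H P G k u hp
  refine ⟨|C| / κ, by positivity, fun δ h0 h1' => ?_⟩
  have key : ∀ i, ∀ z ∈ (L.ch i).target, ∃ f : (Hi n k → ℂ) → ℝ,
      (lam δ ∘ (L.ch i).symm =ᶠ[𝓝 z] fun w => f (up k w)) ∧ ContDiffAt ℝ ∞ f (up k z) ∧
      ∀ v, -(C * qf (S.G i (up k z)) v) ≤ lv f (up k z) v := by
    intro i z hz
    obtain ⟨f, f1, f2, f3⟩ := hs.sml δ h0 h1' i ((L.ch i).symm z)
      (L.src i ▸ (L.ch i).map_target hz)
    rw [L.snd, (L.ch i).right_inv hz] at f2 f3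
    exact ⟨f, L.bas hz f1, f2, f3⟩
  have hsm : M.Sm (lam δ) := (hS n M _ L.sub).2.1 ℝ _ (by
    rintro _ ⟨i, rfl⟩ z hz
    obtain ⟨f, f1, f2, -⟩ := key i z hz
    exact (f2.comp z ((upL k).restrictScalars ℝ).contDiff.contDiffAt).congr_of_eventuallyEq f1)
  have hF : M.Form ((|C| / κ) • M.theta H u + M.hs (lam δ)) :=
    (hT.smul _).add ((hH n M).1 _ hsm).toForm
  refine ⟨hsm, fun e he z hz => ?_⟩
  have hps : M.AllOn (range L.ch)
      fun e z => (((|C| / κ) • M.theta H u + M.hs (lam δ)) e z).PosSemidef := by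
    rintro _ ⟨i, rfl⟩ z hz
    refine OUT2K.psd_of_nq (hF.herm _ (L.mem i) z hz) fun v => ?_
    obtain ⟨f, f1, f2, f3⟩ := key i z hz
    have a1 := (h2 n k (M.lc (lam δ) (L.ch i)) z).1 f f2
      (f1.mono fun w hw => congrArg (fun t : ℝ => (t : ℂ)) hw) v
    have a2 := (hb _ (L.prod i) z hz).2 v
    have a3 := f3 (up k v)
    have hz' : (lo k z, up k z) ∈ (S.e i).target := (L.tgt i _).2 (by simpa using hz)
    have a4 : 0 ≤ qf (S.G i (up k z)) (up k v) := qf_nonneg (S.met i _ hz').pos _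
    rw [← L.met i z hz] at a2
    have a5 : nq (((|C| / κ) • M.theta H u + M.hs (lam δ)) (L.ch i) z) v =
        |C| / κ * nq (M.theta H u (L.ch i) z) v + nq (hess (M.lc (lam δ) (L.ch i)) z) v :=
      OUT2K.nq_comb _ _ _ v
    have a6 := mul_le_mul_of_nonneg_left a2 (by positivity : 0 ≤ |C| / κ)
    have a7 : |C| / κ * (κ * qf (S.G i (up k z)) (up k v)) =
        |C| * qf (S.G i (up k z)) (up k v) := by field_simp
    have a8 := mul_le_mul_of_nonneg_right (le_abs_self C) a4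
    rw [a5]
    linarith
  have := ((hS n M _ L.sub).1 _ hF.toTen).2.2.1 hps e he z hz
  simpa using this

end Pool.Agent.Lib.HS95
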