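import Pool.Agent.Lib.HS95.Blue

/-! Cut-off and logarithmic pole. -/

open scoped Topology ContDiff
open Set Filter Metric Complex

noncomputable section

namespace Pool.Agent.Lib.HS95

namespace POLK

variable {ι : Type} [Fintype ι]

/-- The real scalar product. -/
def bl (w : ι → ℂ) : (ι → ℂ) →L[ℝ] ℝ :=
  ∑ j, ((w j).re • reCLM.comp (ContinuousLinearMap.proj (R := ℝ) (φ := fun _ : ι => ℂ) j) +
    (w j).im • imCLM.comp (ContinuousLinearMap.proj (R := ℝ) (φ := fun _ : ι => ℂ) j))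

theorem bl_apply (w p : ι → ℂ) :
    bl w p = ∑ j, ((w j).re * (p j).re + (w j).im * (p j).im) := by
  simp [bl]

theorem bl_comm (w p : ι → ℂ) : bl w p = bl p w := by
  simp only [bl_apply, mul_comm]

theorem bl_self (w : ι → ℂ) : bl w w = nsq w := by
  simp only [bl_apply, nsq, normSq_apply]

theorem nsq_nonneg (w : ι → ℂ) : 0 ≤ nsq w := Finset.sum_nonneg fun _ _ => normSq_nonneg _

theorem nsq_pos {w : ι → ℂ} (h : w ≠ 0) : 0 < nsq w := by
  obtain ⟨j, hj⟩ := Function.ne_iff.1 h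
  exact Finset.sum_pos' (fun _ _ => normSq_nonneg _) ⟨j, Finset.mem_univ _, normSq_pos.2 hj⟩

theorem cs (v p : ι → ℂ) : bl v p ^ 2 + bl (I • v) p ^ 2 ≤ nsq p * nsq v := by
  have h1 : ‖∑ i, v i * (starRingEnd ℂ) (p i)‖ ≤ ∑ i, ‖p i‖ * ‖v i‖ :=
    (norm_sum_le _ _).trans (le_of_eq (Finset.sum_congr rfl fun i _ => by
      rw [norm_mul, norm_conj, mul_comm]))
  have h2 := Finset.sum_mul_sq_le_sq_mul_sq Finset.univ (fun i => ‖p i‖) fun i => ‖v i‖
  have h3 : bl v p ^ 2 + bl (I • v) p ^ 2 = normSq (∑ i, v i * (starRingEnd ℂ) (p i)) := by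
    have e1 : bl v p = (∑ i, v i * (starRingEnd ℂ) (p i)).re := by
      simp [bl_apply, re_sum]
    have e2 : bl (I • v) p = -(∑ i, v i * (starRingEnd ℂ) (p i)).im := by
      simp only [bl_apply, im_sum, ← Finset.sum_neg_distrib]
      exact Finset.sum_congr rfl fun i _ => by simp
    rw [e1, e2, normSq_apply]; ring
  rw [h3]
  simp only [nsq, normSq_eq_norm_sq]
  exact (pow_le_pow_left₀ (norm_nonneg _) h1 2).trans h2

theorem sm_nsq (z₀ : ι → ℂ) : ContDiff ℝ ∞ fun z : ι → ℂ => nsq (z - z₀) := by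
  simp only [nsq, normSq_apply]
  refine ContDiff.sum fun j _ => ?_
  have a : ContDiff ℝ ∞ fun z : ι → ℂ => (z - z₀) j :=
    (contDiff_apply ℝ ℂ j).comp (contDiff_id.sub contDiff_const)
  exact ((reCLM.contDiff.comp a).mul (reCLM.contDiff.comp a)).add
    ((imCLM.contDiff.comp a).mul (imCLM.contDiff.comp a))

theorem hN (z₀ : ι → ℂ) (δ : ℝ) (x : ι → ℂ) :
    HasFDerivAt (fun z => nsq (z - z₀) + δ) ((2 : ℝ) • bl (x - z₀)) x := by
  refine HasFDerivAt.add_const δ ?_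
  have a : ∀ j, HasFDerivAt (fun z : ι → ℂ => (z - z₀) j)
      (ContinuousLinearMap.proj (R := ℝ) (φ := fun _ : ι => ℂ) j) x := fun j =>
    ((ContinuousLinearMap.proj (R := ℝ) (φ := fun _ : ι => ℂ) j).hasFDerivAt).sub_const (z₀ j)
  have b := fun j => reCLM.hasFDerivAt.comp x (a j)
  have c := fun j => imCLM.hasFDerivAt.comp x (a j)
  have d := HasFDerivAt.fun_sum (u := Finset.univ) fun j _ =>
    ((b j).mul (b j)).add ((c j).mul (c j))
  refine HasFDerivAt.congr_fderiv (f := fun z => nsq (z - z₀)) d ?_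
  ext v
  simp only [_root_.smul_apply, bl_apply, smul_eq_mul, Finset.mul_sum,
    _root_.sum_apply]
  exact Finset.sum_congr rfl fun j _ => by simp; ring

theorem d2_log (z₀ : ι → ℂ) {δ : ℝ} (hδ : 0 < δ) (z v : ι → ℂ) :
    d2 (fun z => Real.log (nsq (z - z₀) + δ)) z v v =
      2 * nsq v / (nsq (z - z₀) + δ) - 4 * bl v (z - z₀) ^ 2 / (nsq (z - z₀) + δ) ^ 2 := by
  have h0 : ∀ x, nsq (x - z₀) + δ ≠ 0 := fun x =>
    (add_pos_of_nonneg_of_pos (nsq_nonneg _) hδ).ne'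
  have e : (fun x => fderiv ℝ (fun z => Real.log (nsq (z - z₀) + δ)) x v) =
      fun x => (nsq (x - z₀) + δ)⁻¹ * (2 * bl v (x - z₀)) := by
    funext x
    rw [((hN z₀ δ x).log (h0 x)).fderiv]
    simp [bl_comm v]
  have a : HasFDerivAt (fun x => bl v (x - z₀)) (bl v) z := by
    simp only [map_sub]
    exact (bl v).hasFDerivAt.sub_const _
  have b := (hasDerivAt_inv (h0 z)).comp_hasFDerivAt z (hN z₀ δ z)
  have c : fderiv ℝ (fun x => (nsq (x - z₀) + δ)⁻¹ * (2 * bl v (x - z₀))) z = _ :=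
    (b.mul (a.const_mul 2)).fderiv
  unfold d2
  rw [e, c]
  have := h0 z
  simp [bl_comm _ v, bl_self]
  field_simp
  ring

theorem lv_log (z₀ : ι → ℂ) {δ : ℝ} (hδ : 0 < δ) (z v : ι → ℂ) :
    0 ≤ lv (fun z => Real.log (nsq (z - z₀) + δ)) z v := by
  have h0 : 0 < nsq (z - z₀) + δ := add_pos_of_nonneg_of_pos (nsq_nonneg _) hδ
  have e : nsq (I • v) = nsq v := by simp [nsq]
  have a := cs v (z - z₀)
  have b := mul_nonneg hδ.le (nsq_nonneg v)
  have h : lv (fun z => Real.log (nsq (z - z₀) + δ)) z v =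
      4 * ((nsq (z - z₀) + δ) * nsq v - (bl v (z - z₀) ^ 2 + bl (I • v) (z - z₀) ^ 2)) /
        (nsq (z - z₀) + δ) ^ 2 := by
    unfold lv
    rw [d2_log z₀ hδ, d2_log z₀ hδ, e]
    field_simp
    ring
  rw [h]
  exact div_nonneg (by nlinarith) (sq_nonneg _)

omit [Fintype ι] in
theorem lv_congr {f g : (ι → ℂ) → ℝ} {z : ι → ℂ} (h : f =ᶠ[𝓝 z] g) (v : ι → ℂ) :
    lv f z v = lv g z v := by
  have e : ∀ w, d2 f z w w = d2 g z w w := fun w => by
    unfold d2
    refine congrArg (fun T : (ι → ℂ) →L[ℝ] ℝ => T w) (Filter.EventuallyEq.fderiv_eq ?_)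
    filter_upwards [h.fderiv (𝕜 := ℝ)] with x hx
    rw [hx]
  unfold lv
  rw [e, e]

theorem d2_slice {F : ℝ × (ι → ℂ) → ℝ} {δ : ℝ} {z : ι → ℂ} (hF : ContDiffAt ℝ 2 F (δ, z))
    (v : ι → ℂ) : d2 (fun x => F (δ, x)) z v v =
      fderiv ℝ (fderiv ℝ F) (δ, z) (0, v) (0, v) := by
  have a : ∀ x : ι → ℂ, HasFDerivAt (fun x : ι → ℂ => (δ, x))
      (ContinuousLinearMap.inr ℝ ℝ (ι → ℂ)) x := fun x => hasFDerivAt_prodMk_right δ x
  have e : (fun x => fderiv ℝ (fun x => F (δ, x)) x v) =ᶠ[𝓝 z]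
      fun x => fderiv ℝ F (δ, x) (0, v) := by
    filter_upwards [(a z).continuousAt.eventually (hF.eventually (by simp))] with x hx
    have c : fderiv ℝ (fun x => F (δ, x)) x = _ :=
      ((hx.differentiableAt (by simp)).hasFDerivAt.comp x (a x)).fderiv
    rw [c]; simp
  have h2 : DifferentiableAt ℝ (fderiv ℝ F) (δ, z) :=
    (hF.fderiv_right (m := 1) (by norm_num)).differentiableAt (by norm_num)
  have c : fderiv ℝ (fun x => fderiv ℝ F (δ, x) (0, v)) z = _ :=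
    ((h2.hasFDerivAt.comp z (a z)).clm_apply (hasFDerivAt_const ((0 : ℝ), v) z)).fderiv
  unfold d2
  rw [e.fderiv_eq, c]
  simp

end POLK

open POLK in
theorem st_POL : St_POL := by
  intro ι _ _ z₀ r hr
  let χ : ContDiffBump z₀ := ⟨r, 2 * r, hr, by linarith⟩
  let F : ℝ × (ι → ℂ) → ℝ := fun p => χ p.2 * Real.log (nsq (p.2 - z₀) + p.1)
  have hF : ∀ p : ℝ × (ι → ℂ), 0 < nsq (p.2 - z₀) + p.1 → ContDiffAt ℝ 2 F p := fun p hp =>
    ((χ.contDiff.comp contDiff_snd).contDiffAt).mul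
      ((((((sm_nsq z₀).of_le (by exact_mod_cast le_top)).comp contDiff_snd).add
        contDiff_fst).contDiffAt).log hp.ne')
  have hK : IsCompact (Icc (0 : ℝ) 1 ×ˢ (closedBall z₀ (2 * r) \ ball z₀ r)) :=
    isCompact_Icc.prod ((isCompact_closedBall _ _).diff isOpen_ball)
  have hp : ∀ p ∈ Icc (0 : ℝ) 1 ×ˢ (closedBall z₀ (2 * r) \ ball z₀ r),
      0 < nsq (p.2 - z₀) + p.1 := fun p h =>
    add_pos_of_pos_of_nonneg (nsq_pos fun e => h.2.2 (by
      rw [sub_eq_zero.1 e]; exact mem_ball_self hr)) h.1.1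
  obtain ⟨C, hC⟩ := hK.exists_bound_of_continuousOn (f := fderiv ℝ (fderiv ℝ F)) fun p h =>
    (((hF p (hp p h)).fderiv_right (m := 1) (by norm_num)).fderiv_right (m := 0)
      (by norm_num)).continuousAt.continuousWithinAt
  refine ⟨χ, 2 * |C|, by positivity, χ.contDiff, fun z => ⟨χ.nonneg, χ.le_one⟩,
    fun z hz => χ.one_of_mem_closedBall (ball_subset_closedBall hz),
    fun z hz => χ.zero_of_le_dist (not_le.1 fun h => hz h).le, fun δ h0 h1 => ⟨?_, fun z v => ?_⟩⟩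
  · exact χ.contDiff.mul (((sm_nsq z₀).add contDiff_const).log fun x =>
      (add_pos_of_nonneg_of_pos (nsq_nonneg _) h0).ne')
  have hn : -(2 * |C| * ‖v‖ ^ 2) ≤ 0 := neg_nonpos.2 (by positivity)
  by_cases h2 : z ∈ ball z₀ r
  · refine hn.trans ((lv_log z₀ h0 z v).trans_eq (lv_congr ?_ v))
    filter_upwards [isOpen_ball.mem_nhds h2] with x hx
    rw [χ.one_of_mem_closedBall (ball_subset_closedBall hx), one_mul]
  by_cases h3 : z ∈ closedBall z₀ (2 * r)
  · have hm : (δ, z) ∈ Icc (0 : ℝ) 1 ×ˢ (closedBall z₀ (2 * r) \ ball z₀ r) :=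
      ⟨⟨h0.le, h1⟩, h3, h2⟩
    have b : ∀ w : ι → ℂ, ‖w‖ = ‖v‖ → -(|C| * ‖v‖ ^ 2) ≤ d2 (fun x => F (δ, x)) z w w :=
      fun w hw => by
        rw [d2_slice (hF _ (hp _ hm))]
        refine neg_le_of_abs_le ?_
        have := (fderiv ℝ (fderiv ℝ F) (δ, z)).le_opNorm₂ (0, w) (0, w)
        have e : ‖((0 : ℝ), w)‖ = ‖v‖ := by simp [Prod.norm_def, hw]
        rw [e, Real.norm_eq_abs, mul_assoc, ← sq] at this
        exact this.trans (mul_le_mul_of_nonneg_right ((hC _ hm).trans (le_abs_self C))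
          (sq_nonneg _))
    have b1 := b v rfl
    have b2 := b (I • v) (by rw [norm_smul, norm_I, one_mul])
    change _ ≤ d2 (fun x => F (δ, x)) z v v + d2 (fun x => F (δ, x)) z (I • v) (I • v)
    linarith
  · refine hn.trans_eq (Eq.trans ?_ (lv_congr (f := fun _ => 0) ?_ v))
    · simp [lv, d2]
    · filter_upwards [isClosed_closedBall.isOpen_compl.mem_nhds h3] with x hx
      rw [χ.zero_of_le_dist (not_le.1 fun h => hx h).le, zero_mul]

end Pool.Agent.Lib.HS95
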