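import Pool.Agent.Lib.HS95.Blue

/-! Project hs9, section 4: the Gram determinant of holomorphic fields is strictly subharmonic. -/

open scoped Topology ContDiff ComplexOrder Matrix
open Set Filter Metric Complex

set_option linter.unusedSectionVars false

noncomputable section

namespace Pool.Agent.Lib.HS95

namespace SUBCK

variable {ι κ : Type} [Fintype ι] [DecidableEq ι] [Fintype κ] [DecidableEq κ]

theorem sm_hol {f : (ι → ℂ) → ℂ} {z : ι → ℂ} (h : ∀ᶠ w in 𝓝 z, DifferentiableAt ℂ f w) :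
    ContDiffAt ℝ ∞ f z := by
  obtain ⟨O, h1, hO, hx⟩ := _root_.eventually_nhds_iff.1 h
  exact ((SV.H85.contDiffOn_top hO fun z hz => (h1 z hz).differentiableWithinAt).contDiffAt
    (hO.mem_nhds hx)).restrict_scalars ℝ

omit [Fintype κ] [DecidableEq κ] in
theorem sm_gram {G : (ι → ℂ) → Matrix ι ι ℂ} {Ξ : (ι → ℂ) → Matrix ι κ ℂ} {z : ι → ℂ}
    (hG : SmM G z) (h : ∀ a b, ∀ᶠ w in 𝓝 z, DifferentiableAt ℂ (fun x => Ξ x a b) w) :
    SmM (fun x => (Ξ x)ᴴ * G x * Ξ x) z := by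
  intro a b
  simp only [Matrix.mul_apply, Matrix.conjTranspose_apply]
  refine ContDiffAt.sum fun j _ => ContDiffAt.mul (ContDiffAt.sum fun i _ => ContDiffAt.mul ?_
    (hG i j)) (sm_hol (h j b))
  exact (Complex.conjCLE.contDiff.contDiffAt).comp z (sm_hol (h i a))

omit [DecidableEq ι] in
theorem cont_det {M : (ι → ℂ) → Matrix κ κ ℂ} {z : ι → ℂ} (hM : SmM M z) :
    ContinuousAt (fun w => (M w).det.re) z := by
  have h1 : ContinuousAt M z :=
    continuousAt_pi.2 fun a => continuousAt_pi.2 fun b => (hM a b).continuousAt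
  exact Complex.continuous_re.continuousAt.comp
    ((continuous_id.matrix_det (R := ℂ) (n := κ)).continuousAt.comp h1)

omit [DecidableEq ι] in
theorem tr_conj (B : Matrix κ ι ℂ) (N : Matrix κ κ ℂ) :
    (Bᴴ * N * B).trace = ∑ a, star (fun b => B b a) ⬝ᵥ N *ᵥ fun b => B b a := by
  simp only [Matrix.trace, Matrix.diag_apply, Matrix.mul_apply, Matrix.conjTranspose_apply,
    dotProduct, Matrix.mulVec, Pi.star_apply, Finset.sum_mul, Finset.mul_sum]
  refine Finset.sum_congr rfl fun a _ => ?_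
  rw [Finset.sum_comm]
  exact Finset.sum_congr rfl fun _ _ => Finset.sum_congr rfl fun _ _ => mul_assoc _ _ _

open scoped MatrixOrder in
theorem tr_nonneg {M N : Matrix κ κ ℂ} (hM : M.PosSemidef) (hN : ∀ u, 0 ≤ qf N u) :
    0 ≤ (M * N).trace.re := by
  obtain ⟨B, rfl⟩ := CStarAlgebra.nonneg_iff_eq_star_mul_self.mp hM.nonneg
  have : (star B * B * N).trace = (Bᴴᴴ * N * Bᴴ).trace := by
    rw [Matrix.conjTranspose_conjTranspose, Matrix.star_eq_conjTranspose, Matrix.mul_assoc,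
      Matrix.trace_mul_comm]
  rw [this, tr_conj, Complex.re_sum]
  exact Finset.sum_nonneg fun a _ => hN _

omit [DecidableEq ι] [DecidableEq κ] in
theorem qf_conj (Ξ : Matrix ι κ ℂ) (K : Matrix ι ι ℂ) (u : κ → ℂ) :
    star u ⬝ᵥ (Ξᴴ * K * Ξ) *ᵥ u = star (Ξ *ᵥ u) ⬝ᵥ K *ᵥ (Ξ *ᵥ u) := by
  rw [Matrix.star_mulVec, ← Matrix.mulVec_mulVec, ← Matrix.mulVec_mulVec,
    Matrix.dotProduct_mulVec]

end SUBCK

open SUBCK in
theorem st_SUBC (h1 : St_LD2) (h2 : St_KSY) (h3 : St_GRM) : St_SUBC := by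
  intro ι κ _ _ _ _ k G Ξ z h
  have hz := h.self_of_nhds
  have hsm : ∀ᶠ w in 𝓝 z, SmM (fun x => (Ξ x)ᴴ * G x * Ξ x) w :=
    h.eventually_nhds.mono fun w hw =>
      sm_gram hw.self_of_nhds.1.sm fun a b => hw.mono fun x hx => hx.2 a b
  have hps : ∀ᶠ w in 𝓝 z, ((Ξ w)ᴴ * G w * Ξ w).PosSemidef :=
    h.mono fun w hw => hw.1.pos.posSemidef.conjTranspose_mul_mul_same _
  refine ⟨hsm.self_of_nhds, (Complex.le_def.1 hps.self_of_nhds.det_nonneg).1, fun hl => ?_,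
    fun hd W hW => ?_⟩
  · exact (Complex.lt_def.1 (hz.1.pos.conjTranspose_mul_mul_same
      (Matrix.mulVec_injective_iff.2 hl)).det_pos).1
  have hpd : ∀ᶠ w in 𝓝 z, ((Ξ w)ᴴ * G w * Ξ w).PosDef := by
    filter_upwards [hps, (cont_det hsm.self_of_nhds).eventually (lt_mem_nhds hd)] with w hw hw'
    refine hw.posDef_iff_det_ne_zero.2 fun h0 => ?_
    rw [h0] at hw'
    exact lt_irrefl _ hw'
  have hM := hpd.self_of_nhds
  set M := (Ξ z)ᴴ * G z * Ξ z with hMd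
  have e1 := h1 ι κ _ z (hsm.and hpd)
  have e2 := h1 ι ι G z (h.mono fun w hw => ⟨hw.1.sm, hw.1.pos⟩)
  have e3 := h2 ι G z (h.mono fun w hw => ⟨hw.1.sm, hw.1.pos, hw.1.kae⟩)
  have e4 := h3 ι κ G Ξ z (h.mono fun w hw => ⟨hw.1.sm, hw.1.pos, hw.2⟩) hM
  have hWW : W * Wᴴ = (G z)⁻¹ := by
    have a1 : W * (Wᴴ * G z) = 1 := mul_eq_one_comm.1 hW
    exact (Matrix.inv_eq_left_inv (by rw [Matrix.mul_assoc, a1])).symm
  set K : Matrix ι ι ℂ := ∑ a, kM G z fun b => W b a with hK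
  have hKu : ∀ u, k * qf (G z) u ≤ qf K u := fun u => by
    refine (hz.1.neg u).trans_eq ?_
    rw [e2 u, ← hWW, Matrix.mul_assoc, Matrix.trace_mul_comm, tr_conj, qf, hK, Matrix.sum_mulVec,
      dotProduct_sum]
    exact congrArg re (Finset.sum_congr rfl fun a _ => (e3 u _).symm)
  have hN := tr_nonneg (N := (Ξ z)ᴴ * K * Ξ z - (k : ℂ) • M) hM.inv.posSemidef fun u => by
    have := hKu (Ξ z *ᵥ u)
    simp only [qf] at this ⊢
    rw [Matrix.sub_mulVec, dotProduct_sub, Matrix.smul_mulVec, dotProduct_smul, hMd, qf_conj,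
      qf_conj, Complex.sub_re, smul_eq_mul, Complex.re_ofReal_mul]
    linarith
  rw [Matrix.mul_sub, Matrix.trace_sub, Matrix.mul_smul,
    Matrix.nonsing_inv_mul _ hM.det_pos.ne'.isUnit, Matrix.trace_smul, Matrix.trace_one,
    Complex.sub_re, smul_eq_mul, Complex.re_ofReal_mul, Complex.natCast_re, hK, Matrix.mul_sum,
    Matrix.sum_mul, Matrix.mul_sum, Matrix.trace_sum, Complex.re_sum] at hN
  refine (sub_nonneg.1 hN).trans (Finset.sum_le_sum fun a _ => ?_)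
  rw [e1]
  exact e4 _

end Pool.Agent.Lib.HS95
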