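import Pool.Agent.Lib.HS95.Kit

/-! Project hs9, section 4: locally finite sums over the group. -/

open scoped Topology
open Set Filter

noncomputable section

namespace Pool.Agent.Lib.HS95

theorem st_SUM : St_SUM := by
  intro ι _ _ g a hPD j₀ K hK hKt y
  classical
  have hK' : IsCompact ((g.c j₀).symm '' K) :=
    hK.image_of_continuousOn ((g.c j₀).continuousOn_symm.mono hKt)
  have hiff : ∀ x : g.Y, x ∈ (g.c j₀).symm '' K ↔ x ∈ (g.c j₀).source ∧ g.c j₀ x ∈ K := by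
    intro x
    constructor
    · rintro ⟨w, hw, rfl⟩
      exact ⟨(g.c j₀).map_target (hKt hw), by rw [(g.c j₀).right_inv (hKt hw)]; exact hw⟩
    · rintro ⟨h1, h2⟩
      exact ⟨_, h2, (g.c j₀).left_inv h1⟩
  obtain ⟨N, hN, hyN⟩ := exists_compact_mem_nhds y
  have hF := hPD _ (hK'.union hN)
  refine ⟨hF.toFinset.filter fun γ => γ • y ∈ (g.c j₀).symm '' K, fun γ hγ =>
    (hiff _).1 (Finset.mem_filter.1 hγ).2, ?_⟩
  have h1 : ∀ᶠ y' in 𝓝 y, ∀ γ ∈ hF.toFinset,
      (γ • y ∈ (g.c j₀).symm '' K → γ • y' ∈ (g.c j₀).source) ∧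
      (γ • y ∉ (g.c j₀).symm '' K → γ • y' ∉ (g.c j₀).symm '' K) := by
    rw [Filter.eventually_all_finset]
    intro γ _
    by_cases h : γ • y ∈ (g.c j₀).symm '' K
    · have := (a.cont γ).continuousAt.eventually
        ((g.c j₀).open_source.mem_nhds ((hiff _).1 h).1)
      exact this.mono fun y' hy' => ⟨fun _ => hy', fun h' => absurd h h'⟩
    · have := (a.cont γ).continuousAt.eventually (hK'.isClosed.isOpen_compl.mem_nhds h)
      exact this.mono fun y' hy' => ⟨fun h' => absurd h' h, fun _ => hy'⟩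
  filter_upwards [h1, hyN] with y' h2 h3
  refine ⟨fun γ hγ => (h2 γ (Finset.mem_filter.1 hγ).1).1 (Finset.mem_filter.1 hγ).2,
    fun γ hγ h4 h5 => ?_⟩
  have h6 : γ • y' ∈ (g.c j₀).symm '' K := (hiff _).2 ⟨h4, h5⟩
  have h7 : γ ∈ hF.toFinset := hF.mem_toFinset.2 ⟨y', Or.inr h3, Or.inl h6⟩
  exact (h2 γ h7).2 (fun h8 => hγ (Finset.mem_filter.2 ⟨h7, h8⟩)) h6

end Pool.Agent.Lib.HS95
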