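import Pool.Agent.Lib.HS95.Blue2

/-! Project hs9, section 4, row TI: a Kähler metric that is flat in the first directions. -/

open scoped Topology ContDiff ComplexOrder Matrix
open Set Filter Metric Complex

noncomputable section

namespace Pool.Agent.Lib.HS95

open Pool.Agent.Lib.SV (E)
open Pool.Agent.Lib.HS32 (Mat pr nq hess dz dzb ClM)

namespace TIK

variable {n k : ℕ} {U : Set (E n)} {G : E n → Mat n} {ε : ℝ}

theorem ent {A : Mat n} (h : A * pr k = ε • pr k) (a i : Fin n) (hi : i.val < k) :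
    A a i = if a = i then (ε : ℂ) else 0 := by
  have := congrFun₂ h a i
  rw [pr, Matrix.mul_diagonal, if_pos hi, mul_one, Matrix.smul_apply, Matrix.diagonal_apply] at this
  rw [this]
  split_ifs with h1 h2
  · simp
  · exact absurd (h1 ▸ hi) h2
  · simp

theorem det_eq {A : Mat n} (h : A * pr k = ε • pr k) :
    A.det = ((ε ^ Fintype.card (Lo n k) : ℝ) : ℂ) * (lb k A).det := by
  rw [Matrix.twoBlockTriangular_det A (fun i => i.val < k) fun i hi j hj => by
    rw [ent h i j hj, if_neg fun e : i = j => hi (e ▸ hj)]]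
  have : Matrix.toSquareBlockProp A (fun i => i.val < k) = Matrix.diagonal fun _ => (ε : ℂ) := by
    ext a b
    rw [Matrix.toSquareBlockProp_def, Matrix.of_apply, ent h _ _ b.2, Matrix.diagonal_apply]
    simp only [Subtype.ext_iff]
  rw [this, Matrix.det_diagonal, Finset.prod_const, Finset.card_univ, ofReal_pow]
  rfl

theorem wirt {ι : Type} [Fintype ι] [DecidableEq ι] (L : (ι → ℂ) →L[ℝ] ℂ) (v : ι → ℂ) :
    L v - I * L (I • v) = ∑ c, v c * (L (Pi.single c 1) - I * L (Pi.single c I)) := by
  have e : ∀ u : ι → ℂ,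
      L u = ∑ c, ((u c).re * L (Pi.single c 1) + (u c).im * L (Pi.single c I)) := fun u => by
    conv_lhs => rw [← Finset.univ_sum_single u, map_sum]
    refine Finset.sum_congr rfl fun c _ => ?_
    rw [← real_smul, ← real_smul, ← map_smul, ← map_smul, ← map_add, ← Pi.single_smul,
      ← Pi.single_smul, ← Pi.single_add, real_smul, real_smul, mul_one, re_add_im]
  rw [e v, e (I • v), Finset.mul_sum, ← Finset.sum_sub_distrib]
  refine Finset.sum_congr rfl fun c _ => ?_
  have h1 : ((I • v) c).re = -(v c).im := by simp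
  have h2 : ((I • v) c).im = (v c).re := by simp
  rw [h1, h2]
  conv_rhs => rw [← re_add_im (v c)]
  push_cast
  linear_combination ((v c).im * L (Pi.single c I)) * I_mul_I

variable (ho : IsOpen U)
  (h : ∀ z ∈ U, HS32.SmM G z ∧ (G z).PosDef ∧ ClM G z ∧ G z * pr k = ε • pr k)

include ho h

theorem d_zero {z : E n} (hz : z ∈ U) {i : Fin n} (hi : i.val < k) :
    HS32.dM i G z = 0 ∧ HS32.dMb i G z = 0 := by
  have e : HS32.dM i G z = 0 := by
    ext a b
    rw [← (h z hz).2.2.1 a i b, HS32.dM_apply, HS32.dz_congr (g := fun _ => if a = i then ε else 0)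
      ((ho.eventually_mem hz).mono fun w hw => ent (h w hw).2.2.2 a i hi), HS32.dz_const]
    rfl
  refine ⟨e, ?_⟩
  rw [HS32.dMb_herm (h z hz).1 ((ho.eventually_mem hz).mono fun w hw => (h w hw).2.1.isHermitian), e,
    Matrix.conjTranspose_zero]

theorem const (hc : Convex ℝ U) {z z' : E n} (hz : z ∈ U) (hz' : z' ∈ U) (e : up k z = up k z') :
    G z = G z' := by
  ext a b
  have hm : ∀ t ∈ Icc (0 : ℝ) 1, z + t • (z' - z) ∈ U := fun t ht => hc.add_smul_sub_mem hz hz' ht
  have hd : ∀ t ∈ Icc (0 : ℝ) 1, HasDerivAt (fun t : ℝ => G (z + t • (z' - z)) a b) 0 t := by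
    intro t ht
    have h1 : HasDerivAt (fun t : ℝ => z + t • (z' - z)) (z' - z) t := by
      simpa using ((hasDerivAt_id t).smul_const (z' - z)).const_add z
    have h2 := ((h _ (hm t ht)).1.diff a b).hasFDerivAt.comp_hasDerivAt t h1
    rw [HS32.fderiv_eq_sum, Finset.sum_eq_zero fun j _ => ?_] at h2
    · exact h2
    by_cases hj : j.val < k
    · obtain ⟨h3, h4⟩ := d_zero ho h (hm t ht) hj
      rw [← HS32.dM_apply, ← HS32.dMb_apply, h3, h4]
      simp
    · have : (z' - z) j = 0 := sub_eq_zero.2 (congrFun e ⟨j, hj⟩).symm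
      simp [this]
  have := constant_of_has_deriv_right_zero
    (fun t ht => (hd t ht).continuousAt.continuousWithinAt)
    (fun t ht => (hd t (Ico_subset_Icc_self ht)).hasDerivWithinAt) 1 (right_mem_Icc.2 zero_le_one)
  simpa using this.symm

end TIK

open TIK Classical in
theorem st_TI (h1 : St_HB) (h2 : St_LD1) : St_TI := by
  intro n k U G ε ho hc hε h
  set G' : (Hi n k → ℂ) → Matrix (Hi n k) (Hi n k) ℂ := fun y =>
    if hy : ∃ z ∈ U, up k z = y then lb k (G hy.choose) else 0 with hG'
  have e0 : ∀ z ∈ U, G' (up k z) = lb k (G z) := fun z hz => by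
    have hy : ∃ w ∈ U, up k w = up k z := ⟨z, hz, rfl⟩
    simp only [hG', dif_pos hy, const ho h hc hy.choose_spec.1 hz hy.choose_spec.2]
  have hp : ∀ z ∈ U, (G' (up k z)).PosDef := fun z hz =>
    e0 z hz ▸ (h z hz).2.1.submatrix Subtype.val_injective
  refine ⟨G', fun z hz => ?_⟩
  have hj : ContDiff ℝ ∞ fun y : Hi n k → ℂ => jn k (lo k z) y :=
    (((spl k).symm.contDiff (n := ∞)).restrict_scalars ℝ).comp (contDiff_const.prodMk contDiff_id)
  have hU : ∀ᶠ y in 𝓝 (up k z), jn k (lo k z) y ∈ U :=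
    hj.continuous.continuousAt.eventually (by
      simpa only [jn_lo_up] using ho.eventually_mem hz)
  have hs : SmM G' (up k z) := fun a b => by
    have : ContDiffAt ℝ ∞ (fun w => G w a.1 b.1) (jn k (lo k z) (up k z)) := by
      rw [jn_lo_up]; exact (h z hz).1 _ _
    refine (this.comp _ hj.contDiffAt).congr_of_eventuallyEq (hU.mono fun y hy => ?_)
    have := e0 _ hy
    rw [up_jn] at this
    exact congrFun₂ this a b
  refine ⟨e0 z hz, hs, hp z hz, fun v w => ?_, fun v => ?_⟩
  · have e1 : ∀ u a b, pM G' (up k z) u a b = ∑ c, u c * (2 * HS32.dM c.1 G z a.1 b.1) :=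
      fun u a b => by
        refine (wirt _ u).trans (Finset.sum_congr rfl fun c _ => congrArg _ ?_)
        exact (((h1 n k (fun w => G w a.1 b.1) z).2 (fun y => G' y a b)
          ((hs a b).differentiableAt (by simp)) ((ho.eventually_mem hz).mono fun x hx =>
            (congrFun₂ (e0 x hx) a b).symm)).2 c).symm
    ext a
    simp only [Matrix.mulVec, dotProduct, e1, Finset.sum_mul]
    refine Finset.sum_comm.trans (Finset.sum_congr rfl fun b _ => Finset.sum_congr rfl fun c _ => ?_)
    rw [(h z hz).2.2.1 a.1 c.1 b.1]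
    ring
  · have hl := (h2 _ _ G' (up k z) hs (hU.mono fun y hy => by
      have := hp _ hy
      rwa [up_jn] at this)).1
    rw [(h1 n k (HS32.ld G) z).1 (fun y => Real.log (ε ^ Fintype.card (Lo n k)) + ld G' y)
      (contDiffAt_const.add hl) ((ho.eventually_mem hz).mono fun x hx => ?_) v]
    · simp only [lv, d2, fderiv_const_add]
    · have h4 : 0 < (lb k (G x)).det.re := (Complex.pos_iff.1 (e0 x hx ▸ hp x hx).det_pos).1
      simp only [HS32.ld, ld, e0 x hx]
      rw [det_eq (h x hx).2.2.2, re_ofReal_mul, Real.log_mul (pow_pos hε _).ne' h4.ne']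

end Pool.Agent.Lib.HS95
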