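import Pool.Agent.Lib.HS95.Blue

/-! Project hs9, section 4: the space of parametrized leaves. -/

open scoped Topology
open Set Filter

noncomputable section

namespace Pool.Agent.Lib.HS95

namespace TR0K

variable {V ι X : Type} [NormedAddCommGroup V] [InnerProductSpace ℂ V] [Fintype ι]
  [DecidableEq ι] [TopologicalSpace X] (S : Split V ι X)

/-- The parametrized leaves. -/
def Y : Type := {ℓ : V → X // S.Lf ℓ univ}

/-- The index set of the charts. -/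
structure J : Type where
  i : S.I
  A : V ≃ₗᵢ[ℂ] V
  t : V
  v : V

/-- The facts about leaves that are used. -/
structure Hyp : Prop where
  ne : Nonempty (Y S)
  chg : ∀ ℓ i A v j, S.Fr ℓ i A v → ℓ v ∈ (S.e j).source → ∃ B, S.Fr ℓ j B v
  uniq : ∀ (ℓ ℓ' : Y S) i A v, S.Fr ℓ.1 i A v → S.Fr ℓ'.1 i A v → ℓ.1 v = ℓ'.1 v → ℓ = ℓ'
  ex : ∀ i x A v, x ∈ (S.e i).source → ∃ ℓ : Y S, ℓ.1 v = x ∧ S.Fr ℓ.1 i A v
  hol : ∀ (L : (ι → ℂ) → V → X) (i : S.I) (A : V ≃ₗᵢ[ℂ] V) (t₀ v₀ : V) (z₀ : ι → ℂ),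
    (t₀, z₀) ∈ (S.e i).target → (∀ z, (t₀, z) ∈ (S.e i).target →
      S.Lf (L z) univ ∧ L z v₀ = (S.e i).symm (t₀, z) ∧ S.Fr (L z) i A v₀) →
    ∀ v i' A', S.Fr (L z₀) i' A' v → ∃ φ, (∀ᶠ z in 𝓝 z₀, IsoAt (S.G i) (S.G i') φ z) ∧
      ∀ᶠ p : (ι → ℂ) × V in 𝓝 (z₀, v), L p.1 p.2 ∈ (S.e i').source ∧
        S.e i' (L p.1 p.2) = (A' (p.2 - v) + (S.e i' (L z₀ v)).1, φ p.1)

variable {S}

lemma fr_mem {ℓ : V → X} {i : S.I} {A : V ≃ₗᵢ[ℂ] V} {v : V} (h : S.Fr ℓ i A v) :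
    ℓ v ∈ (S.e i).source := h.self_of_nhds.1

lemma isoAt_congr {G G' : (ι → ℂ) → Matrix ι ι ℂ} {φ ψ : (ι → ℂ) → ι → ℂ} {z : ι → ℂ}
    (h : IsoAt G G' φ z) (e : ψ =ᶠ[𝓝 z] φ) : IsoAt G G' ψ z := by
  have e1 : jm ψ z = jm φ z := by simp only [jm, e.fderiv_eq]
  exact ⟨h.hol.congr_of_eventuallyEq e, by rw [e1, e.eq_of_nhds]; exact h.iso⟩

namespace Hyp

variable (h : Hyp S)

/-- The leaf through a point of a transversal. -/
def L (j : J S) (z : ι → ℂ) : Y S :=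
  @Classical.epsilon _ h.ne fun ℓ => ℓ.1 j.v = (S.e j.i).symm (j.t, z) ∧ S.Fr ℓ.1 j.i j.A j.v

lemma L_spec {j : J S} {z : ι → ℂ} (hz : (j.t, z) ∈ (S.e j.i).target) :
    (h.L j z).1 j.v = (S.e j.i).symm (j.t, z) ∧ S.Fr (h.L j z).1 j.i j.A j.v :=
  Classical.epsilon_spec (h.ex j.i _ j.A j.v ((S.e j.i).map_target hz))

lemma e_L {j : J S} {z : ι → ℂ} (hz : (j.t, z) ∈ (S.e j.i).target) :
    S.e j.i ((h.L j z).1 j.v) = (j.t, z) := by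
  rw [(h.L_spec hz).1, (S.e j.i).right_inv hz]

/-- The charts. -/
def pe (j : J S) : PartialEquiv (Y S) (ι → ℂ) where
  toFun ℓ := (S.e j.i (ℓ.1 j.v)).2
  invFun := h.L j
  source := {ℓ | S.Fr ℓ.1 j.i j.A j.v ∧ (S.e j.i (ℓ.1 j.v)).1 = j.t}
  target := {z | (j.t, z) ∈ (S.e j.i).target}
  map_source' ℓ hℓ := by
    have := (S.e j.i).map_source (fr_mem hℓ.1)
    rwa [← Prod.mk.eta (p := S.e j.i _), hℓ.2] at this
  map_target' z hz := ⟨(h.L_spec hz).2, by rw [h.e_L hz]⟩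
  left_inv' ℓ hℓ := by
    have e : (j.t, (S.e j.i (ℓ.1 j.v)).2) = S.e j.i (ℓ.1 j.v) := by rw [← hℓ.2]
    have hz : (j.t, (S.e j.i (ℓ.1 j.v)).2) ∈ (S.e j.i).target :=
      e ▸ (S.e j.i).map_source (fr_mem hℓ.1)
    refine h.uniq _ _ j.i j.A j.v (h.L_spec hz).2 hℓ.1 ?_
    rw [(h.L_spec hz).1, e, (S.e j.i).left_inv (fr_mem hℓ.1)]
  right_inv' z hz := by rw [h.e_L hz]

lemma ev_target {j : J S} {z : ι → ℂ} (hz : z ∈ (h.pe j).target) :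
    ∀ᶠ w in 𝓝 z, w ∈ (h.pe j).target :=
  ((S.e j.i).open_target.preimage (Continuous.prodMk_right j.t)).mem_nhds hz

lemma hol' {j : J S} {z : ι → ℂ} (hz : z ∈ (h.pe j).target) {v : V} {i' : S.I} {A' : V ≃ₗᵢ[ℂ] V}
    (hf : S.Fr (h.L j z).1 i' A' v) : ∃ φ, (∀ᶠ w in 𝓝 z, IsoAt (S.G j.i) (S.G i') φ w) ∧
      ∀ᶠ p : (ι → ℂ) × V in 𝓝 (z, v), (h.L j p.1).1 p.2 ∈ (S.e i').source ∧
        S.e i' ((h.L j p.1).1 p.2) = (A' (p.2 - v) + (S.e i' ((h.L j z).1 v)).1, φ p.1) :=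
  h.hol (fun w => (h.L j w).1) j.i j.A j.t j.v z hz
    (fun w hw => ⟨(h.L j w).2, h.L_spec hw⟩) v i' A' hf

lemma trans {j j' : J S} {z : ι → ℂ} (hz : z ∈ (h.pe j).target)
    (hs : h.L j z ∈ (h.pe j').source) : (∀ᶠ w in 𝓝 z, h.L j w ∈ (h.pe j').source) ∧
      IsoAt (S.G j.i) (S.G j'.i) (fun w => h.pe j' (h.L j w)) z := by
  obtain ⟨φ, h1, h2⟩ := h.hol' hz hs.1
  rw [hs.2] at h2
  have h3 : ∀ᶠ w in 𝓝 z, h.L j w ∈ (h.pe j').source ∧ h.pe j' (h.L j w) = φ w := by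
    filter_upwards [h2.curry_nhds] with w hw
    have e : S.e j'.i ((h.L j w).1 j'.v) = (j'.t, φ w) := by simpa using hw.self_of_nhds.2
    refine ⟨⟨hw.mono fun u hu => ⟨hu.1, ?_⟩, congrArg Prod.fst e⟩, congrArg Prod.snd e⟩
    rw [e]
    exact hu.2
  exact ⟨h3.mono fun w hw => hw.1, isoAt_congr h1.self_of_nhds (h3.mono fun w hw => hw.2)⟩

lemma box {j : J S} {z : ι → ℂ} (hz : z ∈ (h.pe j).target) :
    ∀ᶠ p : (ι → ℂ) × V in 𝓝 (z, j.v), (h.L j p.1).1 p.2 ∈ (S.e j.i).source ∧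
      S.e j.i ((h.L j p.1).1 p.2) = (j.A (p.2 - j.v) + j.t, p.1) := by
  obtain ⟨φ, -, h2⟩ := h.hol' hz (h.L_spec hz).2
  rw [h.e_L hz] at h2
  have h3 : ∀ᶠ w in 𝓝 z, φ w = w := by
    filter_upwards [h2.curry_nhds, h.ev_target hz] with w hw hw'
    have e := hw.self_of_nhds.2
    rw [h.e_L hw'] at e
    exact (congrArg Prod.snd e).symm
  filter_upwards [h2, (continuous_fst.tendsto (z, j.v)).eventually h3] with p hp hp'
  rwa [hp'] at hp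

/-- The chart adapted to a point of a leaf. -/
lemma adapt (ℓ : Y S) (v : V) : ∃ j : J S, j.v = v ∧ ℓ ∈ (h.pe j).source := by
  obtain ⟨i, A, hA⟩ := ℓ.2 v trivial
  exact ⟨⟨i, A, (S.e i (ℓ.1 v)).1, v⟩, rfl, hA, rfl⟩

/-- The atlas. -/
def core : ChartedSpaceCore (ι → ℂ) (Y S) where
  atlas := range h.pe
  chartAt ℓ := h.pe (h.adapt ℓ 0).choose
  mem_chart_source ℓ := (h.adapt ℓ 0).choose_spec.2
  chart_mem_atlas ℓ := ⟨_, rfl⟩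
  open_source := by
    rintro _ _ ⟨j, rfl⟩ ⟨j', rfl⟩
    exact isOpen_iff_mem_nhds.2 fun z hz => (h.ev_target hz.1).and (h.trans hz.1 hz.2).1
  continuousOn_toFun := by
    rintro _ _ ⟨j, rfl⟩ ⟨j', rfl⟩ z hz
    exact (h.trans hz.1 hz.2).2.hol.continuousAt.continuousWithinAt

/-- The charts as homeomorphisms. -/
def c (j : J S) : @OpenPartialHomeomorph (Y S) (ι → ℂ) h.core.toTopologicalSpace _ :=
  h.core.openPartialHomeomorph (h.pe j) ⟨j, rfl⟩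

lemma near (v : V) (ℓ : Y S) : letI := h.core.toTopologicalSpace
    ∃ j : J S, j.v = v ∧ ℓ ∈ (h.c j).source ∧ ∀ᶠ p : V × Y S in 𝓝 (v, ℓ), p.2 ∈ (h.c j).source ∧
      p.2.1 p.1 ∈ (S.e j.i).source ∧ S.e j.i (p.2.1 p.1) = (j.A (p.1 - v) + j.t, h.c j p.2) := by
  let _ := h.core.toTopologicalSpace
  obtain ⟨j, rfl, hj⟩ := h.adapt ℓ v
  have h1 : ContinuousAt (fun p : V × Y S => (h.c j p.2, p.1)) (j.v, ℓ) :=
    (((h.c j).continuousAt hj).comp_of_eq continuousAt_snd rfl).prodMk continuousAt_fst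
  refine ⟨j, rfl, hj, ?_⟩
  filter_upwards [h1.eventually (h.box ((h.pe j).map_source hj)),
    (continuous_snd.tendsto (j.v, ℓ)).eventually ((h.c j).open_source.mem_nhds hj)] with p hp hp'
  have e : h.L j (h.c j p.2) = p.2 := (h.pe j).left_inv hp'
  rw [e] at hp
  exact ⟨hp', hp⟩

lemma cont_q : letI := h.core.toTopologicalSpace
    Continuous fun p : V × Y S => p.2.1 p.1 := by
  let _ := h.core.toTopologicalSpace
  refine continuous_iff_continuousAt.2 fun ⟨v, ℓ⟩ => ?_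
  obtain ⟨j, -, hj, h1⟩ := h.near v ℓ
  have h2 : ContinuousAt (fun p : V × Y S => (j.A (p.1 - v) + j.t, h.c j p.2)) (v, ℓ) :=
    ContinuousAt.prodMk (by fun_prop) (((h.c j).continuousAt hj).comp_of_eq continuousAt_snd rfl)
  have h3 := h1.self_of_nhds.2
  refine (((S.e j.i).continuousAt_symm ((S.e j.i).map_source h3.1)).comp_of_eq h2 h3.2.symm).congr
    (h1.mono fun p hp => ?_)
  exact (congrArg (S.e j.i).symm hp.2.2.symm).trans ((S.e j.i).left_inv hp.2.1)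

variable [T2Space X]

/-- The transversal. -/
def geo : Geo ι :=
  letI := h.core.toTopologicalSpace
  { Y := Y S
    hY := T2Space.of_injective_continuous (f := fun ℓ : Y S => ℓ.1) Subtype.val_injective
      (continuous_pi fun v => h.cont_q.comp (Continuous.prodMk_right v))
    J := J S
    c := h.c
    G := fun j => S.G j.i
    k := S.k
    kpos := S.kpos
    cov := fun ℓ => ⟨_, (h.adapt ℓ 0).choose_spec.2⟩
    met := fun j z hz => S.met j.i (j.t, z) hz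
    chg := fun j _ _ hj hj' => (h.trans ((h.pe j).map_source hj)
      (mem_of_eq_of_mem ((h.pe j).left_inv hj) hj')).2 }

end Hyp

lemma fr_comp {ℓ : V → X} {i : S.I} {A : V ≃ₗᵢ[ℂ] V} (γ : V ≃ᵃⁱ[ℂ] V) {v : V}
    (hf : S.Fr ℓ i A (γ v)) : S.Fr (ℓ ∘ γ) i (A * γ.linearIsometryEquiv) v := by
  refine (γ.continuous.continuousAt.eventually hf).mono fun w hw => ⟨hw.1, hw.2.trans ?_⟩
  rw [← vsub_eq_sub (γ w), ← γ.map_vsub]
  rfl

instance act : MulAction (V ≃ᵃⁱ[ℂ] V) (Y S) where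
  smul γ ℓ := ⟨ℓ.1 ∘ ⇑γ⁻¹, fun v _ => by
    obtain ⟨i, A, hA⟩ := ℓ.2 (γ⁻¹ v) trivial
    exact ⟨i, _, fr_comp _ hA⟩⟩
  one_smul ℓ := rfl
  mul_smul γ δ ℓ := rfl

lemma smul_val (γ : V ≃ᵃⁱ[ℂ] V) (ℓ : Y S) : (γ • ℓ).1 = ℓ.1 ∘ ⇑γ⁻¹ := rfl

lemma lin_apply (γ : V ≃ᵃⁱ[ℂ] V) (v : V) : γ.linearIsometryEquiv v + γ 0 = γ v := by
  simpa using (γ.map_vadd 0 v).symm

/-- The linear part. -/
def lin : (V ≃ᵃⁱ[ℂ] V) →* (V ≃ₗᵢ[ℂ] V) :=
  MonoidHom.mk' (fun γ => γ.linearIsometryEquiv) fun _ _ => rfl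

/-- The group permutes the charts. -/
def mvJ (γ : V ≃ᵃⁱ[ℂ] V) (j : J S) : J S := ⟨j.i, j.A * γ.linearIsometryEquiv, j.t, γ⁻¹ j.v⟩

lemma mem_mvJ (h : Hyp S) (γ : V ≃ᵃⁱ[ℂ] V) (j : J S) (ℓ : Y S) :
    γ • ℓ ∈ (h.pe j).source ↔ ℓ ∈ (h.pe (mvJ γ j)).source := by
  refine and_congr_left' ⟨fun hf => ?_, fun hf => ?_⟩
  · have e : (γ • ℓ).1 ∘ γ = ℓ.1 := congrArg Subtype.val (inv_smul_smul γ ℓ)
    have e' : γ (γ⁻¹ j.v) = j.v := γ.apply_symm_apply _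
    rw [← e]
    exact fr_comp γ (e'.symm ▸ hf)
  · have := fr_comp γ⁻¹ hf
    have e : (mvJ γ j).A * (γ⁻¹).linearIsometryEquiv = j.A := by
      show j.A * lin γ * lin γ⁻¹ = j.A
      rw [mul_assoc, ← map_mul, mul_inv_cancel, map_one, mul_one]
    rwa [e] at this

variable [T2Space X]

lemma iso (h : Hyp S) (γ : V ≃ᵃⁱ[ℂ] V) : h.geo.Iso fun ℓ : Y S => γ • ℓ := by
  let _ := h.core.toTopologicalSpace
  refine ⟨continuous_iff_continuousAt.2 fun ℓ : Y S => ?_, fun j j' ℓ hj hj' =>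
    h.geo.chg j (mvJ γ j') ℓ hj ((mem_mvJ h γ j' ℓ).1 hj')⟩
  obtain ⟨j, -, hj⟩ := h.adapt (γ • ℓ) 0
  have hj' := (mem_mvJ h γ j ℓ).1 hj
  refine (((h.c j).continuousAt_symm ((h.c j).map_source hj)).comp_of_eq
    ((h.c (mvJ γ j)).continuousAt hj') rfl).congr ?_
  filter_upwards [(h.c (mvJ γ j)).open_source.mem_nhds hj'] with ℓ' hℓ'
  exact (h.pe j).left_inv ((mem_mvJ h γ j ℓ').2 hℓ')

/-- The group. -/
def tr (h : Hyp S) : Tr V h.geo where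
  Γ := V ≃ᵃⁱ[ℂ] V
  aΓ := act
  iso := iso h
  A := lin
  b γ := γ 0
  bmul γ δ := by rw [add_comm]; exact (lin_apply γ (δ 0)).symm
  inj γ h1 h2 := by
    ext v
    have h3 : γ.linearIsometryEquiv = 1 := h1
    rw [← lin_apply, h3, h2, add_zero]
    rfl

lemma mv_eq (h : Hyp S) (γ : V ≃ᵃⁱ[ℂ] V) (v : V) (ℓ : Y S) :
    (tr h).mv γ (v, ℓ) = (γ v, γ • ℓ) := Prod.ext (lin_apply γ v) rfl

/-- The developing map. -/
def dev (h : Hyp S) : Dev S (tr h) where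
  q := fun p : V × Y S => p.2.1 p.1
  cont := h.cont_q
  inv := fun (γ : V ≃ᵃⁱ[ℂ] V) ⟨v, ℓ⟩ => by
    rw [mv_eq]
    exact congrArg ℓ.1 (γ.symm_apply_apply v)
  orb := fun ⟨v, (ℓ : Y S)⟩ ⟨v', (ℓ' : Y S)⟩ e => by
    have e : ℓ.1 v = ℓ'.1 v' := e
    obtain ⟨i, A, hA⟩ := ℓ.2 v trivial
    obtain ⟨i', A', hA'⟩ := ℓ'.2 v' trivial
    obtain ⟨B, hB⟩ := h.chg _ _ _ _ i hA' (e ▸ fr_mem hA)
    let γ : V ≃ᵃⁱ[ℂ] V := AffineIsometryEquiv.mk' (fun w => (B⁻¹ * A) (w - v) + v') (B⁻¹ * A) v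
      (by simp)
    have h1 : γ v = v' := by simp [γ]
    have h2 : B * γ.linearIsometryEquiv = A := by
      rw [AffineIsometryEquiv.linearIsometryEquiv_mk', mul_inv_cancel_left]
    have h3 := fr_comp γ (h1.symm ▸ hB)
    rw [h2] at h3
    have h4 : ℓ = γ⁻¹ • ℓ' := h.uniq ℓ (γ⁻¹ • ℓ') i A v hA h3 (e.trans (congrArg ℓ'.1 h1.symm))
    refine ⟨γ, ?_⟩
    rw [mv_eq, h1, h4, smul_inv_smul]
    rfl
  linj := fun ⟨v, (ℓ : Y S)⟩ => by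
    obtain ⟨j, -, -, h1⟩ := h.near v ℓ
    refine ⟨_, h1, fun p hp p' hp' e => ?_⟩
    have e : p.2.1 p.1 = p'.2.1 p'.1 := e
    have e1 := hp.2.2.symm.trans (e ▸ hp'.2.2)
    refine Prod.ext ?_ ((h.pe j).injOn hp.1 hp'.1 (Prod.ext_iff.1 e1).2)
    simpa using congrArg Prod.fst e1
  sec i x hx := by
    let j : J S := ⟨i, 1, (S.e i x).1, (S.e i x).1⟩
    have hz : (S.e i x).2 ∈ (h.pe j).target := (S.e i).map_source hx
    refine ⟨1, 0, j, rfl, hz, ?_⟩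
    have h1 : ContinuousAt (fun x' => ((S.e i x').2, (S.e i x').1)) x :=
      ((S.e i).continuousAt hx).snd.prodMk ((S.e i).continuousAt hx).fst
    filter_upwards [h1.eventually (h.box hz), (S.e i).open_source.mem_nhds hx] with x' h2 h3
    show (h.L j (S.e i x').2).1 ((S.e i x').1 + 0) = x'
    rw [add_zero]
    refine (S.e i).injOn h2.1 h3 (h2.2.trans (Prod.ext ?_ rfl))
    exact sub_add_cancel _ _

end TR0K

theorem st_TR0 (h1 : St_LFU) (h2 : St_LFE) (h3 : St_HOL) : St_TR0 := by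
  intro V ι X _ _ _ _ _ _ _ _ S
  obtain ⟨a1, -, -, a4, a5⟩ := h1 V ι X S
  have ex : ∀ i x A v, x ∈ (S.e i).source → ∃ ℓ : TR0K.Y S, ℓ.1 v = x ∧ S.Fr ℓ.1 i A v :=
    fun i x A v hx => by
      obtain ⟨ℓ, b1, b2⟩ := h2 V ι X S i x A v hx
      exact ⟨⟨ℓ, b1⟩, b2⟩
  obtain ⟨x⟩ := ‹Nonempty X›
  obtain ⟨i, hi⟩ := S.cov x
  have h : TR0K.Hyp S := ⟨⟨(ex i x 1 0 hi).choose⟩, a1, fun ℓ ℓ' i A v b1 b2 b3 =>
    Subtype.ext (funext fun w => a5 ℓ.1 ℓ'.1 univ v isOpen_univ isPreconnected_univ ℓ.2 ℓ'.2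
      trivial (a4 _ _ i A v b1 b2 b3) (mem_univ w)), ex, h3 V ι X S⟩
  exact ⟨h.geo, TR0K.tr h, ⟨TR0K.dev h⟩⟩

end Pool.Agent.Lib.HS95
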