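import Pool.Agent.Lib.HS95.Kit
import Pool.Agent.Lib.HS.Top
import Pool.Agent.Lib.HS32.MBlue
import Pool.Agent.Lib.HS32.MKit

/-! Project hs9, section 4: the bridge between the manifold layer and the split atlases. -/

open scoped Topology ContDiff ComplexOrder Matrix
open Set Filter Metric Complex MeasureTheory

set_option linter.unusedVariables false

noncomputable section

namespace Pool.Agent.Lib.HS95

open Pool.Agent.Lib.SV (E)
open Pool.Agent.Lib.HS32 (Mat Mf pr nq hess dz dzb HolN ClM)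

/-! ### Splitting of the coordinates -/

/-- The first `k` indices. -/
abbrev Lo (n k : ℕ) : Type := {i : Fin n // i.val < k}

/-- The other indices. -/
abbrev Hi (n k : ℕ) : Type := {i : Fin n // ¬ i.val < k}

/-- The flat factor. -/
abbrev Vk (n k : ℕ) : Type := EuclideanSpace ℂ (Lo n k)

section spl

variable {n : ℕ} (k : ℕ)

/-- The first `k` coordinates. -/
def lo (z : E n) : Vk n k := WithLp.toLp 2 fun a => z a.1

/-- The other coordinates. -/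
def up (z : E n) : Hi n k → ℂ := fun a => z a.1

/-- The lower block of a matrix. -/
def lb (A : Mat n) : Matrix (Hi n k) (Hi n k) ℂ := A.submatrix Subtype.val Subtype.val

/-- The inverse of the splitting. -/
def jn (t : Vk n k) (y : Hi n k → ℂ) : E n := fun i => if h : i.val < k then t ⟨i, h⟩ else y ⟨i, h⟩

@[simp] theorem lo_jn (t : Vk n k) (y : Hi n k → ℂ) : lo k (jn k t y) = t := by
  ext a; simp [lo, jn, a.2]

@[simp] theorem up_jn (t : Vk n k) (y : Hi n k → ℂ) : up k (jn k t y) = y := by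
  ext a; simp only [up, jn, dif_neg a.2]

@[simp] theorem jn_lo_up (z : E n) : jn k (lo k z) (up k z) = z := by
  ext i; by_cases h : i.val < k <;> simp [lo, up, jn, h]

/-- The splitting as a linear equivalence. -/
def splL : E n ≃ₗ[ℂ] Vk n k × (Hi n k → ℂ) where
  toFun z := (lo k z, up k z)
  invFun p := jn k p.1 p.2
  map_add' _ _ := rfl
  map_smul' _ _ := rfl
  left_inv z := jn_lo_up k z
  right_inv p := by simp

/-- The splitting. -/
def spl : E n ≃L[ℂ] Vk n k × (Hi n k → ℂ) := (splL k).toContinuousLinearEquiv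

@[simp] theorem spl_apply (z : E n) : spl k z = (lo k z, up k z) := rfl

@[simp] theorem spl_symm (p : Vk n k × (Hi n k → ℂ)) : (spl k).symm p = jn k p.1 p.2 := rfl

/-- The second projection as a continuous linear map. -/
def upL : E n →L[ℂ] (Hi n k → ℂ) :=
  (ContinuousLinearMap.snd ℂ _ _).comp (spl k).toContinuousLinearMap

/-- The first projection as a continuous linear map. -/
def loL : E n →L[ℂ] Vk n k :=
  (ContinuousLinearMap.fst ℂ _ _).comp (spl k).toContinuousLinearMap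

@[simp] theorem upL_apply (z : E n) : upL k z = up k z := rfl

@[simp] theorem loL_apply (z : E n) : loL k z = lo k z := rfl

theorem continuous_up : Continuous (up k : E n → _) := (upL k).continuous

theorem continuous_lo : Continuous (lo k : E n → _) := (loL k).continuous

theorem continuous_jn : Continuous fun p : Vk n k × (Hi n k → ℂ) => jn k p.1 p.2 :=
  (spl k).symm.continuous

theorem nsq_up_le (z : E n) : nsq (up k z) ≤ SV.nsq z := by
  have := Fintype.sum_subtype_add_sum_subtype (fun i : Fin n => i.val < k) fun i => normSq (z i)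
  have h0 : 0 ≤ ∑ i : Lo n k, normSq (z i.1) := Finset.sum_nonneg fun _ _ => normSq_nonneg _
  simp only [nsq, SV.nsq, up]
  linarith

end spl

/-! ### The link -/

/-- The split atlas `S` consists of product charts of `M`. -/
structure Lnk {n : ℕ} (M : Mf n) (H P G : M.Fam (Mat n)) (k : ℕ)
    (S : Split (Vk n k) (Hi n k) M.X) where
  ch : S.I → M.Ch
  inj : Function.Injective ch
  prod : ∀ i, M.Prod H P k (ch i)
  eq : ∀ i, S.e i = (ch i).transHomeomorph (spl k).toHomeomorph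
  met : ∀ i, ∀ z ∈ (ch i).target, S.G i (up k z) = lb k (G (ch i) z)

namespace Lnk

variable {n : ℕ} {M : Mf n} {H P G : M.Fam (Mat n)} {k : ℕ} {S : Split (Vk n k) (Hi n k) M.X}
  (L : Lnk M H P G k S)

theorem src (i : S.I) : (S.e i).source = (L.ch i).source := by rw [L.eq]; rfl

theorem app (i : S.I) (x : M.X) : S.e i x = (lo k (L.ch i x), up k (L.ch i x)) := by
  rw [L.eq]; rfl

theorem snd (i : S.I) (x : M.X) : (S.e i x).2 = up k (L.ch i x) := by rw [L.app]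

theorem symm (i : S.I) (p : Vk n k × (Hi n k → ℂ)) :
    (S.e i).symm p = (L.ch i).symm (jn k p.1 p.2) := by rw [L.eq]; rfl

theorem tgt (i : S.I) (p : Vk n k × (Hi n k → ℂ)) :
    p ∈ (S.e i).target ↔ jn k p.1 p.2 ∈ (L.ch i).target := by rw [L.eq]; rfl

theorem mem (i : S.I) : L.ch i ∈ M.C := (L.prod i).mem

theorem sub : M.Sub (range L.ch) :=
  ⟨by rintro _ ⟨i, rfl⟩; exact L.mem i, fun x => by
    obtain ⟨i, hi⟩ := S.cov x
    exact ⟨_, ⟨i, rfl⟩, L.src i ▸ hi⟩⟩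

theorem bas {β : Type} {i : S.I} {z : E n} (hz : z ∈ (L.ch i).target) {u : M.X → β}
    {f : (Hi n k → ℂ) → β} (h : S.Bas i ((L.ch i).symm z) u f) :
    u ∘ (L.ch i).symm =ᶠ[𝓝 z] fun w => f (up k w) := by
  filter_upwards [((L.ch i).continuousAt_symm hz).eventually h,
    (L.ch i).open_target.mem_nhds hz] with w h1 h2
  rw [Function.comp_apply, h1, L.snd, (L.ch i).right_inv h2]

end Lnk

/-- Smooth at a point. -/
def SmAt {n : ℕ} (M : Mf n) (f : M.X → ℝ) (x : M.X) : Prop :=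
  ∃ e ∈ M.C, x ∈ e.source ∧ ContDiffAt ℝ ∞ (f ∘ e.symm) (e x)

/-- Local potentials of a closed form of degree one. -/
structure Pot {n : ℕ} (M : Mf n) (t : M.X → M.X → ℝ) : Prop where
  sm : ∀ x, M.Sm (t x)
  loc : ∀ x, ∀ᶠ w in 𝓝 x, ∃ κ : ℝ, ∀ᶠ y in 𝓝 w, t w y = t x y + κ

/-! ### Rows in coordinates -/

/-- Derivatives of a function of the last coordinates. -/
def St_HB : Prop := ∀ (n k : ℕ) (F : E n → ℂ) (z : E n),
  (∀ f : (Hi n k → ℂ) → ℝ, ContDiffAt ℝ ∞ f (up k z) → (F =ᶠ[𝓝 z] fun w => (f (up k w) : ℂ)) →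
    ∀ v, 4 * nq (hess F z) v = lv f (up k z) (up k v)) ∧
  ∀ f : (Hi n k → ℂ) → ℂ, DifferentiableAt ℝ f (up k z) → (F =ᶠ[𝓝 z] fun w => f (up k w)) →
    (∀ i : Fin n, i.val < k → dz i F z = 0 ∧ dzb i F z = 0) ∧
    ∀ a : Hi n k, 2 * dz a.1 F z =
      fderiv ℝ f (up k z) (Pi.single a 1) - I * fderiv ℝ f (up k z) (Pi.single a I)

/-- The Laplacian of a function of the last coordinates. -/
def St_LAPB : Prop := ∀ (n k : ℕ) (G T : Mat n) (ε c : ℝ) (f : (Hi n k → ℂ) → ℝ)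
  (y : Hi n k → ℂ), 0 < ε → G.PosDef → G * pr k = ε • pr k →
  (∀ v, 4 * nq T v = lv f y (up k v)) → LapGe (lb k G) f y c → c / 4 ≤ (G⁻¹ * T).trace.re

/-- A Kähler metric that is flat in the first directions does not depend on them. -/
def St_TI : Prop := ∀ (n k : ℕ) (U : Set (E n)) (G : E n → Mat n) (ε : ℝ), IsOpen U → Convex ℝ U →
  0 < ε → (∀ z ∈ U, HS32.SmM G z ∧ (G z).PosDef ∧ ClM G z ∧ G z * pr k = ε • pr k) →
  ∃ G' : (Hi n k → ℂ) → Matrix (Hi n k) (Hi n k) ℂ, ∀ z ∈ U, G' (up k z) = lb k (G z) ∧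
    SmM G' (up k z) ∧ (G' (up k z)).PosDef ∧ Kae G' (up k z) ∧
    ∀ v, lv (ld G') (up k z) (up k v) = 4 * nq (hess (HS32.ld G) z) v

/-- A holomorphic map that preserves the splitting and is unitary in the first directions. -/
def St_IN2 : Prop := ∀ (n k : ℕ) (ψ : E n → E n) (z : E n), HolN ψ z →
  (∀ᶠ w in 𝓝 z, HS32.jm ψ w * pr k = pr k * HS32.jm ψ w ∧
    (HS32.jm ψ w * pr k)ᴴ * (HS32.jm ψ w * pr k) = pr k) →
  ∃ (A : Vk n k ≃ₗᵢ[ℂ] Vk n k) (φ : (Hi n k → ℂ) → Hi n k → ℂ), ∀ᶠ w in 𝓝 z,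
    lo k (ψ w) = A (lo k w - lo k z) + lo k (ψ z) ∧ up k (ψ w) = φ (up k w) ∧
    DifferentiableAt ℂ φ (up k w) ∧ jm φ (up k w) = lb k (HS32.jm ψ w)

/-! ### Rows on the manifold -/

/-- Block structure in the product charts. -/
def St_BLK : Prop := ∀ (n : ℕ) (M : Mf n) [M.Cpt] (H P G : M.Fam (Mat n)) (k : ℕ) (u : M.X → ℝ),
  M.Pos H P k u G → M.Form (M.theta H u) ∧
  (∀ S : Set M.Ch, M.Sub S → (∀ e ∈ S, M.Prod H P k e) → ∀ T, M.Form T →
    M.AllOn S (fun e z => T e z * pr k = 0) → ∃ C : ℝ, 0 < C ∧ M.Le T (C • M.theta H u)) ∧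
  ∃ ε κ : ℝ, 0 < ε ∧ 0 < κ ∧ ∀ e, M.Prod H P k e → ∀ z ∈ e.target, G e z * pr k = ε • pr k ∧
    ∀ v, κ * qf (lb k (G e z)) (up k v) ≤ 4 * nq (M.theta H u e z) v

/-- Product charts with convex image. -/
def St_IN0 : Prop := ∀ (n : ℕ) (M : Mf n) (H P : M.Fam (Mat n)) (k : ℕ), M.Ten H → M.End P →
  M.PA H P k → ∀ x, ∃ e, M.Prod H P k e ∧ x ∈ e.source ∧ Convex ℝ e.target

/-- The split atlas. -/
def St_IN : Prop := ∀ (n : ℕ) (M : Mf n) [M.Cpt] (H P G : M.Fam (Mat n)) (k : ℕ) (u : M.X → ℝ),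
  M.Pos H P k u G → ∃ S, Nonempty (Lnk M H P G k S)

/-- Locality of the operators. -/
def St_LOC : Prop := ∀ (n : ℕ) (M : Mf n) [M.Cpt] (G : M.Fam (Mat n)), M.Met G →
  ∀ (x : M.X) (f : M.X → ℝ),
  (∀ g, f =ᶠ[𝓝 x] g → M.lap G f x = M.lap G g x ∧
    ∀ h, M.gr G f h x = M.gr G g h x ∧ M.gr G h f x = M.gr G h g x) ∧
  ((∀ᶠ w in 𝓝 x, SmAt M f w) → (∃ g, M.Sm g ∧ f =ᶠ[𝓝 x] g) ∧ ∀ e ∈ M.C, x ∈ e.source →
    M.lap G f x = ((G e (e x))⁻¹ * hess (M.lc f e) (e x)).trace.re)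

/-- The formula of Green for a closed form of degree one. -/
def St_NG0 : Prop := ∀ (n : ℕ) (M : Mf n) [M.Cpt] (G : M.Fam (Mat n)) (t : M.X → M.X → ℝ),
  M.Kae G → Pot M t → M.Sm (fun x => M.lap G (t x) x) ∧ M.Sm (fun x => M.gr G (t x) (t x) x) ∧
  ∀ p, M.Sm p → M.Sm (fun x => M.gr G (t x) p x) ∧
    ∫ x, p x * M.lap G (t x) x ∂M.mu G = -∫ x, M.gr G (t x) p x ∂M.mu G

/-- The integral argument. -/
def St_NG1 : Prop := ∀ (n : ℕ) (M : Mf n) [M.Cpt] (G : M.Fam (Mat n)) (t : M.X → M.X → ℝ)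
  (F : M.X → ℝ) (c : ℝ), M.Kae G → Pot M t → M.Sm F → (∀ x, 0 ≤ F x) → 0 < c →
  (∀ x, 0 < F x → c + M.lap G (t x) x ≤ M.lap G (fun y => Real.log (F y)) x) → ∀ x, F x = 0

/-- Sections of a flat real line bundle. -/
def St_NG2 : Prop := ∀ (n : ℕ) (M : Mf n) [M.Cpt] (G : M.Fam (Mat n)), M.Kae G →
  ∀ (c : ℝ) (O : M.X → Set M.X) (D : M.X → M.X → ℝ) (a : M.X → M.X → M.X → ℝ), 0 < c →
  (∀ x, IsOpen (O x) ∧ x ∈ O x) →
  (∀ x x' w, w ∈ O x → w ∈ O x' →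
    (∀ᶠ w' in 𝓝 w, a x x' w' = a x x' w) ∧ D x' w = Real.exp (a x x' w) * D x w) →
  (∀ x x' x'' w, w ∈ O x → w ∈ O x' → w ∈ O x'' → a x x'' w = a x x' w + a x' x'' w) →
  (∀ x, ∀ w ∈ O x, 0 ≤ D x w ∧ SmAt M (D x) w ∧
    (0 < D x w → c ≤ M.lap G (fun y => Real.log (D x y)) w)) →
  ∀ x, D x x = 0

/-- The hypothesis of the theorem on split atlases. -/
def St_NEG : Prop := ∀ (n : ℕ) (M : Mf n) [M.Cpt] (H P G : M.Fam (Mat n)) (k : ℕ) (u : M.X → ℝ)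
  (S : Split (Vk n k) (Hi n k) M.X), M.Pos H P k u G → Lnk M H P G k S → S.Neg

/-- The Jacobian determinants agree. -/
def St_JAC : Prop := ∀ (n : ℕ) (M : Mf n) (H P G : M.Fam (Mat n)) (k : ℕ)
  (S : Split (Vk n k) (Hi n k) M.X) (L : Lnk M H P G k S) (i j : S.I) (x : M.X),
  x ∈ (L.ch i).source → x ∈ (L.ch j).source → S.jac i j x = (M.J (L.ch j) (L.ch i) x).det

/-- The form attached to the `(0,1)` derivative of a section. -/
def St_DB : Prop := ∀ (n : ℕ) (M : Mf n) (H : M.Fam (Mat n)) (m : ℕ) (s : M.Fam ℂ), M.Met H →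
  M.Sec m s → ∃ T, M.Form T ∧ M.All fun e z =>
    (∀ i j, T e z i j = dzb i (s e) z * star (dzb j (s e) z) / (H e z).det ^ m) ∧
    ∀ v, nq (T e z) v = normSq (∑ i, star (v i) * dzb i (s e) z) / (H e z).det.re ^ m

/-- The section. -/
def St_OUT1 : Prop := ∀ (n : ℕ) (M : Mf n) [M.Cpt] (H P G : M.Fam (Mat n)) (k : ℕ) (u : M.X → ℝ)
  (S : Split (Vk n k) (Hi n k) M.X), M.Pos H P k u G → ∀ (L : Lnk M H P G k S) x₀ i₀ m σ O C lam,
  x₀ ∈ (S.e i₀).source → S.Sat x₀ i₀ m σ O C lam → ∀ q : ℕ, ∃ (s : M.Fam ℂ) (C₁ : ℝ),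
    M.Sec (m * q) s ∧ s (L.ch i₀) (L.ch i₀ x₀) ≠ 0 ∧
    (∀ z ∈ (L.ch i₀).target, (L.ch i₀).symm z ∈ O → DifferentiableAt ℂ (s (L.ch i₀)) z) ∧
    ∀ C', C₁ ≤ C' → M.DbLe H (m * q) s (Oᶜ.indicator fun _ => C') (M.theta H u)

/-- The weights. -/
def St_OUT2 : Prop := ∀ (n : ℕ) (M : Mf n) [M.Cpt] (H P G : M.Fam (Mat n)) (k : ℕ) (u : M.X → ℝ)
  (S : Split (Vk n k) (Hi n k) M.X), M.Pos H P k u G → ∀ (L : Lnk M H P G k S) x₀ i₀ m σ O C lam,
  S.Sat x₀ i₀ m σ O C lam → ∃ C₂ : ℝ, 0 ≤ C₂ ∧ ∀ δ, 0 < δ → δ ≤ 1 →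
    M.Sm (lam δ) ∧ M.Le 0 (C₂ • M.theta H u + M.hs (lam δ))

/-- Assembly. -/
theorem sec4_of (h1 : St_S4) (h2 : St_IN) (h3 : St_NEG) (h4 : St_OUT1) (h5 : St_OUT2) :
    HS.St_SEC4 := by
  intro n M _ H P G k u hn hp x₀
  obtain ⟨S, ⟨L⟩⟩ := h2 n M H P G k u hp
  obtain ⟨i₀, hi⟩ := S.cov x₀
  obtain ⟨m, σ, O, C, lam, hs⟩ := h1 _ _ _ S (h3 n M H P G k u S hp L) x₀ i₀ hi
  obtain ⟨C₂, hC₂, hw⟩ := h5 n M H P G k u S hp L x₀ i₀ m σ O C lam hs
  have hx : x₀ ∈ (L.ch i₀).source := L.src i₀ ▸ hi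
  have hz := (L.ch i₀).map_source hx
  have hc := (L.ch i₀).continuousAt_symm hz
  rw [ContinuousAt, (L.ch i₀).left_inv hx] at hc
  obtain ⟨r, hr, hb⟩ := Metric.eventually_nhds_iff_ball.1
    (((hc.eventually hs.upp).and (hc.eventually (hs.opn.mem_nhds hs.mem))).and
      ((L.ch i₀).open_target.mem_nhds hz))
  refine ⟨L.ch i₀, L.mem i₀, hx, r, C₂, hr, hC₂, fun z h => (hb z h).2, fun m₀ => ?_⟩
  obtain ⟨s, C₁, h6, h7, h8, h9⟩ := h4 n M H P G k u S hp L x₀ i₀ m σ O C lam hi hs m₀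
  refine ⟨m * m₀, Nat.le_mul_of_pos_left _ hs.mpos, s, Oᶜ, max (max C C₁) 0, h6, h7,
    fun z h => (h8 z (hb z h).2 (hb z h).1.2).differentiableWithinAt, hs.opn.isClosed_compl,
    le_max_right _ _, h9 _ (le_max_of_le_left (le_max_right _ _)), fun δ hδ => ?_⟩
  have hC : C ≤ max (max C C₁) 0 := le_max_of_le_left (le_max_left _ _)
  refine ⟨lam δ, (hw δ hδ.1 hδ.2).1, (hw δ hδ.1 hδ.2).2, fun z h => ?_, fun x h => ?_⟩
  · have h10 := (hb z h).1.1 δ hδ.1 hδ.2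
    rw [L.snd, L.snd, (L.ch i₀).right_inv (hb z h).2] at h10
    have h11 : nsq (up k z - up k (L.ch i₀ x₀)) ≤ SV.nsq (z - L.ch i₀ x₀) := nsq_up_le k (z - _)
    have h12 : 0 ≤ nsq (up k z - up k (L.ch i₀ x₀)) := Finset.sum_nonneg fun _ _ => normSq_nonneg _
    have := Real.log_le_log (by linarith [hδ.1]) (add_le_add_left h11 δ)
    linarith
  · linarith [hs.low δ hδ.1 hδ.2 x h]

end Pool.Agent.Lib.HS95
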