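import Pool.Agent.Lib.HS95.Defs

/-! Project hs9, section 4 (the leaves are compact): blueprint. -/

open scoped Topology ContDiff ComplexOrder Matrix
open Set Filter Metric Complex

noncomputable section

namespace Pool.Agent.Lib.HS95

/-! ### Manifold-free rows -/

/-- Buser's proof of the theorem of Bieberbach inside a set closed under commutators. -/
def St_BUS : Prop := ∀ (V Γ : Type) [NormedAddCommGroup V] [InnerProductSpace ℂ V] [Group Γ]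
  (A : Γ →* (V ≃ₗᵢ[ℂ] V)) (b : Γ → V) (S : Set Γ), (∀ γ δ, b (γ * δ) = b γ + A γ (b δ)) →
  (∀ α ∈ S, ∀ β ∈ S, α * β * α⁻¹ * β⁻¹ ∈ S) → (∀ R : ℝ, {γ | γ ∈ S ∧ ‖b γ‖ ≤ R}.Finite) →
  (∀ ε > 0, ∃ R : ℝ, ∀ v, ∃ γ ∈ S, (∀ u, ‖A γ u - u‖ ≤ ε * ‖u‖) ∧ ‖b γ - v‖ ≤ R) →
  ∀ γ ∈ S, (∀ u, ‖A γ u - u‖ ≤ 1 / 4 * ‖u‖) → A γ = 1

/-- An isometry is controlled by its 1-jet. -/
def St_ODE : Prop := ∀ (ι : Type) [Fintype ι] [DecidableEq ι] (G : (ι → ℂ) → Matrix ι ι ℂ)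
  (z : ι → ℂ) (R L : ℝ), (∀ w ∈ closedBall z R, SmM G w ∧ (G w).PosDef) → ∃ K : ℝ, 0 ≤ K ∧
  ∀ (r : ℝ) (φ : (ι → ℂ) → ι → ℂ), r ≤ R →
    (∀ w ∈ ball z r, IsoAt G G φ w ∧ φ w ∈ closedBall z R ∧ ‖fderiv ℂ φ w‖ ≤ L) →
    ∀ w₀ ∈ ball z r, ∀ w ∈ ball z r,
      ‖φ w - w‖ ≤ K * (‖φ w₀ - w₀‖ + ‖fderiv ℂ φ w₀ - ContinuousLinearMap.id ℂ (ι → ℂ)‖)

/-- First derivative of the logarithm of the determinant. -/
def St_LD1 : Prop := ∀ (ι κ : Type) [Fintype ι] [DecidableEq ι] [Fintype κ] [DecidableEq κ]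
  (M : (ι → ℂ) → Matrix κ κ ℂ) (z : ι → ℂ), SmM M z → (∀ᶠ w in 𝓝 z, (M w).PosDef) →
  ContDiffAt ℝ ∞ (ld M) z ∧ ∀ v, fderiv ℝ (ld M) z v = ((M z)⁻¹ * dM M z v).trace.re

/-- Levi form of the logarithm of the determinant. -/
def St_LD2 : Prop := ∀ (ι κ : Type) [Fintype ι] [DecidableEq ι] [Fintype κ] [DecidableEq κ]
  (M : (ι → ℂ) → Matrix κ κ ℂ) (z : ι → ℂ), (∀ᶠ w in 𝓝 z, SmM M w ∧ (M w).PosDef) →
  ∀ v, lv (ld M) z v = ((M z)⁻¹ * kM M z v).trace.re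

/-- Symmetry of the curvature of a Kähler metric. -/
def St_KSY : Prop := ∀ (ι : Type) [Fintype ι] [DecidableEq ι] (G : (ι → ℂ) → Matrix ι ι ℂ)
  (z : ι → ℂ), (∀ᶠ w in 𝓝 z, SmM G w ∧ (G w).PosDef ∧ Kae G w) →
  ∀ u v, star u ⬝ᵥ kM G z v *ᵥ u = star v ⬝ᵥ kM G z u *ᵥ v

/-- Curvature decreases in holomorphic subbundles. -/
def St_GRM : Prop := ∀ (ι κ : Type) [Fintype ι] [DecidableEq ι] [Fintype κ] [DecidableEq κ]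
  (G : (ι → ℂ) → Matrix ι ι ℂ) (Ξ : (ι → ℂ) → Matrix ι κ ℂ) (z : ι → ℂ),
  (∀ᶠ w in 𝓝 z, SmM G w ∧ (G w).PosDef ∧ ∀ a b, DifferentiableAt ℂ (fun x => Ξ x a b) w) →
  ((Ξ z)ᴴ * G z * Ξ z).PosDef → ∀ v,
  (((Ξ z)ᴴ * G z * Ξ z)⁻¹ * ((Ξ z)ᴴ * kM G z v * Ξ z)).trace.re ≤
    (((Ξ z)ᴴ * G z * Ξ z)⁻¹ * kM (fun x => (Ξ x)ᴴ * G x * Ξ x) z v).trace.re

/-- The logarithm of the Gram determinant of holomorphic fields is strictly subharmonic. -/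
def St_SUBC : Prop := ∀ (ι κ : Type) [Fintype ι] [DecidableEq ι] [Fintype κ] [DecidableEq κ]
  (k : ℝ) (G : (ι → ℂ) → Matrix ι ι ℂ) (Ξ : (ι → ℂ) → Matrix ι κ ℂ) (z : ι → ℂ),
  (∀ᶠ w in 𝓝 z, Met k G w ∧ ∀ a b, DifferentiableAt ℂ (fun x => Ξ x a b) w) →
  SmM (fun x => (Ξ x)ᴴ * G x * Ξ x) z ∧ 0 ≤ ((Ξ z)ᴴ * G z * Ξ z).det.re ∧
  (LinearIndependent ℂ (fun b a => Ξ z a b) → 0 < ((Ξ z)ᴴ * G z * Ξ z).det.re) ∧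
  (0 < ((Ξ z)ᴴ * G z * Ξ z).det.re →
    LapGe (G z) (ld fun x => (Ξ x)ᴴ * G x * Ξ x) z (k * Fintype.card κ))

/-- Commuting holomorphic Killing fields have real products for the Ricci form. -/
def St_TR : Prop := ∀ (ι : Type) [Fintype ι] [DecidableEq ι] (G : (ι → ℂ) → Matrix ι ι ℂ)
  (ξ η : (ι → ℂ) → ι → ℂ) (z : ι → ℂ),
  (∀ᶠ w in 𝓝 z, SmM G w ∧ (G w).PosDef ∧ DifferentiableAt ℂ ξ w ∧ DifferentiableAt ℂ η w ∧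
    Kil G ξ w ∧ Kil G η w ∧ fderiv ℂ ξ w (η w) = fderiv ℂ η w (ξ w)) →
  d2 (ld G) z (I • η z) (ξ z) = d2 (ld G) z (I • ξ z) (η z)

/-- Cut-off and logarithmic pole. -/
def St_POL : Prop := ∀ (ι : Type) [Fintype ι] [DecidableEq ι] (z₀ : ι → ℂ) (r : ℝ), 0 < r →
  ∃ (χ : (ι → ℂ) → ℝ) (L : ℝ), 0 ≤ L ∧ ContDiff ℝ ∞ χ ∧ (∀ z, 0 ≤ χ z ∧ χ z ≤ 1) ∧
    (∀ z ∈ ball z₀ r, χ z = 1) ∧ (∀ z ∉ closedBall z₀ (2 * r), χ z = 0) ∧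
    ∀ δ, 0 < δ → δ ≤ 1 → ContDiff ℝ ∞ (fun z => χ z * Real.log (nsq (z - z₀) + δ)) ∧
      ∀ z v, -(L * ‖v‖ ^ 2) ≤ lv (fun z => χ z * Real.log (nsq (z - z₀) + δ)) z v

/-- The Levi form under a holomorphic map. -/
def St_LVC : Prop := ∀ (ι : Type) [Fintype ι] [DecidableEq ι] (u : (ι → ℂ) → ℝ)
  (φ : (ι → ℂ) → ι → ℂ) (z v : ι → ℂ), (∀ᶠ w in 𝓝 z, DifferentiableAt ℂ φ w) →
  ContDiffAt ℝ 2 u (φ z) → lv (fun w => u (φ w)) z v = lv u (φ z) (fderiv ℂ φ z v)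

/-! ### Isometries of the transversal -/

/-- An isometry that sends one point near `z` close to `p` is under control on a fixed ball. -/
def St_J0 : Prop := ∀ (ι : Type) [Fintype ι] [DecidableEq ι] (g : Geo ι) (j j' : g.J),
  ∀ z ∈ (g.c j).target, ∀ p ∈ (g.c j').target, ∀ R > 0, ∃ r > 0, ∃ L ≥ 0, r ≤ R ∧
  closedBall z r ⊆ (g.c j).target ∧ closedBall p r ⊆ (g.c j').target ∧ ∀ f, g.Iso f →
    ∀ w₀ ∈ ball z r, f ((g.c j).symm w₀) ∈ (g.c j').source → g.T f j j' w₀ ∈ ball p r →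
    (∀ w ∈ ball z r, f ((g.c j).symm w) ∈ (g.c j').source ∧ g.T f j j' w ∈ ball p R ∧
      ‖fderiv ℂ (g.T f j j') w‖ ≤ L) ∧
    ∀ w ∈ ball z r, ∀ w' ∈ ball z r, ‖g.T f j j' w - g.T f j j' w'‖ ≤ L * ‖w - w'‖

/-- From a small ball to a fixed ball. -/
def St_TB : Prop := ∀ (ι : Type) [Fintype ι] [DecidableEq ι] (g : Geo ι) (j : g.J),
  ∀ z ∈ (g.c j).target, ∃ R > 0, closedBall z R ⊆ (g.c j).target ∧ ∀ ρ > 0, ∃ C ≥ 0, ∃ d > 0,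
    ∀ f, g.Iso f → ∀ w₀ ε, ball w₀ ρ ⊆ ball z R → 0 ≤ ε → ε ≤ d → g.Near f j w₀ ρ ε →
      g.Near f j z R (C * ε)

/-- From one ball to a neighbourhood of every point. -/
def St_PROP : Prop := ∀ (ι : Type) [Fintype ι] [DecidableEq ι] (g : Geo ι) [PreconnectedSpace g.Y]
  (j₀ : g.J) (z₀ : ι → ℂ) (r₀ : ℝ), 0 < r₀ → ball z₀ r₀ ⊆ (g.c j₀).target →
  ∀ j, ∀ z ∈ (g.c j).target, ∃ ρ > 0, ∃ C ≥ 0, ∃ d > 0, ball z ρ ⊆ (g.c j).target ∧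
    ∀ f, g.Iso f → ∀ ε, 0 ≤ ε → ε ≤ d → g.Near f j₀ z₀ r₀ ε → g.Near f j z ρ (C * ε)

/-- The commutator of two small elements is small. -/
def St_COM : Prop := ∀ (ι : Type) [Fintype ι] [DecidableEq ι] (g : Geo ι) (a : Act g) (j : g.J),
  ∀ z ∈ (g.c j).target, ∃ r₁ > 0, closedBall z r₁ ⊆ (g.c j).target ∧ ∀ r, 0 < r → r ≤ r₁ →
    ∃ d₁ > 0, ∀ d, 0 ≤ d → d ≤ d₁ → ∀ α β : a.Γ, g.Near (a.f α) j z r d → g.Near (a.f β) j z r d →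
      g.Near (a.f (α * β * α⁻¹ * β⁻¹)) j z r d

/-- Small elements are relatively dense. -/
def St_DENS : Prop := ∀ (V ι : Type) [NormedAddCommGroup V] [InnerProductSpace ℂ V]
  [FiniteDimensional ℂ V] [Fintype ι] [DecidableEq ι] (g : Geo ι) (T : Tr V g), T.Coc →
  ∀ j, ∀ z ∈ (g.c j).target, ∃ r₁ > 0, ∀ r, r ≤ r₁ → ∀ ε > 0, ∃ R : ℝ, ∀ v, ∃ γ : T.Γ,
    g.Near (T.toAct.f γ) j z r ε ∧ (∀ u, ‖T.A γ u - u‖ ≤ ε * ‖u‖) ∧ ‖T.b γ - v‖ ≤ R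

/-! ### Limit fields -/

/-- Existence of a non-zero limit field. -/
def St_LIM1 : Prop := ∀ (ι : Type) [Fintype ι] [DecidableEq ι] (g : Geo ι) [PreconnectedSpace g.Y]
  (a : Act g) (P : a.Γ → Prop) (j : g.J) (z : ι → ℂ) (r : ℝ), 0 < r →
  closedBall z r ⊆ (g.c j).target →
  (∀ ε > 0, ∃ γ, P γ ∧ g.Near (a.f γ) j z r ε ∧ ∃ y : g.Y, γ • y ≠ y) → ∃ ξ, ξ ≠ 0 ∧ a.Gen P ξ

/-- Limit fields are holomorphic Killing fields; they commute if the group elements do. -/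
def St_LIM2 : Prop := ∀ (ι : Type) [Fintype ι] [DecidableEq ι] (g : Geo ι) (a : Act g)
  (P : a.Γ → Prop) (ξ : g.Y → ι → ℂ), a.Gen P ξ →
  g.Hol ξ ∧ (∀ j, ∀ z ∈ (g.c j).target, Kil (g.G j) (g.cmp ξ j) z) ∧
  ((∀ γ δ, P γ → P δ → γ * δ = δ * γ) → ∀ η, a.Gen P η → ∀ j, ∀ z ∈ (g.c j).target,
    fderiv ℂ (g.cmp ξ j) z (g.cmp η j z) = fderiv ℂ (g.cmp η j) z (g.cmp ξ j z))

/-- The set of limit fields is invariant. -/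
def St_LIM3 : Prop := ∀ (ι : Type) [Fintype ι] [DecidableEq ι] (g : Geo ι) (a : Act g)
  (P : a.Γ → Prop) (ξ : g.Y → ι → ℂ), (∀ δ γ, P γ → P (δ * γ * δ⁻¹)) → a.Gen P ξ →
  ∀ δ, a.Gen P (a.push δ ξ)

/-- A totally real space of holomorphic fields is finite dimensional. -/
def St_FD : Prop := ∀ (ι : Type) [Fintype ι] [DecidableEq ι] (g : Geo ι) [ConnectedSpace g.Y]
  (𝔞 : Submodule ℝ (g.Y → ι → ℂ)), (∀ ξ ∈ 𝔞, g.Hol ξ) →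
  (∀ ξ ∈ 𝔞, ∀ η ∈ 𝔞, ∀ y, ξ y + I • η y = 0 → η y = 0) →
  ∃ (ρ : ℕ) (ξ : Fin ρ → g.Y → ι → ℂ), (∀ s, ξ s ∈ 𝔞) ∧
    (∀ η ∈ 𝔞, ∃ c : Fin ρ → ℝ, η = ∑ s, c s • ξ s) ∧ ∃ y, LinearIndependent ℂ fun s => ξ s y

/-- The Gram determinant. -/
def St_DET : Prop := ∀ (ι : Type) [Fintype ι] [DecidableEq ι] (g : Geo ι) (a : Act g) (ρ : ℕ)
  (ξ : Fin ρ → g.Y → ι → ℂ), 0 < ρ → (∀ s, g.Hol (ξ s)) →
  (∀ γ s, ∃ c : Fin ρ → ℝ, a.push γ (ξ s) = ∑ t, c t • ξ t) →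
  (∃ y, LinearIndependent ℂ fun s => ξ s y) → a.Bad

/-- Commuting invariant limit fields give a bad function. -/
def St_ALG : Prop := ∀ (ι : Type) [Fintype ι] [DecidableEq ι] (g : Geo ι) [ConnectedSpace g.Y]
  (a : Act g) (P : a.Γ → Prop), (∀ γ δ, P γ → P δ → γ * δ = δ * γ) →
  (∀ δ γ, P γ → P (δ * γ * δ⁻¹)) → (∃ ξ, ξ ≠ 0 ∧ a.Gen P ξ) → a.Bad

/-- The lattice of translations. -/
def St_LAT : Prop := ∀ (V ι : Type) [NormedAddCommGroup V] [InnerProductSpace ℂ V]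
  [FiniteDimensional ℂ V] [Fintype ι] [DecidableEq ι] (g : Geo ι) [ConnectedSpace g.Y]
  (T : Tr V g), T.Prp → T.Coc → ¬ T.toAct.Bad → T.Lat

/-! ### The orbifold quotient -/

/-- The effective quotient acts properly. -/
def St_ORBQ : Prop := ∀ (V ι : Type) [NormedAddCommGroup V] [InnerProductSpace ℂ V]
  [FiniteDimensional ℂ V] [Fintype ι] [DecidableEq ι] (g : Geo ι) (T : Tr V g), T.Prp → T.Lat →
  ∃ (a : Act g) (χ : a.Γ →* ℂ), a.PD ∧ ∀ γ : T.Γ, ∃ κ : a.Γ, χ κ = T.chi γ ∧ ∀ y : g.Y, κ • y = γ • y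

/-- Neighbourhood of an orbit. -/
def St_ORBW : Prop := ∀ (ι : Type) [Fintype ι] [DecidableEq ι] (g : Geo ι) (a : Act g), a.PD →
  ∀ y₀ j₀, y₀ ∈ (g.c j₀).source → ∃ r r₂ O, a.Nb y₀ j₀ r r₂ O

/-- Sums over the group of functions with compact support in a chart. -/
def St_SUM : Prop := ∀ (ι : Type) [Fintype ι] [DecidableEq ι] (g : Geo ι) (a : Act g), a.PD →
  ∀ (j₀ : g.J) (K : Set (ι → ℂ)), IsCompact K → K ⊆ (g.c j₀).target →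
  ∀ y : g.Y, ∃ s : Finset a.Γ,
    (∀ γ ∈ s, γ • y ∈ (g.c j₀).source ∧ g.c j₀ (γ • y) ∈ K) ∧
    ∀ᶠ y' in 𝓝 y, (∀ γ ∈ s, γ • y' ∈ (g.c j₀).source) ∧
      ∀ γ ∉ s, γ • y' ∈ (g.c j₀).source → g.c j₀ (γ • y') ∉ K

/-- The invariant section. -/
def St_ORBS : Prop := ∀ (ι : Type) [Fintype ι] [DecidableEq ι] (g : Geo ι) (a : Act g)
  (χ : a.Γ →* ℂ), a.PD → ∀ y₀ j₀ r r₂ O, a.Nb y₀ j₀ r r₂ O → ∃ m σ, a.SatS χ y₀ j₀ O m σ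

/-- The invariant weights. -/
def St_ORBL : Prop := ∀ (ι : Type) [Fintype ι] [DecidableEq ι] (g : Geo ι) (a : Act g), a.PD →
  ∀ y₀ j₀ r r₂ O, a.Nb y₀ j₀ r r₂ O → ∃ C lam, a.SatL y₀ j₀ O C lam

/-! ### The covering -/

/-- Change of chart and uniqueness for leaves. -/
def St_LFU : Prop := ∀ (V ι X : Type) [NormedAddCommGroup V] [InnerProductSpace ℂ V] [Fintype ι]
  [DecidableEq ι] [TopologicalSpace X] [T2Space X] (S : Split V ι X),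
  (∀ ℓ i A v j, S.Fr ℓ i A v → ℓ v ∈ (S.e j).source → ∃ B, S.Fr ℓ j B v) ∧
  (∀ ℓ i A B v, S.Fr ℓ i A v → S.Fr ℓ i B v → A = B) ∧
  (∀ ℓ i A v, S.Fr ℓ i A v → ContinuousAt ℓ v ∧ ∀ᶠ w in 𝓝 v, S.Fr ℓ i A w) ∧
  (∀ ℓ ℓ' i A v, S.Fr ℓ i A v → S.Fr ℓ' i A v → ℓ v = ℓ' v → ℓ =ᶠ[𝓝 v] ℓ') ∧
  ∀ ℓ ℓ' (U : Set V) v, IsOpen U → IsPreconnected U → S.Lf ℓ U → S.Lf ℓ' U → v ∈ U →
    ℓ =ᶠ[𝓝 v] ℓ' → EqOn ℓ ℓ' U

/-- Existence of leaves. -/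
def St_LFE : Prop := ∀ (V ι X : Type) [NormedAddCommGroup V] [InnerProductSpace ℂ V] [Fintype ι]
  [DecidableEq ι] [TopologicalSpace X] [T2Space X] [CompactSpace X] (S : Split V ι X) (i : S.I)
  (x : X) (A : V ≃ₗᵢ[ℂ] V) (v : V), x ∈ (S.e i).source →
  ∃ ℓ, S.Lf ℓ univ ∧ ℓ v = x ∧ S.Fr ℓ i A v

/-- Holonomy. -/
def St_HOL : Prop := ∀ (V ι X : Type) [NormedAddCommGroup V] [InnerProductSpace ℂ V] [Fintype ι]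
  [DecidableEq ι] [TopologicalSpace X] [T2Space X] (S : Split V ι X) (L : (ι → ℂ) → V → X)
  (i : S.I) (A : V ≃ₗᵢ[ℂ] V) (t₀ v₀ : V) (z₀ : ι → ℂ), (t₀, z₀) ∈ (S.e i).target →
  (∀ z, (t₀, z) ∈ (S.e i).target →
    S.Lf (L z) univ ∧ L z v₀ = (S.e i).symm (t₀, z) ∧ S.Fr (L z) i A v₀) →
  ∀ v i' A', S.Fr (L z₀) i' A' v → ∃ φ, (∀ᶠ z in 𝓝 z₀, IsoAt (S.G i) (S.G i') φ z) ∧
    ∀ᶠ p : (ι → ℂ) × V in 𝓝 (z₀, v), L p.1 p.2 ∈ (S.e i').source ∧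
      S.e i' (L p.1 p.2) = (A' (p.2 - v) + (S.e i' (L z₀ v)).1, φ p.1)

/-- The space of parametrized leaves. -/
def St_TR0 : Prop := ∀ (V ι X : Type) [NormedAddCommGroup V] [InnerProductSpace ℂ V] [Fintype ι]
  [DecidableEq ι] [TopologicalSpace X] [T2Space X] [CompactSpace X] [Nonempty X]
  (S : Split V ι X), ∃ (g : Geo ι) (T : Tr V g), Nonempty (Dev S T)

/-- Passage to a component. -/
def St_COMP : Prop := ∀ (V ι X : Type) [NormedAddCommGroup V] [InnerProductSpace ℂ V] [Fintype ι]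
  [DecidableEq ι] [TopologicalSpace X] [ConnectedSpace X] (S : Split V ι X) (g : Geo ι)
  (T : Tr V g), Dev S T → ∃ (g' : Geo ι) (T' : Tr V g'), ConnectedSpace g'.Y ∧ Nonempty (Dev S T')

/-- The action is free, local sections differ by a constant element, the action is proper and
cocompact. -/
def St_PC : Prop := ∀ (V ι X : Type) [NormedAddCommGroup V] [InnerProductSpace ℂ V]
  [FiniteDimensional ℂ V] [Fintype ι] [DecidableEq ι] [TopologicalSpace X] [T2Space X]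
  [CompactSpace X] (S : Split V ι X) (g : Geo ι) (T : Tr V g) (D : Dev S T),
  (∀ γ δ p, T.mv γ p = T.mv δ p → γ = δ) ∧
  (∀ (s s' : X → V × g.Y) (x : X) (γ : T.Γ), ContinuousAt s x → ContinuousAt s' x →
    (∀ᶠ x' in 𝓝 x, D.q (s x') = x' ∧ D.q (s' x') = x') → s' x = T.mv γ (s x) →
    ∀ᶠ x' in 𝓝 x, s' x' = T.mv γ (s x')) ∧ T.Prp ∧ T.Coc

/-- There is no bad function. -/
def St_NOD : Prop := ∀ (V ι X : Type) [NormedAddCommGroup V] [InnerProductSpace ℂ V]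
  [FiniteDimensional ℂ V] [Fintype ι] [DecidableEq ι] [TopologicalSpace X] [T2Space X]
  [CompactSpace X] (S : Split V ι X) (g : Geo ι) (T : Tr V g), Dev S T → S.Neg → ¬ T.toAct.Bad

/-- Descent. -/
def St_DESC : Prop := ∀ (V ι X : Type) [NormedAddCommGroup V] [InnerProductSpace ℂ V]
  [FiniteDimensional ℂ V] [Fintype ι] [DecidableEq ι] [TopologicalSpace X] [T2Space X]
  [CompactSpace X] (S : Split V ι X) (g : Geo ι) (T : Tr V g), Dev S T →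
  (∀ y₀ j₀, y₀ ∈ (g.c j₀).source → ∃ O m σ C lam, IsOpen O ∧ y₀ ∈ O ∧
    (∀ γ : T.Γ, ∀ y ∈ O, γ • y ∈ O) ∧ T.toAct.SatS T.chi y₀ j₀ O m σ ∧
    T.toAct.SatL y₀ j₀ O C lam) →
  ∀ x₀ i₀, x₀ ∈ (S.e i₀).source → ∃ m σ O C lam, S.Sat x₀ i₀ m σ O C lam

/-- Section 4. -/
def St_S4 : Prop := ∀ (V ι X : Type) [NormedAddCommGroup V] [InnerProductSpace ℂ V]
  [FiniteDimensional ℂ V] [Fintype ι] [DecidableEq ι] [TopologicalSpace X] [T2Space X]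
  [CompactSpace X] [ConnectedSpace X] (S : Split V ι X), S.Neg →
  ∀ x₀ i₀, x₀ ∈ (S.e i₀).source → ∃ m σ O C lam, S.Sat x₀ i₀ m σ O C lam

/-- Assembly. -/
theorem s4_of (h1 : St_TR0) (h2 : St_COMP) (h3 : St_PC) (h4 : St_NOD) (h5 : St_LAT)
    (h6 : St_ORBQ) (h7 : St_ORBW) (h8 : St_ORBS) (h9 : St_ORBL) (h10 : St_DESC) : St_S4 := by
  intro V ι X _ _ _ _ _ _ _ _ _ S hN
  obtain ⟨g0, T0, ⟨D0⟩⟩ := h1 V ι X S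
  obtain ⟨g, T, hc, ⟨D⟩⟩ := h2 V ι X S g0 T0 D0
  obtain ⟨-, -, hp, hco⟩ := h3 V ι X S g T D
  have hl := h5 V ι g T hp hco (h4 V ι X S g T D hN)
  obtain ⟨a, χ, hpd, hq⟩ := h6 V ι g T hp hl
  refine h10 V ι X S g T D fun y₀ j₀ hy => ?_
  obtain ⟨r, r₂, O, hO⟩ := h7 ι g a hpd y₀ j₀ hy
  obtain ⟨m, σ, hσ⟩ := h8 ι g a χ hpd y₀ j₀ r r₂ O hO
  obtain ⟨C, lam, hl⟩ := h9 ι g a hpd y₀ j₀ r r₂ O hO
  refine ⟨O, m, σ, C, lam, hO.opn, hO.mem, fun γ y hy => ?_, ⟨hσ.mpos, hσ.ne, ?_, hσ.sm⟩,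
    ⟨fun δ γ y => ?_, hl.sm, hl.low, hl.upp⟩⟩
  · obtain ⟨κ, -, h⟩ := hq γ
    rw [← h]; exact hO.inv κ y hy
  · intro γ j j' y h1 h2
    obtain ⟨κ, hκ, h⟩ := hq γ
    have hf : T.toAct.f γ = a.f κ := funext fun y => (h y).symm
    rw [← hκ, hf, ← h]
    exact hσ.cmp κ j j' y h1 (by rw [h]; exact h2)
  · obtain ⟨κ, -, h⟩ := hq γ
    rw [← h]; exact hl.inv δ κ y

end Pool.Agent.Lib.HS95
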