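import Pool.Agent.Lib.SV.Hol85

/-! Project hs9, section 4 (the leaves are compact): definitions. -/

open scoped Topology ContDiff ComplexOrder Matrix
open Set Filter Metric Complex

set_option linter.unusedVariables false

noncomputable section

namespace Pool.Agent.Lib.HS95

/-! ### Euclidean level -/

section euc

variable {ι κ : Type} [Fintype ι] [DecidableEq ι] [Fintype κ] [DecidableEq κ]

/-- Square of the Euclidean norm. -/
def nsq (v : ι → ℂ) : ℝ := ∑ j, normSq (v j)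

/-- Jacobian matrix. -/
def jm (φ : (ι → ℂ) → ι → ℂ) (z : ι → ℂ) : Matrix ι ι ℂ :=
  Matrix.of fun a b => fderiv ℂ φ z (Pi.single b 1) a

/-- Value of a Hermitian matrix on a vector. -/
def qf (M : Matrix ι ι ℂ) (v : ι → ℂ) : ℝ := (star v ⬝ᵥ M *ᵥ v).re

/-- Second derivative. -/
def d2 {β : Type} [NormedAddCommGroup β] [NormedSpace ℝ β] (g : (ι → ℂ) → β) (z v w : ι → ℂ) : β :=
  fderiv ℝ (fun x => fderiv ℝ g x w) z v

/-- Four times the Levi form. -/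
def lv (g : (ι → ℂ) → ℝ) (z v : ι → ℂ) : ℝ := d2 g z v v + d2 g z (I • v) (I • v)

/-- Logarithm of the determinant. -/
def ld (M : (ι → ℂ) → Matrix κ κ ℂ) (z : ι → ℂ) : ℝ := Real.log (M z).det.re

/-- Smooth entries. -/
def SmM (M : (ι → ℂ) → Matrix κ κ ℂ) (z : ι → ℂ) : Prop :=
  ∀ a b, ContDiffAt ℝ ∞ (fun w => M w a b) z

/-- Real directional derivative of a matrix function. -/
def dM (M : (ι → ℂ) → Matrix κ κ ℂ) (z v : ι → ℂ) : Matrix κ κ ℂ :=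
  Matrix.of fun a b => fderiv ℝ (fun w => M w a b) z v

/-- Twice the `(1,0)` derivative. -/
def pM (M : (ι → ℂ) → Matrix κ κ ℂ) (z v : ι → ℂ) : Matrix κ κ ℂ :=
  dM M z v - I • dM M z (I • v)

/-- Four times the mixed second derivative. -/
def lM (M : (ι → ℂ) → Matrix κ κ ℂ) (z v : ι → ℂ) : Matrix κ κ ℂ :=
  Matrix.of fun a b => d2 (fun w => M w a b) z v v + d2 (fun w => M w a b) z (I • v) (I • v)

/-- Minus four times the curvature in the direction `v`. -/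
def kM (M : (ι → ℂ) → Matrix κ κ ℂ) (z v : ι → ℂ) : Matrix κ κ ℂ :=
  lM M z v - (pM M z v)ᴴ * (M z)⁻¹ * pM M z v

/-- The Kähler condition. -/
def Kae (G : (ι → ℂ) → Matrix ι ι ℂ) (z : ι → ℂ) : Prop := ∀ v w, pM G z v *ᵥ w = pM G z w *ᵥ v

/-- Kähler metric with Ricci curvature bounded above by a negative constant. -/
structure Met (k : ℝ) (G : (ι → ℂ) → Matrix ι ι ℂ) (z : ι → ℂ) : Prop where
  sm : SmM G z
  pos : (G z).PosDef
  kae : Kae G z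
  neg : ∀ v, k * qf (G z) v ≤ lv (ld G) z v

/-- Holomorphic isometry at a point. -/
structure IsoAt (G G' : (ι → ℂ) → Matrix ι ι ℂ) (φ : (ι → ℂ) → ι → ℂ) (z : ι → ℂ) : Prop where
  hol : DifferentiableAt ℂ φ z
  iso : (jm φ z)ᴴ * G' (φ z) * jm φ z = G z

/-- Four times the Laplacian of `f` for the metric `M` is at least `c`. -/
def LapGe (M : Matrix ι ι ℂ) (f : (ι → ℂ) → ℝ) (z : ι → ℂ) (c : ℝ) : Prop :=
  ∀ W : Matrix ι ι ℂ, Wᴴ * M * W = 1 → c ≤ ∑ a, lv f z (fun b => W b a)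

/-- The Killing equation. -/
def Kil (G : (ι → ℂ) → Matrix ι ι ℂ) (ξ : (ι → ℂ) → ι → ℂ) (z : ι → ℂ) : Prop :=
  (jm ξ z)ᴴ * G z + G z * jm ξ z + dM G z (ξ z) = 0

end euc

/-! ### Split atlases -/

/-- An atlas in which the metric is a product of a flat one and a negatively curved one. -/
structure Split (V ι X : Type) [NormedAddCommGroup V] [InnerProductSpace ℂ V] [Fintype ι]
    [DecidableEq ι] [TopologicalSpace X] where
  I : Type
  e : I → OpenPartialHomeomorph X (V × (ι → ℂ))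
  G : I → (ι → ℂ) → Matrix ι ι ℂ
  k : ℝ
  kpos : 0 < k
  cov : ∀ x, ∃ i, x ∈ (e i).source
  met : ∀ i, ∀ p ∈ (e i).target, Met k (G i) p.2
  tr : ∀ i j x, x ∈ (e i).source → x ∈ (e j).source →
    ∃ (A : V ≃ₗᵢ[ℂ] V) (φ : (ι → ℂ) → ι → ℂ),
      (∀ᶠ x' in 𝓝 x, e j x' = (A ((e i x').1 - (e i x).1) + (e j x).1, φ (e i x').2)) ∧
      ∀ᶠ z in 𝓝 (e i x).2, IsoAt (G i) (G j) φ z

namespace Split

variable {V ι X : Type} [NormedAddCommGroup V] [InnerProductSpace ℂ V] [Fintype ι]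
  [DecidableEq ι] [TopologicalSpace X] (S : Split V ι X)

/-- Near `x`, `u` is the function `f` of the second coordinate of the chart `i`. -/
def Bas {β : Type} (i : S.I) (x : X) (u : X → β) (f : (ι → ℂ) → β) : Prop :=
  ∀ᶠ x' in 𝓝 x, u x' = f (S.e i x').2

/-- Jacobian determinant of the change of charts. -/
def jac (i j : S.I) (x : X) : ℂ := (fderiv ℂ (S.e j ∘ (S.e i).symm) (S.e i x)).det

/-- There is no non-zero section of a flat real line bundle with strictly subharmonic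
logarithm. -/
def Neg : Prop := ∀ (c : ℝ) (O : X → Set X) (D : X → X → ℝ) (a : X → X → X → ℝ), 0 < c →
  (∀ x, IsOpen (O x) ∧ x ∈ O x) →
  (∀ x x' w, w ∈ O x → w ∈ O x' →
    (∀ᶠ w' in 𝓝 w, a x x' w' = a x x' w) ∧ D x' w = Real.exp (a x x' w) * D x w) →
  (∀ x x' x'' w, w ∈ O x → w ∈ O x' → w ∈ O x'' → a x x'' w = a x x' w + a x' x'' w) →
  (∀ x, ∀ w ∈ O x, 0 ≤ D x w ∧ ∃ i f, w ∈ (S.e i).source ∧ S.Bas i w (D x) f ∧
    ContDiffAt ℝ ∞ f (S.e i w).2 ∧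
    (0 < D x w → LapGe (S.G i (S.e i w).2) (fun z => Real.log (f z)) (S.e i w).2 c)) →
  ∀ x, D x x = 0

/-- A section and a family of weights, constant along the leaves, that peak at `x₀`. -/
structure Sat (x₀ : X) (i₀ : S.I) (m : ℕ) (σ : S.I → X → ℂ) (O : Set X) (C : ℝ)
    (lam : ℝ → X → ℝ) : Prop where
  mpos : 0 < m
  opn : IsOpen O
  mem : x₀ ∈ O
  ne : σ i₀ x₀ ≠ 0
  cmp : ∀ i j x, x ∈ (S.e i).source → x ∈ (S.e j).source → σ i x = σ j x * S.jac i j x ^ m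
  sms : ∀ i x, x ∈ (S.e i).source → ∃ f, S.Bas i x (σ i) f ∧ ContDiffAt ℝ ∞ f (S.e i x).2 ∧
    (x ∈ O → DifferentiableAt ℂ f (S.e i x).2)
  sml : ∀ δ, 0 < δ → δ ≤ 1 → ∀ i x, x ∈ (S.e i).source → ∃ f, S.Bas i x (lam δ) f ∧
    ContDiffAt ℝ ∞ f (S.e i x).2 ∧ ∀ v, -(C * qf (S.G i (S.e i x).2) v) ≤ lv f (S.e i x).2 v
  low : ∀ δ, 0 < δ → δ ≤ 1 → ∀ x ∉ O, -C ≤ lam δ x
  upp : ∀ᶠ x in 𝓝 x₀, ∀ δ, 0 < δ → δ ≤ 1 →
    lam δ x ≤ Real.log (nsq ((S.e i₀ x).2 - (S.e i₀ x₀).2) + δ) + C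

/-- Near `v`, the map `ℓ` is a parametrization of a leaf with frame `A` in the chart `i`. -/
def Fr (ℓ : V → X) (i : S.I) (A : V ≃ₗᵢ[ℂ] V) (v : V) : Prop :=
  ∀ᶠ w in 𝓝 v, ℓ w ∈ (S.e i).source ∧
    S.e i (ℓ w) = (A (w - v) + (S.e i (ℓ v)).1, (S.e i (ℓ v)).2)

/-- Isometric parametrization of a leaf. -/
def Lf (ℓ : V → X) (U : Set V) : Prop := ∀ v ∈ U, ∃ i A, S.Fr ℓ i A v

end Split

/-! ### The transversal -/

/-- A complex manifold with a Kähler metric of negative Ricci curvature. -/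
structure Geo (ι : Type) [Fintype ι] [DecidableEq ι] where
  Y : Type
  [tY : TopologicalSpace Y]
  [hY : T2Space Y]
  J : Type
  c : J → OpenPartialHomeomorph Y (ι → ℂ)
  G : J → (ι → ℂ) → Matrix ι ι ℂ
  k : ℝ
  kpos : 0 < k
  cov : ∀ y, ∃ j, y ∈ (c j).source
  met : ∀ j, ∀ z ∈ (c j).target, Met k (G j) z
  chg : ∀ j j' y, y ∈ (c j).source → y ∈ (c j').source →
    IsoAt (G j) (G j') (fun z => c j' ((c j).symm z)) (c j y)

attribute [instance] Geo.tY Geo.hY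

namespace Geo

variable {ι : Type} [Fintype ι] [DecidableEq ι] (g : Geo ι)

/-- A map read in charts. -/
def T (f : g.Y → g.Y) (j j' : g.J) (z : ι → ℂ) : ι → ℂ := g.c j' (f ((g.c j).symm z))

/-- Holomorphic isometry. -/
structure Iso (f : g.Y → g.Y) : Prop where
  cont : Continuous f
  loc : ∀ j j' y, y ∈ (g.c j).source → f y ∈ (g.c j').source →
    IsoAt (g.G j) (g.G j') (g.T f j j') (g.c j y)

/-- On the ball, `f` is `ε`-close to the identity. -/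
def Near (f : g.Y → g.Y) (j : g.J) (z : ι → ℂ) (r ε : ℝ) : Prop :=
  ∀ w ∈ ball z r, f ((g.c j).symm w) ∈ (g.c j).source ∧ ‖g.T f j j w - w‖ ≤ ε

/-- Preferred chart. -/
def pc (y : g.Y) : g.J := (g.cov y).choose

/-- Components in the chart `j` of a vector field given in the preferred charts. -/
def cmp (ξ : g.Y → ι → ℂ) (j : g.J) (z : ι → ℂ) : ι → ℂ :=
  fderiv ℂ (g.T id (g.pc ((g.c j).symm z)) j) (g.c (g.pc ((g.c j).symm z)) ((g.c j).symm z))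
    (ξ ((g.c j).symm z))

/-- Holomorphic vector field. -/
def Hol (ξ : g.Y → ι → ℂ) : Prop := ∀ j, ∀ z ∈ (g.c j).target, DifferentiableAt ℂ (g.cmp ξ j) z

open Classical in
/-- Extension by zero of a function on a chart. -/
def ext {β : Type} [Zero β] (j : g.J) (u : (ι → ℂ) → β) (y : g.Y) : β :=
  if y ∈ (g.c j).source then u (g.c j y) else 0

end Geo

/-- A group of holomorphic isometries. -/
structure Act {ι : Type} [Fintype ι] [DecidableEq ι] (g : Geo ι) where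
  Γ : Type
  [gΓ : Group Γ]
  [aΓ : MulAction Γ g.Y]
  iso : ∀ γ : Γ, g.Iso fun y => γ • y

attribute [instance] Act.gΓ Act.aΓ

namespace Act

variable {ι : Type} [Fintype ι] [DecidableEq ι] {g : Geo ι} (a : Act g)

/-- The map given by a group element. -/
abbrev f (γ : a.Γ) : g.Y → g.Y := fun y => γ • y

/-- Direct image of a vector field. -/
def push (γ : a.Γ) (ξ : g.Y → ι → ℂ) (y : g.Y) : ι → ℂ :=
  fderiv ℂ (g.T (a.f γ) (g.pc (γ⁻¹ • y)) (g.pc y)) (g.c (g.pc (γ⁻¹ • y)) (γ⁻¹ • y)) (ξ (γ⁻¹ • y))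

/-- `ξ` is a limit of rescaled displacements of elements that satisfy `P`. -/
def Gen (P : a.Γ → Prop) (ξ : g.Y → ι → ℂ) : Prop :=
  ∃ (l : Filter ℕ) (γ : ℕ → a.Γ) (r : ℕ → ℝ), l.NeBot ∧ (∀ m, P (γ m)) ∧ Tendsto r l atTop ∧
    ∀ j, ∀ z ∈ (g.c j).target,
      (∃ ρ > 0, ∃ C, ∀ᶠ m in l, ∀ w ∈ ball z ρ, γ m • (g.c j).symm w ∈ (g.c j).source ∧
        ‖r m • (g.T (a.f (γ m)) j j w - w)‖ ≤ C) ∧
      Tendsto (fun m => r m • (g.T (a.f (γ m)) j j z - z)) l (𝓝 (g.cmp ξ j z))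

/-- A non-zero semi-invariant function with strictly subharmonic logarithm. -/
def Bad : Prop := ∃ (D : g.Y → ℝ) (χ : a.Γ → ℝ) (c : ℝ), 0 < c ∧ (∀ γ δ, χ (γ * δ) = χ γ + χ δ) ∧
  (∀ γ y, D (γ • y) = Real.exp (χ γ) * D y) ∧ (∃ y, D y ≠ 0) ∧ (∀ y, 0 ≤ D y) ∧
  ∀ j, ∀ z ∈ (g.c j).target, ContDiffAt ℝ ∞ (fun w => D ((g.c j).symm w)) z ∧
    (0 < D ((g.c j).symm z) → LapGe (g.G j z) (fun w => Real.log (D ((g.c j).symm w))) z c)

/-- Properly discontinuous. -/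
def PD : Prop := ∀ K : Set g.Y, IsCompact K → {γ : a.Γ | ∃ y ∈ K, γ • y ∈ K}.Finite

/-- A neighbourhood of an orbit adapted to the ball of radius `r`. -/
structure Nb (y₀ : g.Y) (j₀ : g.J) (r r₂ : ℝ) (O : Set g.Y) : Prop where
  src : y₀ ∈ (g.c j₀).source
  rpos : 0 < r
  r2pos : 0 < r₂
  small : ∀ w ∈ closedBall (g.c j₀ y₀) (2 * r), nsq (w - g.c j₀ y₀) ≤ 1
  sub : closedBall (g.c j₀ y₀) (2 * r) ⊆ (g.c j₀).target
  stab : ∀ (γ : a.Γ) (y : g.Y), y ∈ (g.c j₀).source → g.c j₀ y ∈ closedBall (g.c j₀ y₀) (2 * r) →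
    γ • y ∈ (g.c j₀).source → g.c j₀ (γ • y) ∈ closedBall (g.c j₀ y₀) (2 * r) → γ • y₀ = y₀
  opn : IsOpen O
  mem : y₀ ∈ O
  inv : ∀ (γ : a.Γ), ∀ y ∈ O, γ • y ∈ O
  ins : ∀ y ∈ O, y ∈ (g.c j₀).source → g.c j₀ y ∈ closedBall (g.c j₀ y₀) (2 * r) →
    g.c j₀ y ∈ ball (g.c j₀ y₀) r
  out : ∀ y ∉ O, y ∈ (g.c j₀).source → r₂ ≤ ‖g.c j₀ y - g.c j₀ y₀‖

/-- An invariant section that is holomorphic on `O` and does not vanish at `y₀`. -/
structure SatS (χ : a.Γ → ℂ) (y₀ : g.Y) (j₀ : g.J) (O : Set g.Y) (m : ℕ) (σ : g.J → g.Y → ℂ) :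
    Prop where
  mpos : 0 < m
  ne : σ j₀ y₀ ≠ 0
  cmp : ∀ (γ : a.Γ) j j' y, y ∈ (g.c j).source → γ • y ∈ (g.c j').source →
    σ j y = σ j' (γ • y) * (χ γ * (fderiv ℂ (g.T (a.f γ) j j') (g.c j y)).det) ^ m
  sm : ∀ j, ∀ z ∈ (g.c j).target, ContDiffAt ℝ ∞ (fun w => σ j ((g.c j).symm w)) z ∧
    ((g.c j).symm z ∈ O → DifferentiableAt ℂ (fun w => σ j ((g.c j).symm w)) z)

/-- Invariant weights with a logarithmic pole along the orbit of `y₀`. -/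
structure SatL (y₀ : g.Y) (j₀ : g.J) (O : Set g.Y) (C : ℝ) (lam : ℝ → g.Y → ℝ) : Prop where
  inv : ∀ δ (γ : a.Γ) y, lam δ (γ • y) = lam δ y
  sm : ∀ δ, 0 < δ → δ ≤ 1 → ∀ j, ∀ z ∈ (g.c j).target,
    ContDiffAt ℝ ∞ (fun w => lam δ ((g.c j).symm w)) z ∧
    ∀ v, -(C * qf (g.G j z) v) ≤ lv (fun w => lam δ ((g.c j).symm w)) z v
  low : ∀ δ, 0 < δ → δ ≤ 1 → ∀ y ∉ O, -C ≤ lam δ y
  upp : ∀ᶠ y in 𝓝 y₀, ∀ δ, 0 < δ → δ ≤ 1 →
    lam δ y ≤ Real.log (nsq (g.c j₀ y - g.c j₀ y₀) + δ) + C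

end Act

/-- A group of isometries of the product of a flat space and the transversal. -/
structure Tr (V : Type) [NormedAddCommGroup V] [InnerProductSpace ℂ V] {ι : Type} [Fintype ι]
    [DecidableEq ι] (g : Geo ι) extends Act g where
  A : Γ →* (V ≃ₗᵢ[ℂ] V)
  b : Γ → V
  bmul : ∀ γ δ, b (γ * δ) = b γ + A γ (b δ)
  inj : ∀ γ, A γ = 1 → b γ = 0 → γ = 1

namespace Tr

variable {V : Type} [NormedAddCommGroup V] [InnerProductSpace ℂ V] {ι : Type} [Fintype ι]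
  [DecidableEq ι] {g : Geo ι} (T : Tr V g)

/-- The action on the product. -/
def mv (γ : T.Γ) (p : V × g.Y) : V × g.Y := (T.A γ p.1 + T.b γ, γ • p.2)

/-- Determinant of the linear part. -/
def chi (γ : T.Γ) : ℂ := LinearMap.det ((T.A γ).toLinearEquiv : V →ₗ[ℂ] V)

/-- The action on the product is proper. -/
def Prp : Prop := ∀ K : Set g.Y, IsCompact K → ∀ R : ℝ,
  {γ : T.Γ | ‖T.b γ‖ ≤ R ∧ ∃ y ∈ K, γ • y ∈ K}.Finite

/-- The action on the product is cocompact. -/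
def Coc : Prop := ∃ K : Set g.Y, IsCompact K ∧ ∃ R : ℝ, ∀ (v : V) (y : g.Y), ∃ γ : T.Γ,
  ‖T.b γ - v‖ ≤ R ∧ γ⁻¹ • y ∈ K

/-- The pure translations are relatively dense. -/
def Lat : Prop := ∃ R : ℝ, ∀ v : V, ∃ γ : T.Γ, T.A γ = 1 ∧ (∀ y : g.Y, γ • y = y) ∧ ‖T.b γ - v‖ ≤ R

end Tr

/-- The manifold is the quotient of the product. -/
structure Dev {V ι X : Type} [NormedAddCommGroup V] [InnerProductSpace ℂ V] [Fintype ι]
    [DecidableEq ι] [TopologicalSpace X] (S : Split V ι X) {g : Geo ι} (T : Tr V g) where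
  q : V × g.Y → X
  cont : Continuous q
  inv : ∀ γ p, q (T.mv γ p) = q p
  orb : ∀ p p', q p = q p' → ∃ γ, p' = T.mv γ p
  linj : ∀ p, ∃ O ∈ 𝓝 p, InjOn q O
  sec : ∀ i x, x ∈ (S.e i).source → ∃ (B : V ≃ₗᵢ[ℂ] V) (v : V) (j : g.J), g.G j = S.G i ∧
    (S.e i x).2 ∈ (g.c j).target ∧
    ∀ᶠ x' in 𝓝 x, q (B (S.e i x').1 + v, (g.c j).symm (S.e i x').2) = x'

end Pool.Agent.Lib.HS95
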