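import Mathlib

/-! Smooth limit of approximate solutions of a linear system `du = A u`. -/

open scoped Topology ENNReal NNReal ContDiff Convolution
open Set Filter Metric MeasureTheory

noncomputable section

namespace Pool.Agent.Lib.HS95.Lim

variable {V F : Type*} [NormedAddCommGroup V] [NormedSpace ℝ V] [FiniteDimensional ℝ V]
  [MeasurableSpace V] [BorelSpace V] {μ : Measure V} [μ.IsAddHaarMeasure]
  [NormedAddCommGroup F] [NormedSpace ℝ F]

/-- A bounded kernel of mass one with small support. -/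
structure Ker (μ : Measure V) (g : V → ℝ) (δ M : ℝ) : Prop where
  cont : Continuous g
  nn : ∀ t, 0 ≤ g t
  le : ∀ t, g t ≤ M
  supp : ∀ t, g t ≠ 0 → ‖t‖ < δ
  one : ∫ t, g t ∂μ = 1

theorem exists_ker {δ : ℝ} (hδ : 0 < δ) : ∃ (g : V → ℝ) (M : ℝ), Ker μ g δ M := by
  let b : ContDiffBump (0 : V) := ⟨δ / 2, δ, by positivity, by linarith⟩
  obtain ⟨M, hM⟩ := (b.hasCompactSupport_normed (μ := μ)).exists_bound_of_continuous
    b.continuous_normed
  refine ⟨b.normed μ, M, b.continuous_normed, b.nonneg_normed, fun t => (le_abs_self _).trans (hM t),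
    fun t ht => ?_, b.integral_normed⟩
  have : t ∈ Function.support (b.normed μ) := ht
  rwa [b.support_normed_eq, mem_ball_zero_iff] at this

/-- The mean value against the kernel. -/
def mol (μ : Measure V) (g : V → ℝ) (w : V → F) (z : V) : F := ∫ t, g t • w (z - t) ∂μ

variable {g : V → ℝ} {δ M : ℝ} {w : V → F}

omit [μ.IsAddHaarMeasure] [BorelSpace V] in
theorem Ker.cpt (h : Ker μ g δ M) : HasCompactSupport g :=
  HasCompactSupport.intro (isCompact_closedBall (0 : V) δ) fun t ht => by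
    by_contra h0
    exact ht (mem_closedBall_zero_iff.2 (h.supp t h0).le)

theorem Ker.int (h : Ker μ g δ M) {f : V → F} (hf : Continuous f) :
    Integrable (fun t => g t • f t) μ :=
  (h.cont.smul hf).integrable_of_hasCompactSupport h.cpt.smul_right

theorem Ker.lone (h : Ker μ g δ M) : ∫⁻ t, ENNReal.ofReal (g t) ∂μ = 1 := by
  rw [← ofReal_integral_eq_lintegral_ofReal (h.cont.integrable_of_hasCompactSupport h.cpt)
    (.of_forall h.nn), h.one, ENNReal.ofReal_one]

theorem Ker.bd (h : Ker μ g δ M) {C : ℝ} (hC : ∀ z, ‖w z‖ ≤ C) (z : V) : ‖mol μ g w z‖ ≤ C := by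
  have := norm_integral_le_of_norm_le (μ := μ) (f := fun t => g t • w (z - t))
    ((h.cont.integrable_of_hasCompactSupport h.cpt).mul_const C) (.of_forall fun t => by
      rw [norm_smul, Real.norm_of_nonneg (h.nn t)]
      exact mul_le_mul_of_nonneg_left (hC _) (h.nn t))
  rwa [integral_mul_const, h.one, one_mul] at this

theorem Ker.der [CompleteSpace F] (h : Ker μ g δ M) (hw : ContDiff ℝ 1 w)
    (hc : HasCompactSupport w) (z : V) :
    HasFDerivAt (mol μ g w) (mol μ g (fderiv ℝ w) z) z := by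
  have hi := (h.cont.integrable_of_hasCompactSupport (μ := μ) h.cpt).locallyIntegrable
  have h1 := hc.hasFDerivAt_convolution_right (ContinuousLinearMap.lsmul ℝ ℝ (E := F)) hi hw z
  have hD := hw.continuous_fderiv one_ne_zero
  refine h1.congr_fderiv (ContinuousLinearMap.ext fun v => ?_)
  rw [convolution_precompR_apply _ hi (hc.fderiv ℝ) hD, mol,
    ContinuousLinearMap.integral_apply (h.int (by fun_prop))]
  rfl

/-- The equation for the mean value. -/
theorem Ker.est [CompleteSpace F] (h : Ker μ g δ M) (hw : ContDiff ℝ 1 w) {C L r : ℝ} {c z : V}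
    {A : V → F →L[ℝ] V →L[ℝ] F} (hC : ∀ z, ‖w z‖ ≤ C) (hL : 0 ≤ L) (hδ : δ ≤ r)
    (hA : ∀ x ∈ ball c (2 * r), ∀ y ∈ ball c (2 * r), ‖A x - A y‖ ≤ L * ‖x - y‖)
    (hz : z ∈ closedBall c r) :
    ‖mol μ g (fderiv ℝ w) z - A z (mol μ g w z)‖ₑ ≤ ENNReal.ofReal M *
      ∫⁻ y in ball c (2 * r), ‖fderiv ℝ w y - A y (w y)‖ₑ ∂μ + ENNReal.ofReal (L * δ * C) := by
  have hD := hw.continuous_fderiv one_ne_zero
  have h0 := hw.continuous
  have i1 := h.int (f := fun t => w (z - t)) (by fun_prop)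
  have i2 := h.int (f := fun t => fderiv ℝ w (z - t)) (by fun_prop)
  rw [mol, mol, ← ContinuousLinearMap.integral_comp_comm _ i1,
    ← integral_sub i2 ((A z).integrable_comp i1)]
  refine (enorm_integral_le_lintegral_enorm _).trans ?_
  rw [← lintegral_const_mul' _ _ ENNReal.ofReal_ne_top, ← lintegral_indicator measurableSet_ball,
    ← lintegral_sub_left_eq_self _ z, ← one_mul (ENNReal.ofReal (L * δ * C)), ← h.lone,
    ← lintegral_mul_const' _ _ ENNReal.ofReal_ne_top, ← lintegral_sub_left_eq_self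
      (fun t => ENNReal.ofReal (g t) * _) z, ← lintegral_add_right _ (by
        have := h.cont.measurable
        fun_prop)]
  refine lintegral_mono fun y => ?_
  by_cases hg : g (z - y) = 0
  · simp only [hg, zero_smul, map_zero, sub_self]
    rw [← ofReal_norm, norm_zero, ENNReal.ofReal_zero]
    exact zero_le
  have h5 := h.supp _ hg
  have hy : y ∈ ball c (2 * r) := by
    rw [← dist_eq_norm, dist_comm] at h5
    rw [mem_closedBall] at hz
    rw [mem_ball]
    linarith [dist_triangle y z c]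
  have hz' : z ∈ ball c (2 * r) := by
    rw [mem_closedBall] at hz
    rw [mem_ball]
    linarith [norm_nonneg (z - y), dist_nonneg (x := z) (y := c)]
  have hM := (h.nn 0).trans (h.le 0)
  have hC0 := (norm_nonneg _).trans (hC 0)
  have hδ0 := (norm_nonneg _).trans h5.le
  rw [indicator_of_mem hy, sub_sub_cancel, ← ofReal_norm, ← ofReal_norm,
    ← ENNReal.ofReal_mul hM, ← ENNReal.ofReal_mul (h.nn _),
    ← ENNReal.ofReal_add (by positivity) (by have := h.nn (z - y); positivity), map_smul,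
    ← smul_sub, norm_smul, Real.norm_of_nonneg (h.nn _)]
  refine ENNReal.ofReal_le_ofReal ?_
  have e : fderiv ℝ w y - A z (w y) = (fderiv ℝ w y - A y (w y)) + (A y - A z) (w y) := by
    simp
  have a1 : ‖(A y - A z) (w y)‖ ≤ L * δ * C := by
    refine ((A y - A z).le_opNorm _).trans (mul_le_mul ((hA y hy z hz').trans ?_) (hC y)
      (norm_nonneg _) (by positivity))
    rw [norm_sub_rev]
    exact mul_le_mul_of_nonneg_left h5.le hL
  rw [e]
  refine (mul_le_mul_of_nonneg_left ((norm_add_le _ _).trans (add_le_add le_rfl a1))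
    (h.nn _)).trans ?_
  rw [mul_add]
  exact add_le_add (mul_le_mul_of_nonneg_right (h.le _) (norm_nonneg _)) le_rfl

/-- Translations in the mean. -/
theorem trans_est (hw : ContDiff ℝ 1 w) (t : V) :
    ∫⁻ z, ‖w z - w (z - t)‖ₑ ∂μ ≤ ‖t‖ₑ * ∫⁻ z, ‖fderiv ℝ w z‖ₑ ∂μ := by
  have hD := hw.continuous_fderiv one_ne_zero
  have h1 : ∀ z, ‖w z - w (z - t)‖ₑ ≤
      ∫⁻ s in Icc (0 : ℝ) 1, ‖t‖ₑ * ‖fderiv ℝ w (z - s • t)‖ₑ := fun z => by
    have hc : ContDiff ℝ 1 fun s : ℝ => w (z - s • t) := hw.comp (by fun_prop)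
    have := enorm_sub_le_lintegral_deriv_of_contDiffOn_Icc hc.contDiffOn (zero_le_one' ℝ)
    simp only [one_smul, zero_smul, sub_zero] at this
    rw [enorm_sub_rev]
    refine this.trans (lintegral_mono fun s => ?_)
    have h2 : HasDerivAt (fun s : ℝ => w (z - s • t)) (fderiv ℝ w (z - s • t) (-t)) s := by
      have h3 : HasDerivAt (fun s : ℝ => z - s • t) (-t) s := by
        simpa using ((hasDerivAt_id s).smul_const t).const_sub z
      exact ((hw.differentiable one_ne_zero) _).hasFDerivAt.comp_hasDerivAt s h3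
    rw [h2.deriv, mul_comm, ← enorm_neg t]
    exact ContinuousLinearMap.le_opENorm _ _
  refine (lintegral_mono h1).trans (le_of_eq ?_)
  rw [lintegral_lintegral_swap (Measurable.aemeasurable (Measurable.const_mul
    (Continuous.measurable (by fun_prop)) _))]
  simp only [lintegral_const_mul' _ _ enorm_ne_top,
    lintegral_sub_right_eq_self (fun z => ‖fderiv ℝ w z‖ₑ)]
  simp

theorem Ker.l1 [CompleteSpace F] (h : Ker μ g δ M) (hw : ContDiff ℝ 1 w) :
    ∫⁻ z, ‖w z - mol μ g w z‖ₑ ∂μ ≤ ENNReal.ofReal δ * ∫⁻ z, ‖fderiv ℝ w z‖ₑ ∂μ := by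
  have h0 := hw.continuous
  have hg := h.cont
  have h1 : ∀ z, ‖w z - mol μ g w z‖ₑ ≤
      ∫⁻ t, ENNReal.ofReal (g t) * ‖w z - w (z - t)‖ₑ ∂μ := fun z => by
    have e : w z = ∫ t, g t • w z ∂μ := by rw [integral_smul_const, h.one, one_smul]
    rw [mol]
    nth_rewrite 1 [e]
    rw [← integral_sub (h.int continuous_const) (h.int (by fun_prop))]
    refine (enorm_integral_le_lintegral_enorm _).trans (le_of_eq (lintegral_congr fun t => ?_))
    rw [← smul_sub, enorm_smul, Real.enorm_of_nonneg (h.nn t)]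
  refine (lintegral_mono h1).trans ?_
  have m1 : Measurable fun p : V × V => ENNReal.ofReal (g p.2) * ‖w p.1 - w (p.1 - p.2)‖ₑ :=
    Measurable.mul (hg.measurable.comp measurable_snd).ennreal_ofReal
      (Continuous.measurable (f := fun p : V × V => ‖w p.1 - w (p.1 - p.2)‖ₑ) (by fun_prop))
  rw [lintegral_lintegral_swap m1.aemeasurable,
    ← one_mul (ENNReal.ofReal δ * _), ← h.lone, ← lintegral_mul_const _ (by fun_prop)]
  refine lintegral_mono fun t => ?_
  rw [lintegral_const_mul' _ _ ENNReal.ofReal_ne_top]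
  by_cases ht : g t = 0
  · simp [ht]
  refine mul_le_mul_right ((trans_est hw t).trans (mul_le_mul_left ?_ _)) _
  rw [← ofReal_norm]
  exact ENNReal.ofReal_le_ofReal (h.supp t ht).le

omit [NormedSpace ℝ F] in
/-- Uniform convergence of an eventually equi-Lipschitz family. -/
theorem unif {J Y : Type*} [PseudoMetricSpace Y] {l : Filter J} [l.NeBot] {f : J → Y → F}
    {p : Y → F} {S : Set Y} {K : ℝ} (hS : IsCompact S) (hK : 0 ≤ K)
    (hl : ∀ᶠ j in l, ∀ x ∈ S, ∀ y ∈ S, ‖f j x - f j y‖ ≤ K * dist x y)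
    (hp : ∀ x ∈ S, Tendsto (fun j => f j x) l (𝓝 (p x))) : TendstoUniformlyOn f p l S := by
  have h1 : ∀ x ∈ S, ∀ y ∈ S, ‖p x - p y‖ ≤ K * dist x y := fun x hx y hy =>
    le_of_tendsto ((hp x hx).sub (hp y hy)).norm (hl.mono fun j hj => hj x hx y hy)
  refine Metric.tendstoUniformlyOn_iff.2 fun ε hε => ?_
  have he : 0 < ε / (2 * K + 1) := by positivity
  obtain ⟨T, hT, hf, hc⟩ := finite_cover_balls_of_compact hS he
  filter_upwards [hl, hf.eventually_all.2 fun x hx =>
    Metric.tendsto_nhds.1 (hp x (hT hx)) _ he] with j h2 h3 y hy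
  obtain ⟨x, hx, hxy⟩ := mem_iUnion₂.1 (hc hy)
  have a1 := h1 y hy x (hT hx)
  have a2 := h2 x (hT hx) y hy
  have a3 := h3 x hx
  rw [← dist_eq_norm] at a1 a2
  rw [dist_comm x y] at a2
  have a4 := mul_le_mul_of_nonneg_left (mem_ball.1 hxy).le hK
  have a5 : (2 * K + 1) * (ε / (2 * K + 1)) = ε := by field_simp
  linarith [dist_triangle4 (p y) (p x) (f j x) (f j y), dist_comm (p x) (f j x)]

omit [FiniteDimensional ℝ V] [MeasurableSpace V] [BorelSpace V] in
theorem smooth_of {P : V → F} {A : V → F →L[ℝ] V →L[ℝ] F} {U : Set V} (hU : IsOpen U)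
    (hA : ∀ z ∈ U, ContDiffAt ℝ ∞ A z) (hP : ∀ z ∈ U, HasFDerivAt P (A z (P z)) z) :
    ContDiffOn ℝ ∞ P U := by
  have hd : DifferentiableOn ℝ P U := fun z hz =>
    (hP z hz).differentiableAt.differentiableWithinAt
  refine contDiffOn_infty.2 fun m => ?_
  induction m with
  | zero => exact contDiffOn_zero.2 hd.continuousOn
  | succ m ih =>
    rw [Nat.cast_succ, contDiffOn_succ_iff_fderiv_of_isOpen hU]
    refine ⟨hd, by simp, ContDiffOn.congr (ContDiffOn.clm_apply (fun z hz =>
      ((hA z hz).of_le (by exact_mod_cast le_top)).contDiffWithinAt) ih) fun z hz =>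
        (hP z hz).fderiv⟩

/-- The local statement. -/
theorem loc [FiniteDimensional ℝ F] {J : Type*} {l : Filter J} [l.NeBot] {g : J → V → ℝ}
    {δ M : J → ℝ} {u : J → V → F} {A : V → F →L[ℝ] V →L[ℝ] F} {P : V → F} {c : V} {r C : ℝ}
    {L : ℝ≥0} (hr : 0 < r) (hg : ∀ j, Ker μ (g j) (δ j) (M j)) (hδ : Tendsto δ l (𝓝 0))
    (hu : ∀ j, ∀ z ∈ closedBall c (3 * r), ContDiffAt ℝ 1 (u j) z ∧ ‖u j z‖ ≤ C)
    (hA : LipschitzOnWith L A (closedBall c (3 * r)))
    (h0 : Tendsto (fun j => ∫⁻ z in closedBall c (3 * r),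
      ‖fderiv ℝ (u j) z - A z (u j z)‖ₑ ∂μ) l (𝓝 0))
    (h1 : Tendsto (fun j => ENNReal.ofReal (M j) * ∫⁻ z in closedBall c (3 * r),
      ‖fderiv ℝ (u j) z - A z (u j z)‖ₑ ∂μ) l (𝓝 0))
    (hP : ∀ z ∈ closedBall c r, Tendsto (fun j => mol μ (g j) (u j) z) l (𝓝 (P z))) :
    (∀ z ∈ ball c r, HasFDerivAt P (A z (P z)) z) ∧
      Tendsto (fun j => ∫⁻ z in ball c r, ‖u j z - P z‖ₑ ∂μ) l (𝓝 0) := by
  have := FiniteDimensional.complete ℝ F
  let χ : ContDiffBump c := ⟨2 * r, 3 * r, by positivity, by linarith⟩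
  have hχ : ∀ y ∉ closedBall c (3 * r), χ y = 0 := fun y hy =>
    χ.zero_of_le_dist (le_of_lt (by simpa using hy))
  obtain ⟨w, hw⟩ : ∃ w : J → V → F, ∀ j, w j = fun y => χ y • u j y := ⟨_, fun _ => rfl⟩
  have hz : ∀ j, ∀ y ∉ closedBall c (3 * r), w j =ᶠ[𝓝 y] fun _ => 0 := fun j y hy => by
    filter_upwards [isClosed_closedBall.isOpen_compl.mem_nhds hy] with x hx
    simp only [hw, hχ x hx, zero_smul]
  have heq : ∀ j, ∀ y ∈ ball c (2 * r), w j =ᶠ[𝓝 y] u j := fun j y hy => by
    filter_upwards [isOpen_ball.mem_nhds hy] with x hx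
    simp only [hw, χ.one_of_mem_closedBall (ball_subset_closedBall hx), one_smul]
  have hw1 : ∀ j, ContDiff ℝ 1 (w j) := fun j => contDiff_iff_contDiffAt.2 fun y => by
    by_cases hy : y ∈ closedBall c (3 * r)
    · rw [hw]
      exact χ.contDiffAt.smul (hu j y hy).1
    · exact contDiffAt_const.congr_of_eventuallyEq (hz j y hy)
  have hc : ∀ j, HasCompactSupport (w j) := fun j =>
    HasCompactSupport.intro (isCompact_closedBall c (3 * r)) fun y hy => (hz j y hy).eq_of_nhds
  obtain ⟨j₀⟩ := l.nonempty_of_neBot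
  have hC : 0 ≤ C := (norm_nonneg _).trans (hu j₀ c (mem_closedBall_self (by positivity))).2
  have hb : ∀ j y, ‖w j y‖ ≤ C := fun j y => by
    by_cases hy : y ∈ closedBall c (3 * r)
    · rw [hw, norm_smul, Real.norm_of_nonneg χ.nonneg]
      exact (mul_le_of_le_one_left (norm_nonneg _) χ.le_one).trans (hu j y hy).2
    · rw [(hz j y hy).eq_of_nhds, norm_zero]
      exact hC
  obtain ⟨B, hB⟩ := (isCompact_closedBall c (3 * r)).exists_bound_of_continuousOn (f := A)
    hA.continuousOn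
  obtain ⟨B', hB'⟩ := (isCompact_closedBall c (3 * r)).exists_bound_of_continuousOn
    ((χ.contDiff (n := 1)).continuous_fderiv one_ne_zero).continuousOn
  have hB0 : 0 ≤ B := (norm_nonneg _).trans (hB c (mem_closedBall_self (by positivity)))
  have hB1 : 0 ≤ B' := (norm_nonneg _).trans (hB' c (mem_closedBall_self (by positivity)))
  have s1 : ball c (2 * r) ⊆ closedBall c (3 * r) :=
    ball_subset_closedBall.trans (closedBall_subset_closedBall (by linarith))
  have s2 : closedBall c r ⊆ closedBall c (3 * r) := closedBall_subset_closedBall (by linarith)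
  have hδr : ∀ᶠ j in l, δ j ≤ r := hδ.eventually_le_const hr
  have e1 : ∀ᶠ j in l, ∀ z ∈ closedBall c r, mol μ (g j) (u j) z = mol μ (g j) (w j) z :=
    hδr.mono fun j hj z hz => integral_congr_ae (.of_forall fun t => by
      by_cases ht : g j t = 0
      · simp only [ht, zero_smul]
      have h5 := (hg j).supp t ht
      have : z - t ∈ ball c (2 * r) := by
        have a : dist (z - t) z = ‖t‖ := by simp
        rw [mem_closedBall] at hz
        rw [mem_ball]
        linarith [dist_triangle (z - t) z c]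
      simp only [(heq j _ this).eq_of_nhds])
  have hP' : ∀ z ∈ closedBall c r, Tendsto (fun j => mol μ (g j) (w j) z) l (𝓝 (P z)) :=
    fun z hz => (hP z hz).congr' (e1.mono fun j hj => hj z hz)
  have e2 : ∀ ε : ℝ, 0 < ε → ∀ᶠ j in l, ∀ z ∈ closedBall c r,
      ‖mol μ (g j) (fderiv ℝ (w j)) z - A z (mol μ (g j) (w j) z)‖ ≤ ε := fun ε hε => by
    have t1 : Tendsto (fun j => ENNReal.ofReal (L * δ j * C)) l (𝓝 0) := by
      simpa using ENNReal.tendsto_ofReal ((hδ.const_mul (L : ℝ)).mul_const C)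
    have t2 := h1.add t1
    rw [add_zero] at t2
    filter_upwards [hδr, t2.eventually_le_const (ENNReal.ofReal_pos.2 hε)] with j a1 a2 z hz
    rw [← ENNReal.ofReal_le_ofReal_iff hε.le, ofReal_norm]
    refine ((hg j).est (hw1 j) (hb j) L.2 a1 (fun x hx y hy => ?_) hz).trans (le_trans ?_ a2)
    · have := hA.dist_le_mul x (s1 hx) y (s1 hy)
      rw [dist_eq_norm, dist_eq_norm] at this
      exact this
    · refine add_le_add (mul_le_mul_right (le_trans (le_of_eq ?_) (lintegral_mono_set s1)) _) le_rfl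
      refine setLIntegral_congr_fun measurableSet_ball fun y hy => ?_
      simp only [(heq j y hy).fderiv_eq, (heq j y hy).eq_of_nhds]
  have hU : TendstoUniformlyOn (fun j => mol μ (g j) (w j)) P l (closedBall c r) := by
    refine unif (K := B * C + 1) (isCompact_closedBall c r) (by positivity)
      ((e2 1 one_pos).mono fun j hj x hx y hy => ?_) hP'
    rw [dist_eq_norm]
    refine (convex_closedBall c r).norm_image_sub_le_of_norm_hasFDerivWithin_le
      (fun z _ => ((hg j).der (hw1 j) (hc j) z).hasFDerivWithinAt) (fun z hz => ?_) hy hx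
    have a1 := ((A z).le_opNorm (mol μ (g j) (w j) z)).trans
      (mul_le_mul (hB z (s2 hz)) ((hg j).bd (hb j) z) (norm_nonneg _) hB0)
    linarith [norm_sub_norm_le (mol μ (g j) (fderiv ℝ (w j)) z) (A z (mol μ (g j) (w j) z)),
      hj z hz]
  refine ⟨fun z hz => hasFDerivAt_of_tendstoUniformlyOn (l := l) isOpen_ball
    (f' := fun j => mol μ (g j) (fderiv ℝ (w j))) (g' := fun z => A z (P z)) ?_
    (fun j x _ => (hg j).der (hw1 j) (hc j) x)
    (fun x hx => hP' x (ball_subset_closedBall hx)) hz, ?_⟩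
  · refine Metric.tendstoUniformlyOn_iff.2 fun ε hε => ?_
    have he : 0 < ε / (B + 2) := by positivity
    filter_upwards [e2 _ he, Metric.tendstoUniformlyOn_iff.1 hU _ he] with j a1 a2 x hx
    have hx' := ball_subset_closedBall hx
    have a3 := (A x).dist_le_opNorm (P x) (mol μ (g j) (w j) x)
    have a4 := mul_le_mul (hB x (s2 hx')) (a2 x hx').le dist_nonneg hB0
    have a5 := a1 x hx'
    rw [← dist_eq_norm, dist_comm] at a5
    have a6 : (B + 2) * (ε / (B + 2)) = ε := by field_simp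
    linarith [dist_triangle (A x (P x)) (A x (mol μ (g j) (w j) x))
      (mol μ (g j) (fderiv ℝ (w j)) x)]
  · have t1 : Tendsto (fun j => ∫⁻ x in ball c r, ‖mol μ (g j) (w j) x - P x‖ₑ ∂μ) l (𝓝 0) := by
      refine ENNReal.tendsto_nhds_zero.2 fun ε hε => ?_
      obtain ⟨η, hη, hη'⟩ := ENNReal.exists_nnreal_pos_mul_lt
        (measure_ball_lt_top (μ := μ) (x := c) (r := r)).ne hε.ne'
      filter_upwards [Metric.tendstoUniformlyOn_iff.1 hU η hη] with i hi
      refine le_trans (setLIntegral_mono' (g := fun _ => (η : ℝ≥0∞)) measurableSet_ball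
        fun x hx => ?_) (by simpa using hη'.le)
      have := (hi x (ball_subset_closedBall hx)).le
      rw [dist_comm, dist_eq_norm] at this
      rw [← ofReal_norm, ← ENNReal.ofReal_coe_nnreal]
      exact ENNReal.ofReal_le_ofReal this
    have t2 : Tendsto (fun j => ENNReal.ofReal (δ j)) l (𝓝 0) := by
      simpa using ENNReal.tendsto_ofReal hδ
    have t3 := (ENNReal.Tendsto.mul t2 (Or.inr (by
      simp [ENNReal.mul_eq_top, (measure_closedBall_lt_top (μ := μ)).ne])) (h0.add_const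
      (ENNReal.ofReal (B * C + B' * C) * μ (closedBall c (3 * r)))) (Or.inr (by simp))).add t1
    rw [zero_mul, add_zero] at t3
    refine tendsto_of_tendsto_of_tendsto_of_le_of_le tendsto_const_nhds t3
      (fun _ => zero_le) fun j => ?_
    have d1 : ∫⁻ z, ‖fderiv ℝ (w j) z‖ₑ ∂μ ≤ (∫⁻ z in closedBall c (3 * r),
        ‖fderiv ℝ (u j) z - A z (u j z)‖ₑ ∂μ) +
        ENNReal.ofReal (B * C + B' * C) * μ (closedBall c (3 * r)) := by
      rw [← setLIntegral_const, ← lintegral_add_right _ measurable_const,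
        ← lintegral_indicator measurableSet_closedBall]
      refine lintegral_mono fun y => ?_
      by_cases hy : y ∈ closedBall c (3 * r)
      · have d2 := ((χ.contDiff (n := 1)).differentiable one_ne_zero y).hasFDerivAt.smul
          ((hu j y hy).1.differentiableAt one_ne_zero).hasFDerivAt
        rw [indicator_of_mem hy, hw, show (fun y => χ y • u j y) = (χ : V → ℝ) • u j from rfl, d2.fderiv,
          ← ofReal_norm, ← ofReal_norm, ← ENNReal.ofReal_add (norm_nonneg _) (by positivity)]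
        refine ENNReal.ofReal_le_ofReal ((norm_add_le _ _).trans ?_)
        have a1 := ((A y).le_opNorm (u j y)).trans
          (mul_le_mul (hB y hy) (hu j y hy).2 (norm_nonneg _) hB0)
        have a2 := mul_le_mul (hB' y hy) (hu j y hy).2 (norm_nonneg _) hB1
        have a3 := mul_le_of_le_one_left (norm_nonneg (fderiv ℝ (u j) y)) (χ.le_one (x := y))
        rw [norm_smul, Real.norm_of_nonneg χ.nonneg, ContinuousLinearMap.norm_smulRight_apply]
        linarith [norm_sub_norm_le (fderiv ℝ (u j) y) (A y (u j y))]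
      · rw [(hz j y hy).fderiv_eq, ← ofReal_norm, fderiv_fun_const, Pi.zero_apply, norm_zero,
          ENNReal.ofReal_zero]
        exact zero_le
    have m1 : Continuous (mol μ (g j) (w j)) := continuous_iff_continuousAt.2 fun x =>
      ((hg j).der (hw1 j) (hc j) x).continuousAt
    refine le_trans ?_ (add_le_add (((setLIntegral_le_lintegral (ball c r) _).trans
      ((hg j).l1 (hw1 j))).trans (mul_le_mul_right d1 _)) le_rfl)
    rw [← lintegral_add_left (f := fun x => ‖w j x - mol μ (g j) (w j) x‖ₑ)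
      ((hw1 j).continuous.sub m1).enorm.measurable]
    refine setLIntegral_mono' measurableSet_ball fun x hx => ?_
    rw [← (heq j x (ball_subset_ball (by linarith) hx)).eq_of_nhds]
    simpa using enorm_add_le (w j x - mol μ (g j) (w j) x) (mol μ (g j) (w j) x - P x)

/-- The limit lemma. -/
theorem lim [FiniteDimensional ℝ F] {ι : Type*} (l : Ultrafilter ι) {u : ι → V → F}
    {A : V → F →L[ℝ] V →L[ℝ] F} {U : Set V} (hU : IsOpen U)
    (hu : ∀ i, ∀ z ∈ U, ContDiffAt ℝ 1 (u i) z) (hA : ∀ z ∈ U, ContDiffAt ℝ ∞ A z)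
    (hb : ∀ K, IsCompact K → K ⊆ U → ∃ C, ∀ i, ∀ z ∈ K, ‖u i z‖ ≤ C)
    (h0 : ∀ K, IsCompact K → K ⊆ U →
      Tendsto (fun i => ∫⁻ z in K, ‖fderiv ℝ (u i) z - A z (u i z)‖ₑ ∂μ) l (𝓝 0)) :
    ∃ P : V → F, (∀ z ∈ U, ContDiffAt ℝ ∞ P z ∧ HasFDerivAt P (A z (P z)) z) ∧
      ∀ K, IsCompact K → K ⊆ U → Tendsto (fun i => ∫⁻ z in K, ‖u i z - P z‖ₑ ∂μ) l (𝓝 0) := by
  have := FiniteDimensional.proper_real F
  choose g M hg using fun k : ℕ => exists_ker (μ := μ) (Nat.one_div_pos_of_nat (α := ℝ) (n := k))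
  let W : Ultrafilter (ℕ × ι) := (hyperfilter ℕ).bind fun k => l.map (Prod.mk k)
  have hW : ∀ p : ℕ × ι → Prop, (∀ᶠ j in W, p j) ↔
      ∀ᶠ k in hyperfilter ℕ, ∀ᶠ i in l, p (k, i) := fun p => eventually_bind
  have w1 : Tendsto Prod.snd (W : Filter (ℕ × ι)) l := fun s hs =>
    (hW fun j => j.2 ∈ s).2 (.of_forall fun _ => hs)
  have w2 : Tendsto (fun j : ℕ × ι => 1 / ((j.1 : ℝ) + 1)) W (𝓝 0) := fun s hs =>
    (hW fun j => 1 / ((j.1 : ℝ) + 1) ∈ s).2 (Eventually.mono (Nat.hyperfilter_le_atTop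
      (tendsto_one_div_add_atTop_nhds_zero_nat hs)) fun _ hk => .of_forall fun _ => hk)
  have w3 : ∀ a : ι → ℝ≥0∞, Tendsto (fun j : ℕ × ι => a j.2) W (𝓝 0) → Tendsto a l (𝓝 0) :=
    fun a h s hs => ((hW fun j => a j.2 ∈ s).1 (h hs)).exists.choose_spec
  have p1 : ∀ z ∈ U, ∃ p, Tendsto (fun j : ℕ × ι => mol μ (g j.1) (u j.2) z) W (𝓝 p) :=
    fun z hz => by
      obtain ⟨R, hR, hs⟩ := nhds_basis_closedBall.mem_iff.1 (hU.mem_nhds hz)
      obtain ⟨C, hC⟩ := hb _ (isCompact_closedBall z R) hs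
      obtain ⟨p, -, hp⟩ := (isCompact_closedBall (0 : F) C).ultrafilter_le_nhds
        (W.map fun j => mol μ (g j.1) (u j.2) z) (le_principal_iff.2 (mem_map.2
          ((w2.eventually_le_const hR).mono fun j hj => mem_closedBall_zero_iff.2 (by
            have h := hg j.1
            have := norm_integral_le_of_norm_le (μ := μ) (f := fun t => g j.1 t • u j.2 (z - t))
              ((h.cont.integrable_of_hasCompactSupport h.cpt).mul_const C) (.of_forall fun t => by
                by_cases ht : g j.1 t = 0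
                · simp [ht]
                rw [norm_smul, Real.norm_of_nonneg (h.nn t)]
                refine mul_le_mul_of_nonneg_left (hC _ _ ?_) (h.nn t)
                simpa using (h.supp t ht).le.trans hj)
            rwa [integral_mul_const, h.one, one_mul] at this))))
      exact ⟨p, hp⟩
  choose! P hP using p1
  have key : ∀ c ∈ U, ∃ r > 0, (∀ z ∈ ball c r, HasFDerivAt P (A z (P z)) z) ∧
      Tendsto (fun i => ∫⁻ z in ball c r, ‖u i z - P z‖ₑ ∂μ) l (𝓝 0) := fun c hc => by
    obtain ⟨L, t, ht, hL⟩ := ((hA c hc).of_le (by exact_mod_cast le_top) :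
      ContDiffAt ℝ 1 A c).exists_lipschitzOnWith
    obtain ⟨R, hR, hs⟩ := nhds_basis_closedBall.mem_iff.1 (inter_mem (hU.mem_nhds hc) ht)
    rw [show R = 3 * (R / 3) by ring] at hs
    have s1 := hs.trans inter_subset_left
    obtain ⟨C, hC⟩ := hb _ (isCompact_closedBall _ _) s1
    have t0 := h0 _ (isCompact_closedBall _ _) s1
    obtain ⟨a1, a2⟩ := loc (l := (W : Filter (ℕ × ι))) (u := fun j => u j.2) (P := P)
      (by positivity : 0 < R / 3) (fun j => hg j.1) w2 (fun j z hz => ⟨hu _ z (s1 hz), hC _ z hz⟩)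
      (hL.mono (hs.trans inter_subset_right)) (t0.comp w1)
      (fun s hs => (hW _).2 (.of_forall fun k => by
        have := ENNReal.Tendsto.const_mul (a := ENNReal.ofReal (M k)) t0
          (Or.inr ENNReal.ofReal_ne_top)
        rw [mul_zero] at this
        exact this hs))
      fun z hz => hP z (s1 (closedBall_subset_closedBall (by linarith) hz))
    exact ⟨_, by positivity, a1, w3 _ a2⟩
  have hd : ∀ z ∈ U, HasFDerivAt P (A z (P z)) z := fun z hz =>
    let ⟨_, hr, h, _⟩ := key z hz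
    h z (mem_ball_self hr)
  refine ⟨P, fun z hz => ⟨(smooth_of hU hA hd).contDiffAt (hU.mem_nhds hz), hd z hz⟩,
    fun K hK hKU => ?_⟩
  refine hK.induction_on (p := fun S => Tendsto (fun i => ∫⁻ x in S, ‖u i x - P x‖ₑ ∂μ) l (𝓝 0))
    (by simp) (fun S T hST hT => ?_) (fun S T hS hT => ?_) fun c hc => ?_
  · exact tendsto_of_tendsto_of_tendsto_of_le_of_le tendsto_const_nhds hT
      (fun _ => zero_le) fun i => lintegral_mono_set hST
  · have := hS.add hT
    rw [add_zero] at this
    exact tendsto_of_tendsto_of_tendsto_of_le_of_le tendsto_const_nhds this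
      (fun _ => zero_le) fun i => lintegral_union_le _ _ _
  · obtain ⟨r, hr, -, h⟩ := key c (hKU hc)
    exact ⟨_, mem_nhdsWithin_of_mem_nhds (ball_mem_nhds c hr), h⟩

end Pool.Agent.Lib.HS95.Lim
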