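import Pool.Agent.Lib.TB.Blue
import Pool.Agent.Lib.HS32.EKit
import Pool.Agent.Lib.HS95.Lim

/-! The smooth limit for fields of matrices. -/

open scoped Topology ContDiff Matrix ENNReal
open Set MeasureTheory Complex Metric Filter

noncomputable section

namespace Pool.Agent.Lib.HS95.Lim

open Pool.Agent.Lib.SV (E)
open Pool.Agent.Lib.HS32

variable {n : ℕ}

theorem ex_phi (A B A' : Fin n → Mat n) :
    ∃ Φ : (Fin n → Fin n → ℂ) →L[ℝ] E n →L[ℝ] Fin n → Fin n → ℂ, ∀ X v p q,
      Φ X v p q = ∑ k, ((Matrix.of X * A k - B k * Matrix.of X) p q * v k +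
        (Matrix.of X * A' k) p q * star (v k)) := by
  refine ⟨(LinearMap.mk₂ ℝ (fun (X : Fin n → Fin n → ℂ) (v : E n) p q => ∑ k,
    ((Matrix.of X * A k - B k * Matrix.of X) p q * v k + (Matrix.of X * A' k) p q * star (v k)))
    (fun X Y v => ?_) (fun c X v => ?_) (fun X v w => ?_) fun c X v => ?_).toContinuousBilinearMap,
    fun _ _ _ _ => rfl⟩ <;> funext p q
  · simp only [← Matrix.of_add_of, Matrix.add_mul, Matrix.mul_add, Pi.add_apply, Matrix.sub_apply,
      Matrix.add_apply, ← Finset.sum_add_distrib]
    exact Finset.sum_congr rfl fun _ _ => by ring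
  · simp only [← Matrix.smul_of, Matrix.smul_mul, Matrix.mul_smul, Pi.smul_apply, Matrix.sub_apply,
      Matrix.smul_apply, Finset.smul_sum, real_smul]
    exact Finset.sum_congr rfl fun _ _ => by ring
  · simp only [Pi.add_apply, star_add, ← Finset.sum_add_distrib]
    exact Finset.sum_congr rfl fun _ _ => by ring
  · simp only [Pi.smul_apply, Finset.smul_sum, real_smul, star_mul', star_def, conj_ofReal]
    exact Finset.sum_congr rfl fun _ _ => by ring

theorem fd_entry {u : E n → Fin n → Fin n → ℂ} {z : E n} (h : DifferentiableAt ℝ u z)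
    (v : E n) (p q : Fin n) : fderiv ℝ (fun w => u w p q) z v = fderiv ℝ u z v p q := by
  rw [(hasFDerivAt_pi'.1 (hasFDerivAt_pi'.1 h.hasFDerivAt p) q).fderiv]
  rfl

theorem tlm : TB.St_TLM := by
  intro n l u A B A' c ρ C hu hA h1 h2
  choose Φ hΦ using fun z => ex_phi (fun k => A k z) (fun k => B k z) fun k => A' k z
  have hs : ∀ i, ∀ z ∈ ball c ρ, ContDiffAt ℝ ∞ (fun w p q => u i w p q) z := fun i z hz =>
    contDiffAt_pi.2 fun p => contDiffAt_pi.2 fun q => (hu i z hz).1 p q
  obtain ⟨P, p1, p2⟩ := lim (μ := volume) l (u := fun i w p q => u i w p q) (A := Φ) isOpen_ball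
    (fun i z hz => (hs i z hz).of_le (by simp))
    (fun z hz => ContDiffOn.contDiffAt (contDiffOn_clm_apply.2 fun X => contDiffOn_clm_apply.2
      fun v w hw => ContDiffAt.contDiffWithinAt (contDiffAt_pi.2 fun p => contDiffAt_pi.2 fun q => by
        simp only [hΦ]
        refine ContDiffAt.sum fun k _ => ?_
        obtain ⟨a1, a2, a3⟩ := hA k w (ball_subset_closedBall hw)
        have a := smM_const (z := w) (Matrix.of X)
        exact ((((a.mul a1).sub (a2.mul a)) p q).mul contDiffAt_const).add
          (((a.mul a3) p q).mul contDiffAt_const))) (isOpen_ball.mem_nhds hz))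
    (fun K _ hK => ⟨max C 0, fun i z hz => (pi_norm_le_iff_of_nonneg (le_max_right _ _)).2 fun p =>
      (pi_norm_le_iff_of_nonneg (le_max_right _ _)).2 fun q =>
        ((hu i z (hK hz)).2 p q).trans (le_max_left _ _)⟩)
    fun K hK hKU => by
      have t := tendsto_finsetSum Finset.univ fun (a : Fin n × Fin n × Fin n) _ =>
        (h1 a.1 a.2.1 a.2.2).add (h2 a.1 a.2.1 a.2.2)
      simp only [add_zero, Finset.sum_const_zero] at t
      refine tendsto_of_tendsto_of_tendsto_of_le_of_le tendsto_const_nhds t (fun _ => zero_le)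
        fun i => (lintegral_mono_set hKU).trans ?_
      have m : ∀ {T : E n → Mat n}, (∀ z ∈ ball c ρ, SmM T z) → ∀ p q,
          AEMeasurable (fun z => ‖T z p q‖ₑ) (volume.restrict (ball c ρ)) := fun h p q =>
        (ContinuousOn.aemeasurable (fun z hz => (h z hz p q).continuousAt.continuousWithinAt)
          measurableSet_ball).enorm
      have m1 := fun k => m fun z hz => ((hu i z hz).1.dM k).sub
        (((hu i z hz).1.mul (hA k z (ball_subset_closedBall hz)).1).sub
          ((hA k z (ball_subset_closedBall hz)).2.1.mul (hu i z hz).1))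
      have m2 := fun k => m fun z hz => ((hu i z hz).1.dMb k).sub
        ((hu i z hz).1.mul (hA k z (ball_subset_closedBall hz)).2.2)
      simp only [← lintegral_add_left' (m1 _ _ _)]
      rw [← lintegral_finsetSum' _ fun a _ => (m1 a.1 a.2.1 a.2.2).fun_add (m2 a.1 a.2.1 a.2.2)]
      refine setLIntegral_mono' measurableSet_ball fun z hz => ?_
      simp only [← ofReal_norm, ← ENNReal.ofReal_add (norm_nonneg _) (norm_nonneg _)]
      rw [← ENNReal.ofReal_sum_of_nonneg fun _ _ => by positivity]
      have n0 : ∀ {s : Finset (Fin n × Fin n × Fin n)}, 0 ≤ ∑ a ∈ s,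
          (‖(dM a.1 (u i) z - (u i z * A a.1 z - B a.1 z * u i z)) a.2.1 a.2.2‖ +
          ‖(dMb a.1 (u i) z - u i z * A' a.1 z) a.2.1 a.2.2‖) :=
        Finset.sum_nonneg fun _ _ => by positivity
      refine ENNReal.ofReal_le_ofReal (ContinuousLinearMap.opNorm_le_bound _ n0 fun v => ?_)
      have n1 := mul_nonneg (n0 (s := Finset.univ)) (norm_nonneg v)
      refine (pi_norm_le_iff_of_nonneg n1).2 fun p => (pi_norm_le_iff_of_nonneg n1).2 fun q => ?_
      rw [sub_apply, Pi.sub_apply, Pi.sub_apply, hΦ,
        show (Matrix.of fun p q => u i z p q) = u i z from rfl,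
        ← fd_entry (cd_diff (hs i z hz)), fderiv_eq_sum, ← Finset.sum_sub_distrib,
        Fintype.sum_prod_type, Finset.sum_mul]
      refine (norm_sum_le _ _).trans (Finset.sum_le_sum fun k _ => ?_)
      refine le_trans ?_ (mul_le_mul_of_nonneg_right (Finset.single_le_sum
        (fun _ _ => by positivity) (Finset.mem_univ (p, q))) (norm_nonneg v))
      have e : dz k (fun w => u i w p q) z * v k + dzb k (fun w => u i w p q) z * star (v k) -
          ((u i z * A k z - B k z * u i z) p q * v k + (u i z * A' k z) p q * star (v k)) =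
          (dM k (u i) z - (u i z * A k z - B k z * u i z)) p q * v k +
          (dMb k (u i) z - u i z * A' k z) p q * star (v k) := by
        simp only [Matrix.sub_apply, dM, dMb, Matrix.of_apply]
        ring
      rw [e, add_mul]
      refine (norm_add_le _ _).trans ?_
      rw [norm_mul, norm_mul, norm_star]
      have := norm_le_pi_norm v k
      gcongr
  refine ⟨fun z => Matrix.of (P z), fun z hz => ⟨fun p q =>
    contDiffAt_pi.1 (contDiffAt_pi.1 (p1 z hz).1 p) q, fun k => ?_⟩, fun K hK hKU p q => ?_⟩
  · have e : ∀ v p q, fderiv ℝ (fun w => P w p q) z v = _ := fun v p q => by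
      rw [fd_entry (p1 z hz).2.differentiableAt, (p1 z hz).2.fderiv, hΦ]
    have s : ∀ (a b : Fin n → ℂ) (t : ℂ), ∑ j, (a j * (Pi.single k t : E n) j +
        b j * star ((Pi.single k t : E n) j)) = a k * t + b k * star t := fun a b t => by
      rw [Finset.sum_eq_single k (fun j _ hj => by simp [hj]) (by simp)]
      simp
    constructor <;> ext p q <;> simp only [dM, dMb, dz, dzb, Matrix.of_apply, e] <;>
      rw [s, s, star_one, star_def, conj_I]
    · linear_combination (-((Matrix.of (P z) * A k z - B k z * Matrix.of (P z)) p q -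
        (Matrix.of (P z) * A' k z) p q) / 2) * I_mul_I
    · linear_combination (((Matrix.of (P z) * A k z - B k z * Matrix.of (P z)) p q -
        (Matrix.of (P z) * A' k z) p q) / 2) * I_mul_I
  · refine tendsto_of_tendsto_of_tendsto_of_le_of_le tendsto_const_nhds (p2 K hK hKU)
      (fun _ => zero_le) fun i => lintegral_mono fun z => ?_
    rw [enorm_le_iff_norm_le]
    exact (norm_le_pi_norm (((fun p q => u i z p q) - P z) p) q).trans (norm_le_pi_norm _ p)

end Pool.Agent.Lib.HS95.Lim
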