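import Pool.Agent.Lib.RB.B_RBR
import Pool.Agent.Lib.HS68.Fun
import Pool.Agent.Lib.HS76.Pt

/-! A Kähler metric with non-positive holomorphic sectional curvature has non-positive real
bisectional curvature (Royden). -/

open scoped Classical Topology ContDiff ComplexOrder Matrix Manifold
open Set Complex Filter

noncomputable section

namespace Pool.Agent.Lib.HS95

open Pool.Agent.Lib.SV (E)
open Pool.Agent.Lib.HS (KaehlerNonpos)
open Pool.Agent.Lib.HS32 Pool.Agent.Lib.GH Pool.Agent.Lib.RB Pool.Agent.Lib.HS.BBR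
  Pool.Agent.Lib.RB.R32

theorem rbc_of_hsc {n : ℕ} {X : Type} [TopologicalSpace X] [ChartedSpace (E n) X]
    [IsManifold 𝓘(ℂ, E n) ω X] {h : X → Mat n} (hh : KaehlerNonpos h) :
    Kaehler h ∧ Hermitian h ∧ RbcNonpos h := by
  have h1 : Hermitian h := ⟨hh.pos, hh.smooth⟩
  have h2 : Kaehler h := ⟨h1, hh.closed⟩
  refine ⟨h2, h1, fun x w a _ ha => ?_⟩
  obtain ⟨g1, g2, -⟩ := fam_ok h1
  let c : (mf n X).Ch := chartAt (M := X) (E n) x
  have hc : c ∈ (mf n X).C := fun y => ⟨cp_chart (X := X) x y, cp_chart (X := X) y x⟩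
  have hz : c x ∈ c.target := c.map_source (mem_chart_source (M := X) (E n) x)
  have lH := HS68.met_loc g1 hc hz
  have kH := HS68.clo_kl (M := mf n X) ⟨g1.toForm, g2 h2⟩ hc hz
  have s1 := g1.sm c hc _ hz
  have d1 := (g1.pos c hc _ hz).det_pos.ne'
  have hp : (∑ i, a i • Matrix.vecMulVec (w i) (star (w i))).PosSemidef :=
    Matrix.posSemidef_sum _ fun i _ => (Matrix.posSemidef_vecMulVec_self_star _).smul (ha i)
  have h3 := HS76.royden_fam (N := fun k l => fam h c (c x) * th (fam h c) k l (c x))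
    (lH.mul_th_symm kH) (lH.mul_th_symm' kH)
    (fun v => (congrArg re (rm_eq s1 d1 v)).trans_le (hh.nonpos x v)) hp
  have h4 := qx_eq (T := fam h c) (z := c x) (w := w) (a := a)
    (ξ := ∑ i, a i • Matrix.vecMulVec (w i) (star (w i))) fun k l => by
      simp [Matrix.sum_apply, Matrix.vecMulVec_apply]
  simp only [qx, neg_re, neg_inj, mul_assoc, rm_curv s1 d1] at h4
  simp only [mul_assoc]
  exact h4.symm.trans_le h3

end Pool.Agent.Lib.HS95
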