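import Pool.Agent.Lib.HS32.MAll

/-! Quasi-plurisubharmonic functions with supremum zero have bounded moments of all orders. -/

open scoped Classical Topology ENNReal ContDiff ComplexOrder Matrix
open Set MeasureTheory Complex Metric Filter

noncomputable section

namespace Pool.Agent.Lib.HS95.PshP

open Pool.Agent.Lib.SV (E)
open Pool.Agent.Lib.HS66 Pool.Agent.Lib.HS32

variable {n : ℕ}

/-- Sub-mean inequality at every scale. -/
theorem submean_s {g : E n → ℝ} (hg : Ker g 1) {w : E n → ℝ} {x : E n} {A s : ℝ} (hA : 0 ≤ A)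
    (hs : s ∈ Icc (0 : ℝ) 1)
    (hw : ∀ z ∈ closedBall x 1, ContDiffAt ℝ 2 w z ∧ ∀ v, -(A * ‖v‖ ^ 2) ≤ lv w z v) :
    w x ≤ (∫ t, g t • w (x - s • t)) + A * s ^ 2 / 4 := by
  obtain ⟨φ, φ', h1, h2, h3⟩ := hg.mono hA one_pos one_pos (by rwa [one_mul])
  have h4 : MonotoneOn φ (Icc 0 1) := monotoneOn_of_deriv_nonneg (convex_Icc 0 1)
    (fun s _ => (h1 s).continuousAt.continuousWithinAt)
    (fun s _ => (h1 s).differentiableAt.differentiableWithinAt) fun s hs => by
      rw [interior_Icc] at hs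
      have := h2 (left_mem_Icc.2 zero_le_one) (Ioo_subset_Icc_self hs) hs.1.le
      rw [(h1 s).deriv]
      exact nonneg_of_mul_nonneg_right (by simpa [mul_comm] using this) hs.1
  have h5 := h4 (left_mem_Icc.2 zero_le_one) hs hs.1
  rw [h3 0 (left_mem_Icc.2 zero_le_one), h3 s hs] at h5
  simpa [integral_mul_const, hg.int] using h5

/-- A Lipschitz cut-off function. -/
def cut (R : ℝ) (z : E n) : ℝ := max 0 (min 1 (R - ‖z‖))

theorem cut_cont (R : ℝ) : Continuous (cut (n := n) R) := by unfold cut; fun_prop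

theorem cut_nn (R : ℝ) (z : E n) : 0 ≤ cut R z := le_max_left _ _

theorem cut_le (R : ℝ) (z : E n) : cut R z ≤ 1 := max_le zero_le_one (min_le_left _ _)

theorem cut_one {R : ℝ} {z : E n} (h : ‖z‖ + 1 ≤ R) : cut R z = 1 := by
  rw [cut, min_eq_left (by linarith), max_eq_right zero_le_one]

theorem cut_zero {R : ℝ} {z : E n} (h : R ≤ ‖z‖) : cut R z = 0 :=
  max_eq_left ((min_le_right _ _).trans (by linarith))

theorem cut_lip (R : ℝ) (y v : E n) : cut R y - ‖v‖ ≤ cut R (y + v) := by
  have h1 := norm_add_le y v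
  have h2 := norm_nonneg v
  unfold cut
  rw [sub_le_iff_le_add]
  refine max_le (by positivity) ?_
  rcases le_total 1 (R - ‖y + v‖) with h | h
  · rw [min_eq_left h, max_eq_right zero_le_one]
    linarith [min_le_left 1 (R - ‖y‖)]
  · rw [min_eq_right h]
    linarith [min_le_right 1 (R - ‖y‖), le_max_right 0 (R - ‖y + v‖)]

theorem cut_cpt (R : ℝ) : HasCompactSupport (cut (n := n) R) :=
  HasCompactSupport.intro (isCompact_closedBall 0 R) fun z hz =>
    cut_zero (le_of_lt (by simpa using hz))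

theorem cut_int (R : ℝ) : Integrable (cut (n := n) R) :=
  (cut_cont R).integrable_of_hasCompactSupport (cut_cpt R)

/-- The averages are close to the function in the mean. -/
theorem fub {g W : E n → ℝ} (hg : Ker g 1) (hW : Continuous W) (hc : HasCompactSupport W)
    (h0 : ∀ z, W z ≤ 0) {s : ℝ} (hs : 0 ≤ s) :
    Integrable (fun x => cut 2 x * ∫ t, g t • W (x - s • t)) ∧
      ∫ x, cut 2 x * ∫ t, g t • W (x - s • t) ≤ (∫ x, cut 2 x * W x) + s * ∫ x, -W x := by
  obtain ⟨B, hB⟩ := hc.exists_bound_of_continuous hW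
  have iW : Integrable W := hW.integrable_of_hasCompactSupport hc
  have hi : Integrable (Function.uncurry fun x t : E n => cut 2 x * (g t • W (x - s • t)))
      (volume.prod volume) := by
    have h1 := ((cut_int (n := n) 2).mul_prod hg.integrable).mul_bdd
      (g := fun p : E n × E n => W (p.1 - s • p.2)) (c := B)
      (Continuous.aestronglyMeasurable (by fun_prop)) (.of_forall fun p => hB _)
    refine h1.congr (.of_forall fun p => ?_)
    simp only [Function.uncurry, smul_eq_mul, mul_assoc]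
  have h2 := hi.integral_prod_left
  simp only [Function.uncurry, integral_const_mul] at h2
  refine ⟨h2, ?_⟩
  simp only [← integral_const_mul]
  rw [integral_integral_swap hi]
  have h3 := hi.integral_prod_right
  simp only [Function.uncurry] at h3
  have h4 : ∀ t, ∫ x, cut 2 x * (g t • W (x - s • t)) ≤
      g t • ((∫ x, cut 2 x * W x) + ∫ x, s * -W x) := fun t => by
    by_cases h : g t = 0
    · simp [h]
    simp only [smul_eq_mul, mul_left_comm _ (g t), integral_const_mul (g t)]
    refine mul_le_mul_of_nonneg_left ?_ (hg.nn t)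
    have i1 : ∀ v : E n, Integrable fun y => cut 2 (y + v) * W y := fun v =>
      (((cut_cont 2).comp (continuous_id.add continuous_const)).mul
        hW).integrable_of_hasCompactSupport hc.mul_left
    have i2 := i1 0
    simp only [add_zero] at i2
    have i3 : Integrable fun y => s * -W y := iW.neg.const_mul s
    rw [← integral_add_right_eq_self _ (s • t), ← integral_add i2 i3]
    simp only [add_sub_cancel_right]
    refine integral_mono (i1 _) (i2.add i3) fun y => ?_
    have h5 := cut_lip 2 y (s • t)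
    have h6 : ‖s • t‖ ≤ s := by
      rw [norm_smul, Real.norm_of_nonneg hs]
      exact mul_le_of_le_one_right hs (hg.supp t h)
    have := h0 y
    beta_reduce
    nlinarith
  refine (integral_mono h3 (hg.int_smul continuous_const) h4).trans ?_
  rw [integral_smul_const, hg.int, one_smul]

theorem ptw (p : ℕ) {a K : ℝ} (hK : 1 ≤ K) (ha : 0 ≤ a) {d : ℕ → ℝ} (h0 : ∀ m, 0 ≤ d m)
    (h1 : ∀ m : ℕ, a - K * (1 + m) ≤ d m) (N : ℕ) (h : a < K * (N + 2)) :
    a ^ p ≤ (K * 2) ^ p + ∑ m ∈ Finset.range N, (K * (m + 3)) ^ p * d m := by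
  have hp : ∀ m : ℕ, 0 ≤ (K * (m + 3)) ^ p := fun m => by positivity
  induction N with
  | zero => simpa using pow_le_pow_left₀ ha (by simpa using h.le) p
  | succ N ih =>
    rw [Finset.sum_range_succ]
    by_cases h2 : a < K * (N + 2)
    · linarith [ih h2, mul_nonneg (hp N) (h0 N)]
    · have h3 : 1 ≤ d N := by linarith [h1 N, not_lt.1 h2]
      have h4 : a ^ p ≤ (K * (N + 3)) ^ p := pow_le_pow_left₀ ha (by push_cast at h; linarith) p
      have h5 := Finset.sum_nonneg fun m (_ : m ∈ Finset.range N) => mul_nonneg (hp m) (h0 m)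
      have h6 : 0 ≤ (K * 2) ^ p := by positivity
      nlinarith [hp N]

theorem geo (p : ℕ) (K : ℝ) : Summable fun m : ℕ => (K * (m + 3)) ^ p * (1 / 2 : ℝ) ^ m := by
  have h := ((summable_nat_add_iff 3).2 (summable_pow_mul_geometric_of_norm_lt_one p
    (r := (1 / 2 : ℝ)) (by norm_num))).mul_left (K ^ p * 8)
  refine h.congr fun m => ?_
  push_cast
  rw [mul_pow]
  ring

/-- The local bound. -/
theorem loc (p : ℕ) {A L : ℝ} (hA : 0 ≤ A) (hL : 0 ≤ L) : ∃ C : ℝ, 0 ≤ C ∧ ∀ w : E n → ℝ,
    (∀ z ∈ closedBall (0 : E n) 4, ContDiffAt ℝ 2 w z ∧ w z ≤ 0 ∧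
      ∀ v, -(A * ‖v‖ ^ 2) ≤ lv w z v) → ∫ z in closedBall (0 : E n) 4, -w z ≤ L →
    ∫ z in ball (0 : E n) 1, (-w z) ^ p ≤ C := by
  obtain ⟨g, -, hg⟩ := exists_ker (n := n) one_pos
  obtain ⟨G, hG⟩ := hg.cpt.exists_bound_of_continuous hg.cont
  have hG0 : 0 ≤ G := (norm_nonneg _).trans (hG 0)
  set K : ℝ := 1 + 2 * (G * L + A * 1 ^ 2)
  have hK : 1 ≤ K := le_add_of_nonneg_right (by positivity)
  set V : ℝ := ∫ x : E n, cut 2 x
  have hV : 0 ≤ V := integral_nonneg (cut_nn 2)
  have hq : ∀ m : ℕ, 0 ≤ (K * (m + 3)) ^ p * (1 / 2 : ℝ) ^ m := fun m => by positivity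
  refine ⟨(K * 2) ^ p * V + (∑' m : ℕ, (K * (m + 3)) ^ p * (1 / 2 : ℝ) ^ m) * (L + A * V),
    add_nonneg (by positivity) (mul_nonneg (tsum_nonneg hq) (by positivity)), fun w hw hwL => ?_⟩
  have hw0 : ContinuousOn w (closedBall 0 4) := fun z hz =>
    (hw z hz).1.continuousAt.continuousWithinAt
  have mem : ∀ {x z : E n} {a b : ℝ}, ‖x‖ ≤ a → z ∈ closedBall x b → ‖z‖ ≤ a + b :=
    fun {x z a b} h1 h2 => by
      have := norm_add_le x (z - x)
      rw [add_sub_cancel] at this
      linarith [mem_closedBall_iff_norm.1 h2]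
  set W : E n → ℝ := fun z => cut 4 z * w z
  have hz4 : ∀ z ∉ closedBall (0 : E n) 4, W z = 0 := fun z hz => by
    simp only [W, cut_zero (le_of_lt (show 4 < ‖z‖ by simpa using hz)), zero_mul]
  have hW : Continuous W := continuous_iff_continuousAt.2 fun z => by
    by_cases hz : z ∈ closedBall (0 : E n) 4
    · exact (cut_cont 4).continuousAt.mul (hw z hz).1.continuousAt
    · refine (continuousAt_const (y := (0 : ℝ))).congr ?_
      filter_upwards [isClosed_closedBall.isOpen_compl.mem_nhds hz] with y hy using (hz4 y hy).symm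
  have hc : HasCompactSupport W := .intro (isCompact_closedBall 0 4) hz4
  have h0 : ∀ z, W z ≤ 0 := fun z => by
    by_cases hz : z ∈ closedBall (0 : E n) 4
    · exact mul_nonpos_of_nonneg_of_nonpos (cut_nn _ _) (hw z hz).2.1
    · exact (hz4 z hz).le
  have iW : Integrable W := hW.integrable_of_hasCompactSupport hc
  have hWL : ∫ z, -W z ≤ L := by
    rw [← setIntegral_eq_integral_of_forall_compl_eq_zero (s := closedBall (0 : E n) 4)
      fun z hz => by rw [hz4 z hz, neg_zero]]
    refine le_trans (setIntegral_mono_on iW.neg.integrableOn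
      (hw0.integrableOn_compact (isCompact_closedBall 0 4)).neg measurableSet_closedBall
      fun z hz => ?_) hwL
    have := (hw z hz).2.1
    simp only [W, Pi.neg_apply]
    nlinarith [cut_le 4 z]
  have e3 : ∀ z : E n, ‖z‖ ≤ 3 → W z = w z := fun z hz => by
    simp only [W, cut_one (show ‖z‖ + 1 ≤ 4 by linarith), one_mul]
  have eM : ∀ (x : E n) (s : ℝ), ‖x‖ ≤ 2 → s ∈ Icc (0 : ℝ) 1 →
      ∫ t, g t • W (x - s • t) = ∫ t, g t • w (x - s • t) := fun x s hx hs =>
    integral_congr_ae (.of_forall fun t => by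
      by_cases h : g t = 0
      · simp [h]
      have h1 : ‖s • t‖ ≤ 1 := by
        rw [norm_smul, Real.norm_of_nonneg hs.1]
        exact mul_le_one₀ hs.2 (norm_nonneg _) (hg.supp t h)
      simp only [e3 (x - s • t) ((norm_sub_le _ _).trans (by linarith))])
  have hs : ∀ m : ℕ, (1 / 2 : ℝ) ^ m ∈ Icc (0 : ℝ) 1 := fun m =>
    ⟨by positivity, pow_le_one₀ (by norm_num) (by norm_num)⟩
  set D : ℕ → E n → ℝ := fun m x =>
    (∫ t, g t • W (x - (1 / 2 : ℝ) ^ m • t)) + A * ((1 / 2 : ℝ) ^ m) ^ 2 / 4 - W x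
  have d0 : ∀ m (x : E n), ‖x‖ ≤ 2 → 0 ≤ D m x := fun m x hx => by
    have := submean_s hg (x := x) hA (hs m) fun z hz => by
      have h := hw z (mem_closedBall_zero_iff.2 ((mem hx hz).trans (by norm_num)))
      exact ⟨h.1, h.2.2⟩
    simp only [D, eM x _ hx (hs m), e3 x (by linarith)]
    linarith
  have d1 : ∀ (m : ℕ) (x : E n), ‖x‖ ≤ 1 → -w x - K * (1 + m) ≤ D m x := fun m x hx => by
    have h1 : -(G * L) ≤ ∫ t, g t • w (x - t) := by
      have := eM x 1 (by linarith) ⟨zero_le_one, le_rfl⟩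
      simp only [one_smul] at this
      rw [← this, ← integral_sub_left_eq_self _ volume x]
      simp only [sub_sub_cancel, smul_eq_mul]
      refine le_trans (neg_le_neg (mul_le_mul_of_nonneg_left hWL hG0)) ?_
      rw [← integral_const_mul, ← integral_neg]
      refine integral_mono (iW.neg.const_mul G).neg
        (((hg.cont.comp (continuous_const.sub continuous_id)).mul
          hW).integrable_of_hasCompactSupport hc.mul_left) fun z => ?_
      have h2 : g (x - z) ≤ G := (le_abs_self _).trans (hG _)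
      have := h0 z
      simp only
      nlinarith
    have h2 := hg.logb (x := x) hA one_pos (fun z hz =>
      hw z (mem_closedBall_zero_iff.2 ((mem hx hz).trans (by norm_num)))) h1
      (show (0 : ℝ) < (1 / 2) ^ m by positivity) (hs m).2
    have h3 : Real.log (1 / (1 / 2 : ℝ) ^ m) ≤ m := by
      rw [one_div, ← inv_pow, Real.log_pow]
      refine mul_le_of_le_one_right m.cast_nonneg ?_
      linarith [Real.log_le_sub_one_of_pos (show (0 : ℝ) < (1 / 2)⁻¹ by norm_num)]
    have h4 : 0 ≤ 2 * (G * L + A * 1 ^ 2) := by positivity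
    have h5 := mul_le_mul_of_nonneg_left h3 h4
    have h6 : 0 ≤ A * ((1 / 2 : ℝ) ^ m) ^ 2 / 4 := by positivity
    have h7 : (0 : ℝ) ≤ m := m.cast_nonneg
    simp only [D, eM x _ (by linarith) (hs m), e3 x (by linarith), K]
    linarith
  have i2 : Integrable fun x => cut 2 x * W x :=
    ((cut_cont 2).mul hW).integrable_of_hasCompactSupport hc.mul_left
  have d2 : ∀ m, Integrable (fun x => cut 2 x * D m x) ∧
      ∫ x, cut 2 x * D m x ≤ (1 / 2 : ℝ) ^ m * (L + A * V) := fun m => by
    obtain ⟨h1, h2⟩ := fub hg hW hc h0 (hs m).1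
    have i3 := (cut_int (n := n) 2).mul_const (A * ((1 / 2 : ℝ) ^ m) ^ 2 / 4)
    simp only [D, mul_sub, mul_add]
    have i6 : Integrable fun x => (cut 2 x * ∫ t, g t • W (x - (1 / 2 : ℝ) ^ m • t)) +
      cut 2 x * (A * ((1 / 2 : ℝ) ^ m) ^ 2 / 4) := h1.add i3
    refine ⟨i6.sub i2, ?_⟩
    rw [integral_sub i6 i2, integral_add h1 i3, integral_mul_const]
    have h3 := mul_le_mul_of_nonneg_left hWL (hs m).1
    have h4 := mul_le_mul_of_nonneg_left (mul_le_of_le_one_right (hs m).1 (hs m).2)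
      (mul_nonneg hA hV)
    have h5 := mul_nonneg (mul_nonneg hA hV) (hs m).1
    nlinarith
  obtain ⟨B, hB⟩ := hc.exists_bound_of_continuous hW
  obtain ⟨N, hN⟩ := exists_nat_ge B
  have i4 : Integrable fun x : E n => ∑ m ∈ Finset.range N, (K * (m + 3)) ^ p * (cut 2 x * D m x) :=
    integrable_finsetSum _ fun m _ => (d2 m).1.const_mul _
  have i5 := ((cut_int (n := n) 2).const_mul ((K * 2) ^ p)).add i4
  have hb : ball (0 : E n) 1 ⊆ closedBall 0 4 :=
    ball_subset_closedBall.trans (closedBall_subset_closedBall (by norm_num))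
  refine (setIntegral_mono_on (((hw0.neg.pow p).integrableOn_compact
    (isCompact_closedBall 0 4)).mono_set hb) i5.integrableOn measurableSet_ball
    fun x hx => ?_).trans ((setIntegral_le_integral i5 (.of_forall fun x => ?_)).trans ?_)
  · have hx1 := (mem_ball_zero_iff.1 hx).le
    simp only [Pi.add_apply, cut_one (show ‖x‖ + 1 ≤ 2 by linarith), one_mul, mul_one]
    refine ptw p hK (neg_nonneg.2 (hw x (hb hx)).2.1) (fun m => d0 m x (by linarith))
      (fun m => d1 m x hx1) N ?_
    have h1 := hB x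
    rw [e3 x (by linarith), Real.norm_eq_abs] at h1
    have h2 : (0 : ℝ) ≤ N := N.cast_nonneg
    nlinarith [neg_le_abs (w x)]
  · refine add_nonneg (mul_nonneg (by positivity) (cut_nn _ _))
      (Finset.sum_nonneg fun m _ => mul_nonneg (by positivity) ?_)
    rcases le_total 2 ‖x‖ with h | h
    · rw [cut_zero h, zero_mul]
    · exact mul_nonneg (cut_nn _ _) (d0 m x h)
  · simp only [Pi.add_apply]
    rw [integral_add ((cut_int 2).const_mul _) i4, integral_const_mul,
      integral_finsetSum _ fun m _ => (d2 m).1.const_mul _]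
    refine add_le_add le_rfl (le_trans ?_ (mul_le_mul_of_nonneg_right
      ((geo p K).sum_le_tsum (Finset.range N) fun m _ => hq m) (by positivity)))
    rw [Finset.sum_mul]
    refine Finset.sum_le_sum fun m _ => ?_
    rw [integral_const_mul, mul_assoc]
    exact mul_le_mul_of_nonneg_left (d2 m).2 (by positivity)

/-- Moments of quasi-plurisubharmonic functions. -/
theorem pshp (M : Mf n) [M.Cpt] (H : M.Fam (Mat n)) (C₀ : ℝ) (p : ℕ) (hH : M.Met H) :
    ∃ C : ℝ, 0 < C ∧ ∀ u, M.Sm u → M.Le 0 (C₀ • H + M.hs u) → (∀ x, u x ≤ 0) → (∃ x, u x = 0) →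
      ∫ x, (-u x) ^ p ∂M.mu H ≤ C := by
  obtain ⟨-, -, ⟨V, hV⟩, -⟩ := mCOV n M
  obtain ⟨-, hfin, -, -, hint, hch, -⟩ := mMU n M H hH
  obtain ⟨-, -, hB3, -⟩ := mBD n M H hH
  obtain ⟨C₁, hC₁, h1, -⟩ := mPSH n M H C₀ hH
  have hsub : ∀ a, closedBall (0 : E n) 4 ⊆ (V.e a).target := fun a => by
    simpa [(hV a).1, (hV a).2] using V.sub a
  have hb : ball (0 : E n) 1 ⊆ closedBall 0 4 :=
    ball_subset_closedBall.trans (closedBall_subset_closedBall (by norm_num))
  choose K hK1 hK using fun a => hB3 _ (V.mem a) _ (isCompact_closedBall 0 4) (hsub a)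
  have hK0 : ∀ a, 0 ≤ K a := fun a => zero_le_one.trans (hK1 a)
  choose C hC0 hC using fun a => loc (n := n) p (A := 4 * (|C₀| * K a * n)) (L := K a * C₁)
    (by have := hK0 a; positivity) (mul_nonneg (hK0 a) hC₁.le)
  refine ⟨1 + ∑ a, K a * C a, add_pos_of_pos_of_nonneg one_pos
    (Finset.sum_nonneg fun a _ => mul_nonneg (hK0 a) (hC0 a)), fun u hu hp h0 hx => ?_⟩
  have hcu : Continuous u := ((mTR n M).2.2.2.1 ℝ u).1 hu
  have iu : Integrable (fun x => (-u x) ^ p) (M.mu H) := hint ℝ _ (hcu.neg.pow p)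
  have hnn : ∀ x, 0 ≤ (-u x) ^ p := fun x => pow_nonneg (neg_nonneg.2 (h0 x)) p
  have hm := fun a => (hch _ (V.mem a) _ measurableSet_ball (hb.trans (hsub a))).1
  have h2 : ∫ x, (-u x) ^ p ∂M.mu H ≤
      ∑ a, ∫ x in (V.e a).symm '' ball 0 1, (-u x) ^ p ∂M.mu H := by
    simp only [← integral_indicator (hm _)]
    rw [← integral_finsetSum _ fun a _ => iu.indicator (hm a)]
    refine integral_mono iu (integrable_finsetSum _ fun a _ => iu.indicator (hm a)) fun x => ?_
    obtain ⟨a, h3, h4, -⟩ := V.cov x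
    have := Finset.single_le_sum
      (f := fun a => ((V.e a).symm '' ball 0 1).indicator (fun x => (-u x) ^ p) x)
      (fun a _ => indicator_nonneg (fun x _ => hnn x) x) (Finset.mem_univ a)
    rwa [indicator_of_mem (show x ∈ (V.e a).symm '' ball 0 1 from
      ⟨_, by simpa [(hV a).1, (hV a).2] using h4, (V.e a).left_inv h3⟩)] at this
  refine h2.trans (le_add_of_nonneg_of_le zero_le_one (Finset.sum_le_sum fun a _ => ?_))
  have hw : ∀ z ∈ closedBall (0 : E n) 4, ContDiffAt ℝ 2 (u ∘ (V.e a).symm) z ∧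
      (u ∘ (V.e a).symm) z ≤ 0 ∧
      ∀ v, -(4 * (|C₀| * K a * n) * ‖v‖ ^ 2) ≤ lv (u ∘ (V.e a).symm) z v := fun z hz => by
    have h3 := hu _ (V.mem a) z (hsub a hz)
    refine ⟨cd_le h3 2, h0 _, fun v => BPSH.lv_ge h3 (C₀ := C₀)
      (hH.pos _ (V.mem a) z (hsub a hz)).posSemidef (hK0 a) (hK a z hz).2.1 ?_ v⟩
    have h4 := hp _ (V.mem a) z (hsub a hz)
    simp only [Pi.zero_apply, sub_zero] at h4
    exact h4
  have hc : ContinuousOn (fun z => -u ((V.e a).symm z)) (closedBall 0 4) := fun z hz =>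
    (hw z hz).1.continuousAt.continuousWithinAt.neg
  have hd : ContinuousOn (fun z => (H (V.e a) z).det.re) (closedBall 0 4) := fun z hz =>
    (cd_re (hH.sm _ (V.mem a) z (hsub a hz)).det).continuousAt.continuousWithinAt
  have cp := isCompact_closedBall (0 : E n) 4
  have h5 := hC a _ hw (by
    have h6 : ∫ x in (V.e a).symm '' closedBall 0 4, -u x ∂M.mu H ≤ C₁ :=
      (setIntegral_le_integral (hint ℝ _ hcu.neg) (.of_forall fun x => neg_nonneg.2 (h0 x))).trans
        (by simp only [Pi.neg_apply]; rw [integral_neg]; linarith [h1 u hu hp h0 hx])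
    rw [(hch _ (V.mem a) _ measurableSet_closedBall (hsub a)).2.2.1] at h6
    refine le_trans ?_ (mul_le_mul_of_nonneg_left h6 (hK0 a))
    rw [← integral_const_mul]
    refine setIntegral_mono_on (hc.integrableOn_compact cp)
      (((hd.mul hc).integrableOn_compact cp).const_mul _) measurableSet_closedBall fun z hz => ?_
    have h7 := (hK a z hz).2.2.1
    rw [inv_le_iff_one_le_mul₀' (one_pos.trans_le (hK1 a))] at h7
    rw [← mul_assoc]
    exact le_mul_of_one_le_left (neg_nonneg.2 (h0 _)) h7)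
  rw [(hch _ (V.mem a) _ measurableSet_ball (hb.trans (hsub a))).2.2.1]
  refine le_trans ?_ (mul_le_mul_of_nonneg_left h5 (hK0 a))
  rw [← integral_const_mul]
  exact setIntegral_mono_on (((hd.mul (hc.pow p)).integrableOn_compact cp).mono_set hb)
    ((((hc.pow p).integrableOn_compact cp).mono_set hb).const_mul _) measurableSet_ball
    fun z hz => mul_le_mul_of_nonneg_right (hK a z (hb hz)).2.2.2 (hnn _)

end Pool.Agent.Lib.HS95.PshP
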