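import Pool.Agent.Lib.HS95.Blue

/-! Project hs9, section 4: descent of the section and of the weights. -/

open scoped Topology ContDiff ComplexOrder Matrix
open Set Filter Metric Complex

noncomputable section

namespace Pool.Agent.Lib.HS95

namespace DESCK

variable {V ι X : Type} [NormedAddCommGroup V] [InnerProductSpace ℂ V] [FiniteDimensional ℂ V]
  [Fintype ι] [DecidableEq ι] [TopologicalSpace X] {S : Split V ι X} {g : Geo ι} {T : Tr V g}

/-- The local section given by the data. -/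
def sc (S : Split V ι X) (g : Geo ι) (i : S.I) (B : V ≃ₗᵢ[ℂ] V) (v : V) (j : g.J) (x : X) :
    V × g.Y := (B (S.e i x).1 + v, (g.c j).symm (S.e i x).2)

/-- The data give a local section near `x`. -/
def Sec (D : Dev S T) (i : S.I) (B : V ≃ₗᵢ[ℂ] V) (v : V) (j : g.J) (x : X) : Prop :=
  x ∈ (S.e i).source ∧ (S.e i x).2 ∈ (g.c j).target ∧ ∀ᶠ x' in 𝓝 x, D.q (sc S g i B v j x') = x'

/-- Determinant of a linear isometry. -/
def dt (B : V ≃ₗᵢ[ℂ] V) : ℂ := LinearMap.det (B.toLinearEquiv : V →ₗ[ℂ] V)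

omit [FiniteDimensional ℂ V] in
theorem dt_ne (B : V ≃ₗᵢ[ℂ] V) : dt B ≠ 0 := (LinearEquiv.isUnit_det' _).ne_zero

variable {D : Dev S T} {i i' : S.I} {B B' : V ≃ₗᵢ[ℂ] V} {v v' : V} {j j' : g.J} {x : X}

omit [FiniteDimensional ℂ V] in
theorem Sec.ev (h : Sec D i B v j x) : ∀ᶠ x' in 𝓝 x, Sec D i B v j x' := by
  have h1 : ContinuousAt (fun x' => (S.e i x').2) x := ((S.e i).continuousAt h.1).snd
  filter_upwards [(S.e i).open_source.mem_nhds h.1, h1 ((g.c j).open_target.mem_nhds h.2.1),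
    h.2.2.eventually_nhds] with x' a b c using ⟨a, b, c⟩

omit [FiniteDimensional ℂ V] in
theorem Sec.cont (h : Sec D i B v j x) : ContinuousAt (sc S g i B v j) x := by
  have h1 := (S.e i).continuousAt h.1
  refine ContinuousAt.prodMk ?_ ?_
  · exact (B.continuous.continuousAt.comp h1.fst).add continuousAt_const
  · exact ContinuousAt.comp (f := fun x' => (S.e i x').2) ((g.c j).continuousAt_symm h.2.1) h1.snd

omit [FiniteDimensional ℂ V] in
theorem Sec.q (h : Sec D i B v j x) : D.q (sc S g i B v j x) = x := h.2.2.self_of_nhds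

omit [FiniteDimensional ℂ V] in
theorem jac_self (h : x ∈ (S.e i).source) : S.jac i i x = 1 := by
  have : (S.e i ∘ (S.e i).symm) =ᶠ[𝓝 (S.e i x)] id := by
    filter_upwards [(S.e i).open_target.mem_nhds ((S.e i).map_source h)] with p hp
    exact (S.e i).right_inv hp
  rw [Split.jac, this.fderiv_eq, fderiv_id]
  exact LinearMap.det_id

theorem jac_eq (h : Sec D i B v j x) (h' : Sec D i' B' v' j' x) (γ : T.Γ)
    (e : ∀ᶠ x' in 𝓝 x, sc S g i' B' v' j' x' = T.mv γ (sc S g i B v j x')) :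
    dt B' * S.jac i i' x =
      T.chi γ * dt B * (fderiv ℂ (g.T (T.toAct.f γ) j j') (S.e i x).2).det := by
  have hx := (S.e i).map_source h.1
  have hc : Tendsto (S.e i).symm (𝓝 (S.e i x)) (𝓝 x) := (S.e i).tendsto_symm h.1
  let L : V →L[ℂ] V := ((B.trans (T.A γ)).trans B'.symm).toContinuousLinearEquiv
  have hL : ∀ t, B' (L t) = T.A γ (B t) := fun t => by simp [L]
  have e1 : (S.e i' ∘ (S.e i).symm) =ᶠ[𝓝 (S.e i x)]
      Prod.map (fun t => L t + B'.symm (T.A γ v + T.b γ - v')) (g.T (T.toAct.f γ) j j') := by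
    filter_upwards [hc.eventually e, hc.eventually h'.ev, (S.e i).open_target.mem_nhds hx]
      with p h1 h2 h3
    simp only [sc, Tr.mv, (S.e i).right_inv h3, Prod.mk.injEq] at h1
    refine Prod.ext (B'.injective ?_) ?_
    · simp only [Function.comp, Prod.map, map_add, hL, LinearIsometryEquiv.apply_symm_apply]
      rw [map_add] at h1
      rw [eq_sub_of_add_eq h1.1]; abel
    · simp only [Function.comp, Prod.map, Geo.T, Act.f]
      rw [← h1.2, (g.c j').right_inv h2.2.1]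
  have hy := (g.c j).map_target h.2.1
  have hγ : T.toAct.f γ ((g.c j).symm (S.e i x).2) ∈ (g.c j').source := by
    have := congrArg Prod.snd e.self_of_nhds
    simp only [sc, Tr.mv] at this
    rw [Act.f, ← this]; exact (g.c j').map_target h'.2.1
  have hd := ((T.iso γ).loc j j' _ hy hγ).hol
  rw [(g.c j).right_inv h.2.1] at hd
  have hf := (L.hasFDerivAt.add_const (B'.symm (T.A γ v + T.b γ - v'))).prodMap (S.e i x)
    hd.hasFDerivAt
  rw [Split.jac, e1.fderiv_eq, hf.fderiv, ContinuousLinearMap.det,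
    ContinuousLinearMap.coe_prodMap, LinearMap.det_prodMap, ← mul_assoc]
  congr 1
  rw [dt, dt, Tr.chi, ← LinearMap.det_comp, ← LinearMap.det_comp]
  congr 1
  exact LinearMap.ext hL

end DESCK

open DESCK in
theorem st_DESC (h1 : St_PC) : St_DESC := by
  intro V ι X _ _ _ _ _ _ _ _ S g T D H x₀ i₀ hx₀
  classical
  obtain ⟨-, hpc, -, -⟩ := h1 V ι X S g T D
  choose B v j hG hT hq using D.sec
  have hs : ∀ i x (h : x ∈ (S.e i).source), Sec D i (B i x h) (v i x h) (j i x h) x :=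
    fun i x h => ⟨h, hT i x h, hq i x h⟩
  have hsur : ∀ x, ∃ p, D.q p = x := fun x => by
    obtain ⟨i, h⟩ := S.cov x
    exact ⟨_, (hs i x h).q⟩
  choose r hr using hsur
  obtain ⟨O, m, σ, C, lam, hO, hy, hinv, hσ, hl⟩ :=
    H _ _ ((g.c (j i₀ x₀ hx₀)).map_target (hT i₀ x₀ hx₀))
  have hlam : ∀ δ p, lam δ (r (D.q p)).2 = lam δ p.2 := fun δ p => by
    obtain ⟨γ, e⟩ := D.orb p _ (hr (D.q p)).symm
    rw [e]; exact hl.inv δ γ _
  have hmem : ∀ p, (r (D.q p)).2 ∈ O ↔ p.2 ∈ O := fun p => by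
    obtain ⟨γ, e⟩ := D.orb p _ (hr (D.q p)).symm
    obtain ⟨γ', e'⟩ := D.orb _ p (hr (D.q p))
    exact ⟨fun h => by rw [e']; exact hinv γ' _ h, fun h => by rw [e]; exact hinv γ _ h⟩
  have key : ∀ {i i' B B' v v' j j' x}, Sec D i B v j x → Sec D i' B' v' j' x →
      σ j (sc S g i B v j x).2 * dt B ^ m =
        σ j' (sc S g i' B' v' j' x).2 * dt B' ^ m * S.jac i i' x ^ m := by
    intro i i' B B' v v' j j' x h h'
    obtain ⟨γ, e⟩ := D.orb _ _ (h.q.trans h'.q.symm)
    have e1 := jac_eq h h' γ (hpc _ _ x γ h.cont h'.cont (h.2.2.and h'.2.2) e)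
    have e2 : (sc S g i' B' v' j' x).2 = γ • (sc S g i B v j x).2 := congrArg Prod.snd e
    have hy : (sc S g i B v j x).2 ∈ (g.c j).source := (g.c j).map_target h.2.1
    have e3 := hσ.cmp γ j j' _ hy (by rw [← e2]; exact (g.c j').map_target h'.2.1)
    have e4 : g.c j (sc S g i B v j x).2 = (S.e i x).2 := (g.c j).right_inv h.2.1
    rw [mul_assoc, ← mul_pow, e1, e3, e4, e2, mul_assoc, ← mul_pow]
    congr 2; ring
  have hb : ∀ δ i x (h : x ∈ (S.e i).source), ∀ᶠ x' in 𝓝 x,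
      lam δ (r x').2 = lam δ ((g.c (j i x h)).symm (S.e i x').2) := fun δ i x h => by
    filter_upwards [hq i x h] with x' e
    rw [← e, hlam, e]
  refine ⟨m, fun i x => if h : x ∈ (S.e i).source then
      σ (j i x h) (sc S g i (B i x h) (v i x h) (j i x h) x).2 * dt (B i x h) ^ m else 0,
    {x | (r x).2 ∈ O}, C, fun δ x => lam δ (r x).2, hσ.mpos, ?_, ?_, ?_, ?_, ?_, ?_, ?_, ?_⟩
  · refine isOpen_iff_mem_nhds.2 fun x hx => ?_
    obtain ⟨i, h⟩ := S.cov x
    have h2 := hs i x h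
    have h3 := (hmem _).1 (by rw [h2.q]; exact hx)
    filter_upwards [h2.cont.snd (hO.mem_nhds h3), h2.2.2] with x' a b
    have := (hmem _).2 a
    rwa [b] at this
  · have := (hmem (sc S g i₀ (B i₀ x₀ hx₀) (v i₀ x₀ hx₀) (j i₀ x₀ hx₀) x₀)).2 hy
    rwa [(hs i₀ x₀ hx₀).q] at this
  · rw [dif_pos hx₀]
    exact mul_ne_zero hσ.ne (pow_ne_zero _ (dt_ne _))
  · intro i i' x h h'
    rw [dif_pos h, dif_pos h']
    exact key (hs i x h) (hs i' x h')
  · intro i x h
    obtain ⟨a, b⟩ := hσ.sm _ _ (hT i x h)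
    refine ⟨fun z => σ (j i x h) ((g.c (j i x h)).symm z) * dt (B i x h) ^ m, ?_,
      a.mul contDiffAt_const, fun hx => (b ?_).mul_const _⟩
    · filter_upwards [(hs i x h).ev] with x' e
      rw [dif_pos e.1, key (hs i x' e.1) e, jac_self e.1, one_pow, mul_one]
      rfl
    · exact (hmem (sc S g i (B i x h) (v i x h) (j i x h) x)).1 (by rw [(hs i x h).q]; exact hx)
  · intro δ h0 h1 i x h
    obtain ⟨a, b⟩ := hl.sm δ h0 h1 _ _ (hT i x h)
    exact ⟨fun w => lam δ ((g.c (j i x h)).symm w), hb δ i x h, a, by rw [← hG i x h]; exact b⟩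
  · exact fun δ h0 h1 x hx => hl.low δ h0 h1 _ hx
  · have h2 := hs i₀ x₀ hx₀
    filter_upwards [h2.cont.snd.eventually hl.upp, h2.ev] with x a b δ h0 h1
    have := a δ h0 h1
    rw [← hlam, b.q] at this
    simpa only [sc, (g.c _).right_inv b.2.1, (g.c _).right_inv h2.2.1] using this

end Pool.Agent.Lib.HS95
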