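import Pool.Agent.Lib.HS95.Blue

/-! Project hs9, section 4, row LD1: first derivative of the logarithm of the determinant. -/

open scoped Topology ContDiff ComplexOrder Matrix
open Set Filter Metric Complex

noncomputable section

namespace Pool.Agent.Lib.HS95

namespace LD1K

variable {ι κ : Type} [Fintype ι] [DecidableEq ι] [Fintype κ] [DecidableEq κ]

theorem alg (A B : Matrix κ κ ℂ) :
    ∑ σ : Equiv.Perm κ, ((Equiv.Perm.sign σ : ℤ) : ℂ) *
      ∑ i, (∏ j ∈ Finset.univ.erase i, A (σ j) j) * B (σ i) i = (A.adjugate * B).trace := by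
  have h : ∀ i, (A.adjugate * B) i i = ∑ σ : Equiv.Perm κ, ((Equiv.Perm.sign σ : ℤ) : ℂ) *
      ((∏ j ∈ Finset.univ.erase i, A (σ j) j) * B (σ i) i) := fun i => by
    have h1 : (A.adjugate * B) i i = (A.adjugate *ᵥ fun k => B k i) i := rfl
    rw [h1, ← Matrix.cramer_eq_adjugate_mulVec, Matrix.cramer_apply, Matrix.det_apply']
    refine Finset.sum_congr rfl fun σ _ => ?_
    rw [← Finset.prod_erase_mul _ _ (Finset.mem_univ i), Matrix.updateCol_self]
    refine congrArg (_ * ·) (congrArg (· * _) (Finset.prod_congr rfl fun j hj => ?_))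
    exact Matrix.updateCol_ne (Finset.ne_of_mem_erase hj)
  simp only [Matrix.trace, Matrix.diag_apply, h, Finset.mul_sum]
  exact Finset.sum_comm

theorem sm_det {M : (ι → ℂ) → Matrix κ κ ℂ} {z : ι → ℂ} (h : SmM M z) :
    ContDiffAt ℝ ∞ (fun w => (M w).det) z := by
  simp only [Matrix.det_apply']
  refine ContDiffAt.sum fun σ _ => ContDiffAt.mul contDiffAt_const ?_
  exact contDiffAt_prod fun i _ => h (σ i) i

theorem d_det {M : (ι → ℂ) → Matrix κ κ ℂ} {z : ι → ℂ} (h : SmM M z) (v : ι → ℂ) :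
    fderiv ℝ (fun w => (M w).det) z v = ((M z).adjugate * dM M z v).trace := by
  have hd : ∀ a b, HasFDerivAt (fun w => M w a b) (fderiv ℝ (fun w => M w a b) z) z := fun a b =>
    ((h a b).differentiableAt (by simp)).hasFDerivAt
  have h1 := HasFDerivAt.fun_sum (u := (Finset.univ : Finset (Equiv.Perm κ))) fun σ _ =>
    (HasFDerivAt.finsetProd (u := (Finset.univ : Finset κ)) fun i _ => hd (σ i) i).const_mul
      ((Equiv.Perm.sign σ : ℤ) : ℂ)
  have h2 : (fun w => (M w).det) = fun w => ∑ σ : Equiv.Perm κ, ((Equiv.Perm.sign σ : ℤ) : ℂ) *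
      ∏ i, M w (σ i) i := funext fun w => Matrix.det_apply' _
  rw [h2, h1.fderiv, ← alg]
  simp [dM]

end LD1K

theorem st_LD1 : St_LD1 := by
  intro ι κ _ _ _ _ M z hM hp
  have hz := hp.self_of_nhds
  have hpos : 0 < (M z).det.re := (Complex.pos_iff.mp hz.det_pos).1
  have him : (M z).det.im = 0 := (Complex.pos_iff.mp hz.det_pos).2.symm
  have hs := LD1K.sm_det hM
  have hr : ContDiffAt ℝ ∞ (fun w => (M w).det.re) z :=
    Complex.reCLM.contDiff.contDiffAt.comp z hs
  refine ⟨hr.log hpos.ne', fun v => ?_⟩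
  have h1 : HasFDerivAt (fun w => (M w).det.re)
      (Complex.reCLM.comp (fderiv ℝ (fun w => (M w).det) z)) z :=
    Complex.reCLM.hasFDerivAt.comp z (hs.differentiableAt (by simp)).hasFDerivAt
  have h2 : HasFDerivAt (ld M) _ z := h1.log hpos.ne'
  have h3 : (M z).det = ((M z).det.re : ℂ) := Complex.ext rfl (by simp [him])
  rw [h2.fderiv, Matrix.inv_def, Ring.inverse_eq_inv, Matrix.smul_mul, Matrix.trace_smul,
    ← LD1K.d_det hM v, smul_eq_mul]
  conv_rhs => rw [h3, ← Complex.ofReal_inv, Complex.re_ofReal_mul]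
  simp

end Pool.Agent.Lib.HS95
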