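import Pool.Agent.Lib.HS95.Kit

/-! Project hs9, section 4: an isometry is controlled by its 1-jet. -/

open scoped Topology ContDiff ComplexOrder Matrix
open Set Filter Metric Complex

set_option linter.unusedSectionVars false

noncomputable section

namespace Pool.Agent.Lib.HS95

namespace ODEK

variable {ι : Type} [Fintype ι] [DecidableEq ι]

theorem hd_form {x y : ℝ → ι → ℂ} {N : ℝ → Matrix ι ι ℂ} {x' y' : ι → ℂ} {N' : Matrix ι ι ℂ}
    {t : ℝ} (hx : HasDerivAt x x' t) (hy : HasDerivAt y y' t)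
    (hN : ∀ a b, HasDerivAt (fun s => N s a b) (N' a b) t) :
    HasDerivAt (fun s => star (x s) ⬝ᵥ N s *ᵥ y s)
      (star x' ⬝ᵥ N t *ᵥ y t + star (x t) ⬝ᵥ N' *ᵥ y t + star (x t) ⬝ᵥ N t *ᵥ y') t := by
  have h := HasDerivAt.fun_sum (u := Finset.univ) fun a _ =>
    (hasDerivAt_pi.1 hx a).star.fun_mul (HasDerivAt.fun_sum (u := Finset.univ) fun b _ =>
      (hN a b).fun_mul (hasDerivAt_pi.1 hy b))
  refine h.congr_deriv ?_
  simp only [dotProduct, Matrix.mulVec, Pi.star_apply, Finset.sum_add_distrib, mul_add, add_assoc]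

theorem form_le {N : Matrix ι ι ℂ} {m : ℝ} (h : ∀ a b, ‖N a b‖ ≤ m) (x y : ι → ℂ) :
    ‖star x ⬝ᵥ N *ᵥ y‖ ≤ (Fintype.card ι : ℝ) ^ 2 * m * ‖x‖ * ‖y‖ := by
  simp only [dotProduct, Matrix.mulVec, Pi.star_apply, Finset.mul_sum]
  calc ‖∑ a, ∑ b, star (x a) * (N a b * y b)‖ ≤ ∑ _a : ι, ∑ _b : ι, ‖x‖ * (m * ‖y‖) := by
        refine norm_sum_le_of_le _ fun a _ => norm_sum_le_of_le _ fun b _ => ?_
        rw [norm_mul, norm_mul, norm_star]
        have := (norm_nonneg _).trans (h a b)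
        gcongr
        · exact norm_le_pi_norm x a
        · exact h a b
        · exact norm_le_pi_norm y b
    _ = _ := by simp; ring

/-- The derivative of the metric as a form in three vectors. -/
def tf (G : (ι → ℂ) → Matrix ι ι ℂ) (w a v b : ι → ℂ) : ℂ := star a ⬝ᵥ dM G w v *ᵥ b

theorem dM_sub (G : (ι → ℂ) → Matrix ι ι ℂ) (w v v' : ι → ℂ) :
    dM G w (v - v') = dM G w v - dM G w v' := by
  ext a b; simp [dM]

theorem tf_bounds {G : (ι → ℂ) → Matrix ι ι ℂ} {z : ι → ℂ} {R : ℝ}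
    (h : ∀ w ∈ closedBall z R, SmM G w) : ∃ M : ℝ, 0 ≤ M ∧
    ∀ w ∈ closedBall z R, (∀ a v b, ‖tf G w a v b‖ ≤ M * ‖v‖ * ‖a‖ * ‖b‖) ∧
      ∀ w' ∈ closedBall z R, ∀ a v b,
        ‖tf G w a v b - tf G w' a v b‖ ≤ M * ‖w - w'‖ * ‖v‖ * ‖a‖ * ‖b‖ := by
  let F : (ι → ℂ) → ι → ι → (ι → ℂ) →L[ℝ] ℂ := fun w a b => fderiv ℝ (fun x => G x a b) w
  have hF : ContDiffOn ℝ 1 F (closedBall z R) := fun w hw =>
    (contDiffAt_pi.2 fun a => contDiffAt_pi.2 fun b =>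
      (h w hw a b).fderiv_right (m := 1) (WithTop.coe_le_coe.2 le_top)).contDiffWithinAt
  obtain ⟨K, hK⟩ := hF.exists_lipschitzOnWith one_ne_zero (convex_closedBall z R)
    (isCompact_closedBall z R)
  obtain ⟨C, hC⟩ := (isCompact_closedBall z R).exists_bound_of_continuousOn hF.continuousOn
  have e : ∀ (P : ι → ι → (ι → ℂ) →L[ℝ] ℂ) (m : ℝ), ‖P‖ ≤ m → ∀ v a b, ‖P a b v‖ ≤ m * ‖v‖ :=
    fun P m hm v a b => ((P a b).le_opNorm v).trans (mul_le_mul_of_nonneg_right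
      (((norm_le_pi_norm (P a) b).trans (norm_le_pi_norm P a)).trans hm) (norm_nonneg v))
  refine ⟨(Fintype.card ι : ℝ) ^ 2 * (|C| + K), by positivity, fun w hw =>
    ⟨fun a v b => ?_, fun w' hw' a v b => ?_⟩⟩
  · refine (form_le (N := dM G w v) (m := (|C| + K) * ‖v‖) (e (F w) _ ?_ v) a b).trans_eq (by ring)
    exact ((hC w hw).trans (le_abs_self C)).trans (le_add_of_nonneg_right K.2)
  · have h1 : ‖F w - F w'‖ ≤ (|C| + K) * ‖w - w'‖ := by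
      have := hK.dist_le_mul w hw w' hw'
      rw [dist_eq_norm, dist_eq_norm] at this
      exact this.trans (mul_le_mul_of_nonneg_right (le_add_of_nonneg_left (abs_nonneg C))
        (norm_nonneg _))
    have h2 := form_le (N := dM G w v - dM G w' v) (m := (|C| + K) * ‖w - w'‖ * ‖v‖)
      (e (F w - F w') _ h1 v) a b
    rw [Matrix.sub_mulVec, dotProduct_sub] at h2
    exact h2.trans_eq (by ring)

theorem tf_diff {G : (ι → ℂ) → Matrix ι ι ℂ} {w w' : ι → ℂ} {M L : ℝ} (hM : 0 ≤ M)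
    (h1 : ∀ a v b, ‖tf G w' a v b‖ ≤ M * ‖v‖ * ‖a‖ * ‖b‖)
    (h2 : ∀ a v b, ‖tf G w a v b - tf G w' a v b‖ ≤ M * ‖w - w'‖ * ‖v‖ * ‖a‖ * ‖b‖)
    (A : (ι → ℂ) →L[ℂ] ι → ℂ) (hA : ‖A‖ ≤ L) (a v b : ι → ℂ) :
    ‖tf G w a v b - tf G w' (A a) (A v) (A b)‖ ≤ M * (1 + L + L ^ 2) *
      (‖w' - w‖ + ‖A - ContinuousLinearMap.id ℂ (ι → ℂ)‖) * ‖v‖ * ‖a‖ * ‖b‖ := by
  set d := ‖A - ContinuousLinearMap.id ℂ (ι → ℂ)‖
  have hd : 0 ≤ d := norm_nonneg _
  have hL : 0 ≤ L := (norm_nonneg _).trans hA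
  have a1 : ∀ x, ‖A x‖ ≤ L * ‖x‖ := fun x => A.le_of_opNorm_le hA x
  have a2 : ∀ x, ‖x - A x‖ ≤ d * ‖x‖ := fun x => by
    rw [norm_sub_rev]; exact (A - ContinuousLinearMap.id ℂ (ι → ℂ)).le_opNorm x
  have e : tf G w a v b - tf G w' (A a) (A v) (A b) = (tf G w a v b - tf G w' a v b) +
      tf G w' (a - A a) v b + tf G w' (A a) (v - A v) b + tf G w' (A a) (A v) (b - A b) := by
    simp only [tf, dM_sub, star_sub, sub_dotProduct, Matrix.sub_mulVec, Matrix.mulVec_sub,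
      dotProduct_sub]
    ring
  have b1 := h2 a v b
  have b2 : ‖tf G w' (a - A a) v b‖ ≤ M * ‖v‖ * (d * ‖a‖) * ‖b‖ :=
    (h1 _ _ _).trans (by gcongr; exact a2 a)
  have b3 : ‖tf G w' (A a) (v - A v) b‖ ≤ M * (d * ‖v‖) * (L * ‖a‖) * ‖b‖ :=
    (h1 _ _ _).trans (by gcongr; exacts [a2 v, a1 a])
  have b4 : ‖tf G w' (A a) (A v) (b - A b)‖ ≤ M * (L * ‖v‖) * (L * ‖a‖) * (d * ‖b‖) :=
    (h1 _ _ _).trans (by gcongr; exacts [a1 v, a1 a, a2 b])
  rw [norm_sub_rev w w'] at b1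
  rw [e]
  refine (norm_add_le_of_le (norm_add_le_of_le (norm_add_le_of_le b1 b2) b3) b4).trans ?_
  have p : 0 ≤ M * (L + L ^ 2) * ‖w' - w‖ * ‖v‖ * ‖a‖ * ‖b‖ := by positivity
  linarith

theorem deriv_id {G : (ι → ℂ) → Matrix ι ι ℂ} {φ : (ι → ℂ) → ι → ℂ} {w : ι → ℂ}
    {B : (ι → ℂ) →L[ℂ] (ι → ℂ) →L[ℂ] ι → ℂ} (hB : HasFDerivAt (fderiv ℂ φ) B w)
    (hi : ∀ᶠ x in 𝓝 w, IsoAt G G φ x) (hw : SmM G w) (hw' : SmM G (φ w)) (a v b : ι → ℂ) :
    star (B v a) ⬝ᵥ G (φ w) *ᵥ fderiv ℂ φ w b + star (fderiv ℂ φ w a) ⬝ᵥ G (φ w) *ᵥ B v b =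
      tf G w a v b - tf G (φ w) (fderiv ℂ φ w a) (fderiv ℂ φ w v) (fderiv ℂ φ w b) := by
  have h1 : ∀ c, HasDerivAt (fun t : ℝ => fderiv ℂ φ (w + t • v) c) (B v c) 0 := fun c =>
    (((ContinuousLinearMap.apply ℂ (ι → ℂ) c).hasFDerivAt.comp w hB).restrictScalars
      ℝ).hasLineDerivAt v
  have h2 : ∀ p q, HasDerivAt (fun t : ℝ => G (φ (w + t • v)) p q)
      (dM G (φ w) (fderiv ℂ φ w v) p q) 0 := fun p q =>
    (((hw' p q).differentiableAt (by simp)).hasFDerivAt.comp w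
      (hi.self_of_nhds.hol.hasFDerivAt.restrictScalars ℝ)).hasLineDerivAt v
  have h3 : ∀ p q, HasDerivAt (fun t : ℝ => G (w + t • v) p q) (dM G w v p q) 0 := fun p q =>
    ((hw p q).differentiableAt (by simp)).hasFDerivAt.hasLineDerivAt v
  have h4 := hd_form (N := fun t => G (φ (w + t • v))) (h1 a) (h1 b) h2
  have h5 := hd_form (N := fun t => G (w + t • v)) (hasDerivAt_const (0 : ℝ) a)
    (hasDerivAt_const (0 : ℝ) b) h3
  have hc : Tendsto (fun t : ℝ => w + t • v) (𝓝 0) (𝓝 w) :=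
    Continuous.tendsto' (by fun_prop) _ _ (by simp)
  have h6 := h4.unique (h5.congr_of_eventuallyEq ((hc.eventually hi).mono fun t ht => by
    show star _ ⬝ᵥ _ *ᵥ _ = star a ⬝ᵥ G (w + t • v) *ᵥ b
    rw [← ht.iso, ← jm_mulVec, ← jm_mulVec, Matrix.star_mulVec, ← Matrix.mulVec_mulVec,
      ← Matrix.mulVec_mulVec, Matrix.dotProduct_mulVec (star a)]))
  simp only [zero_smul, add_zero, star_zero, zero_dotProduct, Matrix.mulVec_zero, dotProduct_zero,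
    zero_add] at h6
  unfold tf
  rw [← h6]
  ring

theorem second_le {G : (ι → ℂ) → Matrix ι ι ℂ} {φ : (ι → ℂ) → ι → ℂ} {w : ι → ℂ}
    {B : (ι → ℂ) →L[ℂ] (ι → ℂ) →L[ℂ] ι → ℂ} (hB : HasFDerivAt (fderiv ℂ φ) B w)
    (hi : ∀ᶠ x in 𝓝 w, IsoAt G G φ x) (hw : SmM G w) (hw' : SmM G (φ w)) (hp : (G w).PosDef)
    {c D L : ℝ} (hc : 0 < c) (hD : 0 ≤ D) (hq : ∀ u, c * ‖u‖ ^ 2 ≤ qf (G w) u)
    (hL : ‖fderiv ℂ φ w‖ ≤ L)
    (h : ∀ a v b, ‖tf G w a v b - tf G (φ w) (fderiv ℂ φ w a) (fderiv ℂ φ w v)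
      (fderiv ℂ φ w b)‖ ≤ D * ‖v‖ * ‖a‖ * ‖b‖) (v : ι → ℂ) : ‖B v‖ ≤ L * D / c * ‖v‖ := by
  have hL0 : 0 ≤ L := (norm_nonneg _).trans hL
  have hs : Function.Surjective (fderiv ℂ φ w : (ι → ℂ) →ₗ[ℂ] ι → ℂ) :=
    LinearMap.injective_iff_surjective.1 ((injective_iff_map_eq_zero _).2 fun u hu =>
      hi.self_of_nhds.inj hp hu)
  refine ContinuousLinearMap.opNorm_le_bound _ (by positivity) fun b => ?_
  obtain ⟨u, hu⟩ := hs (B v b)
  have hu' : fderiv ℂ φ w u = B v b := hu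
  have e1 := deriv_id hB hi hw hw' u v b
  have e2 := deriv_id hB hi hw hw' u (I • v) b
  have b1 := h u v b
  have b2 := h u (I • v) b
  rw [← e1] at b1
  rw [← e2, norm_smul, norm_I, one_mul] at b2
  simp only [map_smul, _root_.smul_apply, star_smul, smul_dotProduct,
    Matrix.mulVec_smul, dotProduct_smul, smul_eq_mul, RCLike.star_def, conj_I] at b2
  set X := star (B v u) ⬝ᵥ G (φ w) *ᵥ fderiv ℂ φ w b
  set Y := star (fderiv ℂ φ w u) ⬝ᵥ G (φ w) *ᵥ B v b with hY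
  have e3 : 2 * Y = (X + Y) - I * (-I * X + I * Y) := by
    linear_combination (Y - X) * I_sq
  have b3 : 2 * ‖Y‖ ≤ D * ‖v‖ * ‖u‖ * ‖b‖ + D * ‖v‖ * ‖u‖ * ‖b‖ := by
    have := norm_sub_le (X + Y) (I * (-I * X + I * Y))
    rw [← e3, norm_mul, Complex.norm_two, norm_mul, norm_I, one_mul] at this
    linarith
  have b4 : c * ‖u‖ ^ 2 ≤ ‖Y‖ := by
    refine (hq u).trans ?_
    rw [← hi.self_of_nhds.qf_eq, hY, ← hu']
    exact re_le_norm _
  have b5 : ‖u‖ ≤ D / c * ‖v‖ * ‖b‖ := by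
    rcases (norm_nonneg u).eq_or_lt with h0 | h0
    · rw [← h0]; positivity
    · rw [div_mul_eq_mul_div, div_mul_eq_mul_div, le_div_iff₀ hc]
      exact le_of_mul_le_mul_right (by linarith) h0
  rw [← hu']
  calc ‖fderiv ℂ φ w u‖ ≤ L * ‖u‖ := (fderiv ℂ φ w).le_of_opNorm_le hL u
    _ ≤ L * (D / c * ‖v‖ * ‖b‖) := by gcongr
    _ = _ := by ring

end ODEK

open ODEK in
theorem st_ODE : St_ODE := by
  intro ι _ _ G z R L hG
  obtain ⟨M, hM, hT⟩ := tf_bounds fun w hw => (hG w hw).1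
  obtain ⟨c, C, hc, -, hq⟩ := qf_bounds (isCompact_closedBall z R) hG
  set P := |L| * (M * (1 + |L| + |L| ^ 2)) / c with hP
  have hP0 : 0 ≤ P := by positivity
  refine ⟨Real.exp ((1 + 2 * P) * (2 * |R|)), (Real.exp_pos _).le, fun r φ hr h w₀ h₀ w hw => ?_⟩
  have hd : DifferentiableOn ℂ φ (ball z r) := fun x hx => (h x hx).1.hol.differentiableWithinAt
  have hd2 : ∀ x ∈ ball z r, DifferentiableAt ℂ (fderiv ℂ φ) x := fun x hx =>
    (SV.H85.differentiableOn_fderiv isOpen_ball hd).differentiableAt (isOpen_ball.mem_nhds hx)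
  have hs : ball z r ⊆ closedBall z R := ball_subset_closedBall.trans (closedBall_subset_closedBall hr)
  have hB : ∀ x ∈ ball z r, ∀ v, ‖fderiv ℂ (fderiv ℂ φ) x v‖ ≤
      P * (‖φ x - x‖ + ‖fderiv ℂ φ x - ContinuousLinearMap.id ℂ (ι → ℂ)‖) * ‖v‖ := fun x hx v => by
    have hL := (h x hx).2.2.trans (le_abs_self L)
    refine (second_le (hd2 x hx).hasFDerivAt
      (Filter.mem_of_superset (isOpen_ball.mem_nhds hx) fun y hy => (h y hy).1)
      (hG x (hs hx)).1 (hG _ (h x hx).2.1).1 (hG x (hs hx)).2 hc (by positivity)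
      (fun u => (hq x (hs hx) u).1) hL
      (tf_diff hM (hT _ (h x hx).2.1).1 ((hT x (hs hx)).2 _ (h x hx).2.1) _ hL) v).trans_eq ?_
    rw [hP]; ring
  set γ : ℝ → ι → ℂ := fun t => w₀ + t • (w - w₀) with hγ
  have hγm : ∀ t ∈ Icc (0 : ℝ) 1, γ t ∈ ball z r := fun t ht =>
    (convex_ball z r).add_smul_sub_mem h₀ hw ht
  have hγd : ∀ t, HasDerivAt γ (w - w₀) t := fun t =>
    (((hasDerivAt_id t).smul_const (w - w₀)).const_add w₀).congr_deriv (one_smul _ _)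
  have hn : ‖w - w₀‖ ≤ 2 * |R| := by
    have h1 := mem_closedBall_iff_norm.1 (hs hw)
    have h2 := mem_closedBall_iff_norm.1 (hs h₀)
    have h3 := norm_sub_le (w - z) (w₀ - z)
    rw [sub_sub_sub_cancel_right] at h3
    linarith [le_abs_self R]
  have hf : ∀ t ∈ Icc (0 : ℝ) 1, HasDerivAt
      (fun t => (φ (γ t) - γ t, fderiv ℂ φ (γ t) - ContinuousLinearMap.id ℂ (ι → ℂ)))
      (fderiv ℂ φ (γ t) (w - w₀) - (w - w₀), fderiv ℂ (fderiv ℂ φ) (γ t) (w - w₀)) t := fun t ht =>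
    (((((h _ (hγm t ht)).1.hol.hasFDerivAt.restrictScalars ℝ).comp_hasDerivAt t (hγd t)).sub
      (hγd t)).prodMk ((((hd2 _ (hγm t ht)).hasFDerivAt.restrictScalars ℝ).comp_hasDerivAt t
        (hγd t)).sub_const _))
  have key := norm_le_gronwallBound_of_norm_deriv_right_le (K := (1 + 2 * P) * (2 * |R|)) (ε := 0)
    (δ := ‖φ w₀ - w₀‖ + ‖fderiv ℂ φ w₀ - ContinuousLinearMap.id ℂ (ι → ℂ)‖)
    (fun t ht => (hf t ht).continuousAt.continuousWithinAt)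
    (fun t ht => (hf t (Ico_subset_Icc_self ht)).hasDerivWithinAt)
    (by
      simp only [hγ, zero_smul, add_zero, Prod.norm_mk]
      exact max_le (le_add_of_nonneg_right (norm_nonneg _)) (le_add_of_nonneg_left (norm_nonneg _)))
    (fun t ht => by
      have h1 := hB _ (hγm t (Ico_subset_Icc_self ht)) (w - w₀)
      have h2 := (fderiv ℂ φ (γ t) - ContinuousLinearMap.id ℂ (ι → ℂ)).le_opNorm (w - w₀)
      rw [Prod.norm_mk, Prod.norm_mk, add_zero]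
      set p := ‖φ (γ t) - γ t‖
      set q := ‖fderiv ℂ φ (γ t) - ContinuousLinearMap.id ℂ (ι → ℂ)‖
      have h3 : p ≤ max p q := le_max_left _ _
      have h4 : q ≤ max p q := le_max_right _ _
      have h5 : 0 ≤ max p q := (norm_nonneg _).trans h3
      have h6 : q * ‖w - w₀‖ ≤ max p q * (2 * |R|) := by gcongr
      have h7 : P * (p + q) * ‖w - w₀‖ ≤ P * (max p q + max p q) * (2 * |R|) := by gcongr
      have h8 : 0 ≤ max p q * |R| := by positivity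
      have h9 : 0 ≤ P * (max p q * |R|) := by positivity
      exact max_le ((h2.trans h6).trans (by linarith)) ((h1.trans h7).trans (by linarith)))
    1 (right_mem_Icc.2 zero_le_one)
  rw [gronwallBound_ε0, sub_zero, mul_one, mul_comm] at key
  refine le_trans ?_ key
  simp only [hγ, one_smul, add_sub_cancel, Prod.norm_mk]
  exact le_max_left _ _

end Pool.Agent.Lib.HS95
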