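import Pool.Agent.Lib.HS95.Blue

/-! Project hs9, section 4: commuting holomorphic Killing fields span a totally real space. -/

open scoped Topology ContDiff ComplexOrder Matrix
open Set Filter Metric Complex

noncomputable section

namespace Pool.Agent.Lib.HS95

namespace TRK

variable {ι : Type} [Fintype ι] [DecidableEq ι]

theorem fd2 {ξ : (ι → ℂ) → ι → ℂ} {z : ι → ℂ} (h : ∀ᶠ w in 𝓝 z, DifferentiableAt ℂ ξ w) :
    HasFDerivAt (fderiv ℂ ξ) (fderiv ℂ (fderiv ℂ ξ) z) z :=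
  (((SV.H85.contDiffAt_nat h 2).fderiv_right (m := 1) (by norm_num)).differentiableAt
    one_ne_zero).hasFDerivAt

theorem sym {ξ : (ι → ℂ) → ι → ℂ} {z : ι → ℂ} (h : ∀ᶠ w in 𝓝 z, DifferentiableAt ℂ ξ w)
    (v w : ι → ℂ) : fderiv ℂ (fderiv ℂ ξ) z v w = fderiv ℂ (fderiv ℂ ξ) z w v :=
  (SV.H85.contDiffAt_nat h 2).isSymmSndFDerivAt (by simp) v w

/-- Trace of the second derivative. -/
def t2 (ξ : (ι → ℂ) → ι → ℂ) (z v : ι → ℂ) : ℂ :=
  ∑ a, fderiv ℂ (fderiv ℂ ξ) z v (Pi.single a 1) a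

theorem t2_smul (ξ : (ι → ℂ) → ι → ℂ) (z v : ι → ℂ) (c : ℂ) : t2 ξ z (c • v) = c * t2 ξ z v := by
  simp [t2, Finset.mul_sum]

theorem expand (A : (ι → ℂ) →L[ℂ] ι → ℂ) (v : ι → ℂ) (b : ι) :
    A v b = ∑ a, v a * A (Pi.single a 1) b := by
  conv_lhs => rw [pi_eq_sum_univ' v]
  simp [map_sum, Finset.sum_apply]

theorem comm {ξ η : (ι → ℂ) → ι → ℂ} {z : ι → ℂ} (hξ : ∀ᶠ w in 𝓝 z, DifferentiableAt ℂ ξ w)
    (hη : ∀ᶠ w in 𝓝 z, DifferentiableAt ℂ η w)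
    (hc : ∀ᶠ w in 𝓝 z, fderiv ℂ ξ w (η w) = fderiv ℂ η w (ξ w)) :
    t2 ξ z (η z) = t2 η z (ξ z) := by
  have h1 := (fd2 hξ).clm_apply hη.self_of_nhds.hasFDerivAt
  have h2 := (fd2 hη).clm_apply hξ.self_of_nhds.hasFDerivAt
  have h3 := (h1.congr_of_eventuallyEq (hc.mono fun w h => h.symm)).unique h2
  have h4 : ∀ b, fderiv ℂ ξ z (fderiv ℂ η z (Pi.single b 1)) b +
      fderiv ℂ (fderiv ℂ ξ) z (η z) (Pi.single b 1) b =
      fderiv ℂ η z (fderiv ℂ ξ z (Pi.single b 1)) b +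
      fderiv ℂ (fderiv ℂ η) z (ξ z) (Pi.single b 1) b := fun b => by
    have := congrFun (DFunLike.congr_fun h3 (Pi.single b 1)) b
    rw [sym hξ (η z), sym hη (ξ z)]
    simpa using this
  have h5 := Finset.sum_congr (s₁ := Finset.univ) rfl fun b _ => h4 b
  rw [Finset.sum_add_distrib, Finset.sum_add_distrib] at h5
  have h6 : ∑ b, fderiv ℂ ξ z (fderiv ℂ η z (Pi.single b 1)) b =
      ∑ b, fderiv ℂ η z (fderiv ℂ ξ z (Pi.single b 1)) b := by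
    rw [Finset.sum_congr rfl fun b _ => expand (fderiv ℂ ξ z) _ b,
      Finset.sum_congr rfl fun b _ => expand (fderiv ℂ η z) _ b, Finset.sum_comm]
    exact Finset.sum_congr rfl fun a _ => Finset.sum_congr rfl fun b _ => mul_comm _ _
  rw [h6] at h5
  exact add_left_cancel h5

theorem kil_tr {G : (ι → ℂ) → Matrix ι ι ℂ} {ξ : (ι → ℂ) → ι → ℂ} {w : ι → ℂ}
    (hp : (G w).PosDef) (hk : Kil G ξ w) :
    ((G w)⁻¹ * dM G w (ξ w)).trace.re = -2 * (∑ a, fderiv ℂ ξ w (Pi.single a 1) a).re := by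
  have hu : IsUnit (G w).det := (Matrix.isUnit_iff_isUnit_det _).1 hp.isUnit
  have e : dM G w (ξ w) = -((jm ξ w)ᴴ * G w + G w * jm ξ w) := eq_neg_of_add_eq_zero_right hk
  have e1 : ((G w)⁻¹ * ((jm ξ w)ᴴ * G w)).trace = star (jm ξ w).trace := by
    rw [Matrix.trace_mul_comm, Matrix.mul_assoc, Matrix.mul_nonsing_inv _ hu, Matrix.mul_one,
      Matrix.trace_conjTranspose]
  have e2 : ((G w)⁻¹ * (G w * jm ξ w)).trace = (jm ξ w).trace := by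
    rw [← Matrix.mul_assoc, Matrix.nonsing_inv_mul _ hu, Matrix.one_mul]
  have e3 : (jm ξ w).trace = ∑ a, fderiv ℂ ξ w (Pi.single a 1) a := rfl
  rw [e, Matrix.mul_neg, Matrix.trace_neg, Matrix.mul_add, Matrix.trace_add, e1, e2, e3]
  simp only [neg_re, add_re, star_def, conj_re]
  ring

theorem half (h1 : St_LD1) {G : (ι → ℂ) → Matrix ι ι ℂ} {ξ : (ι → ℂ) → ι → ℂ} {z : ι → ℂ}
    (h : ∀ᶠ w in 𝓝 z, SmM G w ∧ (G w).PosDef ∧ DifferentiableAt ℂ ξ w ∧ Kil G ξ w) (v : ι → ℂ) :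
    d2 (ld G) z v (ξ z) + fderiv ℝ (ld G) z (fderiv ℂ ξ z v) = -2 * (t2 ξ z v).re := by
  have hp : ∀ᶠ w in 𝓝 z, (G w).PosDef := h.mono fun w h => h.2.1
  have hξ : ∀ᶠ w in 𝓝 z, DifferentiableAt ℂ ξ w := h.mono fun w h => h.2.2.1
  have hs := (h1 ι ι G z h.self_of_nhds.1 hp).1
  have hc : HasFDerivAt (fderiv ℝ (ld G)) (fderiv ℝ (fderiv ℝ (ld G)) z) z :=
    ((hs.fderiv_right (m := 1) (by norm_cast)).differentiableAt one_ne_zero).hasFDerivAt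
  have e : (fun w => fderiv ℝ (ld G) w (ξ w)) =ᶠ[𝓝 z]
      fun w => -2 * (∑ a, fderiv ℂ ξ w (Pi.single a 1) a).re := by
    filter_upwards [h, hp.eventually_nhds] with w hw hw'
    rw [(h1 ι ι G w hw.1 hw').2, kil_tr hw.2.1 hw.2.2.2]
  have a1 := hc.clm_apply (hξ.self_of_nhds.hasFDerivAt.restrictScalars ℝ)
  have a2 : ∀ a : ι, HasFDerivAt (fun w => fderiv ℂ ξ w (Pi.single a 1) a) _ z := fun a =>
    (hasFDerivAt_pi'.1 ((fd2 hξ).clm_apply (hasFDerivAt_const (Pi.single a 1) z)) a).restrictScalars ℝ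
  have a3 := (reCLM.hasFDerivAt.comp z
    (HasFDerivAt.fun_sum (u := Finset.univ) fun a _ => a2 a)).const_mul (-2)
  have a4 := DFunLike.congr_fun ((a3.congr_of_eventuallyEq e).unique a1) v
  have a5 : d2 (ld G) z v (ξ z) = fderiv ℝ (fderiv ℝ (ld G)) z v (ξ z) := by
    rw [d2, (hc.clm_apply (hasFDerivAt_const (ξ z) z)).fderiv]
    simp
  rw [a5, add_comm]
  simpa [t2] using a4.symm

end TRK

theorem st_TR (h1 : St_LD1) : St_TR := by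
  intro ι _ _ G ξ η z h
  have hξ := TRK.half h1 (ξ := ξ) (h.mono fun w h => ⟨h.1, h.2.1, h.2.2.1, h.2.2.2.2.1⟩) (I • η z)
  have hη := TRK.half h1 (ξ := η) (h.mono fun w h => ⟨h.1, h.2.1, h.2.2.2.1, h.2.2.2.2.2.1⟩)
    (I • ξ z)
  have hc := TRK.comm (ξ := ξ) (η := η) (h.mono fun w h => h.2.2.1) (h.mono fun w h => h.2.2.2.1)
    (h.mono fun w h => h.2.2.2.2.2.2)
  rw [TRK.t2_smul, map_smul] at hξ hη
  rw [hc, h.self_of_nhds.2.2.2.2.2.2] at hξ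
  linarith

end Pool.Agent.Lib.HS95
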